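import Pool.Agent.H72.BD.Def

/-!
# Coordinates (MP_187c26_nt, Theorem V)

`h.co : F ≃ₗ[ℚ] (ZMod m → ℚ)`, `h.co.symm f = ∑ l, f l • x ^ l.val`.

PROOF of `co_x_mul`: compare `x * ∑ l, f l • x ^ l.val = ∑ l, f l • x ^ (l.val + 1)` with `h.co.symm`: `x ^ (l.val + 1)` is
`x ^ (l + 1).val` if `l.val + 1 < m`, and `x ^ m = b = b • x ^ (0 : ZMod m).val` if `l.val + 1 = m` (`l + 1 = 0`).
`uu_pow_mul`: `k = 1` from `co_x_mul` and `ρ ^ m = b` (`l = 0`: `b · co y (-1) · ρ ^ 0 = ρ · co y (-1) ρ ^ (m - 1)`), then induction.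
`co_aeval`: `aeval x P = ∑ j < m, P.coeff j • x ^ j` (`Polynomial.aeval_eq_sum_range'`), reindex `ZMod m ≃ Fin m`.
`co_pow_mul_aeval`: `x ^ a * aeval x P = aeval x (X ^ a * P)`, degree `< m`, `Polynomial.coeff_X_pow_mul'`.
`mem_zx`: an element of `Algebra.adjoin ℤ {x}` is `aeval x P`, `P : ℤ[X]` (`Algebra.adjoin_singleton_eq_range_aeval`);
divide by the monic `X ^ m - C b` (`Polynomial.modByMonic`), so `deg P < m` and `co_aeval`. Conversely `y = h.co.symm (h.co y)`.
`exists_poly`: the same.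
-/

set_option autoImplicit false

open Polynomial

namespace Pool.Agent.H72.BD

section rho

theorem rho_pos (b m : ℕ) (hb : 1 ≤ b) : 0 < rho b m := by
  exact Real.rpow_pos_of_pos (by exact_mod_cast hb) _

theorem one_le_rho (b m : ℕ) (hb : 1 ≤ b) : 1 ≤ rho b m := by
  exact Real.one_le_rpow (by exact_mod_cast hb) (by positivity)

theorem rho_pow (b m : ℕ) (hm : m ≠ 0) : rho b m ^ m = b := by
  exact Real.rpow_inv_natCast_pow (Nat.cast_nonneg b) hm

end rho

private theorem val_succ {m : ℕ} [NeZero m] (l : ZMod m) :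
    (l + 1 = 0 ∧ l.val + 1 = m) ∨ (l + 1 ≠ 0 ∧ l.val + 1 = (l + 1).val) := by
  have h1 : l + 1 = ((l.val + 1 : ℕ) : ZMod m) := by
    rw [Nat.cast_succ, ZMod.natCast_zmod_val]
  have h2 := l.val_lt
  rcases Nat.lt_or_ge (l.val + 1) m with h3 | h3
  · right
    have h4 : (l + 1).val = l.val + 1 := by
      rw [h1, ZMod.val_cast_of_lt h3]
    refine ⟨?_, h4.symm⟩
    intro h5
    rw [h5, ZMod.val_zero] at h4
    omega
  · left
    have h4 : l.val + 1 = m := by omega
    refine ⟨?_, h4⟩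
    rw [h1, h4, ZMod.natCast_self]

private theorem exists_poly' {b m : ℕ} [NeZero m] {F : Type} [Field F] [NumberField F] {x : F}
    (h : Rad b m F x) (y : F) (hy : y ∈ zx x) :
    ∃ P : ℤ[X], P.natDegree < m ∧ y = aeval x P := by
  have h1 : y ∈ Algebra.adjoin ℤ ({x} : Set F) := hy
  rw [Algebra.adjoin_singleton_eq_range_aeval] at h1
  obtain ⟨Q, hQ⟩ := h1
  have hm : m ≠ 0 := NeZero.ne m
  have hmon : (X ^ m - C (b : ℤ) : ℤ[X]).Monic := monic_X_pow_sub_C _ hm
  have hdeg : (X ^ m - C (b : ℤ) : ℤ[X]).natDegree = m := natDegree_X_pow_sub_C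
  have hne : (X ^ m - C (b : ℤ) : ℤ[X]) ≠ 1 := by
    intro h2
    rw [h2, natDegree_one] at hdeg
    exact hm hdeg.symm
  refine ⟨Q %ₘ (X ^ m - C (b : ℤ)), ?_, ?_⟩
  · have h2 := natDegree_modByMonic_lt Q hmon hne
    rwa [hdeg] at h2
  · rw [← hQ]
    have h3 : aeval x (X ^ m - C (b : ℤ) : ℤ[X]) = 0 := by
      simp [h.pow]
    have h4 := congrArg (aeval x) (modByMonic_add_div Q (X ^ m - C (b : ℤ)))
    rw [map_add, map_mul, h3, zero_mul, add_zero] at h4
    exact h4.symm

variable {b m : ℕ} [NeZero m] {F : Type} [Field F] [NumberField F] {x : F}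

theorem Rad.co_x_mul (h : Rad b m F x) (y : F) (l : ZMod m) :
    h.co (x * y) l = (if l = 0 then (b : ℚ) else 1) * h.co y (l - 1) := by
  have key : x * y = h.co.symm (fun l => (if l = 0 then (b : ℚ) else 1) * h.co y (l - 1)) := by
    conv_lhs => rw [← h.co.symm_apply_apply y, h.co_symm, Finset.mul_sum]
    rw [h.co_symm, ← Equiv.sum_comp (Equiv.addRight (1 : ZMod m)) (fun l : ZMod m =>
      ((if l = 0 then (b : ℚ) else 1) * h.co y (l - 1)) • x ^ l.val)]
    refine Finset.sum_congr rfl fun l _ => ?_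
    show x * (h.co y l • x ^ l.val) =
      ((if l + 1 = 0 then (b : ℚ) else 1) * h.co y (l + 1 - 1)) • x ^ (l + 1).val
    rw [add_sub_cancel_right, mul_smul_comm, ← pow_succ']
    rcases val_succ l with ⟨h1, h2⟩ | ⟨h1, h2⟩
    · rw [if_pos h1, h2, h1, ZMod.val_zero, pow_zero, h.pow, mul_comm, mul_smul]
      congr 1
      rw [Algebra.smul_def, mul_one, map_natCast]
    · rw [if_neg h1, h2, one_mul]
  rw [key, h.co.apply_symm_apply]

theorem Rad.uu_pow_mul (h : Rad b m F x) (y : F) (k : ℕ) (l : ZMod m) :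
    h.uu (x ^ k * y) l = rho b m ^ k * h.uu y (l - (k : ZMod m)) := by
  induction k generalizing l with
  | zero => rw [pow_zero, pow_zero, one_mul, one_mul, Nat.cast_zero, sub_zero]
  | succ k ih =>
    have h1 : h.uu (x * (x ^ k * y)) l = rho b m * h.uu (x ^ k * y) (l - 1) := by
      unfold Rad.uu
      rw [h.co_x_mul, Rat.cast_mul]
      rcases val_succ (l - 1) with ⟨h1, h2⟩ | ⟨h1, h2⟩
      · rw [sub_add_cancel] at h1
        have h3 : rho b m ^ ((l - 1).val + 1) = b := by
          rw [h2]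
          exact rho_pow b m (NeZero.ne m)
        rw [pow_succ] at h3
        rw [if_pos h1, h1, ZMod.val_zero, pow_zero, mul_one, Rat.cast_natCast, ← h3, h1]
        ring
      · rw [sub_add_cancel] at h1 h2
        rw [if_neg h1, ← h2, pow_succ, Rat.cast_one]
        ring
    rw [pow_succ' x, mul_assoc, h1, ih, pow_succ', mul_assoc]
    congr 3
    push_cast
    ring

theorem Rad.co_pow_mul_ne_zero (h : Rad b m F x) (y : F) (k : ℕ) (l : ZMod m) :
    h.co (x ^ k * y) l ≠ 0 ↔ h.co y (l - (k : ZMod m)) ≠ 0 := by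
  induction k generalizing l with
  | zero => rw [pow_zero, one_mul, Nat.cast_zero, sub_zero]
  | succ k ih =>
    rw [pow_succ' x, mul_assoc, h.co_x_mul, Nat.cast_succ]
    have h2 : (if l = 0 then (b : ℚ) else 1) ≠ 0 := by
      split_ifs
      · have := h.two
        exact Nat.cast_ne_zero.2 (by omega)
      · exact one_ne_zero
    rw [mul_ne_zero_iff_left h2, ih]
    have h3 : l - 1 - (k : ZMod m) = l - ((k : ZMod m) + 1) := by ring
    rw [h3]

theorem Rad.co_aeval (h : Rad b m F x) (P : ℤ[X]) (hP : P.natDegree < m) (l : ZMod m) :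
    h.co (aeval x P) l = P.coeff l.val := by
  have key : aeval x P = h.co.symm (fun l => (P.coeff l.val : ℚ)) := by
    rw [h.co_symm, aeval_eq_sum_range' hP]
    refine Finset.sum_nbij' (fun j => (j : ZMod m)) (fun l => l.val) ?_ ?_ ?_ ?_ ?_
    · intro j _
      exact Finset.mem_univ _
    · intro l _
      exact Finset.mem_range.2 l.val_lt
    · intro j hj
      exact ZMod.val_cast_of_lt (Finset.mem_range.1 hj)
    · intro l _
      exact ZMod.natCast_zmod_val l
    · intro j hj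
      rw [ZMod.val_cast_of_lt (Finset.mem_range.1 hj), Algebra.smul_def, Algebra.smul_def]
      simp
  rw [key, h.co.apply_symm_apply]

theorem Rad.co_pow_mul_aeval (h : Rad b m F x) (a : ℕ) (P : ℤ[X]) (hP : a + P.natDegree < m)
    (l : ZMod m) :
    h.co (x ^ a * aeval x P) l = if a ≤ l.val then (P.coeff (l.val - a) : ℚ) else 0 := by
  have h1 : x ^ a * aeval x P = aeval x (X ^ a * P) := by
    rw [map_mul, map_pow, aeval_X]
  rw [h1, h.co_aeval, coeff_X_pow_mul']
  · split_ifs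
    · rfl
    · exact Int.cast_zero
  · refine lt_of_le_of_lt natDegree_mul_le ?_
    rw [natDegree_X_pow]
    exact hP

theorem Rad.aeval_eq_zero (h : Rad b m F x) (P : ℤ[X]) (hP : P.natDegree < m)
    (h0 : aeval x P = 0) : P = 0 := by
  ext n
  rw [coeff_zero]
  by_cases hn : n < m
  · have h1 := h.co_aeval P hP (n : ZMod m)
    rw [h0, map_zero, ZMod.val_cast_of_lt hn] at h1
    have h2 : (P.coeff n : ℚ) = 0 := h1.symm
    exact_mod_cast h2
  · exact coeff_eq_zero_of_natDegree_lt (by omega)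

theorem Rad.mem_zx (h : Rad b m F x) (y : F) : y ∈ zx x ↔ ∀ l, ∃ k : ℤ, h.co y l = k := by
  constructor
  · intro hy l
    obtain ⟨P, hP, rfl⟩ := exists_poly' h y hy
    exact ⟨P.coeff l.val, h.co_aeval P hP l⟩
  · intro hy
    choose k hk using hy
    have h1 : y = ∑ l : ZMod m, (k l : F) * x ^ l.val := by
      conv_lhs => rw [← h.co.symm_apply_apply y, h.co_symm]
      refine Finset.sum_congr rfl fun l _ => ?_
      rw [hk, Algebra.smul_def]
      simp
    rw [h1]
    show _ ∈ Algebra.adjoin ℤ ({x} : Set F)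
    refine Subalgebra.sum_mem _ fun l _ => Subalgebra.mul_mem _ ?_ (Subalgebra.pow_mem _ ?_ _)
    · exact Subalgebra.intCast_mem _ _
    · exact Algebra.subset_adjoin (Set.mem_singleton x)

theorem Rad.exists_poly (h : Rad b m F x) (y : F) (hy : y ∈ zx x) :
    ∃ P : ℤ[X], P.natDegree < m ∧ y = aeval x P := by
  exact exists_poly' h y hy

end Pool.Agent.H72.BD
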