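import Pool.Agent.H72.BD.Co

/-!
# Indices (MP_187c26_nt, Theorem V)

PROOF of `idx_ne_zero`: `𝓞 F` is a finitely generated abelian group; the coordinates `h.co` of finitely many generators have a
common denominator `D ≥ 1`, so `D y ∈ ℤ[x]` for all `y ∈ ints F` (`mem_zx`); `D (ints F)` has finite index in `ints F`
(`𝓞 F / D 𝓞 F` is finite) and `D (ints F) ≤ zx x ≤ …`; `relIndex` of a larger subgroup is a divisor, not zero.
PROOF of `den_index`: `Z = zx x ≤ ints F`. `Z ⊓ 𝔞` has relative index `≤ 𝔞.relIndex (ints F)` in `Z` (`Z ⧸ (Z ⊓ 𝔞) → ints ⧸ 𝔞` is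
injective). The homomorphism `y ↦ (y c_i mod Z)_i`, `Z ⊓ 𝔞 → (ints F ⧸ Z) ^ (d + 1)`, has kernel `den x c ⊓ 𝔞`: index `≤ I ^ (d + 1)`,
not zero. So `den x c ≥ den x c ⊓ 𝔞` has relative index `≤ A I ^ (d + 1)` in `Z`, not `0`.
-/

set_option autoImplicit false

open Polynomial

namespace Pool.Agent.H72.BD

variable {b m : ℕ} [NeZero m] {F : Type} [Field F] [NumberField F] {x : F}

/-- The algebraic integers of `F`. -/
def ints (F : Type) [Field F] : AddSubgroup F := (integralClosure ℤ F).toSubring.toAddSubgroup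

theorem mem_ints (y : F) : y ∈ ints F ↔ IsIntegral ℤ y := Iff.rfl

theorem zx_le_ints (h : Rad b m F x) : zx x ≤ ints F := by
  have hx : IsIntegral ℤ x := by
    refine IsIntegral.of_pow (Nat.pos_of_ne_zero (NeZero.ne m)) ?_
    rw [h.pow]
    have h1 : (b : F) = algebraMap ℤ F (b : ℤ) := by simp
    rw [h1]
    exact isIntegral_algebraMap
  have h1 : Algebra.adjoin ℤ ({x} : Set F) ≤ integralClosure ℤ F := by
    rw [Algebra.adjoin_le_iff, Set.singleton_subset_iff]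
    exact hx
  exact fun y hy => h1 hy

theorem idx_ne_zero (h : Rad b m F x) : (zx x).relIndex (ints F) ≠ 0 := by
  have hfg : AddGroup.FG (NumberField.RingOfIntegers F) := Module.Finite.iff_addGroup_fg.1 inferInstance
  let φ : NumberField.RingOfIntegers F →+ ints F :=
    { toFun := fun y => ⟨(y : F), NumberField.RingOfIntegers.isIntegral_coe y⟩
      map_zero' := Subtype.ext (map_zero _)
      map_add' := fun a c => Subtype.ext (map_add _ _ _) }
  have hφ : Function.Surjective φ := fun y => ⟨⟨y.1, y.2⟩, rfl⟩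
  let π : ints F →+ (ints F ⧸ (zx x).addSubgroupOf (ints F)) :=
    QuotientAddGroup.mk' ((zx x).addSubgroupOf (ints F))
  have hπ : Function.Surjective π := QuotientAddGroup.mk'_surjective _
  have hQfg : AddGroup.FG (ints F ⧸ (zx x).addSubgroupOf (ints F)) :=
    AddGroup.fg_of_surjective (f := π.comp φ) (hπ.comp hφ)
  have htor : IsAddTorsion (ints F ⧸ (zx x).addSubgroupOf (ints F)) := by
    intro z
    obtain ⟨y, rfl⟩ := hπ z
    rw [isOfFinAddOrder_iff_nsmul_eq_zero]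
    refine ⟨∏ l, (h.co (y : F) l).den, Finset.prod_pos fun l _ => (h.co (y : F) l).den_pos, ?_⟩
    rw [← map_nsmul]
    refine (QuotientAddGroup.eq_zero_iff _).2 ?_
    rw [AddSubgroup.mem_addSubgroupOf, AddSubgroup.coe_nsmul, h.mem_zx]
    intro l
    obtain ⟨k, hk⟩ := Finset.dvd_prod_of_mem (fun l => (h.co (y : F) l).den) (Finset.mem_univ l)
    refine ⟨(h.co (y : F) l).num * k, ?_⟩
    rw [map_nsmul, Pi.smul_apply, hk, nsmul_eq_mul, Nat.cast_mul]
    have h2 : ((h.co (y : F) l).den : ℚ) * h.co (y : F) l = (h.co (y : F) l).num :=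
      Rat.den_mul_eq_num _
    push_cast
    rw [← h2]
    ring
  have hfin : Finite (ints F ⧸ (zx x).addSubgroupOf (ints F)) :=
    AddCommGroup.finite_of_fg_isAddTorsion _ htor
  exact AddSubgroup.index_ne_zero_of_finite

theorem den_index (h : Rad b m F x) {d : ℕ} (c : Fin (d + 1) → F) (I A : ℕ)
    (hI : (zx x).relIndex (ints F) ≤ I) (𝔞 : AddSubgroup F) (h𝔞 : 𝔞 ≤ ints F)
    (h0 : 𝔞.relIndex (ints F) ≠ 0) (hA : 𝔞.relIndex (ints F) ≤ A)
    (hc : ∀ y ∈ 𝔞, ∀ i, y * c i ∈ ints F) :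
    (den x c).relIndex (zx x) ≠ 0 ∧ (den x c).relIndex (zx x) ≤ A * I ^ (d + 1) := by
  have hidx := idx_ne_zero h
  have hZ := zx_le_ints h
  let f : Fin (d + 1) → F →+ F := fun i => AddMonoidHom.mulRight (c i)
  have hH : den x c ⊓ 𝔞 ≤ 𝔞 ⊓ zx x := fun y hy => ⟨hy.2, hy.1.1⟩
  have e1 := AddSubgroup.relIndex_mul_relIndex (den x c ⊓ 𝔞) (𝔞 ⊓ zx x) (zx x) hH inf_le_right
  rw [AddSubgroup.inf_relIndex_right] at e1
  have a1 : 𝔞.relIndex (zx x) ≠ 0 := fun h1 => h0 (AddSubgroup.relIndex_eq_zero_of_le_right hZ h1)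
  have a2 : 𝔞.relIndex (zx x) ≤ A := (AddSubgroup.relIndex_le_of_le_right hZ h0).trans hA
  have e2 : (den x c ⊓ 𝔞) = (⨅ i, (zx x).comap (f i)) ⊓ (𝔞 ⊓ zx x) := by
    ext y
    rw [AddSubgroup.mem_inf, AddSubgroup.mem_inf, AddSubgroup.mem_inf, AddSubgroup.mem_iInf]
    constructor
    · rintro ⟨h1, h2⟩
      exact ⟨fun i => h1.2 i, h2, h1.1⟩
    · rintro ⟨h1, h2, h3⟩
      exact ⟨⟨h3, fun i => h1 i⟩, h2⟩
  have e3 : ∀ i, ((zx x).comap (f i)).relIndex (𝔞 ⊓ zx x) ≠ 0 ∧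
      ((zx x).comap (f i)).relIndex (𝔞 ⊓ zx x) ≤ I := by
    intro i
    have h1 : (𝔞 ⊓ zx x).map (f i) ≤ ints F := by
      rintro _ ⟨y, hy, rfl⟩
      exact hc y hy.1 i
    rw [AddSubgroup.relIndex_comap]
    exact ⟨fun h2 => hidx (AddSubgroup.relIndex_eq_zero_of_le_right h1 h2),
      (AddSubgroup.relIndex_le_of_le_right h1 hidx).trans hI⟩
  have e4 : (den x c ⊓ 𝔞).relIndex (𝔞 ⊓ zx x) ≠ 0 ∧ (den x c ⊓ 𝔞).relIndex (𝔞 ⊓ zx x) ≤ I ^ (d + 1) := by
    rw [e2, AddSubgroup.inf_relIndex_right]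
    refine ⟨AddSubgroup.relIndex_iInf_ne_zero fun i => (e3 i).1, ?_⟩
    refine (AddSubgroup.relIndex_iInf_le _).trans ?_
    refine (Finset.prod_le_prod' fun i _ => (e3 i).2).trans (le_of_eq ?_)
    rw [Finset.prod_const, Finset.card_univ, Fintype.card_fin]
  have e5 : (den x c ⊓ 𝔞).relIndex (zx x) ≠ 0 := by
    rw [← e1]
    exact mul_ne_zero e4.1 a1
  refine ⟨fun h1 => e5 (AddSubgroup.relIndex_eq_zero_of_le_left inf_le_left h1), ?_⟩
  refine (AddSubgroup.relIndex_le_of_le_left inf_le_left e5).trans ?_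
  rw [← e1, mul_comm]
  exact Nat.mul_le_mul a2 e4.2

end Pool.Agent.H72.BD
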