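import Pool.Agent.H72.BD.DenIdeal

/-!
# Sizes of the coefficients from the height (MP_187c26_nt, Theorem V)

PROOF. `N φ = (mahlerMeasure ((minpoly F α).map φ)) ^ 2`, `≥ 1` (`Polynomial.one_le_mahlerMeasure..` for monic). For `c = cf F α d`:
`|φ (c i)| = |coeff i of (minpoly.map φ)| ≤ (d choose i) mahlerMeasure` (`Polynomial.norm_coeff_le_choose_mul_mahlerMeasure`),
`∑ i, (d choose i) ^ 2 = (2 d choose d) ≤ 4 ^ d`. Index: `den_ideal` and `den_index`: `≤ A I ^ (d + 1)`. So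
`index ^ 2 ∏ N ≤ I ^ (2 (d + 1)) (A ∏ mahlerMeasure) ^ 2 ≤ I ^ (2 (d + 1)) exp (2 d m h)`.
-/

set_option autoImplicit false

open Polynomial NumberField

namespace Pool.Agent.H72.BD

private theorem so_choose (d : ℕ) : ∑ i : Fin (d + 1), ((d.choose i : ℝ)) ^ 2 ≤ 4 ^ d := by
  have h1 : ∀ i : Fin (d + 1), ((d.choose i : ℝ)) ^ 2 ≤ 2 ^ d * (d.choose i : ℝ) := by
    intro i
    have h2 : (d.choose i : ℝ) ≤ 2 ^ d := by
      exact_mod_cast Nat.choose_le_two_pow d i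
    rw [sq]
    exact mul_le_mul_of_nonneg_right h2 (Nat.cast_nonneg _)
  refine (Finset.sum_le_sum fun i _ => h1 i).trans ?_
  rw [← Finset.mul_sum]
  have h3 : ∑ i : Fin (d + 1), (d.choose i : ℝ) = 2 ^ d := by
    rw [Fin.sum_univ_eq_sum_range (fun i => (d.choose i : ℝ)) (d + 1)]
    exact_mod_cast Nat.sum_range_choose d
  rw [h3, ← mul_pow]
  norm_num

theorem siz_of {b m : ℕ} [NeZero m] {F : Type} [Field F] [NumberField F] {x : F}
    (h : Rad b m F x) {Ω : Type} [Field Ω] [CharZero Ω] [Algebra F Ω] (α : Ω)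
    (hα : IsIntegral ℚ α) (d : ℕ) (hd : (minpoly F α).natDegree = d) (I : ℕ)
    (hI : (zx x).relIndex (ints F) ≤ I) :
    Siz x (cf F α d) (4 ^ d) ((I : ℝ) ^ (2 * (d + 1)) *
      Real.exp (2 * (d * m * absLogHeight₁ α))) := by
  obtain ⟨𝔞, A, h1, h2, h3, h4, h5⟩ := den_ideal (F := F) α hα d hd
  obtain ⟨h6, h7⟩ := den_index h (cf F α d) I A hI 𝔞 h1 h2 h3 h4
  have hint : IsIntegral F α := hα.tower_top
  have hmon : (minpoly F α).Monic := minpoly.monic hint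
  have hM1 : ∀ φ : F →+* ℂ, 1 ≤ ((minpoly F α).map φ).mahlerMeasure := by
    intro φ
    refine one_le_mahlerMeasure_of_one_le_norm_leadingCoeff ?_
    rw [(hmon.map φ).leadingCoeff, norm_one]
  refine ⟨fun φ => ((minpoly F α).map φ).mahlerMeasure ^ 2, fun φ => ?_, fun φ => ?_, h6, ?_⟩
  · exact one_le_pow₀ (hM1 φ)
  · have h8 : ∀ i : Fin (d + 1), ‖φ (cf F α d i)‖ ^ 2 ≤
        ((d.choose i : ℝ)) ^ 2 * ((minpoly F α).map φ).mahlerMeasure ^ 2 := by
      intro i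
      rw [← mul_pow]
      refine pow_le_pow_left₀ (norm_nonneg _) ?_ 2
      have h9 := norm_coeff_le_choose_mul_mahlerMeasure i ((minpoly F α).map φ)
      rwa [coeff_map, hmon.natDegree_map, hd] at h9
    refine (Finset.sum_le_sum fun i _ => h8 i).trans ?_
    rw [← Finset.sum_mul]
    exact mul_le_mul_of_nonneg_right (so_choose d) (sq_nonneg _)
  · rw [h.deg] at h5
    rw [Finset.prod_pow]
    obtain ⟨P, hP⟩ : ∃ P : ℝ, P = ∏ φ : F →+* ℂ, ((minpoly F α).map φ).mahlerMeasure := ⟨_, rfl⟩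
    rw [← hP] at h5 ⊢
    have hP0 : 0 ≤ P := by
      rw [hP]
      exact Finset.prod_nonneg fun φ _ => mahlerMeasure_nonneg _
    have h10 : ((den x (cf F α d)).relIndex (zx x) : ℝ) ≤ A * (I : ℝ) ^ (d + 1) := by
      exact_mod_cast h7
    calc ((den x (cf F α d)).relIndex (zx x) : ℝ) ^ 2 * P ^ 2
        ≤ (A * (I : ℝ) ^ (d + 1)) ^ 2 * P ^ 2 :=
          mul_le_mul_of_nonneg_right (pow_le_pow_left₀ (Nat.cast_nonneg _) h10 2) (sq_nonneg _)
      _ = (I : ℝ) ^ (2 * (d + 1)) * (A * P) ^ 2 := by ring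
      _ ≤ (I : ℝ) ^ (2 * (d + 1)) * (Real.exp (d * m * absLogHeight₁ α)) ^ 2 := by
          refine mul_le_mul_of_nonneg_left (pow_le_pow_left₀ (by positivity) h5 2) (by positivity)
      _ = _ := by
          rw [← Real.exp_nat_mul]
          norm_num

end Pool.Agent.H72.BD
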