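import Pool.Agent.H72.BD.Def

/-!
# Covering by windows, dependence of rows (MP_187c26_nt, Theorem V, S1): see the end of this text for `cover`

PROOF. `u i = h.uu (c i)`, `D = 2 * 4 ^ d` (natural number), so `2 * D = R0 d`. By `gram_upper` (with `4 ^ d`) and `minor_alt`
(`A` = the relIndex, `A ≥ 1`): if the minor is not zero, `det (gr u n) ≤ (4 ^ d) ^ n T / A ^ 2 ≤ (4 ^ d) ^ n T ρ ^ (n n) minor ^ 2 ≤
(2 * 4 ^ d) ^ n minor ^ 2`. So `wl` applies: `H` with `|H| ≤ R0 n`, at most `R0` starts `l ∈ H`, `l - 1 ∉ H`, and all `n × n` minors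
of `sm u n`, hence (`psi_sm`: rows times nonzero numbers; columns times `ρ ^ l.val`) of the rational matrix
`B k (i, l) = h.co (x ^ k * c i) l`, with columns `l ∉ H` vanish. So the rows of `B` restricted to the columns `l ∉ H` are
linearly dependent over `ℚ` (a matrix with linearly independent rows has a nonzero maximal minor): there is
`q : Fin n → ℚ`, `q ≠ 0`, with `∑ k, q k co (x ^ k c i) l = 0` for all `i` and `l ∉ H`. `g = ∑ k, q k x ^ k ≠ 0`
(`h.co` of it is `q k` at `l = k`, `n ≤ m`) has `co (g c_i) l = 0` for `l ∉ H`, and `co g l ≠ 0` only for `l.val < n ≤ R0 n`.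
WINDOWS: if `R0 n ≥ m` every `l` is in the window `[0, R0 n)`. Otherwise every `l ∈ H` is in `[a, a + R0 n)` for a start `a`:
walk down from `l` while in `H`: `l, l - 1, …`; not all of `ZMod m` is in `H` (`|H| < m`), the first exit is at a start `a = l - e`, and
`a, …, l` are `e + 1 ≤ |H| ≤ R0 n` elements. Take `a_0 = 0` and `a_1, …` an enumeration of (a set containing) the values of the
starts (`R0` values; repeat `0` if there are less).
-/

set_option autoImplicit false

open Polynomial

namespace Pool.Agent.H72.BD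

/-- Cyclic intervals which cover a set with few starts. -/
theorem cover {m : ℕ} [NeZero m] (H : Finset (ZMod m)) (L R : ℕ) (hL : H.card ≤ L)
    (hLm : L < m) (hR : (H.filter fun l => l - 1 ∉ H).card ≤ R) :
    ∃ a : Fin (R + 1) → ℕ, a 0 = 0 ∧ ∀ l ∈ H, ∃ j, inw (a j) L l := by
  classical
  obtain ⟨St, hSt⟩ : ∃ St : Finset (ZMod m), St = H.filter fun l => l - 1 ∉ H := ⟨_, rfl⟩
  rw [← hSt] at hR
  refine ⟨Fin.cons 0 fun i : Fin R => ((St.toList)[(i : ℕ)]?.map ZMod.val).getD 0, Fin.cons_zero _ _, ?_⟩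
  intro l hl
  have hex : ∃ k : ℕ, l - ((k : ℕ) : ZMod m) ∉ H := by
    by_contra hcon
    push Not at hcon
    have h1 : H = Finset.univ := by
      ext y
      refine ⟨fun _ => Finset.mem_univ _, fun _ => ?_⟩
      have h2 := hcon (l - y).val
      rw [ZMod.natCast_zmod_val, sub_sub_cancel] at h2
      exact h2
    rw [h1, Finset.card_univ, ZMod.card] at hL
    omega
  obtain ⟨k, hk, hmin⟩ : ∃ k : ℕ, l - ((k : ℕ) : ZMod m) ∉ H ∧ ∀ i < k, l - ((i : ℕ) : ZMod m) ∈ H :=
    ⟨Nat.find hex, Nat.find_spec hex, fun i hi => not_not.1 (Nat.find_min hex hi)⟩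
  have hk0 : k ≠ 0 := by
    rintro rfl
    apply hk
    rw [Nat.cast_zero, sub_zero]
    exact hl
  obtain ⟨e, rfl⟩ := Nat.exists_eq_succ_of_ne_zero hk0
  have hs : l - ((e : ℕ) : ZMod m) ∈ St := by
    rw [hSt, Finset.mem_filter]
    refine ⟨hmin e (Nat.lt_succ_self e), ?_⟩
    intro h1
    apply hk
    rw [Nat.cast_succ, ← sub_sub]
    exact h1
  -- the bound for `e`
  have heL : e < L := by
    by_contra hcon
    have hLe : L ≤ e := not_lt.1 hcon
    have h1 : (Finset.range (L + 1)).image (fun i : ℕ => l - ((i : ℕ) : ZMod m)) ⊆ H := by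
      intro y hy
      rw [Finset.mem_image] at hy
      obtain ⟨i, hi, rfl⟩ := hy
      rw [Finset.mem_range] at hi
      exact hmin i (by omega)
    have h2 : ((Finset.range (L + 1)).image (fun i : ℕ => l - ((i : ℕ) : ZMod m))).card = L + 1 := by
      rw [Finset.card_image_of_injOn, Finset.card_range]
      intro i hi j hj hij
      rw [Finset.coe_range, Set.mem_Iio] at hi hj
      have h3 : ((i : ℕ) : ZMod m) = ((j : ℕ) : ZMod m) := sub_right_injective hij
      have h4 := congrArg ZMod.val h3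
      rwa [ZMod.val_natCast_of_lt (by omega), ZMod.val_natCast_of_lt (by omega)] at h4
    have h3 := Finset.card_le_card h1
    omega
  obtain ⟨i, hi, hil⟩ := List.getElem_of_mem (Finset.mem_toList.2 hs)
  have hiR : i < R := by
    rw [Finset.length_toList] at hi
    omega
  refine ⟨(⟨i, hiR⟩ : Fin R).succ, e, heL, ?_⟩
  rw [Fin.cons_succ]
  simp only
  rw [List.getElem?_eq_getElem hi, hil, Option.map_some, Option.getD_some, Nat.cast_add,
    ZMod.natCast_zmod_val, sub_add_cancel]

/-- If all maximal minors with columns in `S` vanish, then some combination of the rows is zero on `S`. -/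
theorem dep_of_minors {n : ℕ} {Ω : Type} [Fintype Ω] (B : Matrix (Fin n) Ω ℚ) (S : Set Ω)
    (hB : ∀ J : Fin n → Ω, (∀ k, J k ∈ S) → (B.submatrix id J).det = 0) (hn : 1 ≤ n) :
    ∃ q : Fin n → ℚ, q ≠ 0 ∧ ∀ o ∈ S, Matrix.vecMul q B o = 0 := by
  classical
  by_contra hcon
  push Not at hcon
  have hfS : Fintype S := Fintype.ofFinite S
  obtain ⟨B', hB'⟩ : ∃ B' : Matrix (Fin n) S ℚ, B' = Matrix.of fun k (o : S) => B k (o : Ω) := ⟨_, rfl⟩
  have hrow : LinearIndependent ℚ B'.row := by
    rw [Fintype.linearIndependent_iff]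
    intro q hq
    by_contra hne
    push Not at hne
    obtain ⟨i, hi⟩ := hne
    obtain ⟨o, ho, h1⟩ := hcon q (fun h => hi (by rw [h]; rfl))
    apply h1
    have h2 := congrFun hq ⟨o, ho⟩
    rw [Finset.sum_apply] at h2
    rw [Matrix.vecMul, dotProduct]
    rw [hB'] at h2
    exact h2
  have hrank : B'.rank = n := by
    rw [hrow.rank_matrix, Fintype.card_fin]
  obtain ⟨κ, a, hinj, hspan, hli⟩ := exists_linearIndependent' ℚ B'.col
  have hfin : Finite κ := Finite.of_injective a hinj
  have hfκ : Fintype κ := Fintype.ofFinite κ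
  have hcard : Fintype.card κ = n := by
    rw [← hrank, Matrix.rank_eq_finrank_span_cols, ← hspan]
    exact (finrank_span_eq_card hli).symm
  have eκ : Fin n ≃ κ := (Fintype.equivFinOfCardEq hcard).symm
  have hli2 : LinearIndependent ℚ (B'.col ∘ (a ∘ eκ)) := hli.comp eκ eκ.injective
  have hdet := hB (fun k => ((a (eκ k) : S) : Ω)) (fun k => (a (eκ k)).2)
  have hli3 : LinearIndependent ℚ (B.submatrix id (fun k => ((a (eκ k) : S) : Ω))).col := by
    have : (B.submatrix id (fun k => ((a (eκ k) : S) : Ω))).col = B'.col ∘ (a ∘ eκ) := by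
      funext k i
      rw [hB']
      rfl
    rw [this]
    exact hli2
  rw [Matrix.linearIndependent_cols_iff_isUnit, Matrix.isUnit_iff_isUnit_det, hdet] at hli3
  exact not_isUnit_zero hli3

end Pool.Agent.H72.BD
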