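import Pool.Agent.H72.BD.Def
import Pool.Agent.H4.RR.Hadamard
import Pool.Agent.H99.MV.CB

/-!
# The window lemma, abstract form (MP_187c26_nt, Theorem V, S1)

`u : ι → ZMod m → ℝ`, `r_k : (i, l) ↦ u i (l - k)` (`k < n`) the rows of `sm u n`, in `E = EuclideanSpace ℝ (ι × ZMod m)`;
they are linearly independent (`det (gr u n) > 0`). `V` = span of the rows, `P` = orthogonal projection on `V`,
`p_w = ‖P e_w‖ ^ 2` (`w ∈ ι × ZMod m`).

(1) `∑ w, p_w = n` (trace of a projection).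
(2) For `J : Fin n → ι × ZMod m`: `(minor_J) ^ 2 ≤ det (gr u n) ∏ k, p_(J k)`. Proof: let `o_1, …, o_n` be an orthonormal
basis of `V`, `sm u n = C O`, `O k w = ⟨o_k, e_w⟩`: `C Cᵀ = gr u n`, `minor_J = det C · det O_J`, and `O_Jᵀ O_J` is the Gram
matrix of the vectors `P e_(J k)`; Hadamard: `(det O_J) ^ 2 ≤ ∏ k, ‖column k of O_J‖ ^ 2 = ∏ k, p_(J k)`.
(3) So if `p_(J k) < 1 / D` for all `k` (and `n ≥ 1`), then `det (gr u n) > D ^ n minor_J ^ 2` unless `minor_J = 0`: by `hmin`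
`minor_J = 0`. So for every `t ≤ 1 / D`, with `H_t = {l | ∃ i, p_(i, l) ≥ t}`: all minors with `(J k).2 ∉ H_t` vanish.
(4) `|H_t| ≤ |{w | p_w ≥ t}| ≤ n / t ≤ 2 D n` for `t ≥ 1 / (2 D)`.
(5) VARIATION. `U` = cyclic shift `(U y) (i, l) = y (i, l - 1)`, an isometry; `U r_k = r_(k + 1)`. `V₀` = span of
`r_1, …, r_(n - 1)`: `V₀ ≤ V`, `V₀ ≤ U V`, `dim V₀ = n - 1`. `‖P_(UV) e_w‖ = ‖P_V e_(w - 1)‖`. For subspaces `V₀ ≤ V'`:
`‖P_V₀ e_w‖ ≤ ‖P_V' e_w‖`. So `p_w - p_(w - 1) ≤ p_w - ‖P_V₀ e_w‖ ^ 2`, hence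
`∑ w, max 0 (p_w - p_(w - 1)) ≤ ∑ w, (p_w - ‖P_V₀ e_w‖ ^ 2) = n - (n - 1) = 1`.
(6) COAREA. The number of `l ∈ H_t` with `l - 1 ∉ H_t` is at most the number `s(t)` of `w = (i, l)` with
`p_w ≥ t > p_(w - 1)`; `∫ s(t) dt over [1/(2D), 1/D] ≤ ∑ w, max 0 (p_w - p_(w - 1)) ≤ 1`, the interval has length `1/(2D)`: some
`t ∈ (1/(2D), 1/D]` has `s(t) ≤ 2 D`. (Without integrals: if `s(t) ≥ 2 D + 1` for all `t` in the half open interval, sum over
`w` the lengths of `(p_(w-1), p_w] ∩ (1/(2D), 1/D]`, `MeasureTheory.lintegral` of a finite sum of indicators, or a finite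
partition by the values `p_w`.)
-/

set_option autoImplicit false

namespace Pool.Agent.H72.BD

open Matrix

section lin

open scoped MatrixOrder

variable {W : Type} [Fintype W]

/-- An orthonormal factor. -/
private theorem wl_fac {n : ℕ} (R : Matrix (Fin n) W ℝ) (h : (R * Rᵀ).PosDef) :
    ∃ (C : Matrix (Fin n) (Fin n) ℝ) (O : Matrix (Fin n) W ℝ), R = C * O ∧ O * Oᵀ = 1 ∧ IsUnit C.det := by
  obtain ⟨B, hB⟩ := CStarAlgebra.nonneg_iff_eq_star_mul_self.mp h.posSemidef.nonneg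
  rw [star_eq_conjTranspose, conjTranspose_eq_transpose_of_trivial] at hB
  have hdet : IsUnit B.det := by
    have h1 := h.det_pos
    rw [hB, det_mul, det_transpose] at h1
    refine isUnit_iff_ne_zero.2 fun h2 => ?_
    rw [h2, mul_zero] at h1
    exact lt_irrefl _ h1
  have hdet' : IsUnit (Bᵀ).det := by
    rw [det_transpose]
    exact hdet
  refine ⟨Bᵀ, (Bᵀ)⁻¹ * R, ?_, ?_, hdet'⟩
  · rw [mul_nonsing_inv_cancel_left _ _ hdet']
  · rw [transpose_mul, Matrix.mul_assoc, ← Matrix.mul_assoc R, hB, transpose_nonsing_inv,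
      transpose_transpose, Matrix.mul_assoc, mul_nonsing_inv _ hdet, Matrix.mul_one,
      nonsing_inv_mul _ hdet']

private theorem wl_sum {n : ℕ} (O : Matrix (Fin n) W ℝ) (hO : O * Oᵀ = 1) :
    ∑ w, ∑ j, O j w ^ 2 = n := by
  rw [Finset.sum_comm]
  have h1 : ∀ j, ∑ w, O j w ^ 2 = 1 := by
    intro j
    have h2 := congrFun (congrFun hO j) j
    rw [Matrix.mul_apply, Matrix.one_apply_eq] at h2
    rw [← h2]
    refine Finset.sum_congr rfl fun w _ => ?_
    rw [Matrix.transpose_apply, pow_two]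
  rw [Finset.sum_congr rfl fun j _ => h1 j]
  simp

private theorem wl_nrm {n : ℕ} (O : Matrix (Fin n) W ℝ) (hO : O * Oᵀ = 1) (c : Fin n → ℝ) :
    ∑ w, (c ᵥ* O) w ^ 2 = ∑ j, c j ^ 2 := by
  have h1 : (c ᵥ* O) ⬝ᵥ (c ᵥ* O) = c ⬝ᵥ c := by
    rw [← Matrix.dotProduct_mulVec, ← Matrix.mulVec_transpose, Matrix.mulVec_mulVec, hO, Matrix.one_mulVec]
  simp only [dotProduct] at h1
  simp only [pow_two]
  exact h1

private theorem wl_cs {n : ℕ} (O : Matrix (Fin n) W ℝ) (hO : O * Oᵀ = 1) (c : Fin n → ℝ) (w : W) :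
    (c ᵥ* O) w ^ 2 ≤ (∑ w', (c ᵥ* O) w' ^ 2) * ∑ j, O j w ^ 2 := by
  rw [wl_nrm O hO]
  have h1 := Finset.sum_mul_sq_le_sq_mul_sq Finset.univ c (fun j => O j w)
  exact h1

private theorem wl_mono {n k : ℕ} (O : Matrix (Fin n) W ℝ) (hO : O * Oᵀ = 1) (O₀ : Matrix (Fin k) W ℝ)
    (h0 : O₀ * O₀ᵀ = 1) (σ : W ≃ W)
    (h : ∀ a : Fin k → ℝ, ∃ c : Fin n → ℝ, ∀ w, (c ᵥ* O) (σ w) = (a ᵥ* O₀) w) (w : W) :
    ∑ j, O₀ j w ^ 2 ≤ ∑ j, O j (σ w) ^ 2 := by
  obtain ⟨c, hc⟩ := h fun j => O₀ j w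
  have h1 := wl_cs O hO c (σ w)
  rw [← Equiv.sum_comp σ, hc] at h1
  simp only [hc] at h1
  rw [wl_nrm O₀ h0] at h1
  have h2 : ((fun j => O₀ j w) ᵥ* O₀) w = ∑ j, O₀ j w ^ 2 := by
    simp only [Matrix.vecMul, dotProduct, pow_two]
  rw [h2] at h1
  have h3 : 0 ≤ ∑ j, O₀ j w ^ 2 := Finset.sum_nonneg fun j _ => sq_nonneg _
  rcases h3.eq_or_lt with h4 | h4
  · rw [← h4]
    exact Finset.sum_nonneg fun j _ => sq_nonneg _
  · rw [pow_two] at h1
    exact le_of_mul_le_mul_left h1 h4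

private theorem wl_had {n : ℕ} (A : Matrix (Fin n) (Fin n) ℝ) : A.det ^ 2 ≤ ∏ k, ∑ j, A j k ^ 2 := by
  have h1 := Pool.Agent.H4.RR.hadamard ((Aᵀ).map (Complex.ofRealHom))
  have h2 : ((Aᵀ).map (Complex.ofRealHom)).det = Complex.ofRealHom A.det := by
    rw [← RingHom.mapMatrix_apply, ← RingHom.map_det, det_transpose]
  rw [h2] at h1
  have h3 : ‖Complex.ofRealHom A.det‖ ^ 2 = A.det ^ 2 := by
    rw [Complex.ofRealHom_eq_coe, Complex.norm_real, Real.norm_eq_abs, sq_abs]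
  rw [h3] at h1
  refine h1.trans (le_of_eq ?_)
  refine Finset.prod_congr rfl fun k _ => Finset.sum_congr rfl fun j _ => ?_
  rw [Matrix.map_apply, Matrix.transpose_apply, Complex.ofRealHom_eq_coe, Complex.norm_real,
    Real.norm_eq_abs, sq_abs]

private theorem wl_minor {n : ℕ} (R : Matrix (Fin n) W ℝ) (C : Matrix (Fin n) (Fin n) ℝ)
    (O : Matrix (Fin n) W ℝ) (hR : R = C * O) (hO : O * Oᵀ = 1) (J : Fin n → W) :
    (R.submatrix id J).det ^ 2 ≤ (R * Rᵀ).det * ∏ k, ∑ j, O j (J k) ^ 2 := by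
  have h1 : R.submatrix id J = C * O.submatrix id J := by
    rw [hR]
    ext i k
    rfl
  have h2 : R * Rᵀ = C * Cᵀ := by
    rw [hR, transpose_mul, Matrix.mul_assoc, ← Matrix.mul_assoc O, hO, Matrix.one_mul]
  rw [h1, h2, det_mul, det_mul, det_transpose, mul_pow, ← pow_two]
  exact mul_le_mul_of_nonneg_left (wl_had _) (sq_nonneg _)

end lin

/-- Some level is crossed upwards a small number of times. -/
private theorem wl_coarea {W : Type} [Fintype W] (p q : W → ℝ) (a b : ℝ) (hab : a < b) (N : ℕ)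
    (h : ∑ w, max 0 (p w - q w) < (N + 1) * (b - a)) :
    ∃ t, a < t ∧ t ≤ b ∧ (Finset.univ.filter fun w => q w < t ∧ t ≤ p w).card ≤ N := by
  classical
  by_contra hno
  push Not at hno
  have h1 : ((N + 1 : ℕ) : ENNReal) * MeasureTheory.volume (Set.Ioc a b) ≤
      ∫⁻ t in Set.Ioc a b, ∑ w, (Set.Ioc (q w) (p w)).indicator (fun _ => (1 : ENNReal)) t := by
    rw [← MeasureTheory.setLIntegral_const]
    refine MeasureTheory.setLIntegral_mono' measurableSet_Ioc (fun t ht => ?_)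
    have h2 := hno t ht.1 ht.2
    have h3 : ∑ w, (Set.Ioc (q w) (p w)).indicator (fun _ => (1 : ENNReal)) t =
        ((Finset.univ.filter fun w => q w < t ∧ t ≤ p w).card : ENNReal) := by
      simp only [Set.indicator_apply, Set.mem_Ioc]
      rw [Finset.sum_boole]
    rw [h3]
    exact_mod_cast h2
  have h4 : ∫⁻ t in Set.Ioc a b, ∑ w, (Set.Ioc (q w) (p w)).indicator (fun _ => (1 : ENNReal)) t ≤
      ∑ w, ENNReal.ofReal (p w - q w) := by
    refine (MeasureTheory.setLIntegral_le_lintegral _ _).trans ?_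
    rw [MeasureTheory.lintegral_finsetSum _ fun w _ => measurable_const.indicator measurableSet_Ioc]
    refine Finset.sum_le_sum fun w _ => ?_
    rw [MeasureTheory.lintegral_indicator_const measurableSet_Ioc, one_mul, Real.volume_Ioc]
  have h5 : ∑ w, ENNReal.ofReal (p w - q w) = ENNReal.ofReal (∑ w, max 0 (p w - q w)) := by
    rw [ENNReal.ofReal_sum_of_nonneg fun w _ => le_max_left _ _]
    refine Finset.sum_congr rfl fun w _ => ?_
    rcases le_total (p w - q w) 0 with h8 | h8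
    · rw [max_eq_left h8, ENNReal.ofReal_zero, ENNReal.ofReal_of_nonpos h8]
    · rw [max_eq_right h8]
  have h6 := h1.trans h4
  rw [h5, Real.volume_Ioc] at h6
  have h7 : ((N + 1 : ℕ) : ENNReal) = ENNReal.ofReal ((N : ℝ) + 1) := by
    rw [← ENNReal.ofReal_natCast]
    push_cast
    rfl
  rw [h7, ← ENNReal.ofReal_mul (by positivity),
    ENNReal.ofReal_le_ofReal_iff (Finset.sum_nonneg fun w _ => le_max_left _ _)] at h6
  linarith

theorem wl {m : ℕ} [NeZero m] {ι : Type} [Fintype ι] (u : ι → ZMod m → ℝ) (n D : ℕ) (hn : 1 ≤ n)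
    (hnm : n ≤ m) (hD : 1 ≤ D) (hpos : 0 < (gr u n).det)
    (hmin : ∀ J : Fin n → ι × ZMod m, ((sm u n).submatrix id J).det = 0 ∨
      (gr u n).det ≤ (D : ℝ) ^ n * ((sm u n).submatrix id J).det ^ 2) :
    ∃ H : Finset (ZMod m), H.card ≤ 2 * D * n ∧ (H.filter fun l => l - 1 ∉ H).card ≤ 2 * D ∧
      ∀ J : Fin n → ι × ZMod m, (∀ k, (J k).2 ∉ H) → ((sm u n).submatrix id J).det = 0 := by
  classical
  obtain ⟨k, rfl⟩ : ∃ k, n = k + 1 := ⟨n - 1, by omega⟩
  set R := sm u (k + 1) with hR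
  have hG : gr u (k + 1) = R * Rᵀ := rfl
  have hpd : (R * Rᵀ).PosDef := by
    have h1 : (R * Rᵀ).PosSemidef := by
      have h2 := posSemidef_self_mul_conjTranspose R
      rwa [conjTranspose_eq_transpose_of_trivial] at h2
    rw [h1.posDef_iff_isUnit, isUnit_iff_isUnit_det, isUnit_iff_ne_zero]
    rw [hG] at hpos
    exact hpos.ne'
  obtain ⟨C, O, hRC, hO, hC⟩ := wl_fac R hpd
  let R₀ : Matrix (Fin k) (ι × ZMod m) ℝ := R.submatrix Fin.succ id
  have hpd0 : (R₀ * R₀ᵀ).PosDef := by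
    have h1 : R₀ * R₀ᵀ = (R * Rᵀ).submatrix Fin.succ Fin.succ := by
      ext i j
      rfl
    rw [h1]
    exact hpd.submatrix (Fin.succ_injective _)
  obtain ⟨C₀, O₀, hRC0, hO0, hC0⟩ := wl_fac R₀ hpd0
  have hO0R : ∀ a : Fin k → ℝ, ∃ e : Fin k → ℝ, a ᵥ* O₀ = e ᵥ* R₀ := by
    intro a
    refine ⟨a ᵥ* C₀⁻¹, ?_⟩
    rw [hRC0, Matrix.vecMul_vecMul, nonsing_inv_mul_cancel_left _ _ hC0]
  let σ : ι × ZMod m ≃ ι × ZMod m := (Equiv.refl ι).prodCongr (Equiv.subRight (1 : ZMod m))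
  have hσ : ∀ w : ι × ZMod m, σ w = (w.1, w.2 - 1) := fun w => rfl
  have hRs : ∀ (j : Fin k) (w : ι × ZMod m), R (Fin.castSucc j) (σ w) = R (Fin.succ j) w := by
    intro j w
    show u w.1 (w.2 - 1 - (((Fin.castSucc j : Fin (k + 1)) : ℕ) : ZMod m)) =
      u w.1 (w.2 - (((Fin.succ j : Fin (k + 1)) : ℕ) : ZMod m))
    congr 1
    rw [Fin.val_castSucc, Fin.val_succ]
    push_cast
    ring
  obtain ⟨p, hp⟩ : ∃ p : ι × ZMod m → ℝ, ∀ w, p w = ∑ j, O j w ^ 2 := ⟨_, fun w => rfl⟩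
  obtain ⟨q, hq⟩ : ∃ q : ι × ZMod m → ℝ, ∀ w, q w = ∑ j, O₀ j w ^ 2 := ⟨_, fun w => rfl⟩
  have hp0 : ∀ w, 0 ≤ p w := by
    intro w
    rw [hp]
    exact Finset.sum_nonneg fun j _ => sq_nonneg _
  have hpsum : ∑ w, p w = (k : ℝ) + 1 := by
    rw [Finset.sum_congr rfl fun w _ => hp w, wl_sum O hO]
    push_cast
    rfl
  have hqsum : ∑ w, q w = (k : ℝ) := by
    rw [Finset.sum_congr rfl fun w _ => hq w, wl_sum O₀ hO0]
  have hqp : ∀ w, q w ≤ p w := by
    intro w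
    rw [hp, hq]
    refine wl_mono O hO O₀ hO0 (Equiv.refl _) (fun a => ?_) w
    obtain ⟨e, he⟩ := hO0R a
    refine ⟨(Fin.cons 0 e : Fin (k + 1) → ℝ) ᵥ* C, fun w => ?_⟩
    rw [he, Matrix.vecMul_vecMul, ← hRC]
    simp only [Matrix.vecMul, dotProduct, Equiv.refl_apply]
    rw [Fin.sum_univ_succ, Fin.cons_zero, zero_mul, zero_add]
    refine Finset.sum_congr rfl fun j _ => ?_
    rw [Fin.cons_succ]
    rfl
  have hqs : ∀ w, q w ≤ p (σ w) := by
    intro w
    rw [hp, hq]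
    refine wl_mono O hO O₀ hO0 σ (fun a => ?_) w
    obtain ⟨e, he⟩ := hO0R a
    refine ⟨(Fin.snoc e 0 : Fin (k + 1) → ℝ) ᵥ* C, fun w => ?_⟩
    rw [he, Matrix.vecMul_vecMul, ← hRC]
    simp only [Matrix.vecMul, dotProduct]
    rw [Fin.sum_univ_castSucc, Fin.snoc_last, zero_mul, add_zero]
    refine Finset.sum_congr rfl fun j _ => ?_
    rw [Fin.snoc_castSucc, hRs]
    rfl
  have hvar : ∑ w, max 0 (p w - p (σ w)) ≤ 1 := by
    calc ∑ w, max 0 (p w - p (σ w)) ≤ ∑ w, (p w - q w) := by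
          refine Finset.sum_le_sum fun w _ => max_le ?_ ?_
          · linarith [hqp w]
          · linarith [hqs w]
      _ = 1 := by
          rw [Finset.sum_sub_distrib, hpsum, hqsum]
          ring
  have hD0 : (0 : ℝ) < D := by exact_mod_cast hD
  obtain ⟨t, ht1, ht2, ht3⟩ := wl_coarea p (fun w => p (σ w)) (1 / (2 * D)) (1 / D)
    (by
      apply one_div_lt_one_div_of_lt hD0
      linarith) (2 * D) (by
      refine hvar.trans_lt ?_
      have h1 : (1 : ℝ) / D - 1 / (2 * D) = 1 / (2 * D) := by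
        field_simp
        ring
      rw [h1]
      push_cast
      rw [mul_one_div, lt_div_iff₀ (by linarith)]
      linarith)
  have ht0 : 0 < t := lt_trans (by positivity) ht1
  refine ⟨Finset.univ.filter fun l => ∃ i, t ≤ p (i, l), ?_, ?_, ?_⟩
  · -- the number of elements
    have h1 : (Finset.univ.filter fun l : ZMod m => ∃ i, t ≤ p (i, l)) ⊆
        (Finset.univ.filter fun w : ι × ZMod m => t ≤ p w).image Prod.snd := by
      intro l hl
      rw [Finset.mem_filter] at hl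
      obtain ⟨i, hi⟩ := hl.2
      rw [Finset.mem_image]
      exact ⟨(i, l), Finset.mem_filter.2 ⟨Finset.mem_univ _, hi⟩, rfl⟩
    have h2 := (Finset.card_le_card h1).trans Finset.card_image_le
    refine h2.trans ?_
    have h3 : ((Finset.univ.filter fun w : ι × ZMod m => t ≤ p w).card : ℝ) * t ≤ (k : ℝ) + 1 := by
      rw [← hpsum, ← nsmul_eq_mul]
      refine (Finset.card_nsmul_le_sum _ _ _ fun w hw => (Finset.mem_filter.1 hw).2).trans ?_
      exact Finset.sum_le_sum_of_subset_of_nonneg (Finset.filter_subset _ _) fun w _ _ => hp0 w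
    have h4 : ((Finset.univ.filter fun w : ι × ZMod m => t ≤ p w).card : ℝ) * (1 / (2 * D)) ≤
        (k : ℝ) + 1 :=
      (mul_le_mul_of_nonneg_left ht1.le (Nat.cast_nonneg _)).trans h3
    rw [mul_one_div, div_le_iff₀ (by linarith)] at h4
    have h5 : ((Finset.univ.filter fun w : ι × ZMod m => t ≤ p w).card : ℝ) ≤
        ((2 * D * (k + 1) : ℕ) : ℝ) := by
      push_cast
      linarith
    exact_mod_cast h5
  · -- the number of components
    refine le_trans ?_ ht3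
    refine le_trans (Finset.card_le_card (t := (Finset.univ.filter fun w : ι × ZMod m =>
      p (σ w) < t ∧ t ≤ p w).image Prod.snd) ?_) Finset.card_image_le
    intro l hl
    rw [Finset.mem_filter] at hl
    obtain ⟨hl1, hl2⟩ := hl
    rw [Finset.mem_filter] at hl1 hl2
    obtain ⟨i, hi⟩ := hl1.2
    rw [Finset.mem_image]
    refine ⟨(i, l), Finset.mem_filter.2 ⟨Finset.mem_univ _, ?_, hi⟩, rfl⟩
    by_contra h1
    push Not at h1
    exact hl2 ⟨Finset.mem_univ _, i, h1⟩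
  · intro J hJ
    rcases hmin J with h1 | h1
    · exact h1
    · exfalso
      have hlt : ∀ j, p (J j) < 1 / D := by
        intro j
        have h2 := hJ j
        rw [Finset.mem_filter] at h2
        push Not at h2
        exact (h2 (Finset.mem_univ _) (J j).1).trans_le ht2
      have h2 := wl_minor R C O hRC hO J
      have h3 : ∏ j, ∑ i, O i (J j) ^ 2 < (1 / (D : ℝ)) ^ (k + 1) := by
        have h4 : ∏ j, ∑ i, O i (J j) ^ 2 ≤ ∏ j, max (p (J j)) (1 / (2 * D)) := by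
          refine Finset.prod_le_prod (fun j _ => Finset.sum_nonneg fun i _ => sq_nonneg _) fun j _ => ?_
          rw [← hp]
          exact le_max_left _ _
        refine h4.trans_lt ?_
        have h5 : ∏ j : Fin (k + 1), (1 / (D : ℝ)) = (1 / (D : ℝ)) ^ (k + 1) := by
          rw [Finset.prod_const, Finset.card_univ, Fintype.card_fin]
        rw [← h5]
        refine Finset.prod_lt_prod_of_nonempty (fun j _ => ?_) (fun j _ => ?_) Finset.univ_nonempty
        · exact lt_of_lt_of_le (by positivity) (le_max_right _ _)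
        · refine max_lt (hlt j) ?_
          apply one_div_lt_one_div_of_lt hD0
          linarith
      rw [← hG] at h2
      have h4 : ((sm u (k + 1)).submatrix id J).det ^ 2 < (gr u (k + 1)).det * (1 / (D : ℝ)) ^ (k + 1) :=
        h2.trans_lt (mul_lt_mul_of_pos_left h3 hpos)
      have h5 : (D : ℝ) ^ (k + 1) * ((sm u (k + 1)).submatrix id J).det ^ 2 <
          (D : ℝ) ^ (k + 1) * ((gr u (k + 1)).det * (1 / (D : ℝ)) ^ (k + 1)) :=
        mul_lt_mul_of_pos_left h4 (by positivity)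
      have h6 : (D : ℝ) ^ (k + 1) * ((gr u (k + 1)).det * (1 / (D : ℝ)) ^ (k + 1)) =
          (gr u (k + 1)).det := by
        rw [mul_left_comm, ← mul_pow, mul_one_div_cancel hD0.ne', one_pow, mul_one]
      rw [h6] at h5
      exact absurd h1 (not_le.2 h5)

end Pool.Agent.H72.BD
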