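import Pool.Agent.H72.BD.Gram
import Pool.Agent.H72.BD.Wl
import Pool.Agent.H72.BD.Cover

/-!
# The window lemma (MP_187c26_nt, Theorem V, S1)

PROOF. `u i = h.uu (c i)`, `D = 2 * 4 ^ d` (natural number), so `2 * D = R0 d`. By `gram_upper` (with `4 ^ d`) and `minor_alt`
(`A` = the relIndex, `A ≥ 1`): if the minor is not zero, `det (gr u n) ≤ (4 ^ d) ^ n T / A ^ 2 ≤ (4 ^ d) ^ n T ρ ^ (n n) minor ^ 2 ≤
(2 * 4 ^ d) ^ n minor ^ 2`. So `wl` applies: `H` with `|H| ≤ R0 n`, at most `R0` starts `l ∈ H`, `l - 1 ∉ H`, and all `n × n` minors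
of `sm u n`, hence (`psi_sm`: rows times nonzero numbers; columns times `ρ ^ l.val`) of the rational matrix
`B k (i, l) = h.co (x ^ k * c i) l`, with columns `l ∉ H` vanish. So the rows of `B` restricted to the columns `l ∉ H` are
linearly dependent over `ℚ` (a matrix with linearly independent rows has a nonzero maximal minor): there is
`q : Fin n → ℚ`, `q ≠ 0`, with `∑ k, q k co (x ^ k c i) l = 0` for all `i` and `l ∉ H`. `g = ∑ k, q k x ^ k ≠ 0`
(`h.co` of it is `q k` at `l = k`, `n ≤ m`) has `co (g c_i) l = 0` for `l ∉ H`, and `co g l ≠ 0` only for `l.val < n ≤ R0 n`.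
WINDOWS: if `R0 n ≥ m` every `l` is in the window `[0, R0 n)`. Otherwise every `l ∈ H` is in `[a, a + R0 n)` for a start `a`:
walk down from `l` while in `H`: `l, l - 1, …`; not all of `ZMod m` is in `H` (`|H| < m`), the first exit is at a start `a = l - e`, and
`a, …, l` are `e + 1 ≤ |H| ≤ R0 n` elements. Take `a_0 = 0` and `a_1, …` an enumeration of (a set containing) the values of the
starts (`R0` values; repeat `0` if there are less).
-/

set_option autoImplicit false

open Polynomial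

namespace Pool.Agent.H72.BD

private theorem wo_rho_pos {b m : ℕ} (hb : 2 ≤ b) : 0 < rho b m := by
  unfold rho
  apply Real.rpow_pos_of_pos
  have : 0 < b := by omega
  exact_mod_cast this

private theorem wo_single {b m : ℕ} [NeZero m] {F : Type} [Field F] [NumberField F] {x : F}
    (h : Rad b m F x) (a : ZMod m) : h.co (x ^ a.val) = Pi.single a 1 := by
  have h2 : h.co.symm (Pi.single a 1) = x ^ a.val := by
    rw [h.co_symm, Finset.sum_eq_single a]
    · rw [Pi.single_eq_same, one_smul]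
    · intro l _ hl
      rw [Pi.single_eq_of_ne hl, zero_smul]
    · intro h1
      exact absurd (Finset.mem_univ a) h1
  rw [← h2, LinearEquiv.apply_symm_apply]

private theorem wo_minor {b m : ℕ} [NeZero m] {F : Type} [Field F] [NumberField F] {x : F} {d : ℕ}
    (h : Rad b m F x) (c : Fin (d + 1) → F) (n : ℕ) (B : Matrix (Fin n) (Fin (d + 1) × ZMod m) ℚ)
    (hB : ∀ k w, B k w = h.co (x ^ (k : ℕ) * c w.1) w.2) (J : Fin n → Fin (d + 1) × ZMod m)
    (h0 : ((sm (fun i => h.uu (c i)) n).submatrix id J).det = 0) : (B.submatrix id J).det = 0 := by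
  have hr : 0 < rho b m := wo_rho_pos h.two
  have h1 := psi_minor h c n J
  rw [h0] at h1
  have h2 : ((Psi h c n).submatrix id J).det = 0 := by
    have h3 : ((Psi h c n).submatrix id J).det ^ 2 = 0 := by
      rw [h1]
      ring
    exact pow_eq_zero_iff (two_ne_zero) |>.1 h3
  have h4 : (Psi h c n).submatrix id J = Matrix.of fun i j : Fin n =>
      rho b m ^ (J j).2.val * ((B.submatrix id J).map (Rat.castHom ℝ)) i j := by
    ext i j
    show h.uu (x ^ (i : ℕ) * c (J j).1) (J j).2 = rho b m ^ (J j).2.val * ((B i (J j) : ℚ) : ℝ)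
    rw [hB]
    unfold Rad.uu
    rw [mul_comm]
  rw [h4, Matrix.det_mul_row] at h2
  have h5 : (∏ j : Fin n, rho b m ^ (J j).2.val) ≠ 0 := by
    rw [Finset.prod_ne_zero_iff]
    intro j _
    exact (pow_pos hr _).ne'
  have h6 : ((B.submatrix id J).map (Rat.castHom ℝ)).det = 0 := by
    rcases mul_eq_zero.1 h2 with h7 | h7
    · exact absurd h7 h5
    · exact h7
  have h8 : ((B.submatrix id J).map (Rat.castHom ℝ)).det = Rat.castHom ℝ (B.submatrix id J).det := by
    rw [RingHom.map_det]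
    rfl
  rw [h8] at h6
  exact (map_eq_zero (Rat.castHom ℝ)).1 h6

theorem win_of_siz {b m : ℕ} [NeZero m] {F : Type} [Field F] [NumberField F] {x : F} {d : ℕ}
    (h : Rad b m F x) (c : Fin (d + 1) → F) (hc : c (Fin.last d) = 1) (T : ℝ)
    (hS : Siz x c (4 ^ d) T) (n : ℕ) (hn : 1 ≤ n) (hnm : n ≤ m)
    (hT : T * rho b m ^ (n * n) ≤ 2 ^ n) : Win h c (R0 d * n) (R0 d) := by
  classical
  have hr : 0 < rho b m := wo_rho_pos h.two
  have h0 : (den x c).relIndex (zx x) ≠ 0 := by
    obtain ⟨N, _, _, h1, _⟩ := hS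
    exact h1
  set A : ℝ := ((den x c).relIndex (zx x) : ℝ) with hA
  have hA0 : 0 < A ^ 2 := by
    have h1 : (0 : ℝ) < A := by
      rw [hA]
      exact_mod_cast Nat.pos_of_ne_zero h0
    positivity
  have hgp := gram_pos h c hc n hnm
  have hgu := gram_upper h c (4 ^ d) T (by positivity) hS n hnm
  rw [← hA] at hgu
  have hT0 : 0 ≤ ((4 : ℝ) ^ d) ^ n * T := (mul_pos hA0 hgp).le.trans hgu
  have hmin : ∀ J : Fin n → Fin (d + 1) × ZMod m, ((sm (fun i => h.uu (c i)) n).submatrix id J).det = 0 ∨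
      (gr (fun i => h.uu (c i)) n).det ≤
        ((2 * 4 ^ d : ℕ) : ℝ) ^ n * ((sm (fun i => h.uu (c i)) n).submatrix id J).det ^ 2 := by
    intro J
    rcases minor_alt h c h0 n J with h1 | h1
    · exact Or.inl h1
    · right
      rw [← hA] at h1
      set M : ℝ := ((sm (fun i => h.uu (c i)) n).submatrix id J).det ^ 2 with hM
      have hM0 : 0 ≤ M := sq_nonneg _
      have h2 : A ^ 2 * (gr (fun i => h.uu (c i)) n).det ≤ A ^ 2 * (((2 * 4 ^ d : ℕ) : ℝ) ^ n * M) := by
        calc A ^ 2 * (gr (fun i => h.uu (c i)) n).det ≤ ((4 : ℝ) ^ d) ^ n * T := hgu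
          _ ≤ ((4 : ℝ) ^ d) ^ n * T * (A ^ 2 * rho b m ^ (n * n) * M) := le_mul_of_one_le_right hT0 h1
          _ = (((4 : ℝ) ^ d) ^ n * A ^ 2 * M) * (T * rho b m ^ (n * n)) := by ring
          _ ≤ (((4 : ℝ) ^ d) ^ n * A ^ 2 * M) * 2 ^ n := mul_le_mul_of_nonneg_left hT (by positivity)
          _ = A ^ 2 * (((2 * 4 ^ d : ℕ) : ℝ) ^ n * M) := by
            push_cast
            rw [mul_pow]
            ring
      exact le_of_mul_le_mul_left h2 hA0
  have hD : 1 ≤ 2 * 4 ^ d := by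
    have : 0 < 4 ^ d := by positivity
    omega
  obtain ⟨H, hH1, hH2, hH3⟩ := wl (fun i => h.uu (c i)) n (2 * 4 ^ d) hn hnm hD hgp hmin
  have hR0 : 2 * (2 * 4 ^ d) = R0 d := by
    unfold R0
    rw [pow_succ]
    ring
  rw [hR0] at hH1 hH2
  let B : Matrix (Fin n) (Fin (d + 1) × ZMod m) ℚ := Matrix.of fun k w => h.co (x ^ (k : ℕ) * c w.1) w.2
  obtain ⟨q, hq0, hq⟩ := dep_of_minors B {w | w.2 ∉ H} (fun J hJ =>
    wo_minor h c n B (fun k w => rfl) J (hH3 J hJ)) hn
  let g : F := ∑ k : Fin n, q k • x ^ (k : ℕ)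
  have hval : ∀ k : Fin n, (((k : ℕ) : ZMod m)).val = (k : ℕ) := by
    intro k
    rw [ZMod.val_natCast, Nat.mod_eq_of_lt (k.2.trans_le hnm)]
  have hcok : ∀ k : Fin n, h.co (x ^ (k : ℕ)) = Pi.single ((k : ℕ) : ZMod m) 1 := by
    intro k
    rw [← wo_single h, hval]
  have hcog : ∀ l, h.co g l = ∑ k : Fin n, q k * (Pi.single ((k : ℕ) : ZMod m) (1 : ℚ) : ZMod m → ℚ) l := by
    intro l
    simp only [g]
    rw [map_sum, Finset.sum_apply]
    refine Finset.sum_congr rfl fun k _ => ?_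
    rw [map_smul, hcok, Pi.smul_apply, smul_eq_mul]
  have hg0 : g ≠ 0 := by
    intro hg
    apply hq0
    funext k0
    have h1 := hcog ((k0 : ℕ) : ZMod m)
    rw [hg, map_zero, Finset.sum_eq_single k0] at h1
    · rw [Pi.single_eq_same, mul_one] at h1
      exact h1.symm
    · intro k _ hk
      rw [Pi.single_eq_of_ne, mul_zero]
      intro h2
      apply hk
      have h3 := congrArg ZMod.val h2
      rw [hval, hval] at h3
      exact Fin.ext h3.symm
    · intro h2
      exact absurd (Finset.mem_univ _) h2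
  have hLn : n ≤ R0 d * n := by
    have : 0 < R0 d := by
      unfold R0
      positivity
    exact Nat.le_mul_of_pos_left n this
  have hw0 : ∀ l, h.co g l ≠ 0 → inw 0 (R0 d * n) l := by
    intro l hl
    rw [hcog] at hl
    obtain ⟨k, _, hk⟩ := Finset.exists_ne_zero_of_sum_ne_zero hl
    have h1 : l = ((k : ℕ) : ZMod m) := by
      by_contra h2
      rw [Pi.single_eq_of_ne h2, mul_zero] at hk
      exact hk rfl
    refine ⟨k, k.2.trans_le hLn, ?_⟩
    rw [h1, zero_add]
  have hgH : ∀ i l, h.co (g * c i) l ≠ 0 → l ∈ H := by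
    intro i l hl
    by_contra h1
    apply hl
    have h2 := hq (i, l) h1
    rw [← h2]
    simp only [g]
    rw [Finset.sum_mul, map_sum, Finset.sum_apply]
    simp only [Matrix.vecMul, dotProduct]
    refine Finset.sum_congr rfl fun k _ => ?_
    rw [smul_mul_assoc, map_smul, Pi.smul_apply, smul_eq_mul]
    rfl
  by_cases hLm : R0 d * n < m
  · obtain ⟨a, ha0, ha⟩ := cover H (R0 d * n) (R0 d) hH1 hLm hH2
    exact ⟨a, ha0, g, hg0, hw0, fun i l hl => ha l (hgH i l hl)⟩
  · refine ⟨fun _ => 0, rfl, g, hg0, hw0, fun i l _ => ⟨0, l.val, ?_, ?_⟩⟩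
    · exact (ZMod.val_lt l).trans_le (not_lt.1 hLm)
    · rw [zero_add, ZMod.natCast_zmod_val]

end Pool.Agent.H72.BD
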