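import Pool.Agent.H72.BD.Avoid
import Pool.Agent.H72.BD.SizOf
import Pool.Agent.H72.BD.WinOf

/-!
# Windows near rational positions with bounded denominators (MP_187c26_nt, Theorem V)

CONSTANTS. `K = K1 b d`, `Q1 = 4 K ^ (R0 + 1)`, `H = 4 K ^ R0`, `(q0, k0)` from `forb b H Q1`, `M = Q1 !`, `W = M * (2 * q0)!`.
Given `T` (wlog `T ≥ 1`, replace by `T + 1`): `N1` from `kron M q0 k0 (T * W)`, `N = max (N1 * q0) T`, `G = 4 N`, `Z` very large, `n_w = m / Z` (natural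
division), `ℓ0 = R0 n_w`, `ℓ_i = ℓ0 G ^ i`, `k_i = N ℓ_i`, `gap_i = 3 N ℓ_i`, `L_i = ℓ_(i+1) = 4 N ℓ_i`.
The returned `N` is `max (N ^ (R0 + 1)) Z`, `c` very small.
PROOF. `P n ℓ R := Win h (cf F (α ^ n) d) ℓ R`. `win_of_siz` for `α` and `n_w` gives `P 1 ℓ0 R0`: `T_siz ρ ^ (n_w n_w) ≤ 2 ^ n_w` because
`T_siz = I ^ (2 (d + 1)) exp (2 d m h) ≤ exp ((2 (d + 1) + 2 d) c m) ≤ 2 ^ (n_w / 2)`-ish (`m ≥ Z`, `n_w ≥ m / (2 Z)`) and
`ρ ^ (n_w n_w) = b ^ (n_w n_w / m) ≤ b ^ (n_w / Z) ≤ 2 ^ (n_w / 2)`. `stab` gives `n0 ≤ N ^ R0`, `i ≤ R0`, `R ≤ R0`, `P n0 ℓ_i R`, minimal up to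
`n' ≤ N` at length `ℓ_(i+1)`. From `Win` we get `a` with `a 0 = 0`; replace `a j` by `a j % m` (`inw` only depends on it modulo `m`).
`Setup` holds with `ℓ = ℓ_i`, `k = N ℓ_i`, `gap = 3 N ℓ_i`, `L = 4 N ℓ_i`, `T = T_siz` for the exponents `n ≤ n0 N ≤ N ^ (R0 + 1)`:
`exp (2 d m n h) ≤ exp (2 d m N ^ (R0 + 1) c)`; `hQ`: `b ^ (4 N N ℓ_i) ≤ 2 ^ m` as `ℓ_i ≤ R0 (m / Z) (4 N) ^ R0` and `b ^ y ≤ 2 ^ (b y)`.
`near_pos` gives `h M a_j ≡ small`; `W` is a multiple of `h M` (`h ≤ 2 q0`): multiply. `chain` for `n' = 1` (`Rep` for `α ^ n0` with windows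
`1 * a j % m = a j`), `chain_size` for `n' = 1`, `Q ≤ T ≤ N`. `T ℓ_i ≤ m` by the choice of `Z`.
-/

set_option autoImplicit false

open Polynomial NumberField

namespace Pool.Agent.H72.BD

theorem siz_mono {F : Type} [Field F] [NumberField F] {ι : Type} [Fintype ι] {x : F} {c : ι → F}
    {D T T' : ℝ} (hT : T ≤ T') (h : Siz x c D T) : Siz x c D T' := by
  obtain ⟨N, h1, h2, h3, h4⟩ := h
  exact ⟨N, h1, h2, h3, h4.trans hT⟩

theorem winAt_mod {b m : ℕ} [NeZero m] {F : Type} [Field F] [NumberField F] {x : F}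
    (h : Rad b m F x) {d R : ℕ} (c : Fin (d + 1) → F) (a : Fin (R + 1) → ℕ) (ℓ : ℕ)
    (hw : WinAt h c a ℓ) : WinAt h c (fun j => a j % m) ℓ := by
  obtain ⟨g, hg, h1, h2⟩ := hw
  refine ⟨g, hg, h1, fun i l hl => ?_⟩
  obtain ⟨j, e, he, hle⟩ := h2 i l hl
  refine ⟨j, e, he, ?_⟩
  rw [hle]
  push_cast
  rw [ZMod.natCast_mod]

theorem pow_le_two_pow (b y : ℕ) : b ^ y ≤ 2 ^ (b * y) := by
  rw [pow_mul]
  exact Nat.pow_le_pow_left b.lt_two_pow_self.le y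

/-- The numerical part: the size bound. -/
theorem siz_num {b m : ℕ} [NeZero m] {F : Type} [Field F] [NumberField F] {x : F}
    (h : Rad b m F x) {Ω : Type} [Field Ω] [CharZero Ω] [Algebra F Ω] (α : Ω)
    (hα : IsIntegral ℚ α) (d n N2 Z w : ℕ) (hd1 : 1 ≤ d) (hn : n ≤ N2) (hZ : 1 ≤ Z)
    (hN2 : 1 ≤ N2) (hw : (m : ℝ) ≤ 2 * Z * w) (c : ℝ) (hc0 : 0 < c)
    (hc : c * (8 * (4 * d + 2) * N2 * Z) ≤ 1) (hd : (minpoly F (α ^ n)).natDegree = d)
    (hh : absLogHeight₁ α ≤ c)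
    (hI : ((zx x).relIndex (ints F) : ℝ) ≤ Real.exp (c * m)) :
    Siz x (cf F (α ^ n) d) (4 ^ d) (Real.exp (w / 4)) := by
  have h1 := siz_of h (α ^ n) (hα.pow n) d hd _ le_rfl
  refine siz_mono ?_ h1
  rw [Pool.Agent.H4.RR.absLogHeight_pow Ω α hα n]
  have h2 : ((zx x).relIndex (ints F) : ℝ) ^ (2 * (d + 1)) ≤
      Real.exp ((2 * (d + 1) : ℕ) * (c * m)) := by
    rw [Real.exp_nat_mul]
    exact pow_le_pow_left₀ (Nat.cast_nonneg _) hI _
  refine (mul_le_mul_of_nonneg_right h2 (Real.exp_nonneg _)).trans ?_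
  rw [← Real.exp_add]
  apply Real.exp_le_exp.2
  have hm0 : (0 : ℝ) ≤ m := Nat.cast_nonneg m
  have hd0 : (1 : ℝ) ≤ d := by exact_mod_cast hd1
  have hZ0 : (1 : ℝ) ≤ Z := by exact_mod_cast hZ
  have hN0 : (1 : ℝ) ≤ N2 := by exact_mod_cast hN2
  have hn0 : (n : ℝ) ≤ N2 := by exact_mod_cast hn
  have h3 : (n : ℝ) * absLogHeight₁ α ≤ N2 * c := by
    calc (n : ℝ) * absLogHeight₁ α ≤ n * c := mul_le_mul_of_nonneg_left hh (Nat.cast_nonneg n)
      _ ≤ N2 * c := mul_le_mul_of_nonneg_right hn0 hc0.le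
  have h4 : 2 * ((d : ℝ) * m * (n * absLogHeight₁ α)) ≤ 2 * (d * m * (N2 * c)) := by
    have : (d : ℝ) * m * (n * absLogHeight₁ α) ≤ d * m * (N2 * c) :=
      mul_le_mul_of_nonneg_left h3 (by positivity)
    linarith
  have h5 : ((2 * (d + 1) : ℕ) : ℝ) * (c * m) ≤ 2 * (d + 1) * N2 * (c * m) := by
    push_cast
    have : (0 : ℝ) ≤ c * m := by positivity
    nlinarith [mul_nonneg (show (0 : ℝ) ≤ 2 * (d + 1) by positivity) this]
  have h6 : 2 * (d + 1) * (N2 : ℝ) * (c * m) + 2 * (d * m * (N2 * c)) =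
      (4 * d + 2) * N2 * c * m := by ring
  have h7 : (4 * d + 2) * (N2 : ℝ) * c * m ≤ (4 * d + 2) * N2 * c * (2 * Z * w) :=
    mul_le_mul_of_nonneg_left hw (by positivity)
  have h8 : (4 * d + 2) * (N2 : ℝ) * c * (2 * Z * w) =
      c * (8 * (4 * d + 2) * N2 * Z) * (w / 4) := by ring
  have h9 : c * (8 * (4 * d + 2) * N2 * Z) * ((w : ℝ) / 4) ≤ 1 * (w / 4) :=
    mul_le_mul_of_nonneg_right hc (by positivity)
  linarith

/-- The numerical part: powers of `ρ`. -/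
theorem rho_num (b m w : ℕ) (hb : 2 ≤ b) (hm : 1 ≤ m) (hw : 2 * b * w ≤ m) :
    rho b m ^ (w * w) ≤ Real.exp (w / 2 * Real.log 2) := by
  have hρ : 0 < rho b m := rho_pos b m (by omega)
  have h1 : (rho b m ^ (w * w)) ^ (2 * m) ≤ (Real.exp (w / 2 * Real.log 2)) ^ (2 * m) := by
    rw [← pow_mul, mul_comm (w * w), mul_comm 2 m, mul_assoc m 2 (w * w), pow_mul,
      rho_pow b m (by omega), ← Real.exp_nat_mul]
    have h2 : ((m * 2 : ℕ) : ℝ) * (w / 2 * Real.log 2) = ((w * m : ℕ) : ℝ) * Real.log 2 := by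
      push_cast
      ring
    rw [h2, Real.exp_nat_mul, Real.exp_log (by norm_num)]
    have h3 : b ^ (2 * (w * w)) ≤ 2 ^ (w * m) := by
      refine (pow_le_two_pow b _).trans (Nat.pow_le_pow_right (by norm_num) ?_)
      calc b * (2 * (w * w)) = w * (2 * b * w) := by ring
        _ ≤ w * m := Nat.mul_le_mul_left _ hw
    exact_mod_cast h3
  exact le_of_pow_le_pow_left₀ (by omega) (Real.exp_nonneg _) h1

theorem near (b d : ℕ) (hb : 2 ≤ b) (hd : 1 ≤ d) : ∃ W : ℕ, 1 ≤ W ∧ ∀ T : ℕ,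
    ∃ (N : ℕ) (c : ℝ), 1 ≤ N ∧ 0 < c ∧ ∀ (m : ℕ) [NeZero m] (F : Type) [Field F] [NumberField F]
      (x : F) (h : Rad b m F x) (Ω : Type) [Field Ω] [CharZero Ω] [Algebra F Ω] (α : Ω),
      IsIntegral ℚ α → N ≤ m → (∀ n, 1 ≤ n → n ≤ N → (minpoly F (α ^ n)).natDegree = d) →
      absLogHeight₁ α ≤ c → ((zx x).relIndex (ints F) : ℝ) ≤ Real.exp (c * m) →
      ∃ (n R ℓ gap : ℕ) (a : Fin (R + 1) → ℕ) (v : Fin (d + 1) → Fin (R + 1) → ℤ[X]),
        1 ≤ n ∧ n ≤ N ∧ R ≤ R0 d ∧ Rep m x (cf F (α ^ n) d) ℓ gap a v ∧ T * ℓ ≤ m ∧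
        (∀ j, ∃ k : ℤ, |(W : ℤ) * a j - k * m| * T ≤ m) ∧
        ∀ Q : ℕ, 1 ≤ Q → Q ≤ T →
          ∏ φ : F →+* ℂ, wt b m a v (φ x ^ Q) ≤ (Cc b d : ℝ) ^ m := by
  obtain ⟨q0, hq0, hQ1, k0, hk0, hf⟩ := forb b (4 * K1 b d ^ R0 d) (4 * K1 b d ^ (R0 d + 1)) hb
  set Q1 : ℕ := 4 * K1 b d ^ (R0 d + 1) with hQ1def
  set M : ℕ := Q1.factorial with hM
  have hM1 : 1 ≤ M := Nat.factorial_pos _
  have hq01 : 1 ≤ q0 := hq0.one_lt.le
  set W : ℕ := M * (2 * q0).factorial with hW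
  have hW1 : 1 ≤ W := Nat.mul_pos hM1 (Nat.factorial_pos _)
  refine ⟨W, hW1, fun T => ?_⟩
  obtain ⟨N1, hN1, hkr⟩ := kron M q0 k0 ((T + 1) * W) hM1 hq01 hk0
  set N : ℕ := N1 * q0 * (T + 1) with hN
  have hN1q : N1 * q0 ≤ N := Nat.le_mul_of_pos_right _ (by omega)
  have hN0 : 1 ≤ N := le_trans (Nat.mul_pos hN1 hq01) hN1q
  have hTN : T ≤ N := by
    have : 1 * (T + 1) ≤ N1 * q0 * (T + 1) := Nat.mul_le_mul_right _ (Nat.mul_pos hN1 hq01)
    omega
  set r : ℕ := R0 d with hr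
  have hr1 : 1 ≤ r := Nat.pos_of_ne_zero (by rw [hr]; unfold R0; positivity)
  set G : ℕ := 4 * N with hG
  have hG1 : 1 ≤ G := by omega
  set N2 : ℕ := N ^ r * N with hN2
  have hN2' : 1 ≤ N2 := Nat.mul_pos (Nat.pow_pos hN0) hN0
  set Y : ℕ := r * G ^ r with hY
  have hY1 : 1 ≤ Y := Nat.mul_pos hr1 (Nat.pow_pos hG1)
  set Z : ℕ := 4 * b * (N * N) * Y with hZ
  have hZ1 : 1 ≤ Z := by
    have : 1 ≤ 4 * b := by omega
    exact Nat.mul_pos (Nat.mul_pos this (Nat.mul_pos hN0 hN0)) hY1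
  set c : ℝ := 1 / (8 * (4 * d + 2) * N2 * Z) with hc
  have hden : (0 : ℝ) < 8 * (4 * d + 2) * N2 * Z := by
    have h1 : (0 : ℝ) < N2 := by exact_mod_cast hN2'
    have h2 : (0 : ℝ) < Z := by exact_mod_cast hZ1
    positivity
  have hc0 : 0 < c := by rw [hc]; positivity
  have hc1 : c * (8 * (4 * d + 2) * N2 * Z) ≤ 1 := by
    rw [hc, div_mul_cancel₀ _ hden.ne']
  refine ⟨max N2 Z, c, le_max_of_le_left hN2', hc0, ?_⟩
  intro m _ F _ _ x h Ω _ _ _ α hα hmN hdeg hh hI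
  have hm1 : 1 ≤ m := h.one_le
  have hZm : Z ≤ m := (le_max_right _ _).trans hmN
  set w : ℕ := m / Z with hw
  have hw1 : 1 ≤ w := (Nat.one_le_div_iff (by omega)).2 hZm
  have hwm : Z * w ≤ m := Nat.mul_div_le m Z
  have hwm2 : (m : ℝ) ≤ 2 * Z * w := by
    have h1 : m < Z * (w + 1) := Nat.lt_mul_div_succ m (by omega)
    have h2 : m ≤ 2 * Z * w := by
      have : Z * (w + 1) ≤ 2 * Z * w := by nlinarith
      omega
    exact_mod_cast h2
  have hsiz : ∀ n, 1 ≤ n → n ≤ N2 → Siz x (cf F (α ^ n) d) (4 ^ d) (Real.exp (w / 4)) := by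
    intro n hn1 hn2
    exact siz_num h α hα d n N2 Z w hd hn2 hZ1 hN2' hwm2 c hc0 hc1
      (hdeg n hn1 (hn2.trans (le_max_left _ _))) hh hI
  have hlog : (1 : ℝ) / 2 ≤ Real.log 2 := by
    have := Real.log_two_gt_d9
    linarith
  have hexp : Real.exp ((w : ℝ) / 4) ≤ Real.exp (w / 2 * Real.log 2) := by
    apply Real.exp_le_exp.2
    have : (0 : ℝ) ≤ w := Nat.cast_nonneg w
    nlinarith
  have h2w : Real.exp (w / 2 * Real.log 2) * Real.exp (w / 2 * Real.log 2) = 2 ^ w := by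
    rw [← Real.exp_add]
    have : (w : ℝ) / 2 * Real.log 2 + w / 2 * Real.log 2 = w * Real.log 2 := by ring
    rw [this, Real.exp_nat_mul, Real.exp_log (by norm_num)]
  have hone : (1 : ℝ) ≤ Real.exp (w / 2 * Real.log 2) := by
    apply Real.one_le_exp
    have : (0 : ℝ) ≤ w := Nat.cast_nonneg w
    positivity
  have hT2 : Real.exp ((w : ℝ) / 4) ≤ 2 ^ w := by
    rw [← h2w]
    nlinarith
  -- the first windows
  have hα1 : cf F (α ^ 1) d = cf F α d := by rw [pow_one]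
  have hαF : ∀ n : ℕ, IsIntegral F (α ^ n) := fun n => (hα.tower_top).pow n
  have hwin0 : Win h (cf F (α ^ 1) d) (r * w) r := by
    refine win_of_siz h _ (cf_last _ d (hαF 1) (hdeg 1 le_rfl (le_max_of_le_left hN2'))) _
      (hsiz 1 le_rfl hN2') w hw1 ?_ ?_
    · calc w ≤ Z * w := Nat.le_mul_of_pos_left _ (by omega)
        _ ≤ m := hwm
    · have h3 : rho b m ^ (w * w) ≤ Real.exp (w / 2 * Real.log 2) := by
        refine rho_num b m w hb hm1 ?_
        calc 2 * b * w ≤ Z * w := by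
              refine Nat.mul_le_mul_right _ ?_
              have h5 : 2 * b * 1 ≤ 4 * b * (N * N * Y) := by
                refine Nat.mul_le_mul (by omega) ?_
                exact Nat.mul_pos (Nat.mul_pos hN0 hN0) hY1
              calc 2 * b = 2 * b * 1 := (mul_one _).symm
                _ ≤ 4 * b * (N * N * Y) := h5
                _ = Z := by rw [hZ]; ring
          _ ≤ m := hwm
      rw [← h2w]
      exact mul_le_mul hexp h3 (pow_nonneg (rho_pos b m (by omega)).le _) (Real.exp_nonneg _)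
  obtain ⟨n0, i, R, hR, hi, hsm0, hn0, hn0N, hP, hmin⟩ :=
    stab (fun n ℓ R => Win h (cf F (α ^ n) d) ℓ R)
      (fun n ℓ ℓ' R hℓ hw' => win_mono h _ ℓ ℓ' R hℓ hw') Q1 N G (r * w) r hG1 hN0 hwin0
  set ℓ : ℕ := r * w * G ^ i with hℓ
  have hℓ1 : 1 ≤ ℓ := Nat.mul_pos (Nat.mul_pos hr1 hw1) (Nat.pow_pos hG1)
  have hℓY : ℓ ≤ Y * w := by
    rw [hℓ, hY]
    calc r * w * G ^ i ≤ r * w * G ^ r :=
          Nat.mul_le_mul_left _ (Nat.pow_le_pow_right hG1 hi)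
      _ = r * G ^ r * w := by ring
  have hbig : 4 * b * (N * N) * ℓ ≤ m := by
    calc 4 * b * (N * N) * ℓ ≤ 4 * b * (N * N) * (Y * w) := Nat.mul_le_mul_left _ hℓY
      _ = Z * w := by rw [hZ]; ring
      _ ≤ m := hwm
  have hwℓ : w ≤ N * ℓ := by
    have h1 : w ≤ ℓ := by
      rw [hℓ, mul_assoc, mul_comm r, mul_assoc]
      exact Nat.le_mul_of_pos_right _ (Nat.mul_pos (Nat.pow_pos hG1) hr1)
    exact h1.trans (Nat.le_mul_of_pos_left _ hN0)
  obtain ⟨a', ha0', hwin'⟩ := hP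
  have hsetup : Setup h α d R n0 N ℓ (3 * (N * ℓ)) (N * ℓ) (r * w * G ^ (i + 1)) Q1
      (fun j => a' j % m) (Real.exp (w / 4)) :=
    { int := hα
      a0 := by simp [ha0']
      am := fun j => Nat.mod_lt _ hm1
      hR := hR
      hℓ := hℓ1
      hn0 := hn0
      deg := fun n hn1 hn2 => hdeg n hn1 ((hn2.trans (by
        rw [hN2]; exact Nat.mul_le_mul_right _ hn0N)).trans (le_max_left _ _))
      siz := fun n hn1 hn2 => hsiz n hn1 (hn2.trans (by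
        rw [hN2]; exact Nat.mul_le_mul_right _ hn0N))
      hT := hT2.trans (pow_le_pow_right₀ (by norm_num) hwℓ)
      hk := le_rfl
      hgap := by omega
      hgm := by
        refine le_trans ?_ hbig
        have h5 : 3 ≤ 4 * b := by omega
        calc 3 * (N * ℓ) ≤ 4 * b * (N * ℓ) := Nat.mul_le_mul_right _ h5
          _ ≤ 4 * b * (N * (N * ℓ)) :=
            Nat.mul_le_mul_left _ (Nat.mul_le_mul_left _ (Nat.le_mul_of_pos_left _ hN0))
          _ = 4 * b * (N * N) * ℓ := by ring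
      hL := by
        rw [pow_succ, hG, hℓ, hG]
        exact le_of_eq (by ring)
      hQ := by
        refine (pow_le_two_pow b _).trans (Nat.pow_le_pow_right (by norm_num) ?_)
        refine le_trans (le_of_eq ?_) hbig
        ring
      hh := by
        have h1 : (n0 : ℝ) * N * d ≤ N2 * d := by
          have : n0 * N ≤ N2 := Nat.mul_le_mul_right _ hn0N
          have h2 : (n0 : ℝ) * N ≤ N2 := by exact_mod_cast this
          exact mul_le_mul_of_nonneg_right h2 (Nat.cast_nonneg d)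
        have h2 : (n0 : ℝ) * N * d * absLogHeight₁ α ≤ n0 * N * d * c :=
          mul_le_mul_of_nonneg_left hh (by positivity)
        have h3 : (n0 : ℝ) * N * d * c ≤ N2 * d * c :=
          mul_le_mul_of_nonneg_right h1 hc0.le
        have h4 : (N2 : ℝ) * d * c ≤ 1 / 2 := by
          have h5 : (1 : ℝ) ≤ Z := by exact_mod_cast hZ1
          have h6 : (0 : ℝ) ≤ N2 * c := by positivity
          have h7 : (0 : ℝ) ≤ (d : ℝ) := Nat.cast_nonneg d
          have h8 : c * (8 * (4 * d + 2) * N2 * Z) = N2 * c * (8 * (4 * d + 2)) * Z := by ring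
          have h9 : N2 * c * (8 * (4 * d + 2)) ≤ N2 * c * (8 * (4 * d + 2)) * Z :=
            le_mul_of_one_le_right (by positivity) h5
          have h10 : N2 * c * (8 * (4 * (d : ℝ) + 2)) ≤ 1 := h9.trans (h8 ▸ hc1)
          nlinarith [mul_nonneg h6 h7]
        linarith
      win := winAt_mod h _ _ _ hwin'
      hmin := hmin
      hQ1 := le_rfl }
  obtain ⟨v, hv⟩ := chain hsetup 1 (by
    intro p hp hp1
    exact absurd (Nat.dvd_one.1 hp1) hp.one_lt.ne') le_rfl hN0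
  have hv' := fun Q hQ hQN => chain_size hsetup 1 le_rfl hN0 v hv Q hQ hQN
  have ea : (fun j => 1 * (a' j % m) % m) = fun j => a' j % m := by
    funext j
    rw [one_mul, Nat.mod_mod]
  have ea' : (fun j : Fin (R + 1) => 1 * (fun j => a' j % m) j % m) = fun j => a' j % m := ea
  rw [mul_one, one_mul, ea'] at hv
  refine ⟨n0, R, ℓ, 3 * (N * ℓ), fun j => a' j % m, v, hn0, ?_, hR, hv, ?_, ?_, ?_⟩
  · refine le_max_of_le_left (hn0N.trans ?_)
    exact Nat.le_mul_of_pos_right _ hN0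
  · refine le_trans ?_ hbig
    calc T * ℓ ≤ N * ℓ := Nat.mul_le_mul_right _ hTN
      _ ≤ 4 * b * N * (N * ℓ) := Nat.le_mul_of_pos_left _ (Nat.mul_pos (by omega) hN0)
      _ = 4 * b * (N * N) * ℓ := by ring
  · intro j
    obtain ⟨h', hh1, hh2, k, hk⟩ := near_pos hsetup q0 k0 M N1 ((T + 1) * W) hq0 hQ1 hf
      (fun p hp hpQ => (Nat.Prime.dvd_factorial hp).2 hpQ.le) hN1q
      (fun m a hm hx => hkr m a hm hx) j
    obtain ⟨w', hw'⟩ := Nat.dvd_factorial (by omega : 0 < h') hh2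
    have hWw : W = M * h' * w' := by rw [hW, hw']; ring
    have hw'W : w' ≤ W := by
      rw [hWw]
      exact Nat.le_mul_of_pos_left _ (Nat.mul_pos hM1 hh1)
    refine ⟨w' * k, ?_⟩
    have e1 : (W : ℤ) * ((fun j => a' j % m) j : ℕ) - w' * k * m =
        w' * ((h' : ℤ) * M * ((fun j => a' j % m) j : ℕ) - k * m) := by
      rw [hWw]
      push_cast
      ring
    rw [e1, abs_mul, Nat.abs_cast]
    refine le_trans ?_ hk
    have h0 := abs_nonneg ((h' : ℤ) * M * ((fun j => a' j % m) j : ℕ) - k * m)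
    set A := |(h' : ℤ) * M * ((fun j => a' j % m) j : ℕ) - k * m|
    push_cast
    have h1 : (w' : ℤ) * T ≤ (T + 1) * W := by
      have : (w' : ℤ) ≤ W := by exact_mod_cast hw'W
      have hT0 : (0 : ℤ) ≤ T := Int.natCast_nonneg T
      have hw0 : (0 : ℤ) ≤ w' := Int.natCast_nonneg w'
      nlinarith
    calc (w' : ℤ) * A * T = A * (w' * T) := by ring
      _ ≤ A * ((T + 1) * W) := mul_le_mul_of_nonneg_left h1 h0
  · intro Q hQ hQT
    have := hv' Q hQ (hQT.trans hTN)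
    rw [ea'] at this
    exact this

end Pool.Agent.H72.BD
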