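import Mathlib

/-!
# A forbidden exponent, and a Kronecker type lemma (MP_187c26_nt, Theorem V, S4 and S5)

PROOF of `forb`: let `B = (2 H + 1) ^ 2` and `q` a prime larger than `Q1`, `b`, `B` and `b ^ B`. If no `k0 ≤ B` works, there are
`(s, s')` for each `k0 ≤ B` with `s ≡ s' b ^ k0`, `|s|, |s'| ≤ H`, `q ∤ s'`; by the pigeonhole principle two `k0 < k1 ≤ B` have the same
pair, so `s' b ^ k0 ≡ s' b ^ k1 mod q`, `q ∣ b ^ (k1 - k0) - 1`, and `0 < b ^ (k1 - k0) - 1 < q`, contradiction.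

PROOF of `kron`: `N = 1 + M * (2 * q0) * (2 * T + 2)` is enough (make it larger if needed). `θ = a / m`. Dirichlet
(`Real.exists_int_int_abs_mul_sub_le` or `AddCircle`, or pigeonhole): there are `1 ≤ h ≤ 2 q0` and `k : ℤ` with
`|h M θ - k| ≤ 1 / (2 q0 + 1) < 1 / q0`. If `|h M a - k m| T ≤ m` we are done. Otherwise
`δ = h M θ - k` satisfies `1 / T < |δ| < 1 / q0` (`T ≥ 1`; if `T = 0` the conclusion is trivial); the numbers
`n_t θ = θ + t (h M θ)`, `n_t = 1 + M h t`, are modulo `1` the numbers `θ + t δ`, `0 ≤ t ≤ T + 1`; they run through an interval of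
length `≥ 1` with steps `< 1 / q0`, so one of them is modulo `1` in the half open interval `[k0 / q0, (k0 + 1) / q0)`: for it
`n a % m = m {n θ}` and `q0 (n a % m) / m = k0`, contradiction to the hypothesis (`n ≡ 1 mod M`, `n ≤ N`).
-/

set_option autoImplicit false

namespace Pool.Agent.H72.BD

theorem forb (b H Q1 : ℕ) (hb : 2 ≤ b) : ∃ q : ℕ, q.Prime ∧ Q1 ≤ q ∧ ∃ k0 : ℕ, k0 < q ∧
    ∀ s s' : ℤ, |s| ≤ H → |s'| ≤ H → ¬ (q : ℤ) ∣ s' → ¬ (q : ℤ) ∣ s - s' * (b : ℤ) ^ k0 := by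
  classical
  set B : ℕ := (2 * H + 1) ^ 2 with hB
  obtain ⟨q, hq1, hq2⟩ := Nat.exists_infinite_primes (Q1 + b + B + b ^ B + 1)
  refine ⟨q, hq2, by omega, ?_⟩
  by_contra hcon
  push Not at hcon
  have h1 : ∀ k : Fin (B + 1), ∃ s s' : ℤ, |s| ≤ H ∧ |s'| ≤ H ∧ ¬ (q : ℤ) ∣ s' ∧
      (q : ℤ) ∣ s - s' * (b : ℤ) ^ k.1 := by
    intro k
    exact hcon k.1 (by have := k.2; omega)
  choose s s' h2 h3 h4 h5 using h1
  let I : Finset ℤ := Finset.Icc (-(H : ℤ)) H
  have hI : I.card = 2 * H + 1 := by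
    simp only [I, Int.card_Icc]
    omega
  have hcard : (I ×ˢ I).card < (Finset.univ : Finset (Fin (B + 1))).card := by
    rw [Finset.card_product, hI, Finset.card_univ, Fintype.card_fin, hB, sq]
    exact Nat.lt_succ_self _
  obtain ⟨k, -, l, -, hkl, he⟩ := Finset.exists_ne_map_eq_of_card_lt_of_maps_to hcard
    (f := fun k => (s k, s' k)) (by
      intro k _
      have ha := abs_le.1 (h2 k)
      have hb := abs_le.1 (h3 k)
      simp only [Finset.coe_product, Set.mem_prod, Finset.mem_coe, I, Finset.mem_Icc]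
      exact ⟨ha, hb⟩)
  have key : ∀ k l : Fin (B + 1), k < l → s k = s l → s' k = s' l → False := by
    intro k l hkl e1 e2
    have h6 := h5 k
    have h7 := h5 l
    rw [← e1, ← e2] at h7
    have h8 : (q : ℤ) ∣ s' k * ((b : ℤ) ^ l.1 - (b : ℤ) ^ k.1) := by
      have := dvd_sub h6 h7
      have h9 : s k - s' k * (b : ℤ) ^ k.1 - (s k - s' k * (b : ℤ) ^ l.1) =
        s' k * ((b : ℤ) ^ l.1 - (b : ℤ) ^ k.1) := by ring
      rwa [h9] at this
    have hqp : Prime (q : ℤ) := Nat.prime_iff_prime_int.1 hq2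
    have h9 := (hqp.dvd_or_dvd h8).resolve_left (h4 k)
    have hk : k.1 < l.1 := hkl
    have h10 : (b : ℤ) ^ l.1 - (b : ℤ) ^ k.1 = (b : ℤ) ^ k.1 * ((b : ℤ) ^ (l.1 - k.1) - 1) := by
      rw [mul_sub, ← pow_add, mul_one]
      congr 2
      omega
    rw [h10] at h9
    rcases hqp.dvd_or_dvd h9 with h11 | h11
    · have h12 := hqp.dvd_of_dvd_pow h11
      have h13 : q ∣ b := by exact_mod_cast h12
      have h14 := Nat.le_of_dvd (by omega) h13
      omega
    · have h12 : 1 < b ^ (l.1 - k.1) := Nat.one_lt_pow (by omega) (by omega)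
      have h13 : b ^ (l.1 - k.1) ≤ b ^ B := Nat.pow_le_pow_right (by omega) (by have := l.2; omega)
      have h14 : (q : ℤ) ∣ ((b ^ (l.1 - k.1) - 1 : ℕ) : ℤ) := by
        rw [Nat.cast_sub h12.le]
        push_cast
        exact h11
      have h15 : q ∣ b ^ (l.1 - k.1) - 1 := by exact_mod_cast h14
      have h16 := Nat.le_of_dvd (by omega) h15
      omega
  have he1 : s k = s l := congrArg Prod.fst he
  have he2 : s' k = s' l := congrArg Prod.snd he
  rcases lt_or_gt_of_ne hkl with h | h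
  · exact key k l h he1 he2
  · exact key l k h he1.symm he2.symm

end Pool.Agent.H72.BD
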