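import Mathlib

/-!
# A forbidden exponent, and a Kronecker type lemma (MP_187c26_nt, Theorem V, S4 and S5)

PROOF of `forb`: let `B = (2 H + 1) ^ 2` and `q` a prime larger than `Q1`, `b`, `B` and `b ^ B`. If no `k0 ≤ B` works, there are
`(s, s')` for each `k0 ≤ B` with `s ≡ s' b ^ k0`, `|s|, |s'| ≤ H`, `q ∤ s'`; by the pigeonhole principle two `k0 < k1 ≤ B` have the same
pair, so `s' b ^ k0 ≡ s' b ^ k1 mod q`, `q ∣ b ^ (k1 - k0) - 1`, and `0 < b ^ (k1 - k0) - 1 < q`, contradiction.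

PROOF of `kron`: `N = 1 + M * (2 * q0) * (2 * T + 2)` is enough (make it larger if needed). `θ = a / m`. Dirichlet
(`Real.exists_int_int_abs_mul_sub_le` or `AddCircle`, or pigeonhole): there are `1 ≤ h ≤ 2 q0` and `k : ℤ` with
`|h M θ - k| ≤ 1 / (2 q0 + 1) < 1 / q0`. If `|h M a - k m| T ≤ m` we are done. Otherwise
`δ = h M θ - k` satisfies `1 / T < |δ| < 1 / q0` (`T ≥ 1`; if `T = 0` the conclusion is trivial); the numbers
`n_t θ = θ + t (h M θ)`, `n_t = 1 + M h t`, are modulo `1` the numbers `θ + t δ`, `0 ≤ t ≤ T + 1`; they run through an interval of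
length `≥ 1` with steps `< 1 / q0`, so one of them is modulo `1` in the half open interval `[k0 / q0, (k0 + 1) / q0)`: for it
`n a % m = m {n θ}` and `q0 (n a % m) / m = k0`, contradiction to the hypothesis (`n ≡ 1 mod M`, `n ≤ N`).
-/

set_option autoImplicit false

namespace Pool.Agent.H72.BD

private theorem kron_walk (m q k x d : ℤ) (T : ℕ) (hm : 0 < m) (hk : 0 ≤ k) (hq : k < q) (h1 : |d| * q < m)
    (h2 : m < |d| * T) :
    ∃ t : ℕ, t ≤ T ∧ ∃ s : ℤ, (k + s * q) * m ≤ q * (x + t * d) ∧ q * (x + t * d) < (k + s * q + 1) * m := by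
  have hq0 : 0 < q := by omega
  have hqm : 0 < q * m := mul_pos hq0 hm
  have hd0 : d ≠ 0 := by
    rintro rfl
    rw [abs_zero, zero_mul] at h2
    omega
  rcases lt_or_gt_of_ne hd0 with hd | hd
  · rw [abs_of_neg hd] at h1 h2
    have hqD : 0 < q * (-d) := mul_pos hq0 (by omega)
    obtain ⟨f, hf⟩ : ∃ f, f = (q * x - k * m) % (q * m) := ⟨_, rfl⟩
    obtain ⟨s, hs⟩ : ∃ s, s = (q * x - k * m) / (q * m) := ⟨_, rfl⟩
    have e1 : q * m * s + f = q * x - k * m := by rw [hf, hs]; exact Int.mul_ediv_add_emod _ _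
    have e2 : 0 ≤ f := hf ▸ Int.emod_nonneg _ hqm.ne'
    have e3 : f < q * m := hf ▸ Int.emod_lt_of_pos _ hqm
    obtain ⟨t, ht⟩ : ∃ t, t = f / (q * (-d)) := ⟨_, rfl⟩
    obtain ⟨r, hr⟩ : ∃ r, r = f % (q * (-d)) := ⟨_, rfl⟩
    have e4 : q * (-d) * t + r = f := by rw [ht, hr]; exact Int.mul_ediv_add_emod _ _
    have e5 : 0 ≤ r := hr ▸ Int.emod_nonneg _ hqD.ne'
    have e6 : r < q * (-d) := hr ▸ Int.emod_lt_of_pos _ hqD
    have e7 : 0 ≤ t := ht ▸ Int.ediv_nonneg e2 hqD.le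
    lift t to ℕ using e7
    have e8 : (t : ℤ) < T := by
      by_contra hcon
      push Not at hcon
      have e9 : q * (-d) * T ≤ q * (-d) * t := mul_le_mul_of_nonneg_left hcon hqD.le
      have e10 : q * m < q * (-d * T) := mul_lt_mul_of_pos_left h2 hq0
      nlinarith
    refine ⟨t, by omega, s, ?_, ?_⟩
    · nlinarith
    · nlinarith
  · rw [abs_of_pos hd] at h1 h2
    have hqD : 0 < q * d := mul_pos hq0 hd
    obtain ⟨f, hf⟩ : ∃ f, f = (k * m - q * x) % (q * m) := ⟨_, rfl⟩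
    obtain ⟨s, hs⟩ : ∃ s, s = (k * m - q * x) / (q * m) := ⟨_, rfl⟩
    have e1 : q * m * s + f = k * m - q * x := by rw [hf, hs]; exact Int.mul_ediv_add_emod _ _
    have e2 : 0 ≤ f := hf ▸ Int.emod_nonneg _ hqm.ne'
    have e3 : f < q * m := hf ▸ Int.emod_lt_of_pos _ hqm
    obtain ⟨t, ht⟩ : ∃ t, t = - ((-f) / (q * d)) := ⟨_, rfl⟩
    obtain ⟨r, hr⟩ : ∃ r, r = (-f) % (q * d) := ⟨_, rfl⟩
    have e4 : q * d * ((-f) / (q * d)) + r = - f := by rw [hr]; exact Int.mul_ediv_add_emod _ _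
    have e5 : 0 ≤ r := hr ▸ Int.emod_nonneg _ hqD.ne'
    have e6 : r < q * d := hr ▸ Int.emod_lt_of_pos _ hqD
    have e4' : q * d * t = f + r := by
      rw [ht]
      linear_combination -e4
    have e7 : 0 ≤ t := by
      by_contra hcon
      push Not at hcon
      have e9 : q * d * t < 0 := mul_neg_of_pos_of_neg hqD hcon
      omega
    lift t to ℕ using e7
    have e8 : (t : ℤ) ≤ T := by
      by_contra hcon
      push Not at hcon
      have e9 : q * d * (T + 1) ≤ q * d * t := mul_le_mul_of_nonneg_left (by omega) hqD.le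
      have e10 : q * m < q * (d * T) := mul_lt_mul_of_pos_left h2 hq0
      nlinarith
    refine ⟨t, by omega, -s, ?_, ?_⟩
    · nlinarith
    · nlinarith

theorem kron (M q0 k0 T : ℕ) (hM : 1 ≤ M) (hq0 : 1 ≤ q0) (hk0 : k0 < q0) :
    ∃ N : ℕ, 1 ≤ N ∧ ∀ m a : ℕ, 1 ≤ m →
      (∀ t : ℕ, 1 + M * t ≤ N → q0 * ((1 + M * t) * a % m) / m ≠ k0) →
      ∃ h : ℕ, 1 ≤ h ∧ h ≤ 2 * q0 ∧ ∃ k : ℤ, |(h : ℤ) * M * a - k * m| * T ≤ m := by
  refine ⟨1 + M * (2 * q0 * T), by omega, fun m a hm H => ?_⟩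
  by_contra hcon
  push Not at hcon
  have hm' : (0 : ℝ) < m := by exact_mod_cast hm
  obtain ⟨k, h, hh0, hh1, hk⟩ := Real.exists_int_int_abs_mul_sub_le ((M : ℝ) * a / m) (n := 2 * q0) (by omega)
  lift h to ℕ using hh0.le
  have hh2 : h ≤ 2 * q0 := by exact_mod_cast hh1
  have hh3 : 1 ≤ h := by exact_mod_cast hh0
  have hd1 := hcon h hh3 hh2 k
  obtain ⟨d, hd⟩ : ∃ d : ℤ, d = (h : ℤ) * M * a - k * m := ⟨_, rfl⟩
  rw [← hd] at hd1
  have hd2 : |d| * (2 * q0 + 1) ≤ m := by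
    have h1 : (d : ℝ) = ((h : ℝ) * ((M : ℝ) * a / m) - k) * m := by
      rw [hd]
      push_cast
      field_simp
    have h2 : |(d : ℝ)| * (2 * q0 + 1) ≤ m := by
      have h3 : (0 : ℝ) < 2 * q0 + 1 := by positivity
      rw [h1, abs_mul, abs_of_pos hm']
      have h4 : |(h : ℝ) * ((M : ℝ) * a / m) - k| ≤ 1 / (2 * q0 + 1) := by
        have h5 := hk
        push_cast at h5
        exact h5
      rw [le_div_iff₀ h3] at h4
      calc |(h : ℝ) * ((M : ℝ) * a / m) - k| * m * (2 * q0 + 1)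
          = (|(h : ℝ) * ((M : ℝ) * a / m) - k| * (2 * q0 + 1)) * m := by ring
        _ ≤ 1 * m := mul_le_mul_of_nonneg_right h4 hm'.le
        _ = m := one_mul _
    exact_mod_cast h2
  have hd0 : 0 < |d| := by
    rw [abs_pos]
    rintro rfl
    rw [abs_zero, zero_mul] at hd1
    omega
  have hd3 : |d| * (q0 : ℤ) < m := by
    have h1 : |d| * (q0 : ℤ) < |d| * (2 * q0 + 1) := mul_lt_mul_of_pos_left (by omega) hd0
    omega
  obtain ⟨t, ht, s, h1, h2⟩ := kron_walk m q0 k0 a d T (by omega) (by omega) (by omega) hd3 hd1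
  have hm0 : (0 : ℤ) < m := by exact_mod_cast hm
  have hq0' : (0 : ℤ) < q0 := by exact_mod_cast hq0
  -- the residue
  obtain ⟨r, hr⟩ : ∃ r : ℤ, r = a + t * d - s * m := ⟨_, rfl⟩
  have hr1 : (k0 : ℤ) * m ≤ q0 * r := by
    rw [hr]
    linear_combination h1
  have hr2 : (q0 : ℤ) * r < (k0 + 1) * m := by
    rw [hr]
    linear_combination h2
  have hr3 : 0 ≤ r := by
    by_contra hcon2
    push Not at hcon2
    have h3 : (q0 : ℤ) * r < 0 := mul_neg_of_pos_of_neg hq0' hcon2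
    have h4 : 0 ≤ (k0 : ℤ) * m := by positivity
    omega
  have hr4 : r < m := by
    by_contra hcon2
    push Not at hcon2
    have h3 : (q0 : ℤ) * m ≤ q0 * r := mul_le_mul_of_nonneg_left hcon2 hq0'.le
    have h4 : ((k0 : ℤ) + 1) * m ≤ q0 * m := mul_le_mul_of_nonneg_right (by omega) hm0.le
    omega
  lift r to ℕ using hr3
  have h5 : (((1 + M * (h * t)) * a % m : ℕ) : ℤ) = r := by
    push_cast
    have h6 : ((1 + M * (h * t)) * a : ℤ) = r + m * (t * k + s) := by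
      rw [hr, hd]
      ring
    rw [h6, Int.add_mul_emod_self_left]
    exact Int.emod_eq_of_lt (by omega) hr4
  have h6 : (1 + M * (h * t)) * a % m = r := by exact_mod_cast h5
  refine H (h * t) ?_ ?_
  · have h7 : h * t ≤ 2 * q0 * T := Nat.mul_le_mul hh2 ht
    have h8 : M * (h * t) ≤ M * (2 * q0 * T) := Nat.mul_le_mul_left M h7
    omega
  · rw [h6]
    apply Nat.div_eq_of_lt_le
    · exact_mod_cast hr1
    · exact_mod_cast hr2

end Pool.Agent.H72.BD
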