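import Pool.Agent.H72.BD.Chain
import Pool.Agent.H72.BD.Forb
import Pool.Agent.H72.BD.Kron
import Pool.Agent.H72.PB.HNonneg

/-!
# The windows are near rational positions (MP_187c26_nt, Theorem V, S5)

PROOF of `avoid`. `chain` for `n'` and for `n' q0` (`Sm Q1 q0`: `q0` is prime and `≥ Q1`): the first gives `v` and (`chain_size`, `Q = q0 ≤ N`) the
size; the second gives the separation of the windows `(n' q0) a_j % m = q0 (n' a_j % m) % m` with `gap ≥ q0 n' ℓ`. `two` for `α ^ (n0 n')`,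
`q = q0`, `a_j := n' a_j % m`: `s` with `|s_j| ≤ 4 K1 ^ R0`, `q0 ∤ s_0`, `q0 ∣ s_j - s_0 b ^ (q0 (n' a_j % m) / m)`; by the property of
`k0` (`forb` with `H = 4 K1 ^ R0`): `q0 (n' a_j % m) / m ≠ k0`.
PROOF of `near_pos`: `kron` for each `j` (`a = a j`), the hypothesis is `avoid` for `n' = 1 + M t ≤ N1`, `Sm Q1 (1 + M t)` by `sm_of_mod`.
-/

set_option autoImplicit false

open Polynomial NumberField

namespace Pool.Agent.H72.BD

variable {b m : ℕ} [NeZero m] {F : Type} [Field F] [NumberField F] {x : F}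
    {h : Rad b m F x} {Ω : Type} [Field Ω] [CharZero Ω] [Algebra F Ω] {α : Ω}
    {d R n0 N ℓ gap k L Q1 : ℕ} {a : Fin (R + 1) → ℕ} {T : ℝ}

theorem avoid (S : Setup h α d R n0 N ℓ gap k L Q1 a T) (q0 k0 : ℕ) (hq0 : q0.Prime)
    (hQ : Q1 ≤ q0) (hf : ∀ s s' : ℤ, |s| ≤ (4 * K1 b d ^ R0 d : ℕ) →
      |s'| ≤ (4 * K1 b d ^ R0 d : ℕ) → ¬ (q0 : ℤ) ∣ s' → ¬ (q0 : ℤ) ∣ s - s' * (b : ℤ) ^ k0)
    (n' : ℕ) (hsm : Sm Q1 n') (h1 : 1 ≤ n') (hN : n' * q0 ≤ N) (j : Fin (R + 1)) :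
    q0 * (n' * a j % m) / m ≠ k0 := by
  have hm : 0 < m := Nat.pos_of_ne_zero (NeZero.ne m)
  have hn'N : n' ≤ N := le_trans (Nat.le_mul_of_pos_right n' hq0.pos) hN
  have hsmq : Sm Q1 q0 := by
    intro p hp hpd
    rw [(Nat.prime_dvd_prime_iff_eq hp hq0).1 hpd]
    exact hQ
  obtain ⟨v, hv⟩ := chain S n' hsm h1 hn'N
  obtain ⟨v2, hv2⟩ := chain S (n' * q0) (hsm.mul hsmq) (Nat.mul_pos h1 hq0.pos) hN
  have hsize := chain_size S n' h1 hn'N v hv q0 hq0.pos (le_trans (Nat.le_mul_of_pos_left q0 h1) hN)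
  have e1 : ∀ i, q0 * (n' * a i % m) % m = n' * q0 * a i % m := by
    intro i
    rw [Nat.mul_mod_mod]
    congr 1
    ring
  have e2 : q0 * (n' * ℓ) ≤ gap := by
    calc q0 * (n' * ℓ) = n' * q0 * ℓ := by ring
      _ ≤ N * ℓ := Nat.mul_le_mul_right ℓ hN
      _ ≤ gap := by have := S.hgap; omega
  have hdeg : ∀ n, 1 ≤ n → n ≤ N → (minpoly F (α ^ (n0 * n))).natDegree = d := by
    intro n hn hn2
    exact S.deg _ (Nat.mul_pos S.hn0 hn) (Nat.mul_le_mul_left n0 hn2)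
  have e3 : (α ^ (n0 * n')) ^ q0 = α ^ (n0 * (n' * q0)) := by
    rw [← pow_mul]
    congr 1
    ring
  have hht : (q0 : ℝ) * d * absLogHeight₁ (α ^ (n0 * n')) ≤ Real.log 2 := by
    rw [Pool.Agent.H4.RR.absLogHeight_pow Ω α S.int]
    refine le_trans ?_ S.hh
    have h2 : ((n' * q0 : ℕ) : ℝ) ≤ N := by exact_mod_cast hN
    have h3 := Pool.Agent.H72.PB.ht_nonneg α
    push_cast at h2 ⊢
    have h4 : (q0 : ℝ) * d * (n0 * n' * absLogHeight₁ α) = (n' * q0) * (n0 * d * absLogHeight₁ α) := by ring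
    have h5 : (n0 : ℝ) * N * d * absLogHeight₁ α = N * (n0 * d * absLogHeight₁ α) := by ring
    rw [h4, h5]
    exact mul_le_mul_of_nonneg_right h2 (by positivity)
  obtain ⟨s, hs1, hs2, hs3⟩ := two h (α ^ (n0 * n')) (S.int.pow _) hv (hdeg n' h1 hn'N) q0 hq0
    (by rw [e3]; exact hdeg _ (Nat.mul_pos h1 hq0.pos) hN) S.hR hsize hht (S.hQ1.trans hQ)
    (by
      intro i i' hne
      have h2 := hv2.sep i i' hne
      beta_reduce at h2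
      rw [e1, e1]
      omega)
    (by
      intro i
      have h2 := hv2.wrap i
      beta_reduce at h2
      rw [e1]
      omega)
  intro hk
  have h2 := hs1 j
  beta_reduce at h2
  rw [hk] at h2
  have h3 : (4 * (K1 b d : ℤ) ^ R0 d) = ((4 * K1 b d ^ R0 d : ℕ) : ℤ) := by push_cast; rfl
  exact hf (s j) (s 0) (by rw [← h3]; exact hs3 j) (by rw [← h3]; exact hs3 0) hs2 h2

theorem near_pos (S : Setup h α d R n0 N ℓ gap k L Q1 a T) (q0 k0 M N1 T' : ℕ)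
    (hq0 : q0.Prime) (hQ : Q1 ≤ q0)
    (hf : ∀ s s' : ℤ, |s| ≤ (4 * K1 b d ^ R0 d : ℕ) →
      |s'| ≤ (4 * K1 b d ^ R0 d : ℕ) → ¬ (q0 : ℤ) ∣ s' → ¬ (q0 : ℤ) ∣ s - s' * (b : ℤ) ^ k0)
    (hM : ∀ p : ℕ, p.Prime → p < Q1 → p ∣ M) (hN : N1 * q0 ≤ N)
    (hkr : ∀ m a : ℕ, 1 ≤ m →
      (∀ t : ℕ, 1 + M * t ≤ N1 → q0 * ((1 + M * t) * a % m) / m ≠ k0) →
      ∃ h : ℕ, 1 ≤ h ∧ h ≤ 2 * q0 ∧ ∃ k : ℤ, |(h : ℤ) * M * a - k * m| * T' ≤ m)
    (j : Fin (R + 1)) :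
    ∃ h : ℕ, 1 ≤ h ∧ h ≤ 2 * q0 ∧ ∃ k : ℤ, |(h : ℤ) * M * a j - k * m| * T' ≤ m := by
  have hm : 1 ≤ m := Nat.pos_of_ne_zero (NeZero.ne m)
  refine hkr m (a j) hm fun t ht => ?_
  exact avoid S q0 k0 hq0 hQ hf (1 + M * t) (sm_of_mod Q1 M t hM) (by omega)
    (le_trans (Nat.mul_le_mul_right q0 ht) hN) j

end Pool.Agent.H72.BD
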