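import Pool.Agent.H69.BD.CL

/-!
# The Frobenius and product formula lemma (MP_187c26_nt, Theorem V)

PROOF. `E` = a number field `F(α)` (image in `Ω`; `[E : F]` finite). `y = ∑ i, u' i α ^ (Q i)`, `Q = q ^ f`, `y ≠ 0`. Product formula:
`∏ v, |y|_v = 1`. At a finite place `v ∤ q`: `|y|_v ≤ max (1, |α|_v) ^ (Q d)`. At `v ∣ q`: let `z_i = u i α ^ i`, `∑ z_i = 0`. If
`|α|_v ≤ 1`, `(∑ z_i) ^ Q ≡ ∑ z_i ^ Q mod q 𝓞_v`, so `y = ∑ (s u i ^ Q + q w i) α ^ (Q i) ≡ s (∑ z_i) ^ Q = 0 mod q 𝓞_v`; if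
`|α|_v > 1` the same for `z_i α ^ (-d)`. So `|y|_v ≤ |q|_v max (1, |α|_v) ^ (Q d)` for all finite `v`, and
`∏_(v finite) |q|_v = q ^ (- [E : ℚ])`. At an infinite place, for an embedding `σ : E → ℂ` over `φ : F → ℂ`:
`|σ y| ≤ (∑ i, |φ (u' i)|) max (1, |σ α|) ^ (Q d)`. So `q ^ [E : ℚ] ≤ H(α) ^ (Q d) ∏_(σ : E → ℂ) ∑ i, |φ_σ (u' i)|`
`= exp ([E : ℚ] Q d h(α)) (∏_φ ∑ i, |φ (u' i)|) ^ [E : F]` (`prod_comp_embeddings`, `absLogHeight_eq` of `Pool/Agent/H4/RR/AbsHeight.lean`);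
take the `[E : F]`-th root.
-/

set_option autoImplicit false

open NumberField

namespace Pool.Agent.H72.BD

theorem cl {F : Type} [Field F] [NumberField F] {Ω : Type} [Field Ω] [CharZero Ω] [Algebra F Ω]
    (α : Ω) (hα : IsIntegral ℚ α) (q f : ℕ) (hq : q.Prime) (hf : 1 ≤ f) {d : ℕ}
    (u u' w : Fin (d + 1) → F) (s : ℤ) (hu : ∀ i, IsIntegral ℤ (u i))
    (hw : ∀ i, IsIntegral ℤ (w i)) (hc : ∀ i, u' i = s * u i ^ (q ^ f) + q * w i)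
    (h0 : ∑ i : Fin (d + 1), algebraMap F Ω (u i) * α ^ (i : ℕ) = 0)
    (h1 : ∑ i : Fin (d + 1), algebraMap F Ω (u' i) * α ^ (q ^ f * (i : ℕ)) ≠ 0) :
    (q : ℝ) ^ Module.finrank ℚ F ≤
      Real.exp (Module.finrank ℚ F * ((q : ℝ) ^ f * d * absLogHeight₁ α)) *
        ∏ φ : F →+* ℂ, ∑ i, ‖φ (u' i)‖ := by
  have hz : ∀ z : ℤ, IsIntegral ℤ ((z : ℤ) : F) := by
    intro z
    have h2 : IsIntegral ℤ (algebraMap ℤ F z) := isIntegral_algebraMap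
    simpa using h2
  have hu' : ∀ i, IsIntegral ℤ (u' i) := by
    intro i
    rw [hc i]
    have h2 := ((hz s).mul ((hu i).pow (q ^ f))).add ((hz (q : ℤ)).mul (hw i))
    rwa [Int.cast_natCast] at h2
  have h2 := Pool.Agent.H69.BD.cl α hα d q f hq u u' w s hu hu' hw hc h0 h1
  have e : (Module.finrank ℚ F : ℝ) * ((q : ℝ) ^ f * d * absLogHeight₁ α) =
      Module.finrank ℚ F * (q : ℝ) ^ f * d * absLogHeight₁ α := by ring
  rw [e]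
  exact h2

end Pool.Agent.H72.BD
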