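import Pool.Agent.H72.BD.Sep

/-!
# Minimal number of windows (MP_187c26_nt, Theorem V, S5)

PROOF of `min_rep`. All windows below are modulo `m`; `inw a ℓ l` is monotone in `ℓ`.
(1) SEPARATION. Let `i ≠ j` with `a i ≤ a j < a i + gap`; we may take `j ≠ 0` (if `j = 0` then `a i = 0 = a j`: exchange). The window
`[a j, a j + ℓ)` is in `[a i, a i + gap + ℓ)`, so the family without `j` (`a ∘ Fin.succAbove j`, `R - 1` instead of `R`; its value at
`0` is `a 0 = 0` as `j ≠ 0`) with length `L ≥ gap + ℓ` shows `Win h c L (R - 1)`: contradiction to `hmin`.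
(2) WRAP. For `j = 0` it is `gap ≤ m`. Let `j ≠ 0`, `a j + gap > m`, `k = m - a j`, `1 ≤ k < gap`. Replace `g` by `x ^ k g`
(`co_pow_mul_ne_zero`: all supports are shifted by `k`). The window of `g` is now in `[k, k + ℓ) ⊂ [0, L)`, the window `j` is
`[m, m + ℓ) = [0, ℓ)`, so the family `0` (index `0`), `a i + k` (`i ≠ 0, j`) of length `L` works: `Win h c L (R - 1)`.
(3) So the windows are separated by `gap ≥ ℓ`. Multiply `g` by a positive integer such that `g` and all `g c_i` are in `ℤ[x]`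
(`mem_zx`; finitely many rational coordinates). `Rad.exists_sep` gives `v_ij`; for `i = last`, `g c_last = g` is supported in `[0, ℓ)`
only: `v_last j = 0` for `j ≠ 0`, `g = aeval x (v_last 0)`, `v_last 0 ≠ 0`.
(4) PRIMITIVE. Divide by a greatest common divisor `p ≠ 0` of all `v_ij` in the UFD `ℤ[X]` (`aeval x p ≠ 0` by `aeval_eq_zero`,
degree `< ℓ ≤ m`; degrees of the quotients are `≤`).
(5) ACTIVE. If `v_ij = 0` for all `i` (so `j ≠ 0`), the window `j` is superfluous: `Win h c ℓ (R - 1)`, hence `Win h c L (R - 1)`.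
-/

set_option autoImplicit false

open Polynomial

namespace Pool.Agent.H72.BD

variable {b m : ℕ} [NeZero m] {F : Type} [Field F] [NumberField F] {x : F}

theorem win_mono (h : Rad b m F x) {d : ℕ} (c : Fin (d + 1) → F) (ℓ ℓ' R : ℕ) (hℓ : ℓ ≤ ℓ')
    (hw : Win h c ℓ R) : Win h c ℓ' R := by
  obtain ⟨a, ha0, g, hg, h1, h2⟩ := hw
  refine ⟨a, ha0, g, hg, fun l hl => ?_, fun i l hl => ?_⟩
  · obtain ⟨e, he, h3⟩ := h1 l hl
    exact ⟨e, by omega, h3⟩
  · obtain ⟨j, e, he, h3⟩ := h2 i l hl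
    exact ⟨j, e, by omega, h3⟩

private theorem inw_mono {a a' ℓ ℓ' : ℕ} {l : ZMod m} (h1 : a' ≤ a) (h2 : a + ℓ ≤ a' + ℓ')
    (hl : inw a ℓ l) : inw a' ℓ' l := by
  obtain ⟨e, he, hle⟩ := hl
  refine ⟨e + (a - a'), by omega, ?_⟩
  rw [hle]
  congr 1
  omega

/-- A superfluous window. -/
private theorem drop (h : Rad b m F x) {d R : ℕ} (c : Fin (d + 1) → F) (a : Fin (R + 1) → ℕ)
    (ha0 : a 0 = 0) (ℓ L : ℕ) (hL : ℓ ≤ L) (hw : WinAt h c a ℓ) (j : Fin (R + 1)) (hj : j ≠ 0)
    (hdrop : ∀ l, inw (a j) ℓ l → (∃ i, ∃ l', h.co (hw.choose * c i) l' ≠ 0 ∧ l' = l) →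
      ∃ i, i ≠ j ∧ inw (a i) L l) :
    ∃ R' < R, Win h c L R' := by
  obtain ⟨R', rfl⟩ : ∃ R', R = R' + 1 := by
    rcases Nat.eq_zero_or_pos R with h0 | h0
    · subst h0
      exact absurd (Fin.ext (by have := j.isLt; rw [Fin.val_zero]; omega)) hj
    · exact ⟨R - 1, by omega⟩
  obtain ⟨hg, h1, h2⟩ := hw.choose_spec
  set g := hw.choose
  refine ⟨R', Nat.lt_succ_self _, fun k => a (j.succAbove k), ?_, g, hg, fun l hl => ?_,
    fun i l hl => ?_⟩
  · show a (j.succAbove 0) = 0
    rw [Fin.succAbove_ne_zero_zero hj, ha0]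
  · exact inw_mono le_rfl (by omega) (h1 l hl)
  · obtain ⟨j0, hj0⟩ := h2 i l hl
    by_cases he : j0 = j
    · subst he
      obtain ⟨i', hi', hi2⟩ := hdrop l hj0 ⟨i, l, hl, rfl⟩
      obtain ⟨k, hk⟩ := Fin.exists_succAbove_eq hi'
      exact ⟨k, by show inw (a (j0.succAbove k)) L l; rw [hk]; exact hi2⟩
    · obtain ⟨k, hk⟩ := Fin.exists_succAbove_eq he
      exact ⟨k, by show inw (a (j.succAbove k)) L l; rw [hk]; exact inw_mono le_rfl (by omega) hj0⟩

private theorem exists_int (h : Rad b m F x) {d : ℕ} (y : Fin (d + 1) → F) :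
    ∃ D : ℕ, 0 < D ∧ ∀ i, (D : F) * y i ∈ zx x := by
  classical
  refine ⟨∏ i, ∏ l, (h.co (y i) l).den, ?_, fun i => ?_⟩
  · exact Finset.prod_pos fun i _ => Finset.prod_pos fun l _ => (h.co (y i) l).den_pos
  · rw [h.mem_zx]
    intro l
    set D : ℕ := ∏ i, ∏ l, (h.co (y i) l).den with hD
    have h1 : (h.co (y i) l).den ∣ D :=
      (Finset.dvd_prod_of_mem (fun l => (h.co (y i) l).den) (Finset.mem_univ l)).trans
        (Finset.dvd_prod_of_mem (fun i => ∏ l, (h.co (y i) l).den) (Finset.mem_univ i))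
    have h2 : h.co ((D : F) * y i) l = (D : ℚ) * h.co (y i) l := by
      have h3 : (D : F) * y i = (D : ℚ) • y i := by
        rw [Algebra.smul_def]
        simp
      rw [h3, map_smul, Pi.smul_apply, smul_eq_mul]
    obtain ⟨e, he⟩ := h1
    refine ⟨e * (h.co (y i) l).num, ?_⟩
    rw [h2, he]
    push_cast
    have h4 := Rat.mul_den_eq_num (h.co (y i) l)
    calc ((h.co (y i) l).den : ℚ) * e * h.co (y i) l
        = e * (h.co (y i) l * (h.co (y i) l).den) := by ring
      _ = e * (h.co (y i) l).num := by rw [h4]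

theorem min_rep (h : Rad b m F x) {d R : ℕ} (c : Fin (d + 1) → F) (hc : c (Fin.last d) = 1)
    (a : Fin (R + 1) → ℕ) (ha0 : a 0 = 0) (ham : ∀ j, a j < m) (ℓ gap L : ℕ) (hℓ : 1 ≤ ℓ)
    (hℓg : ℓ ≤ gap) (hgm : gap ≤ m) (hL : gap + ℓ ≤ L) (hw : WinAt h c a ℓ)
    (hmin : ∀ R' < R, ¬ Win h c L R') :
    ∃ v : Fin (d + 1) → Fin (R + 1) → ℤ[X], Rep m x c ℓ gap a v := by
  classical
  -- separation, ordered form
  have hsep1 : ∀ i j, i ≠ j → j ≠ 0 → a i ≤ a j → a i + gap ≤ a j := by
    intro i j hij hj hle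
    by_contra hlt
    obtain ⟨R', hR', hwin⟩ := drop h c a ha0 ℓ L (by omega) hw j hj
      (fun l hl _ => ⟨i, hij, inw_mono hle (by omega) hl⟩)
    exact hmin R' hR' hwin
  have hsep : ∀ i j, i ≠ j → a i + gap ≤ a j ∨ a j + gap ≤ a i := by
    intro i j hij
    rcases le_total (a i) (a j) with hle | hle
    · by_cases hj : j = 0
      · subst hj
        right
        exact hsep1 0 i hij.symm hij (by omega)
      · exact Or.inl (hsep1 i j hij hj hle)
    · by_cases hi : i = 0
      · subst hi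
        left
        exact hsep1 0 j hij hij.symm (by omega)
      · exact Or.inr (hsep1 j i hij.symm hi hle)
  -- wrap
  have hwrap : ∀ j, a j + gap ≤ m := by
    intro j
    by_cases hj : j = 0
    · subst hj
      omega
    by_contra hlt
    have hjm := ham j
    obtain ⟨R', rfl⟩ : ∃ R', R = R' + 1 := by
      rcases Nat.eq_zero_or_pos R with h0 | h0
      · subst h0
        exact absurd (Fin.ext (by have := j.isLt; rw [Fin.val_zero]; omega)) hj
      · exact ⟨R - 1, by omega⟩
    obtain ⟨g, hg, h1, h2⟩ := hw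
    set k : ℕ := m - a j with hk
    refine hmin R' (Nat.lt_succ_self _) ⟨fun t => if t = 0 then 0 else a (j.succAbove t) + k,
      by simp, x ^ k * g, mul_ne_zero (pow_ne_zero _ ?_) hg, fun l hl => ?_, fun i l hl => ?_⟩
    · intro hx
      have := h.pow
      rw [hx, zero_pow (by have := h.one_le; omega)] at this
      have hb := h.two
      have : (b : F) = 0 := this.symm
      rw [Nat.cast_eq_zero] at this
      omega
    · rw [h.co_pow_mul_ne_zero] at hl
      obtain ⟨e, he, hle⟩ := h1 _ hl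
      refine ⟨k + e, by omega, ?_⟩
      rw [sub_eq_iff_eq_add] at hle
      rw [hle]
      push_cast
      ring
    · rw [mul_assoc, h.co_pow_mul_ne_zero] at hl
      obtain ⟨j0, e, he, hle⟩ := h2 i _ hl
      rw [sub_eq_iff_eq_add] at hle
      by_cases hj0 : j0 = j
      · subst hj0
        refine ⟨0, e, by omega, ?_⟩
        rw [hle]
        simp only [if_true]
        have h3 : ((a j0 + e : ℕ) : ZMod m) + (k : ZMod m) = ((m + e : ℕ) : ZMod m) := by
          rw [← Nat.cast_add]
          congr 1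
          omega
        rw [h3]
        push_cast
        rw [ZMod.natCast_self]
      · by_cases hj00 : j0 = 0
        · subst hj00
          refine ⟨0, k + e, by omega, ?_⟩
          rw [hle, ha0]
          simp only [if_true]
          push_cast
          ring
        · obtain ⟨t, ht⟩ := Fin.exists_succAbove_eq hj0
          have ht0 : t ≠ 0 := by
            intro h0
            rw [h0, Fin.succAbove_ne_zero_zero hj] at ht
            exact hj00 ht.symm
          refine ⟨t, e, by omega, ?_⟩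
          show l = (((if t = 0 then 0 else a (j.succAbove t) + k) + e : ℕ) : ZMod m)
          rw [if_neg ht0, ht, hle]
          push_cast
          ring
  -- windows of length ℓ
  have hsepℓ : ∀ i j, i ≠ j → a i + ℓ ≤ a j ∨ a j + ℓ ≤ a i := by
    intro i j hij
    rcases hsep i j hij with h1 | h1
    · left; omega
    · right; omega
  have hwrapℓ : ∀ j, a j + ℓ ≤ m := fun j => by
    have := hwrap j
    omega
  have hw' := hw
  obtain ⟨g, hg, h1, h2⟩ := hw'
  obtain ⟨D, hD, hDi⟩ := exists_int h (fun i => g * c i)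
  have hD0 : (D : F) ≠ 0 := Nat.cast_ne_zero.2 hD.ne'
  have hcoD : ∀ y : F, ∀ l, h.co ((D : F) * y) l = (D : ℚ) * h.co y l := by
    intro y l
    have h3 : (D : F) * y = (D : ℚ) • y := by
      rw [Algebra.smul_def]
      simp
    rw [h3, map_smul, Pi.smul_apply, smul_eq_mul]
  have hco : ∀ (y : F) (l : ZMod m), h.co ((D : F) * y) l ≠ 0 → h.co y l ≠ 0 := by
    intro y l hl h0
    rw [hcoD, h0, mul_zero] at hl
    exact hl rfl
  have hex : ∀ i, ∃ v : Fin (R + 1) → ℤ[X], (∀ j, (v j).natDegree < ℓ) ∧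
      (D : F) * (g * c i) = ∑ j, x ^ a j * aeval x (v j) ∧
      ∀ j, (∀ l, h.co ((D : F) * (g * c i)) l ≠ 0 → ¬ inw (a j) ℓ l) → v j = 0 := fun i =>
    h.exists_sep a ℓ hℓ hsepℓ hwrapℓ _ (hDi i) (fun l hl => h2 i l (hco _ l hl))
  choose v hvdeg hveq hvz using hex
  have hvl : ∀ j, j ≠ 0 → v (Fin.last d) j = 0 := by
    intro j hj
    refine hvz (Fin.last d) j (fun l hl hin => ?_)
    have hl' := hco _ l hl
    rw [hc, mul_one] at hl'
    obtain ⟨e, he, hle⟩ := h1 l hl'
    obtain ⟨e', he', hle'⟩ := hin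
    rw [hle] at hle'
    have h3 := (ZMod.natCast_eq_natCast_iff' _ _ _).1 hle'
    have h4 := hwrapℓ j
    have h5 := hwrapℓ 0
    rw [ha0] at h5
    rw [Nat.mod_eq_of_lt (by omega), Nat.mod_eq_of_lt (by omega)] at h3
    rcases hsepℓ j 0 hj with h6 | h6
    · rw [ha0] at h6; omega
    · rw [ha0] at h6; omega
  have hvg : aeval x (v (Fin.last d) 0) = (D : F) * g := by
    have h3 := hveq (Fin.last d)
    rw [hc, mul_one] at h3
    rw [h3, Finset.sum_eq_single 0]
    · rw [ha0, pow_zero, one_mul]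
    · intro j _ hj
      rw [hvl j hj, map_zero, mul_zero]
    · intro h0
      exact absurd (Finset.mem_univ _) h0
  have hv0 : v (Fin.last d) 0 ≠ 0 := by
    intro h0
    rw [h0, map_zero] at hvg
    exact mul_ne_zero hD0 hg hvg.symm
  -- greatest common divisor
  letI : NormalizedGCDMonoid ℤ[X] := Classical.choice inferInstance
  obtain ⟨w, hwe, hwg⟩ := Finset.extract_gcd (s := (Finset.univ : Finset (Fin (d + 1) × Fin (R + 1))))
    (fun p => v p.1 p.2) ⟨(Fin.last d, 0), Finset.mem_univ _⟩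
  set G : ℤ[X] := (Finset.univ : Finset (Fin (d + 1) × Fin (R + 1))).gcd (fun p => v p.1 p.2)
    with hG
  have hwe' : ∀ i j, v i j = G * w (i, j) := fun i j => hwe (i, j) (Finset.mem_univ _)
  have hG0 : G ≠ 0 := by
    intro h0
    have := hwe' (Fin.last d) 0
    rw [h0, zero_mul] at this
    exact hv0 this
  have hGdeg : G.natDegree < m := by
    have h3 := hwe' (Fin.last d) 0
    have h4 : w (Fin.last d, 0) ≠ 0 := by
      intro h0
      rw [h0, mul_zero] at h3
      exact hv0 h3
    have h5 := hvdeg (Fin.last d) 0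
    rw [h3, natDegree_mul hG0 h4] at h5
    have h6 := hwrapℓ 0
    omega
  have hGx : aeval x G ≠ 0 := fun h0 => hG0 (h.aeval_eq_zero G hGdeg h0)
  refine ⟨fun i j => w (i, j), ?_⟩
  constructor
  · exact ha0
  · exact hsep
  · exact hwrap
  · intro i j
    show (w (i, j)).natDegree < ℓ
    by_cases h3 : w (i, j) = 0
    · rw [h3, natDegree_zero]
      omega
    · have h5 := hvdeg i j
      rw [hwe' i j, natDegree_mul hG0 h3] at h5
      omega
  · intro j hj
    have h3 := hvl j hj
    rw [hwe'] at h3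
    exact (mul_eq_zero.1 h3).resolve_left hG0
  · intro h0
    have h3 := hwe' (Fin.last d) 0
    rw [h0, mul_zero] at h3
    exact hv0 h3
  · intro i
    apply mul_left_cancel₀ hGx
    have h3 : aeval x G * (aeval x (w (Fin.last d, 0)) * c i) = (D : F) * (g * c i) := by
      rw [← mul_assoc, ← map_mul, ← hwe', hvg, mul_assoc]
    rw [h3, hveq i, Finset.mul_sum]
    refine Finset.sum_congr rfl fun j _ => ?_
    rw [hwe' i j, map_mul]
    ring
  · intro p hp
    have h3 : p ∣ (Finset.univ : Finset (Fin (d + 1) × Fin (R + 1))).gcd w :=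
      Finset.dvd_gcd fun q _ => hp q.1 q.2
    rw [hwg] at h3
    exact isUnit_of_dvd_one h3
  · intro j
    by_contra hne
    push Not at hne
    have hvj : ∀ i, v i j = 0 := fun i => by
      rw [hwe' i j]
      have := hne i
      rw [this, mul_zero]
    have hj : j ≠ 0 := by
      intro h0
      rw [h0] at hvj
      exact hv0 (hvj _)
    obtain ⟨R', rfl⟩ : ∃ R', R = R' + 1 := by
      rcases Nat.eq_zero_or_pos R with h0 | h0
      · subst h0
        exact absurd (Fin.ext (by have := j.isLt; rw [Fin.val_zero]; omega)) hj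
      · exact ⟨R - 1, by omega⟩
    refine hmin R' (Nat.lt_succ_self _) ⟨fun t => a (j.succAbove t), ?_, (D : F) * g,
      mul_ne_zero hD0 hg, fun l hl => ?_, fun i l hl => ?_⟩
    · show a (j.succAbove 0) = 0
      rw [Fin.succAbove_ne_zero_zero hj, ha0]
    · exact inw_mono le_rfl (by omega) (h1 l (hco _ l hl))
    · rw [mul_assoc, hveq i, map_sum, Finset.sum_apply] at hl
      obtain ⟨j0, _, hj0⟩ := Finset.exists_ne_zero_of_sum_ne_zero hl
      have hne0 : j0 ≠ j := by
        intro h0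
        rw [h0, hvj, map_zero, mul_zero, map_zero, Pi.zero_apply] at hj0
        exact hj0 rfl
      obtain ⟨t, ht⟩ := Fin.exists_succAbove_eq hne0
      refine ⟨t, ?_⟩
      show inw (a (j.succAbove t)) L l
      rw [ht]
      have h3 := hwrapℓ 0
      exact inw_mono le_rfl (by omega)
        (h.inw_of_ne_zero (a j0) ℓ (v i j0) (hvdeg i j0) (by omega) l hj0)

end Pool.Agent.H72.BD
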