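import Pool.Agent.H72.BD.Def
import Pool.Agent.H99.MV.CB

/-!
# Two lattice lemmas (MP_187c26_nt, Theorem V, S1 and S2)

`L` a subgroup of finite index of `ℤ ^ n`, `Ψ` an `n × Ω` real matrix; for `g ∈ L` the coordinates of the row vector `g Ψ` are
integer multiples of numbers `w o ≥ 1`.

PROOF of `minor_bound`: `L` has a `ℤ`-basis `f_1, …, f_n`; `F` = integer matrix with these rows,
`|det F| = L.index` (`Submodule.natAbs_det_basis_change` or similar). `F Ψ_J` = (integer matrix) · diag `(w (J k))`. So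
`det F · det Ψ_J = (integer) · ∏ k, w (J k)`: zero or of absolute value `≥ 1`.

PROOF of `cov`: `B = span e = {g ∈ L | g Ψ = 0 on S}` (by `he`, `hS0`, `hB`), `L / B` is torsion free (if `c g ∈ B`, `c ≠ 0`,
then `g Ψ = 0` on `S`), so it is free and `e` extends to a basis `f` of `L`: `f_i = e_i` for `i < k`
(`Module.Basis.sumQuot` or a complement of `B`). `F` = integer matrix with rows `f_i`, `|det F| = L.index`. By Cauchy–Binet
`index ^ 2 det (Ψ Ψᵀ) = det ((F Ψ) (F Ψ)ᵀ) = ∑ J, minor_J (F Ψ) ^ 2 ≥ ∑ (J₁, J₂), minor_(J₁ ∪ J₂) (F Ψ) ^ 2` over the `J₁` in the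
complement of `S`, `|J₁| = k`, and `J₂` in `S`, `|J₂| = n - k`; the matrix is block triangular (`e_i Ψ = 0` on `S`):
`minor = ± minor_J₁ (e Ψ) · minor_J₂ (rest)`, so the sum is `det ((E Ψ) (E Ψ)ᵀ) · ∑ J₂, minor_J₂ (rest on S) ^ 2`, and the last sum is
`≥ 1`: a minor is an integer times a product of numbers `w o ≥ 1`, and not all of them vanish, since the rows `f_i Ψ`
(`i ≥ k`) restricted to `S` are linearly independent over `ℤ` (an integer combination `g` of the `f_i`, `i ≥ k`, with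
`g Ψ = 0` on `S` is in `B`), hence so are the integer rows (divide by `w`) over `ℚ`.
(Alternative without Cauchy–Binet over subsets: Gram determinant inequality `det Gram(rows) = det Gram(e Ψ) ·
det Gram (projections of the other rows on the orthogonal complement of the span of the e Ψ)`, and the last is at least
`det Gram (other rows restricted to S)`, because restriction to `S` kills the `e Ψ` and is a contraction; then
`det Gram` of a rank `n - k` family of integer vectors with weights `≥ 1` is `≥ 1` by Cauchy–Binet for one nonzero minor.)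
-/

set_option autoImplicit false

namespace Pool.Agent.H72.BD

private theorem finrank_L {n : ℕ} (L : AddSubgroup (Fin n → ℤ)) (hL : L.index ≠ 0) :
    Module.finrank ℤ (AddSubgroup.toIntSubmodule L) = n := by
  apply le_antisymm
  · have h1 := Submodule.finrank_le (AddSubgroup.toIntSubmodule L)
    rwa [Module.finrank_fin_fun] at h1
  · have hmem : ∀ i : Fin n, L.index • (Pi.single i 1 : Fin n → ℤ) ∈ AddSubgroup.toIntSubmodule L := fun i =>
      L.nsmul_index_mem _
    have hli : LinearIndependent ℤ (fun i : Fin n => (⟨L.index • (Pi.single i 1 : Fin n → ℤ), hmem i⟩ :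
        AddSubgroup.toIntSubmodule L)) := by
      rw [Fintype.linearIndependent_iff]
      intro c hc i
      have h1 := congrFun (congrArg Subtype.val hc) i
      rw [Submodule.coe_sum, Finset.sum_apply, Finset.sum_eq_single i] at h1
      · have h2 : c i * ((L.index : ℤ) * 1) = 0 := by
          simpa using h1
        rw [mul_one, mul_eq_zero] at h2
        exact h2.resolve_right (by exact_mod_cast hL)
      · intro j _ hj
        simp [Pi.single_eq_of_ne hj.symm]
      · intro h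
        exact absurd (Finset.mem_univ i) h
    have h1 := hli.fintype_card_le_finrank
    rwa [Fintype.card_fin] at h1

/-- the lattice `L` has a basis which begins with a basis of a pure sublattice -/
private theorem adapted {n k : ℕ} (L : AddSubgroup (Fin n → ℤ)) (hL : L.index ≠ 0) (e : Fin k → Fin n → ℤ)
    (he : ∀ i, e i ∈ L) (hli : LinearIndependent ℤ e)
    (hp : ∀ g ∈ L, ∀ c : ℤ, c ≠ 0 → c • g ∈ Submodule.span ℤ (Set.range e) → g ∈ Submodule.span ℤ (Set.range e)) :
    ∃ (l : ℕ) (f : Fin l → Fin n → ℤ) (σ : Fin n ≃ Fin k ⊕ Fin l), (∀ j, f j ∈ L) ∧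
      (Matrix.of fun i => Sum.elim e f (σ i)).det.natAbs = L.index ∧
      ∀ c : Fin l → ℤ, ∑ j, c j • f j ∈ Submodule.span ℤ (Set.range e) → c = 0 := by
  classical
  obtain ⟨Lm, hLm⟩ : ∃ Lm, Lm = AddSubgroup.toIntSubmodule L := ⟨_, rfl⟩
  have hrk : Module.finrank ℤ Lm = n := by
    rw [hLm]
    exact finrank_L L hL
  have hmem : ∀ g, g ∈ Lm ↔ g ∈ L := fun g => by
    rw [hLm]
    exact Iff.rfl
  let e' : Fin k → Lm := fun i => ⟨e i, (hmem _).2 (he i)⟩
  have hli' : LinearIndependent ℤ e' := by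
    refine LinearIndependent.of_comp Lm.subtype ?_
    exact hli
  obtain ⟨B, hBd⟩ : ∃ B : Submodule ℤ Lm, B = Submodule.span ℤ (Set.range e') := ⟨_, rfl⟩
  have hB : ∀ g : Lm, g ∈ B ↔ (g : Fin n → ℤ) ∈ Submodule.span ℤ (Set.range e) := by
    intro g
    have h1 : Submodule.span ℤ (Set.range e) = B.map Lm.subtype := by
      rw [hBd, Submodule.map_span, ← Set.range_comp]
      rfl
    rw [h1]
    constructor
    · intro h
      exact ⟨g, h, rfl⟩
    · rintro ⟨g', hg', h⟩
      have : g' = g := Subtype.ext h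
      rwa [← this]
  let bW : Module.Basis (Fin k) ℤ B := (Module.Basis.span hli').map (LinearEquiv.ofEq _ _ hBd.symm)
  have hbW : ∀ i, ((bW i : Lm) : Fin n → ℤ) = e i := by
    intro i
    show (((LinearEquiv.ofEq _ _ hBd.symm) (Module.Basis.span hli' i) : B) : Lm) = e i
    rw [LinearEquiv.coe_ofEq_apply, Module.Basis.span_apply]
  have htf : Module.IsTorsionFree ℤ (Lm ⧸ B) := by
    refine Module.IsTorsionFree.of_smul_eq_zero fun r m h ↦ ?_
    obtain ⟨g, rfl⟩ := Submodule.mkQ_surjective B m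
    by_cases hr : r = 0
    · exact Or.inl hr
    · right
      rw [← map_smul, Submodule.mkQ_apply, Submodule.Quotient.mk_eq_zero, hB] at h
      rw [Submodule.mkQ_apply, Submodule.Quotient.mk_eq_zero, hB]
      exact hp _ ((hmem _).1 g.2) r hr h
  have hfree : Module.Free ℤ (Lm ⧸ B) := inferInstance
  let bQ := Module.finBasis ℤ (Lm ⧸ B)
  let b := Module.Basis.sumQuot bW bQ
  have hcard : Fintype.card (Fin n) = Fintype.card (Fin k ⊕ Fin (Module.finrank ℤ (Lm ⧸ B))) := by
    rw [← Module.finrank_eq_card_basis b, hrk, Fintype.card_fin]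
  let σ : Fin n ≃ Fin k ⊕ Fin (Module.finrank ℤ (Lm ⧸ B)) := Fintype.equivOfCardEq hcard
  refine ⟨_, fun j => (b (Sum.inr j) : Fin n → ℤ), σ, ?_, ?_, ?_⟩
  · intro j
    exact (hmem _).1 (b (Sum.inr j)).2
  · have h1 : ∀ i, Sum.elim e (fun j => (b (Sum.inr j) : Fin n → ℤ)) i = (b i : Fin n → ℤ) := by
      rintro (i | j)
      · rw [Sum.elim_inl, ← hbW i, Module.Basis.sumQuot_inl]
      · rfl
    have h2 := Submodule.natAbs_det_basis_change (Pi.basisFun ℤ (Fin n)) Lm (b.reindex σ.symm)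
    rw [Module.Basis.det_apply] at h2
    have h3 : (Pi.basisFun ℤ (Fin n)).toMatrix (Subtype.val ∘ (b.reindex σ.symm)) =
        (Matrix.of fun i => Sum.elim e (fun j => (b (Sum.inr j) : Fin n → ℤ)) (σ i)).transpose := by
      ext i j
      rw [Module.Basis.toMatrix_apply, Pi.basisFun_repr, Matrix.transpose_apply, Matrix.of_apply, h1,
        Function.comp_apply, Module.Basis.reindex_apply, Equiv.symm_symm]
    rw [h3, Matrix.det_transpose] at h2
    rw [h2, hLm]
    rfl
  · intro c hc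
    have h1 : (∑ j, c j • b (Sum.inr j)) ∈ B := by
      rw [hB, Submodule.coe_sum]
      exact hc
    have h2 : ∑ j, c j • bQ j = 0 := by
      have h3 := (Submodule.Quotient.mk_eq_zero B).2 h1
      rw [← Submodule.mkQ_apply, map_sum] at h3
      rw [← h3]
      refine Finset.sum_congr rfl fun j _ => ?_
      rw [map_smul, Submodule.mkQ_apply]
      congr 1
      exact (Module.Basis.sumQuot_inr bW bQ j).symm
    funext j
    exact Fintype.linearIndependent_iff.1 bQ.linearIndependent c h2 j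

open scoped Classical in
/-- a nonvanishing minor with columns in `S` -/
private theorem exists_minor {l : ℕ} {Ω : Type} [Fintype Ω] (S : Set Ω) (M : Matrix (Fin l) Ω ℤ)
    (h : ∀ c : Fin l → ℤ, (∀ o ∈ S, ∑ j, c j * M j o = 0) → c = 0) :
    ∃ τ : Fin l → Ω, (∀ r, τ r ∈ S) ∧ (Matrix.of fun r j => M j (τ r)).det ≠ 0 := by
  by_contra hcon
  push Not at hcon
  have h1 := Pool.Agent.H99.MV.det_sum_rankOne (Finset.univ.filter fun o => o ∈ S) (fun _ => (1 : ℝ))
    (fun o j => (M j o : ℝ))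
  have hz : ∀ τ ∈ Fintype.piFinset (fun _ : Fin l => Finset.univ.filter fun o => o ∈ S),
      (∏ _r : Fin l, (1 : ℝ)) * (Matrix.of fun r => (fun j => (M j (τ r) : ℝ))).det ^ 2 = 0 := by
    intro τ hτ
    have h2 : (Matrix.of fun r => (fun j => (M j (τ r) : ℝ))).det = 0 := by
      have h3 := hcon τ fun r => by simpa using Fintype.mem_piFinset.1 hτ r
      have h4 : (Matrix.of fun r => (fun j => (M j (τ r) : ℝ))) =
        (Matrix.of fun r j => M j (τ r)).map (Int.castRingHom ℝ) := by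
        ext i j
        simp
      rw [h4, ← RingHom.mapMatrix_apply, ← RingHom.map_det, h3, map_zero]
    rw [h2]
    simp
  rw [Finset.sum_eq_zero hz, mul_eq_zero] at h1
  have h2 := h1.resolve_left (by positivity)
  have h3 : (∑ o ∈ Finset.univ.filter fun o => o ∈ S, (1 : ℝ) • Matrix.vecMulVec (fun j => (M j o : ℝ)) (fun j => (M j o : ℝ))) =
      (∑ o ∈ Finset.univ.filter fun o => o ∈ S, Matrix.vecMulVec (fun j => M j o) (fun j => M j o)).map
        (Int.castRingHom ℝ) := by
    ext i j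
    simp [Matrix.sum_apply, Matrix.vecMulVec_apply]
  rw [h3, ← RingHom.mapMatrix_apply, ← RingHom.map_det] at h2
  have h4 : (∑ o ∈ Finset.univ.filter fun o => o ∈ S, Matrix.vecMulVec (fun j => M j o) (fun j => M j o)).det = 0 := by
    have h5 : ((∑ o ∈ Finset.univ.filter fun o => o ∈ S,
      Matrix.vecMulVec (fun j => M j o) (fun j => M j o)).det : ℝ) = 0 := h2
    exact_mod_cast h5
  obtain ⟨v, hv0, hv⟩ := Matrix.exists_mulVec_eq_zero_iff.2 h4
  refine hv0 (h v fun o ho => ?_)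
  have h5 := congrArg (fun z => v ⬝ᵥ z) hv
  simp only [Matrix.sum_mulVec, dotProduct_sum, dotProduct_zero] at h5
  have h6 : ∀ o, v ⬝ᵥ Matrix.mulVec (Matrix.vecMulVec (fun j => M j o) (fun j => M j o)) v =
      (∑ j, v j * M j o) ^ 2 := by
    intro o
    have h7 : (fun j => M j o) ⬝ᵥ v = ∑ j, v j * M j o := by
      simp only [dotProduct, mul_comm]
    rw [Matrix.vecMulVec_mulVec, dotProduct_smul, pow_two, h7]
    rfl
  simp only [h6] at h5
  rw [Finset.sum_eq_zero_iff_of_nonneg (fun o _ => sq_nonneg _)] at h5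
  exact pow_eq_zero_iff (two_ne_zero) |>.1 (h5 o (by simpa using ho))

open scoped Classical in
private theorem one_le_det {l : ℕ} {Ω : Type} [Fintype Ω] (S : Set Ω) (R N : Matrix (Fin l) Ω ℝ)
    (M : Matrix (Fin l) Ω ℤ) (w : Ω → ℝ) (hw : ∀ o, 1 ≤ w o) (hR : ∀ j o, R j o = M j o * w o)
    (h : ∀ c : Fin l → ℤ, (∀ o ∈ S, ∑ j, c j * M j o = 0) → c = 0) :
    1 ≤ ((∑ o, (if o ∈ S then (1 : ℝ) else 0) • Matrix.vecMulVec (fun j => R j o) (fun j => R j o)) +
      N * N.transpose).det := by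
  obtain ⟨τ, hτ, hdet⟩ := exists_minor S M h
  have h1 := Pool.Agent.H99.MV.det_sum_rankOne (Finset.univ : Finset (Ω ⊕ Ω))
    (Sum.elim (fun o => if o ∈ S then (1 : ℝ) else 0) fun _ => 1)
    (Sum.elim (fun o j => R j o) fun o j => N j o)
  have h2 : (∑ e : Ω ⊕ Ω, (Sum.elim (fun o => if o ∈ S then (1 : ℝ) else 0) fun _ => 1) e •
      Matrix.vecMulVec ((Sum.elim (fun o j => R j o) fun o j => N j o) e)
        ((Sum.elim (fun o j => R j o) fun o j => N j o : Ω ⊕ Ω → Fin l → ℝ) e)) =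
      ((∑ o, (if o ∈ S then (1 : ℝ) else 0) • Matrix.vecMulVec (fun j => R j o) (fun j => R j o)) +
      N * N.transpose) := by
    rw [Fintype.sum_sum_type]
    congr 1
    ext i j
    simp [Matrix.sum_apply, Matrix.vecMulVec_apply, Matrix.mul_apply]
  rw [h2] at h1
  have hinj : Function.Injective fun (σ : Equiv.Perm (Fin l)) => fun r => (Sum.inl (τ (σ r)) : Ω ⊕ Ω) := by
    have hτi : Function.Injective τ := by
      intro a b hab
      by_contra hne
      exact hdet (Matrix.det_zero_of_row_eq hne (by ext j; simp [hab]))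
    intro σ σ' hs
    ext r
    have h3 := congrFun hs r
    simp only [Sum.inl.injEq] at h3
    rw [hτi h3]
  have h3 : ∀ σ : Equiv.Perm (Fin l), (1 : ℝ) ≤ (∏ r, (Sum.elim (fun o => if o ∈ S then (1 : ℝ) else 0) fun _ => 1 : Ω ⊕ Ω → ℝ)
      (Sum.inl (τ (σ r)))) * (Matrix.of fun r => (Sum.elim (fun o j => R j o) fun o j => N j o : Ω ⊕ Ω → Fin l → ℝ)
        (Sum.inl (τ (σ r)))).det ^ 2 := by
    intro σ
    simp only [Sum.elim_inl, hτ, if_true, Finset.prod_const_one, one_mul]
    have h4 : (Matrix.of fun r => (fun j => R j (τ (σ r)))) =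
        (Matrix.of fun r j => w (τ r) * ((M j (τ r) : ℤ) : ℝ)).submatrix σ id := by
      ext r j
      simp [hR, mul_comm]
    have h10 : (Matrix.of fun r j => w (τ r) * ((M j (τ r) : ℤ) : ℝ)).det =
        (∏ r, w (τ r)) * (Matrix.of fun r j => ((M j (τ r) : ℤ) : ℝ)).det :=
      Matrix.det_mul_column (fun r => w (τ r)) (Matrix.of fun r j => ((M j (τ r) : ℤ) : ℝ))
    rw [h4, Matrix.det_permute, mul_pow, h10, mul_pow]
    have h5 : (((Equiv.Perm.sign σ : ℤˣ) : ℤ) : ℝ) ^ 2 = 1 := by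
      rcases Int.units_eq_one_or (Equiv.Perm.sign σ) with h | h <;> rw [h] <;> simp
    have h11 : (1 : ℝ) ≤ ∏ r, w (τ r) := by
      calc (1 : ℝ) = ∏ r : Fin l, (1 : ℝ) := by simp
        _ ≤ ∏ r, w (τ r) := Finset.prod_le_prod (fun _ _ => zero_le_one) fun r _ => hw _
    have h6 : (1 : ℝ) ≤ (∏ r, w (τ r)) ^ 2 := one_le_pow₀ h11
    have h7 : (Matrix.of fun r j => ((M j (τ r) : ℤ) : ℝ)).det = ((Matrix.of fun r j => M j (τ r)).det : ℤ) := by
      have h8 : (Matrix.of fun r j => ((M j (τ r) : ℤ) : ℝ)) =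
        (Matrix.of fun r j => M j (τ r)).map (Int.castRingHom ℝ) := by
        ext i j
        simp
      rw [h8, ← RingHom.mapMatrix_apply, ← RingHom.map_det]
      rfl
    have h8 : (1 : ℝ) ≤ ((Matrix.of fun r j => M j (τ r)).det : ℝ) ^ 2 := by
      have h9 : (1 : ℤ) ≤ ((Matrix.of fun r j => M j (τ r)).det) ^ 2 := by
        have := sq_pos_of_ne_zero hdet
        omega
      exact_mod_cast h9
    rw [h5, h7, one_mul]
    exact one_le_mul_of_one_le_of_one_le h6 h8
  have h4 : ((Finset.univ : Finset (Equiv.Perm (Fin l))).card : ℝ) ≤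
      ((Fintype.card (Fin l)).factorial : ℝ) *
        ((∑ o, (if o ∈ S then (1 : ℝ) else 0) • Matrix.vecMulVec (fun j => R j o) (fun j => R j o)) +
      N * N.transpose).det := by
    rw [h1]
    calc ((Finset.univ : Finset (Equiv.Perm (Fin l))).card : ℝ) = ∑ σ : Equiv.Perm (Fin l), (1 : ℝ) := by simp
      _ ≤ ∑ σ : Equiv.Perm (Fin l), (∏ r, (Sum.elim (fun o => if o ∈ S then (1 : ℝ) else 0) fun _ => 1 : Ω ⊕ Ω → ℝ)
      (Sum.inl (τ (σ r)))) * (Matrix.of fun r => (Sum.elim (fun o j => R j o) fun o j => N j o : Ω ⊕ Ω → Fin l → ℝ)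
        (Sum.inl (τ (σ r)))).det ^ 2 := Finset.sum_le_sum fun σ _ => h3 σ
      _ = ∑ τ' ∈ Finset.univ.image (fun (σ : Equiv.Perm (Fin l)) => fun r => (Sum.inl (τ (σ r)) : Ω ⊕ Ω)),
        (∏ r, (Sum.elim (fun o => if o ∈ S then (1 : ℝ) else 0) fun _ => 1 : Ω ⊕ Ω → ℝ)
      (τ' r)) * (Matrix.of fun r => (Sum.elim (fun o j => R j o) fun o j => N j o : Ω ⊕ Ω → Fin l → ℝ)
        (τ' r)).det ^ 2 := by
          rw [Finset.sum_image fun a _ b _ hab => hinj hab]
      _ ≤ _ := by
          refine Finset.sum_le_sum_of_subset_of_nonneg (fun x _ => by simp) fun i _ _ => ?_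
          refine mul_nonneg (Finset.prod_nonneg fun r _ => ?_) (sq_nonneg _)
          rcases i r with o | o
          · simp only [Sum.elim_inl]
            split_ifs <;> norm_num
          · simp
  rw [Finset.card_univ, Fintype.card_perm] at h4
  have h5 : (0 : ℝ) < ((Fintype.card (Fin l)).factorial : ℝ) := by positivity
  nlinarith


private theorem gram_nonneg {k : ℕ} {Ω : Type} [Fintype Ω] (X : Matrix (Fin k) Ω ℝ) :
    0 ≤ (X * X.transpose).det := by
  have h1 := (Matrix.posSemidef_self_mul_conjTranspose X).det_nonneg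
  rwa [Matrix.conjTranspose_eq_transpose_of_trivial] at h1

open scoped Classical in
private theorem schur {k l : ℕ} {Ω : Type} [Fintype Ω] (S : Set Ω) (X : Matrix (Fin k) Ω ℝ)
    (R : Matrix (Fin l) Ω ℝ) (hX : ∀ i, ∀ o ∈ S, X i o = 0) (hdet : (X * X.transpose).det ≠ 0)
    (M : Matrix (Fin l) Ω ℤ) (w : Ω → ℝ) (hw : ∀ o, 1 ≤ w o) (hR : ∀ j o, R j o = M j o * w o)
    (h : ∀ c : Fin l → ℤ, (∀ o ∈ S, ∑ j, c j * M j o = 0) → c = 0) :
    (X * X.transpose).det ≤ ((Matrix.fromRows X R) * (Matrix.fromRows X R).transpose).det := by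
  obtain ⟨A, hA⟩ : ∃ A, A = X * X.transpose := ⟨_, rfl⟩
  obtain ⟨D, hD⟩ : ∃ D : Matrix Ω Ω ℝ, D = Matrix.diagonal fun o => if o ∈ S then (1 : ℝ) else 0 := ⟨_, rfl⟩
  obtain ⟨P, hP⟩ : ∃ P : Matrix Ω Ω ℝ, P = X.transpose * A⁻¹ * X := ⟨_, rfl⟩
  have hAu : IsUnit A.det := by
    rw [hA]
    exact isUnit_iff_ne_zero.2 hdet
  have hAt : A.transpose = A := by
    rw [hA, Matrix.transpose_mul, Matrix.transpose_transpose]
  have hPP : P * P = P := by
    rw [hP]
    calc X.transpose * A⁻¹ * X * (X.transpose * A⁻¹ * X) = X.transpose * (A⁻¹ * (X * X.transpose)) * A⁻¹ * X := by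
          simp only [Matrix.mul_assoc]
      _ = X.transpose * A⁻¹ * X := by
          rw [← hA, Matrix.nonsing_inv_mul _ hAu, Matrix.mul_one]
  have hPt : P.transpose = P := by
    rw [hP, Matrix.transpose_mul, Matrix.transpose_mul, Matrix.transpose_transpose, Matrix.transpose_nonsing_inv, hAt,
      Matrix.mul_assoc]
  have hDD : D * D = D := by
    rw [hD, Matrix.diagonal_mul_diagonal]
    congr 1
    funext o
    split_ifs <;> simp
  have hDt : D.transpose = D := by
    rw [hD, Matrix.diagonal_transpose]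
  have hXD : X * D = 0 := by
    ext i o
    rw [hD, Matrix.mul_diagonal, Matrix.zero_apply]
    by_cases ho : o ∈ S
    · rw [hX i o ho, zero_mul]
    · rw [if_neg ho, mul_zero]
  have hPD : P * D = 0 := by
    rw [hP, Matrix.mul_assoc, hXD, Matrix.mul_zero]
  have hDP : D * P = 0 := by
    have h1 := congrArg Matrix.transpose hPD
    rwa [Matrix.transpose_mul, hPt, hDt, Matrix.transpose_zero] at h1
  have hTT : (1 - D - P) * (1 - D - P).transpose = 1 - D - P := by
    rw [Matrix.transpose_sub, Matrix.transpose_sub, hPt, hDt, Matrix.transpose_one]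
    simp only [sub_mul, mul_sub, one_mul, mul_one, hPP, hPD, hDP, hDD]
    abel
  have h1 := one_le_det S R (R * (1 - D - P)) M w hw hR h
  have h2 : (∑ o, (if o ∈ S then (1 : ℝ) else 0) • Matrix.vecMulVec (fun j => R j o) (fun j => R j o)) =
      R * D * R.transpose := by
    ext i j
    rw [hD]
    simp only [Matrix.sum_apply, Matrix.smul_apply, Matrix.vecMulVec_apply, smul_eq_mul]
    rw [Matrix.mul_apply]
    refine Finset.sum_congr rfl fun o _ => ?_
    rw [Matrix.mul_diagonal, Matrix.transpose_apply]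
    ring
  have h3 : R * D * R.transpose + (R * (1 - D - P)) * (R * (1 - D - P)).transpose =
      R * R.transpose - R * X.transpose * A⁻¹ * (X * R.transpose) := by
    rw [Matrix.transpose_mul, Matrix.mul_assoc R (1 - D - P), ← Matrix.mul_assoc (1 - D - P), hTT]
    have h4 : R * X.transpose * A⁻¹ * (X * R.transpose) = R * P * R.transpose := by
      rw [hP]
      simp only [Matrix.mul_assoc]
    rw [h4]
    simp only [Matrix.sub_mul, Matrix.mul_sub, Matrix.one_mul, Matrix.mul_assoc]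
    abel
  rw [h2, h3] at h1
  let _ := Matrix.invertibleOfIsUnitDet A hAu
  rw [Matrix.transpose_fromRows, Matrix.fromRows_mul_fromCols, ← hA, Matrix.det_fromBlocks₁₁, Matrix.invOf_eq_nonsing_inv]
  have h5 : 0 ≤ A.det := by
    rw [hA]
    exact gram_nonneg X
  exact le_mul_of_one_le_right h5 h1

theorem cov {n k : ℕ} {Ω : Type} [Fintype Ω] (L : AddSubgroup (Fin n → ℤ)) (hL : L.index ≠ 0)
    (Ψ : Matrix (Fin n) Ω ℝ) (w : Ω → ℝ) (hw : ∀ o, 1 ≤ w o)
    (hint : ∀ g ∈ L, ∀ o, ∃ k : ℤ, Matrix.vecMul (fun i => (g i : ℝ)) Ψ o = k * w o)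
    (S : Set Ω) (e : Fin k → Fin n → ℤ) (he : ∀ i, e i ∈ L) (hli : LinearIndependent ℤ e)
    (hS0 : ∀ i, ∀ o ∈ S, Matrix.vecMul (fun j => (e i j : ℝ)) Ψ o = 0)
    (hB : ∀ g ∈ L, (∀ o ∈ S, Matrix.vecMul (fun j => (g j : ℝ)) Ψ o = 0) →
      g ∈ Submodule.span ℤ (Set.range e))
    (hpos : 0 < (Ψ * Ψ.transpose).det) (E : Matrix (Fin k) (Fin n) ℝ)
    (hE : ∀ i j, E i j = (e i j : ℝ)) :
    ((E * Ψ) * (E * Ψ).transpose).det ≤ (L.index : ℝ) ^ 2 * (Ψ * Ψ.transpose).det := by
  classical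
  by_cases hdet : ((E * Ψ) * (E * Ψ).transpose).det = 0
  · rw [hdet]
    positivity
  -- the elements of the span of the `e i` vanish on `S`
  have hspan : ∀ g ∈ Submodule.span ℤ (Set.range e), ∀ o ∈ S, Matrix.vecMul (fun j => (g j : ℝ)) Ψ o = 0 := by
    intro g hg o ho
    induction hg using Submodule.span_induction with
    | mem x hx =>
      obtain ⟨i, rfl⟩ := hx
      exact hS0 i o ho
    | zero =>
      simp [Matrix.vecMul, dotProduct]
    | add x y _ _ hx hy =>
      have h1 : (fun j => (((x + y) j : ℤ) : ℝ)) = (fun j => (x j : ℝ)) + fun j => (y j : ℝ) := by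
        funext j
        simp
      rw [h1, Matrix.add_vecMul, Pi.add_apply, hx, hy, add_zero]
    | smul c x _ hx =>
      have h1 : (fun j => (((c • x) j : ℤ) : ℝ)) = (c : ℝ) • fun j => (x j : ℝ) := by
        funext j
        simp
      rw [h1, Matrix.smul_vecMul, Pi.smul_apply, hx, smul_zero]
  have hp : ∀ g ∈ L, ∀ c : ℤ, c ≠ 0 → c • g ∈ Submodule.span ℤ (Set.range e) →
      g ∈ Submodule.span ℤ (Set.range e) := by
    intro g hg c hc hcg
    refine hB g hg fun o ho => ?_
    have h1 := hspan _ hcg o ho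
    have h2 : (fun j => (((c • g) j : ℤ) : ℝ)) = (c : ℝ) • fun j => (g j : ℝ) := by
      funext j
      simp
    rw [h2, Matrix.smul_vecMul, Pi.smul_apply, smul_eq_mul, mul_eq_zero] at h1
    exact h1.resolve_left (by exact_mod_cast hc)
  obtain ⟨l, f, σ, hf, hdetF, hc⟩ := adapted L hL e he hli hp
  obtain ⟨F, hF⟩ : ∃ F : Matrix (Fin n) (Fin n) ℤ, F = Matrix.of fun i => Sum.elim e f (σ i) := ⟨_, rfl⟩
  obtain ⟨X, hX⟩ : ∃ X, X = E * Ψ := ⟨_, rfl⟩
  obtain ⟨R, hR⟩ : ∃ R : Matrix (Fin l) Ω ℝ, R = (Matrix.of fun j i => ((f j i : ℤ) : ℝ)) * Ψ := ⟨_, rfl⟩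
  have hXe : ∀ i o, X i o = Matrix.vecMul (fun j => (e i j : ℝ)) Ψ o := by
    intro i o
    rw [hX, Matrix.mul_apply]
    simp only [hE, Matrix.vecMul, dotProduct]
  have hRf : ∀ j o, R j o = Matrix.vecMul (fun i => (f j i : ℝ)) Ψ o := by
    intro i o
    rw [hR, Matrix.mul_apply]
    simp only [Matrix.of_apply, Matrix.vecMul, dotProduct]
  have hM : ∀ j o, ∃ m : ℤ, R j o = m * w o := by
    intro j o
    rw [hRf]
    exact hint (f j) (hf j) o
  choose M hM using hM
  have h0 : ∀ c : Fin l → ℤ, (∀ o ∈ S, ∑ j, c j * M j o = 0) → c = 0 := by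
    intro c hcS
    refine hc c (hB _ (sum_mem fun j _ => L.zsmul_mem (hf j) _) fun o ho => ?_)
    have h1 : (fun i => (((∑ j, c j • f j) i : ℤ) : ℝ)) = ∑ j, (c j : ℝ) • fun i => (f j i : ℝ) := by
      funext i
      simp
    have h2 : Matrix.vecMul (∑ j, (c j : ℝ) • fun i => (f j i : ℝ)) Ψ o = ∑ j, (c j : ℝ) * R j o := by
      rw [Matrix.sum_vecMul, Finset.sum_apply]
      refine Finset.sum_congr rfl fun j _ => ?_
      rw [Matrix.smul_vecMul, Pi.smul_apply, hRf, smul_eq_mul]
    rw [h1, h2]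
    have h3 : ∑ j, (c j : ℝ) * R j o = ((∑ j, c j * M j o : ℤ) : ℝ) * w o := by
      push_cast
      rw [Finset.sum_mul]
      refine Finset.sum_congr rfl fun j _ => ?_
      rw [hM]
      ring
    rw [h3, hcS o ho]
    simp
  have h1 := schur S X R (fun i o ho => by rw [hXe]; exact hS0 i o ho) (by rw [hX]; exact hdet) M w hw hM h0
  have h2 : F.map (Int.castRingHom ℝ) * Ψ = (Matrix.fromRows X R).submatrix σ id := by
    ext i o
    rw [Matrix.mul_apply, Matrix.submatrix_apply]
    rcases hσ : σ i with a | a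
    · rw [Matrix.fromRows_apply_inl, id, hXe]
      simp [hF, hσ, Matrix.vecMul, dotProduct]
    · rw [Matrix.fromRows_apply_inr, id, hRf]
      simp [hF, hσ, Matrix.vecMul, dotProduct]
  have h3 : (F.map (Int.castRingHom ℝ) * Ψ) * (F.map (Int.castRingHom ℝ) * Ψ).transpose =
      ((Matrix.fromRows X R) * (Matrix.fromRows X R).transpose).submatrix σ σ := by
    rw [h2]
    ext i j
    rw [Matrix.submatrix_apply, Matrix.mul_apply, Matrix.mul_apply]
    rfl
  have h4 : ((F.map (Int.castRingHom ℝ) * Ψ) * (F.map (Int.castRingHom ℝ) * Ψ).transpose).det =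
      (L.index : ℝ) ^ 2 * (Ψ * Ψ.transpose).det := by
    have h5 : (F.map (Int.castRingHom ℝ) * Ψ) * (F.map (Int.castRingHom ℝ) * Ψ).transpose =
        F.map (Int.castRingHom ℝ) * (Ψ * Ψ.transpose) * (F.map (Int.castRingHom ℝ)).transpose := by
      rw [Matrix.transpose_mul]
      simp only [Matrix.mul_assoc]
    have h6 : (F.map (Int.castRingHom ℝ)).det = (F.det : ℝ) := by
      rw [← RingHom.mapMatrix_apply, ← RingHom.map_det]
      rfl
    have h7 : ((F.det : ℝ)) ^ 2 = (L.index : ℝ) ^ 2 := by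
      rw [← hdetF, ← hF, Nat.cast_natAbs, Int.cast_abs, sq_abs]
    rw [h5, Matrix.det_mul, Matrix.det_mul, Matrix.det_transpose, h6, ← h7]
    ring
  rw [← h4, h3, Matrix.det_submatrix_equiv_self, ← hX]
  exact h1

end Pool.Agent.H72.BD
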