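import Pool.Agent.H72.BD.Sep

/-!
# Multiples of a representation (MP_187c26_nt, Theorem V, S2)

PROOF of `str`. By `Rad.exists_sep` (windows `[a_j, a_j + n)`, separated and without wrap since `n ≤ gap`):
`aeval x P * c i = ∑ j, x ^ a_j V_ij(x)`, `deg V_ij < n`. Multiply by `g = aeval x (v last 0)`:
`∑ j, x ^ a_j (v_l0 V_ij)(x) = P(x) g c_i = ∑ j, x ^ a_j (P v_ij)(x)`, the polynomials have degree `< n + ℓ ≤ gap`
(`deg P < n`). `Rad.sep_unique` with length `n + ℓ` (windows `[a_j, a_j + n + ℓ)` separated): `v_l0 V_ij = P v_ij` for all `i, j`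
(`v_l0 = v (Fin.last d) 0`). `v_l0` divides `P` : `ℤ[X]` is a UFD; `v_l0 ∣ P v_ij` for all `i, j`, and the `v_ij` have no common factor
(`prim`): with a gcd (`NormalizedGCDMonoid` of a UFD, `UniqueFactorizationMonoid.toGCDMonoid`), `v_l0 ∣ gcd (P v_ij) ~ P gcd (v_ij) ~ P`;
or: for every prime `p` of `ℤ[X]` some `v_ij` is not divisible by `p`, so the multiplicity of `p` in `v_l0` is at most that in `P`.
So `P = H v_l0`, and `v_l0 V_ij = H v_l0 v_ij` gives `V_ij = H v_ij` (`v_l0 ≠ 0`), of degree `< n`.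
-/

set_option autoImplicit false

open Polynomial

namespace Pool.Agent.H72.BD

private theorem str_dvd' {A ι : Type} [CommMonoidWithZero A] [NormalizedGCDMonoid A] [Fintype ι]
    (D P : A) (w : ι → A)
    (h : ∀ i, D ∣ P * w i) (hw : ∀ p : A, (∀ i, p ∣ w i) → IsUnit p) : D ∣ P := by
  classical
  have h1 : D ∣ Finset.univ.gcd (fun i => P * w i) := Finset.dvd_gcd fun i _ => h i
  have h3 : D ∣ P * Finset.univ.gcd w := h1.trans (Finset.gcd_mul_left' _ _ P).dvd
  have h2 : IsUnit (Finset.univ.gcd w) := hw _ fun i => Finset.gcd_dvd (Finset.mem_univ i)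
  rwa [h2.dvd_mul_right] at h3

private theorem str_dvd {ι : Type} [Fintype ι] (D P : ℤ[X]) (w : ι → ℤ[X])
    (h : ∀ i, D ∣ P * w i) (hw : ∀ p : ℤ[X], (∀ i, p ∣ w i) → IsUnit p) : D ∣ P :=
  have := UniqueFactorizationMonoid.toNormalizedGCDMonoid ℤ[X]
  str_dvd' D P w h hw

variable {b m : ℕ} [NeZero m] {F : Type} [Field F] [NumberField F] {x : F}

theorem str (h : Rad b m F x) {d R ℓ gap : ℕ} {c : Fin (d + 1) → F} {a : Fin (R + 1) → ℕ}
    {v : Fin (d + 1) → Fin (R + 1) → ℤ[X]} (hr : Rep m x c ℓ gap a v) (n : ℕ) (hn : 1 ≤ n)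
    (hgap : n + ℓ ≤ gap) (P : ℤ[X]) (hP : P.natDegree < n)
    (hden : ∀ i, aeval x P * c i ∈ zx x)
    (hw : ∀ i l, h.co (aeval x P * c i) l ≠ 0 → ∃ j, inw (a j) n l) :
    ∃ H : ℤ[X], P = H * v (Fin.last d) 0 ∧ ∀ i j, (H * v i j).natDegree < n := by
  have hsep : ∀ k : ℕ, k ≤ gap → ∀ i j, i ≠ j → a i + k ≤ a j ∨ a j + k ≤ a i := by
    intro k hk i j hij
    rcases hr.sep i j hij with h1 | h1
    · left; omega
    · right; omega
  have hwrap : ∀ k : ℕ, k ≤ gap → ∀ j, a j + k ≤ m := by
    intro k hk j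
    have := hr.wrap j
    omega
  have hV : ∀ i, ∃ V : Fin (R + 1) → ℤ[X], (∀ j, (V j).natDegree < n) ∧
      aeval x P * c i = ∑ j, x ^ a j * aeval x (V j) := by
    intro i
    obtain ⟨V, h1, h2, _⟩ := h.exists_sep a n hn (hsep n (by omega)) (hwrap n (by omega)) _ (hden i)
      (hw i)
    exact ⟨V, h1, h2⟩
  choose V hV1 hV2 using hV
  have key : ∀ i j, v (Fin.last d) 0 * V i j = P * v i j := by
    intro i j
    have h1 : (fun j => v (Fin.last d) 0 * V i j) = fun j => P * v i j := by
      refine h.sep_unique a (n + ℓ) (hsep _ hgap) (hwrap _ hgap) _ _ ?_ ?_ ?_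
      · intro j
        have h2 := hr.deg (Fin.last d) 0
        have h3 := hV1 i j
        have h4 := natDegree_mul_le (p := v (Fin.last d) 0) (q := V i j)
        show (v (Fin.last d) 0 * V i j).natDegree < n + ℓ
        omega
      · intro j
        have h2 := hr.deg i j
        have h4 := natDegree_mul_le (p := P) (q := v i j)
        show (P * v i j).natDegree < n + ℓ
        omega
      · calc ∑ j, x ^ a j * aeval x (v (Fin.last d) 0 * V i j)
            = aeval x (v (Fin.last d) 0) * ∑ j, x ^ a j * aeval x (V i j) := by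
              rw [Finset.mul_sum]
              refine Finset.sum_congr rfl fun j _ => ?_
              rw [map_mul]
              ring
          _ = aeval x P * (aeval x (v (Fin.last d) 0) * c i) := by
              rw [← hV2 i]
              ring
          _ = aeval x P * ∑ j, x ^ a j * aeval x (v i j) := by rw [hr.eq i]
          _ = ∑ j, x ^ a j * aeval x (P * v i j) := by
              rw [Finset.mul_sum]
              refine Finset.sum_congr rfl fun j _ => ?_
              rw [map_mul]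
              ring
    exact congrFun h1 j
  obtain ⟨H, hH⟩ := str_dvd (v (Fin.last d) 0) P
    (fun q : Fin (d + 1) × Fin (R + 1) => v q.1 q.2)
    (fun q => ⟨V q.1 q.2, (key q.1 q.2).symm⟩)
    (fun p hp => hr.prim p fun i j => hp (i, j))
  refine ⟨H, by rw [hH, mul_comm], fun i j => ?_⟩
  have h1 : v (Fin.last d) 0 * V i j = v (Fin.last d) 0 * (H * v i j) := by
    rw [key i j, hH]
    ring
  rw [← mul_left_cancel₀ hr.vl0 h1]
  exact hV1 i j

end Pool.Agent.H72.BD
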