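import Pool.Agent.H72.BD.Gram
import Pool.Agent.H72.BD.Cov
import Pool.Agent.H72.BD.Str

/-!
# The sublattice of the multiples (MP_187c26_nt, Theorem V, S2)

`μ` = the maximum of the degrees of the `v_ij`, `μ < ℓ`, `n = k + μ` rows, `k ≥ 1`.

PROOF of `sub_bound`. `cov` for `L = Lat x c n`, `Ψ = Psi h c n`, `w (i, l) = ρ ^ l.val ≥ 1`, `S` = the set of the `(i, l)` with `l` in
no window `[a_j, a_j + n)`, `e i` = the coefficients of `X ^ i g`, `g = v last 0` (`i < k`, degree `< n`):
* `e i ∈ L`: `pe x n (e i) = x ^ i g(x)`, `x ^ i g c_i' = ∑ j, x ^ a_j (X ^ i v_i'j)(x) ∈ ℤ[x]`;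
* `hli`: the `X ^ i g` have different degrees (`g ≠ 0`); linear independence over `ℤ`;
* `hS0`: `x ^ i g c_i'` is supported in the windows `[a_j, a_j + n)` (`Rad.inw_of_ne_zero`, degree of `X ^ i v_i'j` is `< n`);
* `hB`: if `g' ∈ L` has no coordinates in `S`, `P = ∑ k, g' k X ^ k` satisfies the hypotheses of `str` (with this `n`), so `P = H g`
 and all `H v_ij` have degree `< n = k + μ`: taking a `v_ij` of degree `μ`, `deg H < k` (or `H = 0`), and
 `P = ∑ i < k, H_i X ^ i g` is in the span;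
* `hpos`: `psi_gram` and `gram_pos`.
So `det ((E Ψ)(E Ψ)ᵀ) ≤ index ^ 2 det (Ψ Ψᵀ) ≤ relIndex ^ 2 ρ ^ (n (n - 1)) det (gr (uu ∘ c) n) ≤ ρ ^ (n n) (4 ^ d) ^ n T`
(`lat_index`, `psi_gram`, `gram_upper`).
-/

set_option autoImplicit false

open Polynomial

namespace Pool.Agent.H72.BD

private theorem pe_poly {F : Type} [Field F] (x : F) {n : ℕ} (P : ℤ[X]) (hP : P.natDegree < n) :
    pe x n (fun j => P.coeff j) = aeval x P := by
  rw [aeval_eq_sum_range' hP]
  change ∑ k : Fin n, ((P.coeff (k : ℕ) : ℤ) : F) * x ^ (k : ℕ) = _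
  rw [Fin.sum_univ_eq_sum_range (fun k => ((P.coeff k : ℤ) : F) * x ^ k) n]
  refine Finset.sum_congr rfl fun k _ => ?_
  rw [zsmul_eq_mul]

private theorem aeval_zx {F : Type} [Field F] (x : F) (P : ℤ[X]) : aeval x P ∈ zx x := by
  have h : aeval x P ∈ Algebra.adjoin ℤ ({x} : Set F) := aeval_mem_adjoin_singleton ℤ x
  exact h

private theorem deg_shift {g : ℤ[X]} {i k μ : ℕ} (hg : g.natDegree ≤ μ) (hi : i < k) :
    (X ^ i * g).natDegree < k + μ := by
  have h1 := natDegree_mul_le (p := (X ^ i : ℤ[X])) (q := g)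
  rw [natDegree_X_pow] at h1
  omega

theorem sub_bound {b m : ℕ} [NeZero m] {F : Type} [Field F] [NumberField F] {x : F}
    (h : Rad b m F x) {d R ℓ gap : ℕ} {c : Fin (d + 1) → F} {a : Fin (R + 1) → ℕ}
    {v : Fin (d + 1) → Fin (R + 1) → ℤ[X]} (hr : Rep m x c ℓ gap a v)
    (hc : c (Fin.last d) = 1) (T : ℝ) (hS : Siz x c (4 ^ d) T) (n k μ : ℕ) (hk : 1 ≤ k)
    (hμ : ∀ i j, (v i j).natDegree ≤ μ) (hμ' : ∃ i j, (v i j).natDegree = μ ∧ v i j ≠ 0)
    (hn : n = k + μ) (hgap : n + ℓ ≤ gap) (E : Matrix (Fin k) (Fin n) ℝ)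
    (hE : ∀ i j, E i j = ((X ^ (i : ℕ) * v (Fin.last d) 0).coeff (j : ℕ) : ℤ)) :
    ((E * Psi h c n) * (E * Psi h c n).transpose).det ≤
      rho b m ^ (n * n) * ((4 ^ d) ^ n * T) := by
  classical
  have hb1 : 1 ≤ b := by have := h.two; omega
  have hgm : gap ≤ m := by have := hr.wrap 0; omega
  have hnm : n ≤ m := by omega
  have hn1 : 1 ≤ n := by omega
  have hgap' : n ≤ gap := by omega
  obtain ⟨g, hg⟩ : ∃ g, g = v (Fin.last d) 0 := ⟨_, rfl⟩
  have hg0 : g ≠ 0 := by rw [hg]; exact hr.vl0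
  have hgμ : g.natDegree ≤ μ := by rw [hg]; exact hμ _ _
  have hrel : (den x c).relIndex (zx x) ≠ 0 := by
    obtain ⟨N, -, -, h0, -⟩ := hS
    exact h0
  obtain ⟨hL0, hL1⟩ := lat_index x c n hrel
  -- degrees of the shifted polynomials
  have hdeg : ∀ (i : Fin k) i' j, (X ^ (i : ℕ) * v i' j).natDegree < n := by
    intro i i' j
    rw [hn]
    exact deg_shift (hμ i' j) i.2
  have hpe : ∀ i : Fin k, pe x n (fun j => (X ^ (i : ℕ) * g).coeff j) = aeval x (X ^ (i : ℕ) * g) := by
    intro i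
    apply pe_poly
    rw [hg]
    exact hdeg i _ _
  -- multiples of `g`
  have hmul : ∀ (P : ℤ[X]) i', aeval x (P * g) * c i' = ∑ j, x ^ a j * aeval x (P * v i' j) := by
    intro P i'
    rw [map_mul, mul_assoc, hg, hr.eq i', Finset.mul_sum]
    refine Finset.sum_congr rfl fun j _ => ?_
    rw [map_mul]
    ring
  have hmul_zx : ∀ (P : ℤ[X]) i', aeval x (P * g) * c i' ∈ zx x := by
    intro P i'
    rw [hmul]
    refine sum_mem fun j _ => ?_
    have : x ^ a j * aeval x (P * v i' j) = aeval x (X ^ a j * (P * v i' j)) := by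
      simp only [map_mul, map_pow, aeval_X]
    rw [this]
    exact aeval_zx x _
  have hsupp : ∀ (P : ℤ[X]) i', (∀ j, (P * v i' j).natDegree < n) → ∀ l : ZMod m,
      (∀ j, ¬ inw (a j) n l) → h.co (aeval x (P * g) * c i') l = 0 := by
    intro P i' hP l hl
    rw [hmul, map_sum, Finset.sum_apply]
    refine Finset.sum_eq_zero fun j _ => ?_
    by_contra hne
    exact hl j (h.inw_of_ne_zero (a j) n (P * v i' j) (hP j) hnm l hne)
  have hrho : ∀ t : ℕ, rho b m ^ t ≠ 0 := fun t => pow_ne_zero _ (rho_pos b m hb1).ne'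
  have hcov := cov (Lat x c n) hL0 (Psi h c n) (fun o => rho b m ^ o.2.val)
    (fun o => one_le_pow₀ (one_le_rho b m hb1)) (fun g' hg' o => psi_int h c n g' hg' o)
    {o : Fin (d + 1) × ZMod m | ∀ j, ¬ inw (a j) n o.2}
    (fun (i : Fin k) (j : Fin n) => (X ^ (i : ℕ) * g).coeff (j : ℕ))
    (fun i => by
      change pe x n (fun j : Fin n => (X ^ (i : ℕ) * g).coeff (j : ℕ)) ∈ den x c
      rw [hpe]
      exact ⟨aeval_zx x _, fun i' => hmul_zx _ i'⟩)
    (by
      rw [Fintype.linearIndependent_iff]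
      intro cc hcc i
      have h1 : (∑ i : Fin k, C (cc i) * X ^ (i : ℕ)) * g = 0 := by
        ext t
        rw [Finset.sum_mul, finsetSum_coeff, coeff_zero]
        by_cases ht : t < n
        · have h2 := congrFun hcc ⟨t, ht⟩
          rw [Finset.sum_apply, Pi.zero_apply] at h2
          rw [← h2]
          refine Finset.sum_congr rfl fun i _ => ?_
          rw [mul_assoc, coeff_C_mul]
          rfl
        · refine Finset.sum_eq_zero fun i _ => ?_
          rw [mul_assoc, coeff_C_mul, coeff_eq_zero_of_natDegree_lt, mul_zero]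
          have h3 := hdeg i (Fin.last d) 0
          rw [← hg] at h3
          omega
      have h2 : (∑ i : Fin k, C (cc i) * X ^ (i : ℕ)) = 0 :=
        (mul_eq_zero.1 h1).resolve_right hg0
      have h3 := congrArg (fun p : ℤ[X] => p.coeff (i : ℕ)) h2
      simp only [finsetSum_coeff, coeff_C_mul, coeff_X_pow, coeff_zero] at h3
      rw [Finset.sum_eq_single i] at h3
      · simpa using h3
      · intro j _ hj
        rw [if_neg, mul_zero]
        intro h4
        exact hj (Fin.ext h4.symm)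
      · intro h4
        exact absurd (Finset.mem_univ i) h4)
    (by
      intro i o ho
      rw [psi_vecMul, hpe]
      unfold Rad.uu
      rw [hsupp _ _ (fun j => hdeg i _ j) o.2 ho, Rat.cast_zero, zero_mul])
    (by
      intro g' hg' hv
      obtain ⟨P, hPd⟩ : ∃ P : ℤ[X], P = ofFn n g' := ⟨_, rfl⟩
      have hPn : P.natDegree < n := by rw [hPd]; exact ofFn_natDegree_lt hn1 g'
      have hPc : ∀ j : Fin n, P.coeff (j : ℕ) = g' j := by
        intro j
        rw [hPd, ofFn_coeff_eq_val_of_lt g' j.2]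
      have hgP : g' = fun j : Fin n => P.coeff (j : ℕ) := by
        funext j
        exact (hPc j).symm
      have hpP : pe x n g' = aeval x P := by
        rw [hgP]
        exact pe_poly x P hPn
      have hmem : pe x n g' ∈ den x c := hg'
      rw [hpP] at hmem
      obtain ⟨H, hH, hHd⟩ := str h hr n hn1 hgap P hPn (fun i => hmem.2 i) (by
        intro i l hl
        by_contra hcon
        push Not at hcon
        apply hl
        have h1 := hv (i, l) hcon
        rw [psi_vecMul, hpP] at h1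
        unfold Rad.uu at h1
        rcases mul_eq_zero.1 h1 with h2 | h2
        · exact_mod_cast h2
        · exact absurd h2 (hrho _))
      rw [← hg] at hH
      have hHk : H.natDegree < k := by
        by_cases hH0 : H = 0
        · rw [hH0, natDegree_zero]
          omega
        · obtain ⟨i0, j0, h1, h2⟩ := hμ'
          have h3 := hHd i0 j0
          rw [natDegree_mul hH0 h2, h1] at h3
          omega
      have hsum : g' = ∑ i : Fin k, H.coeff (i : ℕ) •
          (fun (j : Fin n) => (X ^ (i : ℕ) * g).coeff (j : ℕ)) := by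
        funext j
        rw [Finset.sum_apply, ← hPc j, hH]
        conv_lhs => rw [as_sum_range' H k hHk, Finset.sum_mul, finsetSum_coeff]
        rw [← Fin.sum_univ_eq_sum_range (fun i => ((monomial i (H.coeff i)) * g).coeff (j : ℕ)) k]
        refine Finset.sum_congr rfl fun i _ => ?_
        rw [← C_mul_X_pow_eq_monomial, mul_assoc, coeff_C_mul]
        rfl
      rw [hsum]
      exact sum_mem fun i _ => Submodule.smul_mem _ _ (Submodule.subset_span ⟨i, rfl⟩))
    (by
      rw [psi_gram]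
      exact mul_pos (pow_pos (rho_pos b m hb1) _) (gram_pos h c hc n hnm))
    E (by
      intro i j
      rw [hE, hg])
  have hgu := gram_upper h c (4 ^ d) T (by positivity) hS n hnm
  have hgp := gram_pos h c hc n hnm
  have hI : ((Lat x c n).index : ℝ) ≤ (den x c).relIndex (zx x) := by exact_mod_cast hL1
  refine hcov.trans ?_
  rw [psi_gram]
  have hI2 : ((Lat x c n).index : ℝ) ^ 2 ≤ ((den x c).relIndex (zx x) : ℝ) ^ 2 := by
    gcongr
  have hpow : rho b m ^ (n * (n - 1)) ≤ rho b m ^ (n * n) :=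
    pow_le_pow_right₀ (one_le_rho b m hb1) (Nat.mul_le_mul_left n (Nat.sub_le n 1))
  have hp0 : 0 ≤ rho b m ^ (n * (n - 1)) := pow_nonneg (rho_pos b m hb1).le _
  calc ((Lat x c n).index : ℝ) ^ 2 * (rho b m ^ (n * (n - 1)) * (gr (fun i => h.uu (c i)) n).det)
      ≤ ((den x c).relIndex (zx x) : ℝ) ^ 2 *
        (rho b m ^ (n * (n - 1)) * (gr (fun i => h.uu (c i)) n).det) :=
        mul_le_mul_of_nonneg_right hI2 (mul_nonneg hp0 hgp.le)
    _ = rho b m ^ (n * (n - 1)) *
        (((den x c).relIndex (zx x) : ℝ) ^ 2 * (gr (fun i => h.uu (c i)) n).det) := by ring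
    _ ≤ rho b m ^ (n * n) *
        (((den x c).relIndex (zx x) : ℝ) ^ 2 * (gr (fun i => h.uu (c i)) n).det) :=
        mul_le_mul_of_nonneg_right hpow (mul_nonneg (sq_nonneg _) hgp.le)
    _ ≤ rho b m ^ (n * n) * ((4 ^ d) ^ n * T) :=
        mul_le_mul_of_nonneg_left hgu (pow_nonneg (rho_pos b m hb1).le _)

end Pool.Agent.H72.BD
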