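import Pool.Agent.H72.BD.SizeA
import Pool.Agent.H72.BD.SizeB

/-!
# The size lemma (MP_187c26_nt, Theorem V, S2)

PROOF. `μ` = maximum of the degrees `< ℓ` (attained at a nonzero `v_ij`: `v last 0 ≠ 0`; if `μ = 0` take `v last 0`),
`n = k + ℓ`, `k' = n - μ`, `k < k' ≤ n ≤ 2 k`. `g = gcd (m, Q)`, `N = m / g ≥ m / Q ≥ n` (from `hQ'`: `2 Q n ≤ m` since
`2 ^ (2 Q n) ≤ b ^ (2 Q n) ≤ 2 ^ m`). By `Rad.prod_pow`, `fo_uv`, `gr_lower` (on `ZMod N`), `gram_le`, `sub_bound`, with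
`W = ∏ φ, wt (φ x ^ Q)`:
`W ^ k' = (∏ s, fo s) ^ (g k') ≤ det (gr (uv …) k') ^ (N g) = det ^ m ≤ (ρ ^ (2 Q n k') ρ ^ (n n) (4 ^ d) ^ n T) ^ m`.
`ρ ^ m = b`: `(ρ ^ (2 Q n k')) ^ m = (b ^ (2 Q n)) ^ k' ≤ (2 ^ m) ^ k'`; `(ρ ^ (n n)) ^ m = b ^ (n n) ≤ b ^ (2 k' m)` (`n ≤ 2 k'`, `n ≤ m`);
`((4 ^ d) ^ n) ^ m ≤ ((4 ^ d) ^ (2 k')) ^ m`; `T ^ m ≤ (2 ^ k) ^ m ≤ 2 ^ (k' m)` (`T ≥ 0`). Together
`W ^ k' ≤ ((2 · b ^ 2 · (4 ^ d) ^ 2 · 2) ^ m) ^ k' = (Cc b d ^ m) ^ k'`; take the `k'`-th root (`k' ≥ 1`, `pow_le_pow_left` reversed: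
`le_of_pow_le_pow_left₀`).
-/

set_option autoImplicit false

open Polynomial

namespace Pool.Agent.H72.BD

private theorem siz_rho (b m : ℕ) (hm : m ≠ 0) : rho b m ^ m = b :=
  Real.rpow_inv_natCast_pow (Nat.cast_nonneg b) hm

private theorem siz_nonneg {F : Type} [Field F] [NumberField F] {ι : Type} [Fintype ι] (x : F)
    (c : ι → F) (D T : ℝ) (hS : Siz x c D T) : 0 ≤ T := by
  obtain ⟨N, hN, _, _, h4⟩ := hS
  have h5 : 0 ≤ ∏ φ, N φ := Finset.prod_nonneg fun φ _ => zero_le_one.trans (hN φ)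
  exact (mul_nonneg (by positivity) h5).trans h4

private theorem exists_mu {m d R ℓ gap : ℕ} {F : Type} [Field F] {x : F} {c : Fin (d + 1) → F}
    {a : Fin (R + 1) → ℕ} {v : Fin (d + 1) → Fin (R + 1) → ℤ[X]}
    (hr : Rep m x c ℓ gap a v) : ∃ μ < ℓ, (∀ i j, (v i j).natDegree ≤ μ) ∧
      ∃ i j, (v i j).natDegree = μ ∧ v i j ≠ 0 := by
  obtain ⟨p, _, hp⟩ := Finset.exists_max_image (Finset.univ : Finset (Fin (d + 1) × Fin (R + 1)))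
    (fun p => (v p.1 p.2).natDegree) ⟨(0, 0), Finset.mem_univ _⟩
  refine ⟨(v p.1 p.2).natDegree, hr.deg _ _, fun i j => hp (i, j) (Finset.mem_univ _), ?_⟩
  by_cases h0 : v p.1 p.2 = 0
  · refine ⟨Fin.last d, 0, ?_, hr.vl0⟩
    have h1 := hp (Fin.last d, 0) (Finset.mem_univ _)
    simp only [h0, natDegree_zero, Nat.le_zero] at h1
    rw [h1, h0, natDegree_zero]
  · exact ⟨p.1, p.2, rfl, h0⟩

/-- The numerical part. -/
private theorem size_num (b m d n k' k Q : ℕ) (ρ T G : ℝ) (hρ : ρ ^ m = b) (hb : 2 ≤ b)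
    (hρ0 : 0 ≤ ρ) (hT0 : 0 ≤ T) (hT : T ≤ 2 ^ k) (hQ' : b ^ (2 * Q * n) ≤ 2 ^ m) (hk : k ≤ k')
    (hn : n ≤ 2 * k') (hnm : n ≤ m) (hG0 : 0 ≤ G)
    (hG : G ≤ ρ ^ (2 * Q * n * k') * (ρ ^ (n * n) * ((4 ^ d) ^ n * T))) :
    G ^ m ≤ ((Cc b d : ℝ) ^ m) ^ k' := by
  have hb1 : (1 : ℝ) ≤ b := by exact_mod_cast (by omega : 1 ≤ b)
  have h1 : (ρ ^ (2 * Q * n * k')) ^ m ≤ 2 ^ (m * k') := by
    calc (ρ ^ (2 * Q * n * k')) ^ m = (b : ℝ) ^ (2 * Q * n * k') := by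
          rw [← pow_mul, mul_comm, pow_mul, hρ]
      _ = ((b : ℝ) ^ (2 * Q * n)) ^ k' := by rw [pow_mul]
      _ ≤ (2 ^ m) ^ k' := pow_le_pow_left₀ (by positivity) (by exact_mod_cast hQ') k'
      _ = 2 ^ (m * k') := by rw [pow_mul]
  have h2 : (ρ ^ (n * n)) ^ m ≤ ((b : ℝ) ^ 2) ^ (m * k') := by
    calc (ρ ^ (n * n)) ^ m = (b : ℝ) ^ (n * n) := by rw [← pow_mul, mul_comm, pow_mul, hρ]
      _ ≤ (b : ℝ) ^ (2 * (m * k')) := by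
          refine pow_le_pow_right₀ hb1 ?_
          calc n * n ≤ (2 * k') * m := Nat.mul_le_mul hn hnm
            _ = 2 * (m * k') := by ring
      _ = _ := by rw [pow_mul]
  have h3 : (((4 : ℝ) ^ d) ^ n) ^ m ≤ (((4 : ℝ) ^ d) ^ 2) ^ (m * k') := by
    have h4 : (1 : ℝ) ≤ 4 ^ d := one_le_pow₀ (by norm_num)
    calc (((4 : ℝ) ^ d) ^ n) ^ m = ((4 : ℝ) ^ d) ^ (n * m) := by rw [← pow_mul]
      _ ≤ ((4 : ℝ) ^ d) ^ (2 * (m * k')) := by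
          refine pow_le_pow_right₀ h4 ?_
          calc n * m ≤ (2 * k') * m := Nat.mul_le_mul_right m hn
            _ = 2 * (m * k') := by ring
      _ = _ := by rw [pow_mul]
  have h4 : T ^ m ≤ 2 ^ (m * k') := by
    calc T ^ m ≤ (2 ^ k) ^ m := pow_le_pow_left₀ hT0 hT m
      _ = 2 ^ (k * m) := by rw [← pow_mul]
      _ ≤ 2 ^ (m * k') := by
          refine pow_le_pow_right₀ (by norm_num) ?_
          rw [mul_comm]
          exact Nat.mul_le_mul_left m hk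
  have h5 : (((4 : ℝ) ^ d) ^ n * T) ^ m ≤
      (((4 : ℝ) ^ d) ^ 2) ^ (m * k') * 2 ^ (m * k') := by
    rw [mul_pow]
    exact mul_le_mul h3 h4 (pow_nonneg hT0 m) (by positivity)
  have h6 : (ρ ^ (n * n) * (((4 : ℝ) ^ d) ^ n * T)) ^ m ≤
      ((b : ℝ) ^ 2) ^ (m * k') * ((((4 : ℝ) ^ d) ^ 2) ^ (m * k') * 2 ^ (m * k')) := by
    rw [mul_pow]
    refine mul_le_mul h2 h5 (pow_nonneg (by positivity) m) (by positivity)
  have h7 : (ρ ^ (2 * Q * n * k') * (ρ ^ (n * n) * (((4 : ℝ) ^ d) ^ n * T))) ^ m ≤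
      2 ^ (m * k') * (((b : ℝ) ^ 2) ^ (m * k') *
        ((((4 : ℝ) ^ d) ^ 2) ^ (m * k') * 2 ^ (m * k'))) := by
    rw [mul_pow]
    refine mul_le_mul h1 h6 (pow_nonneg (by positivity) m) (by positivity)
  have h8 : ((Cc b d : ℝ) ^ m) ^ k' = 2 ^ (m * k') * (((b : ℝ) ^ 2) ^ (m * k') *
        ((((4 : ℝ) ^ d) ^ 2) ^ (m * k') * 2 ^ (m * k'))) := by
    rw [← mul_pow, ← mul_pow, ← mul_pow, ← pow_mul]
    congr 1
    unfold Cc
    push_cast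
    ring
  rw [h8]
  exact (pow_le_pow_left₀ hG0 hG m).trans h7

theorem size {b m : ℕ} [NeZero m] {F : Type} [Field F] [NumberField F] {x : F}
    (h : Rad b m F x) {d R ℓ gap : ℕ} {c : Fin (d + 1) → F} {a : Fin (R + 1) → ℕ}
    {v : Fin (d + 1) → Fin (R + 1) → ℤ[X]} (hr : Rep m x c ℓ gap a v)
    (hc : c (Fin.last d) = 1) (T : ℝ) (hS : Siz x c (4 ^ d) T) (k Q : ℕ) (hQ : 1 ≤ Q)
    (hk : ℓ ≤ k) (hgap : k + 2 * ℓ ≤ gap) (hT : T ≤ 2 ^ k)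
    (hQ' : b ^ (2 * Q * (k + ℓ)) ≤ 2 ^ m) :
    ∏ φ : F →+* ℂ, wt b m a v (φ x ^ Q) ≤ (Cc b d : ℝ) ^ m := by
  have hm0 : m ≠ 0 := NeZero.ne m
  obtain ⟨μ, hμℓ, hμ, hμ'⟩ := exists_mu hr
  obtain ⟨k', hk'⟩ : ∃ k', k + ℓ = k' + μ := ⟨k + ℓ - μ, by omega⟩
  have hkk : k ≤ k' := by omega
  have hk1 : 1 ≤ k' := by omega
  have hn2 : k + ℓ ≤ 2 * k' := by omega
  -- the size of `n = k + ℓ`
  have h2n : 2 * Q * (k + ℓ) ≤ m := by
    have h1 : 2 ^ (2 * Q * (k + ℓ)) ≤ 2 ^ m :=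
      (Nat.pow_le_pow_left h.two _).trans hQ'
    exact (Nat.pow_le_pow_iff_right (by norm_num)).1 h1
  have hnm : k + ℓ ≤ m := by
    refine le_trans ?_ h2n
    exact Nat.le_mul_of_pos_left _ (by omega)
  obtain ⟨N, hN⟩ : ∃ N, m = N * Nat.gcd m Q := by
    obtain ⟨N, hN⟩ := Nat.gcd_dvd_left m Q
    exact ⟨N, hN.trans (mul_comm _ _)⟩
  have hg0 : 0 < Nat.gcd m Q := Nat.gcd_pos_of_pos_right m (by omega)
  have hN0 : N ≠ 0 := by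
    rintro rfl
    rw [zero_mul] at hN
    exact hm0 hN
  haveI : NeZero N := ⟨hN0⟩
  have hgQ : Nat.gcd m Q ≤ Q := Nat.gcd_le_right m (by omega)
  have hnN : k + ℓ ≤ N := by
    have h1 : (k + ℓ) * Nat.gcd m Q ≤ N * Nat.gcd m Q := by
      rw [← hN]
      refine le_trans ?_ h2n
      calc (k + ℓ) * Nat.gcd m Q ≤ (k + ℓ) * Q := Nat.mul_le_mul_left _ hgQ
        _ ≤ 2 * ((k + ℓ) * Q) := by omega
        _ = 2 * Q * (k + ℓ) := by ring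
    exact Nat.le_of_mul_le_mul_right h1 hg0
  -- the matrix
  have hsub := sub_bound h hr hc T hS (k + ℓ) k' μ hk1 hμ hμ' hk' (by omega)
    (Matrix.of fun i j => (((X ^ (i : ℕ) * v (Fin.last d) 0).coeff (j : ℕ) : ℤ) : ℝ))
    (fun i j => rfl)
  have hgl := gram_le h hr (k + ℓ) k' Q N hQ (fun i j => by have := hμ i j; omega) (by omega) hnN
    (Matrix.of fun i j => (((X ^ (i : ℕ) * v (Fin.last d) 0).coeff (j : ℕ) : ℤ) : ℝ))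
    (fun i j => rfl)
  have hρ0 : 0 ≤ rho b m := Real.rpow_nonneg (Nat.cast_nonneg b) _
  have hdet := hgl.trans (mul_le_mul_of_nonneg_left hsub (pow_nonneg hρ0 _))
  have hdet0 : 0 ≤ (gr (uv (rho b m) (rho b m ^ Q) N a v) k').det := gr_det_nonneg _ _
  have hT0 := siz_nonneg x c _ T hS
  have hnum := size_num b m d (k + ℓ) k' k Q (rho b m) T _ (siz_rho b m hm0) h.two hρ0 hT0 hT hQ'
    hkk hn2 hnm hdet0 hdet
  have hlow := gr_lower (uv (rho b m) (rho b m ^ Q) N a v) k' (by omega)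
  have hW : ∏ φ : F →+* ℂ, wt b m a v (φ x ^ Q) =
      (∏ s, fo (uv (rho b m) (rho b m ^ Q) N a v) s) ^ Nat.gcd m Q := by
    rw [h.prod_pow Q N hN.symm (fun z => wt b m a v z)]
    congr 1
    refine Finset.prod_congr rfl fun s _ => ?_
    rw [fo_uv b m N a v (rho b m ^ Q) (fun i j => by have := hμ i j; omega) s]
  have hP0 : 0 ≤ ∏ s, fo (uv (rho b m) (rho b m ^ Q) N a v) s :=
    Finset.prod_nonneg fun s _ => fo_nonneg _ s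
  have hfin : (∏ φ : F →+* ℂ, wt b m a v (φ x ^ Q)) ^ k' ≤ ((Cc b d : ℝ) ^ m) ^ k' := by
    refine le_trans ?_ hnum
    rw [hW, ← pow_mul, mul_comm, pow_mul]
    calc ((∏ s, fo (uv (rho b m) (rho b m ^ Q) N a v) s) ^ k') ^ Nat.gcd m Q ≤
        ((gr (uv (rho b m) (rho b m ^ Q) N a v) k').det ^ N) ^ Nat.gcd m Q :=
          pow_le_pow_left₀ (pow_nonneg hP0 _) hlow _
      _ = (gr (uv (rho b m) (rho b m ^ Q) N a v) k').det ^ m := by rw [← pow_mul, ← hN]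
  exact le_of_pow_le_pow_left₀ (by omega) (by positivity) hfin

end Pool.Agent.H72.BD
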