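import Mathlib

/-!
# Stable scales (MP_187c26_nt, Theorem V, S5)

PROOF: let `Q R` be the statement: there is `n` with `Sm Q1 n`, `1 ≤ n`, `n ≤ N ^ (R0 - R)`, `P n (ℓ0 * G ^ (R0 - R)) R`. `Q R0` holds
(`n = 1`). Let `R ≤ R0` be minimal with `Q R`, `n` as in `Q R`, `i = R0 - R`. If `R' < R` and `P (n * n') (ℓ0 * G ^ (i + 1)) R'` with
`Sm Q1 n'`, `n' ≤ N`, then `Sm Q1 (n * n')`, `n n' ≤ N ^ (i + 1) ≤ N ^ (R0 - R')` and by `hmono`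
`P (n * n') (ℓ0 * G ^ (R0 - R')) R'`, i.e. `Q R'`, contradiction to minimality.
-/

set_option autoImplicit false

namespace Pool.Agent.H72.BD

/-- All prime factors of `n` are at least `Q`. -/
def Sm (Q n : ℕ) : Prop := ∀ p : ℕ, p.Prime → p ∣ n → Q ≤ p

theorem sm_of_mod (Q M t : ℕ) (hM : ∀ p : ℕ, p.Prime → p < Q → p ∣ M) : Sm Q (1 + M * t) := by
  intro p hp hpd
  by_contra hlt
  have h1 : p ∣ M * t := (hM p hp (by omega)).mul_right t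
  have h2 : p ∣ 1 := (Nat.dvd_add_left h1).1 hpd
  exact hp.one_lt.ne' (Nat.dvd_one.1 h2)

theorem Sm.mul {Q n n' : ℕ} (h : Sm Q n) (h' : Sm Q n') : Sm Q (n * n') := by
  intro p hp hpd
  rcases hp.dvd_mul.1 hpd with h1 | h1
  · exact h p hp h1
  · exact h' p hp h1

theorem stab (P : ℕ → ℕ → ℕ → Prop)
    (hmono : ∀ n ℓ ℓ' R, ℓ ≤ ℓ' → P n ℓ R → P n ℓ' R) (Q1 N G ℓ0 R0 : ℕ) (hG : 1 ≤ G)
    (hN : 1 ≤ N) (h1 : P 1 ℓ0 R0) :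
    ∃ n i R : ℕ, R ≤ R0 ∧ i ≤ R0 ∧ Sm Q1 n ∧ 1 ≤ n ∧ n ≤ N ^ R0 ∧ P n (ℓ0 * G ^ i) R ∧
      ∀ n', Sm Q1 n' → 1 ≤ n' → n' ≤ N → ∀ R' < R, ¬ P (n * n') (ℓ0 * G ^ (i + 1)) R' := by
  classical
  have hex : ∃ R, R ≤ R0 ∧ ∃ n, Sm Q1 n ∧ 1 ≤ n ∧ n ≤ N ^ (R0 - R) ∧ P n (ℓ0 * G ^ (R0 - R)) R := by
    refine ⟨R0, le_rfl, 1, fun p hp hpd => absurd (Nat.dvd_one.1 hpd) hp.one_lt.ne', le_rfl, ?_, ?_⟩
    · rw [Nat.sub_self, pow_zero]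
    · rw [Nat.sub_self, pow_zero, mul_one]
      exact h1
  obtain ⟨hR, n, hs, hn1, hn, hP⟩ := Nat.find_spec hex
  obtain ⟨R, hRe⟩ : ∃ R, R = Nat.find hex := ⟨_, rfl⟩
  rw [← hRe] at hR hn hP
  refine ⟨n, R0 - R, R, hR, Nat.sub_le _ _, hs, hn1, hn.trans (Nat.pow_le_pow_right hN (Nat.sub_le _ _)), hP,
    fun n' hs' hn1' hn' R' hR' hP' => ?_⟩
  refine Nat.find_min hex (by rw [← hRe]; exact hR') ⟨by omega, n * n', hs.mul hs', Nat.mul_pos hn1 hn1', ?_, ?_⟩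
  · calc n * n' ≤ N ^ (R0 - R) * N := Nat.mul_le_mul hn hn'
      _ = N ^ (R0 - R + 1) := (pow_succ _ _).symm
      _ ≤ N ^ (R0 - R') := Nat.pow_le_pow_right hN (by omega)
  · refine hmono _ _ _ _ ?_ hP'
    exact Nat.mul_le_mul_left _ (Nat.pow_le_pow_right hG (by omega))

end Pool.Agent.H72.BD
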