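import Pool.Agent.H72.BD.Two
import Pool.Agent.H72.BD.MinR
import Pool.Agent.H72.BD.Size
import Pool.Agent.H72.BD.Stab

/-!
# The chain (MP_187c26_nt, Theorem V, S5)

`Setup`: all the data which do not change: base exponent `n0`, windows `a` of `α ^ n0` of length `ℓ`, `gap`, the bound `k` for the size
lemma, the number `N` of multipliers, the larger length `L`.

PROOF of `chain` by strong induction on `n'`. `n' = 1`: `min_rep` for `c = cf F (α ^ n0) d` (`hmin 1`), `1 * a j % m = a j`. `n' > 1`: let `p` be a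
prime factor, `n' = n'' p`, `Q1 ≤ p`, `Sm Q1 n''`; `Rep` for `n''` with the windows `a''_j = n'' a_j % m` and length `n'' ℓ`. `size` with `Q = p` and
the same `k` (`n'' ℓ ≤ N ℓ ≤ k`, `k + 2 n'' ℓ ≤ gap`, `b ^ (2 p (k + n'' ℓ)) ≤ b ^ (2 N (k + N ℓ)) ≤ 2 ^ m`). `step_win` for `α ^ (n0 n'')` and `p`
(`(α ^ (n0 n'')) ^ p = α ^ (n0 n')`; `p d h(α ^ (n0 n'')) = d n0 n' h(α) ≤ log 2`, `absLogHeight_pow` of `Pool/Agent/H4/RR/AbsHeight.lean`;
`p n'' ℓ ≤ gap ≤ m`): `WinAt` for `α ^ (n0 n')` at `p a''_j % m = n' a_j % m` (`Nat.mul_mod`), length `p n'' ℓ = n' ℓ`. `min_rep` with `gap`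
and `L` (`hmin n'`). The last coefficient of `cf` is `1` (monic of degree `d`).
-/

set_option autoImplicit false

open Polynomial NumberField

namespace Pool.Agent.H72.BD

theorem cf_last {F Ω : Type} [Field F] [Field Ω] [Algebra F Ω] (α : Ω) (d : ℕ)
    (hα : IsIntegral F α) (hd : (minpoly F α).natDegree = d) : cf F α d (Fin.last d) = 1 := by
  unfold cf
  rw [Fin.val_last, ← hd]
  exact minpoly.monic hα

/-- The data of the chain. -/
structure Setup {b m : ℕ} [NeZero m] {F : Type} [Field F] [NumberField F] {x : F}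
    (h : Rad b m F x) {Ω : Type} [Field Ω] [CharZero Ω] [Algebra F Ω] (α : Ω)
    (d R n0 N ℓ gap k L Q1 : ℕ) (a : Fin (R + 1) → ℕ) (T : ℝ) : Prop where
  int : IsIntegral ℚ α
  a0 : a 0 = 0
  am : ∀ j, a j < m
  hR : R ≤ R0 d
  hℓ : 1 ≤ ℓ
  hn0 : 1 ≤ n0
  deg : ∀ n, 1 ≤ n → n ≤ n0 * N → (minpoly F (α ^ n)).natDegree = d
  siz : ∀ n, 1 ≤ n → n ≤ n0 * N → Siz x (cf F (α ^ n) d) (4 ^ d) T
  hT : T ≤ 2 ^ k
  hk : N * ℓ ≤ k
  hgap : k + 2 * (N * ℓ) ≤ gap
  hgm : gap ≤ m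
  hL : gap + N * ℓ ≤ L
  hQ : b ^ (2 * N * (k + N * ℓ)) ≤ 2 ^ m
  hh : n0 * N * d * absLogHeight₁ α ≤ Real.log 2
  win : WinAt h (cf F (α ^ n0) d) a ℓ
  hmin : ∀ n', Sm Q1 n' → 1 ≤ n' → n' ≤ N → ∀ R' < R, ¬ Win h (cf F (α ^ (n0 * n')) d) L R'
  hQ1 : 4 * K1 b d ^ (R0 d + 1) ≤ Q1

variable {b m : ℕ} [NeZero m] {F : Type} [Field F] [NumberField F] {x : F}
    {h : Rad b m F x} {Ω : Type} [Field Ω] [CharZero Ω] [Algebra F Ω] {α : Ω}
    {d R n0 N ℓ gap k L Q1 : ℕ} {a : Fin (R + 1) → ℕ} {T : ℝ}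

theorem sm_step {Q1 n' : ℕ} (hsm : Sm Q1 n') (h1 : 1 < n') :
    ∃ p n'' : ℕ, p.Prime ∧ Q1 ≤ p ∧ n' = n'' * p ∧ Sm Q1 n'' ∧ 1 ≤ n'' ∧ n'' < n' := by
  obtain ⟨p, hp, hpd⟩ := Nat.exists_prime_and_dvd (show n' ≠ 1 by omega)
  obtain ⟨n'', rfl⟩ := hpd
  refine ⟨p, n'', hp, hsm p hp (Dvd.intro _ rfl), mul_comm _ _, ?_, ?_, ?_⟩
  · intro r hr hrd
    exact hsm r hr (hrd.mul_left p)
  · rcases Nat.eq_zero_or_pos n'' with h0 | h0
    · rw [h0, mul_zero] at h1; omega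
    · exact h0
  · have h0 : 0 < n'' := by
      rcases Nat.eq_zero_or_pos n'' with h0 | h0
      · rw [h0, mul_zero] at h1; omega
      · exact h0
    have := hp.two_le
    nlinarith

/-- The sizes along the chain. -/
theorem chain_size (S : Setup h α d R n0 N ℓ gap k L Q1 a T) (n' : ℕ) (h1 : 1 ≤ n')
    (hN : n' ≤ N) (v : Fin (d + 1) → Fin (R + 1) → ℤ[X])
    (hr : Rep m x (cf F (α ^ (n0 * n')) d) (n' * ℓ) gap (fun j => n' * a j % m) v) (Q : ℕ)
    (hQ0 : 1 ≤ Q) (hQN : Q ≤ N) :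
    ∏ φ : F →+* ℂ, wt b m (fun j => n' * a j % m) v (φ x ^ Q) ≤ (Cc b d : ℝ) ^ m := by
  have hn1 : 1 ≤ n0 * n' := Nat.mul_pos S.hn0 h1
  have hn2 : n0 * n' ≤ n0 * N := Nat.mul_le_mul_left _ hN
  have hle : n' * ℓ ≤ N * ℓ := Nat.mul_le_mul_right _ hN
  refine size h hr (cf_last _ d (S.int.tower_top.pow _) (S.deg _ hn1 hn2)) T (S.siz _ hn1 hn2)
    k Q hQ0 (hle.trans S.hk) ?_ S.hT ?_
  · have := S.hgap
    omega
  · refine le_trans (Nat.pow_le_pow_right ?_ ?_) S.hQ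
    · have := h.two
      omega
    · exact Nat.mul_le_mul (Nat.mul_le_mul_left _ hQN) (Nat.add_le_add_left hle _)

theorem chain (S : Setup h α d R n0 N ℓ gap k L Q1 a T) (n' : ℕ) (hsm : Sm Q1 n')
    (h1 : 1 ≤ n') (hN : n' ≤ N) :
    ∃ v : Fin (d + 1) → Fin (R + 1) → ℤ[X],
      Rep m x (cf F (α ^ (n0 * n')) d) (n' * ℓ) gap (fun j => n' * a j % m) v := by
  have hm1 : 0 < m := h.one_le
  have hNpos : 1 ≤ N := h1.trans hN
  induction n' using Nat.strong_induction_on with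
  | _ n' ih =>
  have hn1 : 1 ≤ n0 * n' := Nat.mul_pos S.hn0 h1
  have hn2 : n0 * n' ≤ n0 * N := Nat.mul_le_mul_left _ hN
  have hle : n' * ℓ ≤ N * ℓ := Nat.mul_le_mul_right _ hN
  have hgap := S.hgap
  have hL := S.hL
  have key : WinAt h (cf F (α ^ (n0 * n')) d) (fun j => n' * a j % m) (n' * ℓ) := by
    rcases Nat.eq_or_lt_of_le h1 with h2 | h2
    · rw [← h2]
      have ea : (fun j => 1 * a j % m) = a := by
        funext j
        rw [one_mul, Nat.mod_eq_of_lt (S.am j)]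
      rw [ea, mul_one, one_mul]
      exact S.win
    · obtain ⟨p, n'', hp, hpQ, rfl, hsm', h1', hlt⟩ := sm_step hsm h2
      have hN' : n'' ≤ N := hlt.le.trans hN
      obtain ⟨v, hv⟩ := ih n'' hlt hsm' h1' hN'
      have hpN : p ≤ N := le_trans (Nat.le_mul_of_pos_left _ h1') hN
      have hs := chain_size S n'' h1' hN' v hv p hp.one_lt.le hpN
      have hpow : (α ^ (n0 * n'')) ^ p = α ^ (n0 * (n'' * p)) := by
        rw [← pow_mul, mul_assoc]
      have hstep := step_win h (α ^ (n0 * n'')) (S.int.pow _) hv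
        (S.deg _ (Nat.mul_pos S.hn0 h1') (Nat.mul_le_mul_left _ hN')) p hp
        (by rw [hpow]; exact S.deg _ hn1 hn2) S.hR hs
        (by
          rw [Pool.Agent.H4.RR.absLogHeight_pow Ω α S.int]
          have e1 : (p : ℝ) * d * (((n0 * n'' : ℕ) : ℝ) * absLogHeight₁ α) =
              ((n0 * (n'' * p) : ℕ) : ℝ) * d * absLogHeight₁ α := by
            push_cast; ring
          rw [e1]
          rcases le_or_gt 0 (absLogHeight₁ α) with h0 | h0
          · refine le_trans ?_ S.hh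
            refine mul_le_mul_of_nonneg_right ?_ h0
            refine mul_le_mul_of_nonneg_right ?_ (Nat.cast_nonneg d)
            exact_mod_cast hn2
          · have h3 : (((n0 * (n'' * p) : ℕ) : ℝ) * d) * absLogHeight₁ α ≤ 0 :=
              mul_nonpos_of_nonneg_of_nonpos (by positivity) h0.le
            exact h3.trans (Real.log_nonneg (by norm_num)))
        (S.hQ1.trans hpQ)
        (by
          have h4 : p * (n'' * ℓ) = n'' * p * ℓ := by ring
          rw [h4]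
          have := S.hgm
          omega)
      rw [hpow] at hstep
      have e2 : (fun j => p * (n'' * a j % m) % m) = fun j => n'' * p * a j % m := by
        funext j
        rw [Nat.mul_mod, Nat.mod_mod, ← Nat.mul_mod]
        congr 1
        ring
      have e3 : p * (n'' * ℓ) = n'' * p * ℓ := by ring
      rw [e3] at hstep
      have e4 : (fun j => p * (fun j => n'' * a j % m) j % m) = fun j => n'' * p * a j % m := e2
      rw [e4] at hstep
      exact hstep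
  refine min_rep h _ (cf_last _ d (S.int.tower_top.pow _) (S.deg _ hn1 hn2)) _ ?_
    (fun j => Nat.mod_lt _ hm1) (n' * ℓ) gap L (Nat.mul_pos h1 S.hℓ) (by omega) S.hgm
    (by omega) key (S.hmin n' hsm h1 hN)
  rw [S.a0, mul_zero, Nat.zero_mod]

end Pool.Agent.H72.BD
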