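import Pool.Agent.H72.BD.Co

/-!
# The Frobenius step (MP_187c26_nt, Theorem V, S3)

`r_j = q a_j % m`, `x ^ (q a_j) = b ^ (q a_j / m) x ^ (r_j)`.

PROOF of `frob_cong`: in the commutative ring `ℤ[x]` (or `𝓞 F`) modulo `q`: `(∑ j, x ^ a_j v_ij(x)) ^ q = ∑ j, x ^ (q a_j) v_ij(x) ^ q`
and `v(x) ^ q = v(x ^ q)` modulo `q` for `v ∈ ℤ[X]` (`Polynomial.expand`, `ZMod q` coefficients: `ZMod.expand_card`; or
`sub_pow_char..`, `MvPolynomial`; or directly: `Int`-coefficients satisfy `n ^ q ≡ n`). So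
`s_0 u_i ^ q ≡ ∑ j, s_0 b ^ (q a_j / m) x ^ (r_j) v_ij (x ^ q) ≡ ∑ j, s_j x ^ (r_j) v_ij (x ^ q)` modulo `q ℤ[x]`.
PROOF of `sum_le`: `ρ ^ r_j ≤ b ≤ b ρ ^ a_j`, `|s_j| ≤ S`, Cauchy–Schwarz for `(d + 1)(R + 1)` terms, `R ≤ R0 d`,
`√((d + 1)(R + 1)) ≤ (d + 1)(R0 d + 1)`.
PROOF of `step`: `u_i = g c_i = ∑ j, x ^ a_j v_ij(x)` (`g = v_last0 (x)`), integral over `ℤ`; `∑ i, u_i α ^ i = g · (minpoly)(α) = 0`.
`u'_i = ∑ j, s_j x ^ (r_j) v_ij(x ^ q)`. If `∑ i, u'_i α ^ (q i) ≠ 0`, then by `cl` (`f = 1`), `sum_le` and `hsize`: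
`q ^ m ≤ exp (m q d h) ∏ φ, (S b (d + 1)(R0 + 1)) √wt ≤ 2 ^ m (S b (d + 1) (R0 + 1) 2 4 ^ d b) ^ m = (S K1) ^ m < q ^ m`
(`∏ √wt = √∏ wt ≤ √(Cc ^ m)`, `√Cc = 2 4 ^ d b`), contradiction. So the polynomial `∑ i, u'_i X ^ i` of degree `≤ d` vanishes at `α ^ q`,
whose minimal polynomial has degree `d`: it is `u'_d` times the minimal polynomial, and
`u'_d = s_0 v_last0 (x ^ q)` (`v last j = 0` for `j ≠ 0`, `a_0 = 0`).
-/

set_option autoImplicit false

open Polynomial NumberField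

namespace Pool.Agent.H72.BD

variable {b m : ℕ} [NeZero m] {F : Type} [Field F] [NumberField F] {x : F} {d R : ℕ}

private theorem int_aev {F : Type} [Field F] {z : F} (hz : IsIntegral ℤ z) (W : ℤ[X]) :
    IsIntegral ℤ (aeval z W) := by
  induction W using Polynomial.induction_on' with
  | add p q hp hq =>
    rw [map_add]
    exact hp.add hq
  | monomial n c =>
    rw [aeval_monomial]
    exact isIntegral_algebraMap.mul (hz.pow n)

private theorem frob_pol (P : ℤ[X]) (q : ℕ) (hq : q.Prime) :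
    ∃ W : ℤ[X], expand ℤ q P = P ^ q + C (q : ℤ) * W := by
  have : Fact q.Prime := ⟨hq⟩
  have h1 : (expand ℤ q P - P ^ q).map (Int.castRingHom (ZMod q)) = 0 := by
    rw [Polynomial.map_sub, Polynomial.map_pow, Polynomial.map_expand, ZMod.expand_card, sub_self]
  have h2 : C (q : ℤ) ∣ expand ℤ q P - P ^ q := by
    rw [C_dvd_iff_dvd_coeff]
    intro i
    have h3 := congrArg (fun Q => coeff Q i) h1
    simp only [coeff_map, coeff_zero] at h3
    exact (ZMod.intCast_zmod_eq_zero_iff_dvd _ _).1 h3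
  obtain ⟨W, hW⟩ := h2
  exact ⟨W, by rw [← hW]; ring⟩

theorem frob_cong (h : Rad b m F x) (a : Fin (R + 1) → ℕ) (v : Fin (R + 1) → ℤ[X]) (q : ℕ)
    (hq : q.Prime) (s : Fin (R + 1) → ℤ)
    (hs : ∀ j, (q : ℤ) ∣ s j - s 0 * (b : ℤ) ^ (q * a j / m)) :
    ∃ w : F, IsIntegral ℤ w ∧ ∑ j, (s j : F) * (x ^ (q * a j % m) * aeval (x ^ q) (v j)) =
      (s 0 : F) * (∑ j, x ^ a j * aeval x (v j)) ^ q + q * w := by
  have hm : m ≠ 0 := NeZero.ne m
  have hx : IsIntegral ℤ x := by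
    refine IsIntegral.of_pow (Nat.pos_of_ne_zero hm) ?_
    rw [h.pow]
    have h1 : (b : F) = algebraMap ℤ F (b : ℤ) := by simp
    rw [h1]
    exact isIntegral_algebraMap
  choose t ht using hs
  obtain ⟨W, hW⟩ := frob_pol (∑ j, X ^ a j * v j) q hq
  have h1 := congrArg (aeval x) hW
  rw [map_add, map_pow, map_mul, expand_aeval, map_sum, map_sum, aeval_C] at h1
  have h2 : ∀ j, x ^ (q * a j) = (b : F) ^ (q * a j / m) * x ^ (q * a j % m) := by
    intro j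
    conv_lhs => rw [← Nat.div_add_mod (q * a j) m]
    rw [pow_add, pow_mul, h.pow]
  have h3 : ∀ j, aeval (x ^ q) (X ^ a j * v j) =
      (b : F) ^ (q * a j / m) * (x ^ (q * a j % m) * aeval (x ^ q) (v j)) := by
    intro j
    rw [map_mul, map_pow, aeval_X, ← pow_mul, h2, mul_assoc]
  have h4 : ∀ j, aeval x (X ^ a j * v j) = x ^ a j * aeval x (v j) := by
    intro j
    rw [map_mul, map_pow, aeval_X]
  rw [Finset.sum_congr rfl fun j _ => h3 j, Finset.sum_congr rfl fun j _ => h4 j] at h1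
  have h5 : ∀ j, (s j : F) = (s 0 : F) * (b : F) ^ (q * a j / m) + (q : F) * (t j : F) := by
    intro j
    have h6 : s j = s 0 * (b : ℤ) ^ (q * a j / m) + q * t j := by
      rw [← ht j]
      ring
    rw [h6]
    push_cast
    ring
  refine ⟨(s 0 : F) * aeval x W + ∑ j, (t j : F) * (x ^ (q * a j % m) * aeval (x ^ q) (v j)), ?_, ?_⟩
  · have hc : ∀ n : ℤ, IsIntegral ℤ (n : F) := by
      intro n
      have h6 : (n : F) = algebraMap ℤ F n := by simp
      rw [h6]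
      exact isIntegral_algebraMap
    refine ((hc _).mul (int_aev hx W)).add ?_
    exact IsIntegral.sum _ fun j _ => (hc _).mul ((hx.pow _).mul (int_aev (hx.pow q) _))
  · have h6 : ∑ j, (s j : F) * (x ^ (q * a j % m) * aeval (x ^ q) (v j)) =
        (s 0 : F) * ∑ j, (b : F) ^ (q * a j / m) * (x ^ (q * a j % m) * aeval (x ^ q) (v j)) +
          (q : F) * ∑ j, (t j : F) * (x ^ (q * a j % m) * aeval (x ^ q) (v j)) := by
      rw [Finset.mul_sum, Finset.mul_sum, ← Finset.sum_add_distrib]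
      refine Finset.sum_congr rfl fun j _ => ?_
      rw [h5]
      ring
    rw [h6, h1]
    have h7 : algebraMap ℤ F (q : ℤ) = (q : F) := by simp
    rw [h7]
    ring

end Pool.Agent.H72.BD
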