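import Mathlib

/-!
# Uniform relative heights over the fields of one radical (MP_187c26_nt): definitions

`F` is a number field with an element `x`, `x ^ m = b`, `[F : ℚ] = m`, `b ≥ 2` squarefree.
-/

set_option autoImplicit false

open Polynomial

namespace Pool.Agent.H72.BD

/-- `b ^ (1 / m)`. -/
noncomputable def rho (b m : ℕ) : ℝ := (b : ℝ) ^ ((m : ℝ)⁻¹)

/-- The points `b ^ (1 / m) exp (2 π i s / m)`. -/
noncomputable def pt (b m : ℕ) [NeZero m] (s : ZMod m) : ℂ := (rho b m : ℂ) * ZMod.stdAddChar s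

/-- `F` has degree `m` over `ℚ` and `x ^ m = b` with `b ≥ 2` squarefree. -/
structure Rad (b m : ℕ) (F : Type) [Field F] [NumberField F] (x : F) : Prop where
  two : 2 ≤ b
  sqf : Squarefree b
  pow : x ^ m = b
  deg : Module.finrank ℚ F = m

/-- `X ^ m - b` is irreducible over `ℚ`. -/
theorem irr (b m : ℕ) (hb : 2 ≤ b) (hs : Squarefree b) (hm : 1 ≤ m) :
    Irreducible (X ^ m - C (b : ℚ) : ℚ[X]) := by
  obtain ⟨p, hp, hpb⟩ := Nat.exists_prime_and_dvd (show b ≠ 1 by omega)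
  have hpz : Prime (p : ℤ) := Nat.prime_iff_prime_int.1 hp
  set f : ℤ[X] := X ^ m - C (b : ℤ) with hf
  have hmon : f.Monic := monic_X_pow_sub_C _ (by omega)
  have hdeg : f.natDegree = m := natDegree_X_pow_sub_C
  have hP : (Ideal.span {(p : ℤ)}).IsPrime := (Ideal.span_singleton_prime hpz.ne_zero).2 hpz
  have hbP : (b : ℤ) ∈ Ideal.span {(p : ℤ)} := by
    rw [Ideal.mem_span_singleton]
    exact_mod_cast hpb
  have hbP2 : (b : ℤ) ∉ Ideal.span {(p : ℤ)} ^ 2 := by
    rw [Ideal.span_singleton_pow, Ideal.mem_span_singleton]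
    intro h
    have h1 : p ^ 2 ∣ b := by exact_mod_cast h
    rw [pow_two] at h1
    have h2 := hs p h1
    exact hp.one_lt.ne' (Nat.isUnit_iff.1 h2)
  have hei : f.IsEisensteinAt (Ideal.span {(p : ℤ)}) := by
    refine hmon.isEisensteinAt_of_mem_of_notMem hP.ne_top ?_ ?_
    · intro n hn
      rw [hdeg] at hn
      rw [hf, coeff_sub, coeff_X_pow, coeff_C, if_neg (by omega)]
      split_ifs with h0
      · rw [zero_sub]
        exact neg_mem hbP
      · rw [sub_zero]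
        exact zero_mem _
    · rw [hf, coeff_sub, coeff_X_pow, coeff_C, if_neg (by omega), if_pos rfl, zero_sub]
      intro h
      have h1 := neg_mem h
      rw [neg_neg] at h1
      exact hbP2 h1
  have hirr : Irreducible f := hei.irreducible hP hmon.isPrimitive (by rw [hdeg]; omega)
  have h1 := (hmon.isPrimitive.irreducible_iff_irreducible_map_fraction_map (K := ℚ)).1 hirr
  have h2 : f.map (algebraMap ℤ ℚ) = X ^ m - C (b : ℚ) := by
    rw [hf]
    simp
  rwa [h2] at h1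

section

variable {b m : ℕ} {F : Type} [Field F] [NumberField F] {x : F}

theorem Rad.one_le (h : Rad b m F x) : 1 ≤ m := by
  rw [← h.deg]
  exact Module.finrank_pos

theorem Rad.minpoly_eq (h : Rad b m F x) : minpoly ℚ x = X ^ m - C (b : ℚ) := by
  symm
  refine minpoly.eq_of_irreducible_of_monic (irr b m h.two h.sqf h.one_le) ?_
    (monic_X_pow_sub_C _ (by have := h.one_le; omega))
  simp [h.pow]

/-- The coordinates with respect to `1, x, …, x ^ (m - 1)`. -/
theorem Rad.exists_co [NeZero m] (h : Rad b m F x) : ∃ e : F ≃ₗ[ℚ] (ZMod m → ℚ),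
    ∀ f : ZMod m → ℚ, e.symm f = ∑ l, f l • x ^ l.val := by
  have hli : LinearIndependent ℚ (fun l : ZMod m => x ^ l.val) := by
    have h1 : LinearIndependent ℚ (fun i : Fin (minpoly ℚ x).natDegree => x ^ (i : ℕ)) :=
      linearIndependent_pow x
    have h2 : (minpoly ℚ x).natDegree = m := by
      rw [h.minpoly_eq, natDegree_X_pow_sub_C]
    let f : ZMod m → Fin (minpoly ℚ x).natDegree := fun l => ⟨l.val, by rw [h2]; exact l.val_lt⟩
    have hf : Function.Injective f := by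
      intro a c hac
      have := congrArg Fin.val hac
      exact ZMod.val_injective m this
    exact h1.comp f hf
  have hcard : Fintype.card (ZMod m) = Module.finrank ℚ F := by
    rw [ZMod.card, h.deg]
  let B := basisOfLinearIndependentOfCardEqFinrank hli hcard
  refine ⟨B.equivFun, fun f => ?_⟩
  rw [Module.Basis.equivFun_symm_apply]
  refine Finset.sum_congr rfl fun l _ => ?_
  rw [coe_basisOfLinearIndependentOfCardEqFinrank]

/-- The coordinates with respect to `1, x, …, x ^ (m - 1)`. -/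
noncomputable def Rad.co [NeZero m] (h : Rad b m F x) : F ≃ₗ[ℚ] (ZMod m → ℚ) :=
  Classical.choose h.exists_co

theorem Rad.co_symm [NeZero m] (h : Rad b m F x) (f : ZMod m → ℚ) :
    h.co.symm f = ∑ l, f l • x ^ l.val :=
  Classical.choose_spec h.exists_co f

/-- The coordinates with respect to the normalised powers of `x`. -/
noncomputable def Rad.uu [NeZero m] (h : Rad b m F x) (y : F) (l : ZMod m) : ℝ :=
  (h.co y l : ℝ) * rho b m ^ l.val

end

/-! ### Shifts -/

section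

variable {m : ℕ} {ι : Type} [Fintype ι]

/-- The matrix whose rows are the first `n` cyclic shifts of the vector `u`. -/
def sm (u : ι → ZMod m → ℝ) (n : ℕ) : Matrix (Fin n) (ι × ZMod m) ℝ :=
  Matrix.of fun k w => u w.1 (w.2 - ((k : ℕ) : ZMod m))

/-- The Gram matrix of the first `n` cyclic shifts of the vector `u`. -/
def gr [NeZero m] (u : ι → ZMod m → ℝ) (n : ℕ) : Matrix (Fin n) (Fin n) ℝ :=
  sm u n * (sm u n).transpose

/-- The sum of the squares of the absolute values of the Fourier transforms of the `u i`. -/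
noncomputable def fo [NeZero m] (u : ι → ZMod m → ℝ) (s : ZMod m) : ℝ :=
  ∑ i, ‖∑ l, (u i l : ℂ) * ZMod.stdAddChar (s * l)‖ ^ 2

end

/-! ### Sizes -/

section

variable {F : Type} [Field F] {ι : Type}

/-- The additive group of `ℤ[x]`. -/
def zx (x : F) : AddSubgroup F := (Algebra.adjoin ℤ ({x} : Set F)).toSubring.toAddSubgroup

/-- The `y ∈ ℤ[x]` such that all `y c_i` are in `ℤ[x]`. -/
def den (x : F) (c : ι → F) : AddSubgroup F where
  carrier := {y | y ∈ zx x ∧ ∀ i, y * c i ∈ zx x}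
  zero_mem' := ⟨zero_mem _, fun i => by rw [zero_mul]; exact zero_mem _⟩
  add_mem' := fun {a b} ha hb => ⟨add_mem ha.1 hb.1, fun i => by
    rw [add_mul]; exact add_mem (ha.2 i) (hb.2 i)⟩
  neg_mem' := fun {a} ha => ⟨neg_mem ha.1, fun i => by
    rw [neg_mul]; exact neg_mem (ha.2 i)⟩

/-- `index (den x c) ^ 2 * ∏ N_φ ≤ T`, where `∑ i, |φ (c i)| ^ 2 ≤ D N_φ`, `N_φ ≥ 1`. -/
def Siz [NumberField F] [Fintype ι] (x : F) (c : ι → F) (D T : ℝ) : Prop :=
  ∃ N : (F →+* ℂ) → ℝ, (∀ φ, 1 ≤ N φ) ∧ (∀ φ, ∑ i, ‖φ (c i)‖ ^ 2 ≤ D * N φ) ∧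
    (den x c).relIndex (zx x) ≠ 0 ∧
    ((den x c).relIndex (zx x) : ℝ) ^ 2 * ∏ φ, N φ ≤ T

end

/-! ### Windows -/

/-- `l ∈ [a, a + ℓ)` modulo `m`. -/
def inw {m : ℕ} (a ℓ : ℕ) (l : ZMod m) : Prop := ∃ e : ℕ, e < ℓ ∧ l = ((a + e : ℕ) : ZMod m)

section

variable {b m : ℕ} [NeZero m] {F : Type} [Field F] [NumberField F] {x : F}

/-- For some `g ≠ 0` in the window `[0, ℓ)` all `g c_i` are in the windows `[a_j, a_j + ℓ)`. -/
def WinAt (h : Rad b m F x) {d R : ℕ} (c : Fin (d + 1) → F) (a : Fin (R + 1) → ℕ) (ℓ : ℕ) :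
    Prop :=
  ∃ g : F, g ≠ 0 ∧ (∀ l, h.co g l ≠ 0 → inw 0 ℓ l) ∧
    ∀ i l, h.co (g * c i) l ≠ 0 → ∃ j, inw (a j) ℓ l

/-- `R + 1` windows of length `ℓ` are sufficient. -/
def Win (h : Rad b m F x) {d : ℕ} (c : Fin (d + 1) → F) (ℓ R : ℕ) : Prop :=
  ∃ a : Fin (R + 1) → ℕ, a 0 = 0 ∧ WinAt h c a ℓ

end

/-- A representation `g c_i = ∑ j, x ^ (a_j) v_ij (x)`, `g = v_d0 (x)`, with separated windows. -/
structure Rep (m : ℕ) {F : Type} [Field F] (x : F) {d R : ℕ} (c : Fin (d + 1) → F) (ℓ gap : ℕ)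
    (a : Fin (R + 1) → ℕ) (v : Fin (d + 1) → Fin (R + 1) → ℤ[X]) : Prop where
  a0 : a 0 = 0
  sep : ∀ i j, i ≠ j → a i + gap ≤ a j ∨ a j + gap ≤ a i
  wrap : ∀ j, a j + gap ≤ m
  deg : ∀ i j, (v i j).natDegree < ℓ
  vl : ∀ j, j ≠ 0 → v (Fin.last d) j = 0
  vl0 : v (Fin.last d) 0 ≠ 0
  eq : ∀ i, aeval x (v (Fin.last d) 0) * c i = ∑ j, x ^ a j * aeval x (v i j)
  prim : ∀ p : ℤ[X], (∀ i j, p ∣ v i j) → IsUnit p
  act : ∀ j, ∃ i, v i j ≠ 0

/-- The coefficients of the minimal polynomial. -/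
noncomputable def cf (F : Type) [Field F] {Ω : Type} [Field Ω] [Algebra F Ω] (α : Ω) (d : ℕ) :
    Fin (d + 1) → F := fun i => (minpoly F α).coeff i

/-- The size of a representation at the point `z`. -/
noncomputable def wt (b m : ℕ) {d R : ℕ} (a : Fin (R + 1) → ℕ)
    (v : Fin (d + 1) → Fin (R + 1) → ℤ[X]) (z : ℂ) : ℝ :=
  ∑ i, ∑ j, rho b m ^ (2 * a j) * ‖aeval z (v i j)‖ ^ 2

/-! ### Constants -/

/-- The bound for the number of windows (minus one). -/
def R0 (d : ℕ) : ℕ := 4 ^ (d + 1)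

/-- The constant of the size lemma. -/
def Cc (b d : ℕ) : ℕ := 4 * (4 ^ d * b) ^ 2

/-- The constant of the Frobenius step. -/
def K1 (b d : ℕ) : ℕ := 4 * b ^ 2 * 4 ^ d * (d + 1) * (R0 d + 1)

end Pool.Agent.H72.BD
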