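import Pool.Agent.H72.BD.Idx
import Pool.Agent.H4.RR.AbsHeight

/-!
# The denominator ideal of `α` and the height (MP_187c26_nt, Theorem V)

PROOF. `E` = a number field over `F` with an element `α` of degree `d` (e.g. `IntermediateField.adjoin F {α}` in `Ω`, or
`AdjoinRoot (minpoly F α)`), `[E : F] = d`. Write `α = β / γ`, `β, γ ∈ 𝓞 E`, `γ ≠ 0`. `(γ) ≤ (β, γ)`, so `(γ) = 𝔡 (β, γ)` for an ideal `𝔡`
of the Dedekind domain `𝓞 E` (`Ideal.dvd_iff_le`). `y ∈ 𝔡 ⇒ y β ∈ 𝔡 (β, γ) = (γ) ⇒ y α ∈ 𝓞 E`. By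
`NumberField.absNorm_mul_finprod_finitePlace_eq_one` (for `![β, γ]` and for `![γ]`): `absNorm 𝔡 = absNorm (γ) / absNorm (β, γ) =
∏ᶠ v, max (|β|_v, |γ|_v) / |γ|_v = ∏ᶠ v, max (1, |α|_v)`.
`𝔞` = the ideal `Ideal.relNorm (𝓞 F) 𝔡` of `𝓞 F` (generated by the norms of the elements of `𝔡`), as an additive subgroup of `F`;
`absNorm 𝔞 = absNorm 𝔡` (`Ideal.absNorm_relNorm`), `A = absNorm 𝔡`. For `y ∈ 𝔡`: the norm from `E[X]` to `F[X]` of `y X - y α` is
`N(y) · minpoly F α` (characteristic polynomial: `Algebra.charpoly`, `[E : F] = d = deg minpoly`) and has coefficients in `𝓞 F`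
(product over the `F`-embeddings `σ` of `E` of `σ y X - σ (y α)`, all coefficients are algebraic integers in `F`): so
`N(y) c_i ∈ 𝓞 F`, hence `z c_i ∈ 𝓞 F` for all `z ∈ 𝔞`.
HEIGHT: `mahlerMeasure ((minpoly F α).map φ) = ∏_(σ : E → ℂ over φ) max 1 |σ α|` (monic, the roots are the `σ α`:
`Polynomial.mahlerMeasure_eq_leadingCoeff_mul_prod_roots`; the `σ` over `φ` are in bijection with the roots), so
`∏_φ = ∏_(σ : E →+* ℂ) max 1 |σ α|` is the infinite part of `Height.mulHeight₁ α` and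
`A ∏_φ = mulHeight₁ α = exp ([E : ℚ] h(α)) = exp (d [F : ℚ] h(α))` (`NumberField.mulHeight₁_eq`, `Pool.Agent.H4.RR.absLogHeight_eq`).
-/

set_option autoImplicit false

open Polynomial NumberField

namespace Pool.Agent.H72.BD

section emb

variable {F E : Type} [Field F] [NumberField F] [Field E] [NumberField E] [Algebra F E]

private theorem emb_inj (φ : F →+* ℂ) (α : E) (hα : (minpoly F α).natDegree = Module.finrank F E)
    (σ τ : E →+* ℂ) (hσ : σ.comp (algebraMap F E) = φ) (hτ : τ.comp (algebraMap F E) = φ)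
    (h : σ α = τ α) : σ = τ := by
  let : Algebra F ℂ := φ.toAlgebra
  let σ' : E →ₐ[F] ℂ := ⟨σ, fun r => congrArg (fun g : F →+* ℂ => g r) hσ⟩
  let τ' : E →ₐ[F] ℂ := ⟨τ, fun r => congrArg (fun g : F →+* ℂ => g r) hτ⟩
  have h1 : IntermediateField.adjoin F {α} = ⊤ := (Field.primitive_element_iff_minpoly_natDegree_eq F α).2 hα
  have h2 : Algebra.adjoin F {α} = ⊤ := by
    rw [← IntermediateField.adjoin_simple_toSubalgebra_of_isAlgebraic (Algebra.IsAlgebraic.isAlgebraic α), h1,
      IntermediateField.top_toSubalgebra]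
  have h3 : σ' = τ' := by
    refine AlgHom.ext_of_adjoin_eq_top h2 ?_
    intro z hz
    rw [Set.mem_singleton_iff.1 hz]
    exact h
  ext z
  exact congrArg (fun g : E →ₐ[F] ℂ => g z) h3

open Classical in
private theorem prod_X_sub (φ : F →+* ℂ) (α : E) (hα : (minpoly F α).natDegree = Module.finrank F E) :
    (minpoly F α).map φ =
      ∏ σ ∈ Finset.univ.filter (fun σ : E →+* ℂ => σ.comp (algebraMap F E) = φ), (X - C (σ α)) := by
  have hmon : (minpoly F α).Monic := minpoly.monic (Algebra.IsIntegral.isIntegral α)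
  have hmon2 : (∏ σ ∈ Finset.univ.filter (fun σ : E →+* ℂ => σ.comp (algebraMap F E) = φ),
      (X - C (σ α))).Monic := monic_prod_of_monic _ _ fun σ _ => monic_X_sub_C _
  refine (eq_of_monic_of_dvd_of_natDegree_le hmon2 (hmon.map φ) ?_ ?_)
  · refine Finset.prod_dvd_of_coprime ?_ ?_
    · intro σ hσ τ hτ hne
      have h1 : σ α - τ α ≠ 0 := by
        intro h2
        exact hne (emb_inj φ α hα σ τ (Finset.mem_filter.1 (Finset.mem_coe.1 hσ)).2
          (Finset.mem_filter.1 (Finset.mem_coe.1 hτ)).2 (sub_eq_zero.1 h2))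
      exact isCoprime_X_sub_C_of_isUnit_sub (isUnit_iff_ne_zero.2 h1)
    · intro σ hσ
      rw [dvd_iff_isRoot, IsRoot.def, eval_map, ← (Finset.mem_filter.1 hσ).2, ← hom_eval₂]
      have h1 : eval₂ (algebraMap F E) α (minpoly F α) = 0 := minpoly.aeval F α
      rw [h1, map_zero]
  · rw [hmon.natDegree_map, hα, natDegree_prod_of_monic _ _ fun σ _ => monic_X_sub_C _]
    simp only [natDegree_X_sub_C, Finset.sum_const, smul_eq_mul, mul_one]
    rw [Pool.Agent.H4.RR.card_fiber_comp F E φ]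

private theorem mm_prod {ι : Type} (s : Finset ι) (f : ι → ℂ[X]) :
    (∏ i ∈ s, f i).mahlerMeasure = ∏ i ∈ s, (f i).mahlerMeasure := by
  classical
  induction s using Finset.induction_on with
  | empty => rw [Finset.prod_empty, Finset.prod_empty, mahlerMeasure_one]
  | insert a s ha ih => rw [Finset.prod_insert ha, Finset.prod_insert ha, mahlerMeasure_mul, ih]

private theorem prod_mm (α : E) (hα : (minpoly F α).natDegree = Module.finrank F E) :
    ∏ φ : F →+* ℂ, ((minpoly F α).map φ).mahlerMeasure = ∏ σ : E →+* ℂ, max 1 ‖σ α‖ := by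
  classical
  rw [← Finset.prod_fiberwise (s := (Finset.univ : Finset (E →+* ℂ)))
    (g := fun σ => σ.comp (algebraMap F E))]
  refine Finset.prod_congr rfl fun φ _ => ?_
  rw [prod_X_sub φ α hα, mm_prod]
  refine Finset.prod_congr ?_ fun σ _ => mahlerMeasure_X_sub_C _
  ext σ
  simp

private theorem poly_int {ι : Type} (s : Finset ι) (f : ι → ℂ[X]) (h : ∀ i ∈ s, ∀ n, IsIntegral ℤ ((f i).coeff n)) :
    ∀ n, IsIntegral ℤ ((∏ i ∈ s, f i).coeff n) := by
  refine Finset.prod_induction f (fun Q : ℂ[X] => ∀ n, IsIntegral ℤ (Q.coeff n)) ?_ ?_ h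
  · intro a b ha hb n
    rw [coeff_mul]
    exact IsIntegral.sum _ fun x _ => (ha x.1).mul (hb x.2)
  · intro n
    rw [coeff_one]
    split_ifs
    · exact isIntegral_one
    · exact isIntegral_zero

open Classical in
private theorem norm_emb (φ : F →+* ℂ) (y : E) :
    φ (Algebra.norm F y) = ∏ σ ∈ Finset.univ.filter (fun σ : E →+* ℂ => σ.comp (algebraMap F E) = φ), σ y := by
  let : Algebra F ℂ := φ.toAlgebra
  have h1 : algebraMap F ℂ (Algebra.norm F y) = ∏ σ : E →ₐ[F] ℂ, σ y := Algebra.norm_eq_prod_embeddings F ℂ y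
  have h2 : φ (Algebra.norm F y) = ∏ σ : E →ₐ[F] ℂ, σ y := h1
  rw [h2]
  refine Finset.prod_bij (fun σ _ => σ.toRingHom) ?_ ?_ ?_ ?_
  · intro σ _
    rw [Finset.mem_filter]
    refine ⟨Finset.mem_univ _, ?_⟩
    ext r
    exact σ.commutes r
  · intro σ _ τ _ h
    ext z
    exact congrArg (fun g : E →+* ℂ => g z) h
  · intro σ hσ
    have h3 : σ.comp (algebraMap F E) = φ := (Finset.mem_filter.1 hσ).2
    exact ⟨⟨σ, fun r => congrArg (fun g : F →+* ℂ => g r) h3⟩, Finset.mem_univ _, rfl⟩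
  · intro σ _
    rfl

private theorem norm_mul_int (α : E) (hα : (minpoly F α).natDegree = Module.finrank F E) (y : E)
    (hy : IsIntegral ℤ y) (hyα : IsIntegral ℤ (y * α)) (n : ℕ) :
    IsIntegral ℤ (Algebra.norm F y * (minpoly F α).coeff n) := by
  classical
  obtain ⟨φ⟩ : Nonempty (F →+* ℂ) := inferInstance
  have h1 : C (φ (Algebra.norm F y)) * (minpoly F α).map φ =
      ∏ σ ∈ Finset.univ.filter (fun σ : E →+* ℂ => σ.comp (algebraMap F E) = φ),
        (C (σ y) * X - C (σ (y * α))) := by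
    rw [prod_X_sub φ α hα, norm_emb φ y, map_prod, ← Finset.prod_mul_distrib]
    refine Finset.prod_congr rfl fun σ _ => ?_
    rw [map_mul, C_mul]
    ring
  have h2 : IsIntegral ℤ ((C (φ (Algebra.norm F y)) * (minpoly F α).map φ).coeff n) := by
    rw [h1]
    refine poly_int _ _ (fun σ _ k => ?_) n
    rw [coeff_sub, coeff_C_mul, coeff_X, coeff_C]
    refine IsIntegral.sub ?_ ?_
    · split_ifs
      · rw [mul_one]
        exact hy.map σ.toIntAlgHom
      · rw [mul_zero]
        exact isIntegral_zero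
    · split_ifs
      · exact hyα.map σ.toIntAlgHom
      · exact isIntegral_zero
  rw [coeff_C_mul, coeff_map, ← map_mul] at h2
  exact (isIntegral_algHom_iff φ.toIntAlgHom φ.injective).1 h2

private theorem den_id (α : E) : ∃ D : Ideal (𝓞 E), D ≠ ⊥ ∧ (∀ y ∈ D, IsIntegral ℤ ((y : E) * α)) ∧
    (Ideal.absNorm D : ℝ) * ∏ σ : E →+* ℂ, max 1 ‖σ α‖ = Height.mulHeight₁ α := by
  obtain ⟨V, U, hU, rfl⟩ := IsFractionRing.div_surjective (A := 𝓞 E) α
  have hU0 : U ≠ 0 := nonZeroDivisors.ne_zero hU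
  have hUE : (U : E) ≠ 0 := by exact_mod_cast hU0
  have h00 : ((0 : 𝓞 E) : E) = 0 := map_zero (algebraMap (𝓞 E) E)
  have h1 := Pool.Agent.H4.RR.height_mul_absNorm E U V hU0
  have h2 := Pool.Agent.H4.RR.height_mul_absNorm E U 0 hU0
  have hle : Ideal.span {U} ≤ Ideal.span {U, V} := Ideal.span_mono (by simp)
  obtain ⟨D, hD⟩ := Ideal.dvd_iff_le.2 hle
  have h3 : Ideal.span {U, (0 : 𝓞 E)} = Ideal.span {U} := by
    rw [Ideal.span_insert, Ideal.span_singleton_eq_bot.2 rfl, sup_bot_eq]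
  have hJ0 : Ideal.span {U, V} ≠ ⊥ := by
    intro h
    have : U ∈ Ideal.span {U, V} := Ideal.subset_span (by simp)
    rw [h] at this
    exact hU0 (by simpa using this)
  have hJn : (Ideal.absNorm (Ideal.span {U, V}) : ℝ) ≠ 0 := by
    rw [Nat.cast_ne_zero, Ne, Ideal.absNorm_eq_zero_iff]
    exact hJ0
  refine ⟨D, ?_, ?_, ?_⟩
  · rintro rfl
    rw [Ideal.mul_bot, Ideal.span_singleton_eq_bot] at hD
    exact hU0 hD
  · intro y hy
    have h4 : V * y ∈ Ideal.span {U} := by
      rw [hD]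
      exact Ideal.mul_mem_mul (Ideal.subset_span (by simp)) hy
    obtain ⟨t, ht⟩ := Ideal.mem_span_singleton'.1 h4
    have h5 : (t : E) * (U : E) = (V : E) * (y : E) := by exact_mod_cast congrArg (algebraMap (𝓞 E) E) ht
    have h6 : (y : E) * ((V : E) / (U : E)) = (t : E) := by
      rw [← mul_div_assoc, div_eq_iff hUE, h5, mul_comm]
    have h7 : IsIntegral ℤ ((y : E) * ((V : E) / (U : E))) := by
      rw [h6]
      exact RingOfIntegers.isIntegral_coe t
    exact h7
  · have h4 : (Ideal.absNorm (Ideal.span {U}) : ℝ) = ∏ σ : E →+* ℂ, ‖σ (U : E)‖ := by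
      rw [h3] at h2
      have h5 : Height.mulHeight₁ (((0 : 𝓞 E) : E) / (U : E)) = 1 := by
        rw [h00, zero_div]
        exact Height.mulHeight₁_zero
      rw [h5, one_mul] at h2
      rw [h2]
      refine Finset.prod_congr rfl fun σ _ => ?_
      rw [h00, map_zero, norm_zero, max_eq_left (norm_nonneg _)]
    have h6 : ∏ σ : E →+* ℂ, max ‖σ (U : E)‖ ‖σ (V : E)‖ =
        (∏ σ : E →+* ℂ, ‖σ (U : E)‖) * ∏ σ : E →+* ℂ, max 1 ‖σ ((V : E) / (U : E))‖ := by
      rw [← Finset.prod_mul_distrib]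
      refine Finset.prod_congr rfl fun σ _ => ?_
      have h7 : 0 < ‖σ (U : E)‖ := norm_pos_iff.2 ((map_ne_zero σ).2 hUE)
      rw [mul_max_of_nonneg _ _ h7.le, mul_one, map_div₀, norm_div, mul_div_cancel₀ _ h7.ne']
    rw [h6, ← h4, hD, map_mul, Nat.cast_mul, mul_assoc, mul_comm (Height.mulHeight₁ _)] at h1
    exact (mul_left_cancel₀ hJn h1).symm

private theorem norm_id (D : Ideal (𝓞 E)) : ∃ N : Ideal (𝓞 F),
    Ideal.absNorm N = Ideal.absNorm D ∧ ∀ z ∈ N, ∀ c : F,
      (∀ y ∈ D, IsIntegral ℤ (Algebra.norm F (y : E) * c)) → IsIntegral ℤ ((z : F) * c) := by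
  refine ⟨Ideal.relNorm (𝓞 F) D, Ideal.absNorm_relNorm (𝓞 F) (𝓞 E) D, ?_⟩
  intro z hz c hc
  rw [Ideal.relNorm_apply] at hz
  refine Submodule.span_induction (p := fun (z : 𝓞 F) _ => IsIntegral ℤ ((z : F) * c)) ?_ ?_ ?_ ?_ hz
  · rintro _ ⟨y, hy, rfl⟩
    have h1 : ((Algebra.intNorm (𝓞 F) (𝓞 E) y : 𝓞 F) : F) = Algebra.norm F (y : E) :=
      Algebra.algebraMap_intNorm y
    rw [h1]
    exact hc y hy
  · have h1 : (((0 : 𝓞 F) : F) * c) = 0 := by
      have h2 : ((0 : 𝓞 F) : F) = 0 := map_zero (algebraMap (𝓞 F) F)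
      rw [h2, zero_mul]
    rw [h1]
    exact isIntegral_zero
  · intro a b _ _ ha hb
    have h1 : (((a + b : 𝓞 F) : F) * c) = (a : F) * c + (b : F) * c := by
      have h2 : ((a + b : 𝓞 F) : F) = (a : F) + (b : F) := map_add (algebraMap (𝓞 F) F) a b
      rw [h2, add_mul]
    rw [h1]
    exact ha.add hb
  · intro a b _ hb
    have h1 : (((a • b : 𝓞 F) : F) * c) = (a : F) * ((b : F) * c) := by
      have h2 : ((a • b : 𝓞 F) : F) = (a : F) * (b : F) := map_mul (algebraMap (𝓞 F) F) a b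
      rw [h2, mul_assoc]
    rw [h1]
    exact (RingOfIntegers.isIntegral_coe a).mul hb

end emb

theorem den_ideal {F : Type} [Field F] [NumberField F] {Ω : Type} [Field Ω] [CharZero Ω]
    [Algebra F Ω] (α : Ω) (hα : IsIntegral ℚ α) (d : ℕ) (hd : (minpoly F α).natDegree = d) :
    ∃ (𝔞 : AddSubgroup F) (A : ℕ), 𝔞 ≤ ints F ∧ 𝔞.relIndex (ints F) ≠ 0 ∧
      𝔞.relIndex (ints F) ≤ A ∧ (∀ y ∈ 𝔞, ∀ i, y * cf F α d i ∈ ints F) ∧
      (A : ℝ) * ∏ φ : F →+* ℂ, ((minpoly F α).map φ).mahlerMeasure ≤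
        Real.exp (d * Module.finrank ℚ F * absLogHeight₁ α) := by
  have hαF : IsIntegral F α := hα.tower_top
  have hfd : FiniteDimensional F (IntermediateField.adjoin F {α}) :=
    IntermediateField.adjoin.finiteDimensional hαF
  have hfq : FiniteDimensional ℚ (IntermediateField.adjoin F {α}) :=
    Module.Finite.trans F (IntermediateField.adjoin F {α})
  have hnf : NumberField (IntermediateField.adjoin F {α}) := {}
  obtain ⟨α', hα'⟩ : ∃ α' : IntermediateField.adjoin F {α}, α' = IntermediateField.AdjoinSimple.gen F α :=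
    ⟨_, rfl⟩
  have hmin : minpoly F α' = minpoly F α := by
    rw [hα']
    exact IntermediateField.minpoly_gen F α
  have hfin : (minpoly F α').natDegree = Module.finrank F (IntermediateField.adjoin F {α}) := by
    rw [hmin]
    exact (IntermediateField.adjoin.finrank hαF).symm
  have hht := Pool.Agent.H4.RR.absLogHeight_eq (IntermediateField.adjoin F {α}) Ω
    (IntermediateField.val (IntermediateField.adjoin F {α})).toRingHom α'
  have hια : (IntermediateField.val (IntermediateField.adjoin F {α})).toRingHom α' = α := by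
    rw [hα']
    rfl
  rw [hια] at hht
  obtain ⟨D, hD0, hDi, hDn⟩ := den_id α'
  obtain ⟨N, hNn, hN⟩ := norm_id (F := F) D
  have hA0 : Ideal.absNorm D ≠ 0 := by
    rw [Ne, Ideal.absNorm_eq_zero_iff]
    exact hD0
  let f : 𝓞 F →+ F := (algebraMap (𝓞 F) F).toAddMonoidHom
  have hf : Function.Injective f := RingOfIntegers.coe_injective
  have hints : ints F = (⊤ : AddSubgroup (𝓞 F)).map f := by
    ext y
    constructor
    · intro hy
      exact ⟨⟨y, hy⟩, AddSubgroup.mem_top _, rfl⟩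
    · rintro ⟨z, -, rfl⟩
      exact RingOfIntegers.isIntegral_coe z
  have hidx : ((Submodule.toAddSubgroup N).map f).relIndex (ints F) = Ideal.absNorm D := by
    rw [hints, AddSubgroup.relIndex_map_map_of_injective _ _ hf, AddSubgroup.relIndex_top_right, ← hNn]
    rfl
  refine ⟨(Submodule.toAddSubgroup N).map f, Ideal.absNorm D, ?_, ?_, hidx.le, ?_, ?_⟩
  · rw [hints]
    exact AddSubgroup.map_mono le_top
  · rw [hidx]
    exact hA0
  · rintro _ ⟨z, hz, rfl⟩ i
    refine hN z hz _ fun y hy => ?_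
    have h1 := norm_mul_int α' hfin (y : IntermediateField.adjoin F {α}) (RingOfIntegers.isIntegral_coe y)
      (hDi y hy) (i : ℕ)
    rw [hmin] at h1
    exact h1
  · have h1 := prod_mm α' hfin
    rw [hmin] at h1
    rw [h1, hDn, hht]
    have hpos := Height.mulHeight₁_pos α'
    have h2 : Module.finrank ℚ F * Module.finrank F (IntermediateField.adjoin F {α}) =
        Module.finrank ℚ (IntermediateField.adjoin F {α}) :=
      Module.finrank_mul_finrank ℚ F (IntermediateField.adjoin F {α})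
    have h3 : Module.finrank F (IntermediateField.adjoin F {α}) = d := by
      rw [← hfin, hmin, hd]
    have h4 : 0 < Module.finrank ℚ (IntermediateField.adjoin F {α}) := Module.finrank_pos
    have h5 : (d : ℝ) * Module.finrank ℚ F * (Height.logHeight₁ α' /
        Module.finrank ℚ (IntermediateField.adjoin F {α})) = Real.log (Height.mulHeight₁ α') := by
      rw [Height.logHeight₁_eq_log_mulHeight₁]
      have h6 : (Module.finrank ℚ (IntermediateField.adjoin F {α}) : ℝ) = d * Module.finrank ℚ F := by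
        rw [← h2, h3]
        push_cast
        ring
      have h7 : (Module.finrank ℚ (IntermediateField.adjoin F {α}) : ℝ) ≠ 0 := by exact_mod_cast h4.ne'
      rw [← h6]
      field_simp
    rw [h5, Real.exp_log hpos]

end Pool.Agent.H72.BD
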