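import Pool.Agent.H72.BD.Co

/-!
# Embeddings (MP_187c26_nt, Theorem V)

`exists_emb`: `PowerBasis` of `F` over `ℚ` with generator `x` (`minpoly ℚ x = X ^ m - C b`, `h.minpoly_eq`, `F = ℚ(x)` by the
degree); the roots of `X ^ m - b` in `ℂ` are the `m` different points `pt b m s`; `F →+* ℂ` has `m` elements
(`NumberField.Embeddings.card`), `φ ↦ φ x` is injective with values in the roots; so it is a bijection on the points.
`emb_apply`: apply the embedding to `y = ∑ l, co y l • x ^ l.val`, `(pt b m s) ^ l.val = ρ ^ l.val χ(s l)`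
(`ZMod.stdAddChar` is a character: `χ (s) ^ l.val = χ (l.val • s)`, `(l.val : ZMod m) = l`).
-/

set_option autoImplicit false

open Polynomial

namespace Pool.Agent.H72.BD

variable {b m : ℕ} [NeZero m] {F : Type} [Field F] [NumberField F] {x : F}

private theorem st_pow {m : ℕ} [NeZero m] (s : ZMod m) (k : ℕ) :
    (ZMod.stdAddChar s : ℂ) ^ k = ZMod.stdAddChar (s * (k : ZMod m)) := by
  rw [← AddChar.map_nsmul_eq_pow, nsmul_eq_mul, mul_comm]

private theorem norm_st {m : ℕ} [NeZero m] (s : ZMod m) : ‖(ZMod.stdAddChar s : ℂ)‖ = 1 :=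
  AddChar.norm_apply _ _

private theorem pt_pow {b m : ℕ} [NeZero m] (s : ZMod m) : (pt b m s) ^ m = (b : ℂ) := by
  rw [pt, mul_pow, st_pow, ZMod.natCast_self, mul_zero, AddChar.map_zero_eq_one, mul_one]
  exact_mod_cast rho_pow b m (NeZero.ne m)

private theorem pt_inj {b m : ℕ} [NeZero m] (hb : 1 ≤ b) : Function.Injective (pt b m) := by
  intro s t hst
  have h1 : (rho b m : ℂ) ≠ 0 := by
    exact_mod_cast (rho_pos b m hb).ne'
  exact ZMod.injective_stdAddChar (mul_left_cancel₀ h1 hst)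

/-- the roots of `z ^ m = b` -/
private theorem exists_pt {b m : ℕ} [NeZero m] (hb : 1 ≤ b) {z : ℂ} (hz : z ^ m = (b : ℂ)) :
    ∃ s, pt b m s = z := by
  classical
  have hm : 0 < m := Nat.pos_of_ne_zero (NeZero.ne m)
  have hne : (X ^ m - C (b : ℂ) : ℂ[X]) ≠ 0 := X_pow_sub_C_ne_zero hm _
  have h1 : Finset.univ.image (pt b m) ⊆ (X ^ m - C (b : ℂ) : ℂ[X]).roots.toFinset := by
    intro w hw
    obtain ⟨s, -, rfl⟩ := Finset.mem_image.1 hw
    rw [Multiset.mem_toFinset, mem_roots hne]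
    simp [pt_pow]
  have h2 : (X ^ m - C (b : ℂ) : ℂ[X]).roots.toFinset.card ≤ (Finset.univ.image (pt b m)).card := by
    rw [Finset.card_image_of_injective _ (pt_inj hb), Finset.card_univ, ZMod.card]
    refine (Multiset.toFinset_card_le _).trans ((card_roots' _).trans ?_)
    rw [natDegree_X_pow_sub_C]
  have h3 := Finset.eq_of_subset_of_card_le h1 h2
  have h4 : z ∈ (X ^ m - C (b : ℂ) : ℂ[X]).roots.toFinset := by
    rw [Multiset.mem_toFinset, mem_roots hne]
    simp [hz]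
  rw [← h3] at h4
  obtain ⟨s, -, hs⟩ := Finset.mem_image.1 h4
  exact ⟨s, hs⟩

theorem Rad.exists_emb (h : Rad b m F x) :
    ∃ e : ZMod m ≃ (F →+* ℂ), ∀ s, e s x = pt b m s := by
  have hb : 1 ≤ b := by
    have := h.two
    omega
  have h1 : ∀ φ : F →+* ℂ, ∃ s, pt b m s = φ x := by
    intro φ
    refine exists_pt hb ?_
    rw [← map_pow, h.pow, map_natCast]
  choose g hg using h1
  have hinj : Function.Injective g := by
    intro φ ψ hφψ
    have h2 : φ x = ψ x := by rw [← hg φ, ← hg ψ, hφψ]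
    ext y
    have h3 : y = ∑ l, h.co y l • x ^ l.val := by
      rw [← h.co_symm, LinearEquiv.symm_apply_apply]
    rw [h3, map_sum, map_sum]
    refine Finset.sum_congr rfl fun l _ => ?_
    rw [Algebra.smul_def, map_mul, map_mul, map_pow, map_pow, h2]
    simp
  have hbij : Function.Bijective g := by
    rw [Fintype.bijective_iff_injective_and_card]
    refine ⟨hinj, ?_⟩
    rw [NumberField.Embeddings.card, h.deg, ZMod.card]
  refine ⟨(Equiv.ofBijective g hbij).symm, fun s => ?_⟩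
  rw [← hg]
  congr 1
  exact (Equiv.ofBijective g hbij).apply_symm_apply s

/-- The embedding with `x ↦ pt b m s`. -/
noncomputable def Rad.emb (h : Rad b m F x) : ZMod m ≃ (F →+* ℂ) := Classical.choose h.exists_emb

theorem Rad.emb_x (h : Rad b m F x) (s : ZMod m) : h.emb s x = pt b m s :=
  Classical.choose_spec h.exists_emb s

theorem Rad.emb_apply (h : Rad b m F x) (s : ZMod m) (y : F) :
    h.emb s y = ∑ l, (h.uu y l : ℂ) * ZMod.stdAddChar (s * l) := by
  have h3 : y = ∑ l, h.co y l • x ^ l.val := by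
    rw [← h.co_symm, LinearEquiv.symm_apply_apply]
  conv_lhs => rw [h3]
  rw [map_sum]
  refine Finset.sum_congr rfl fun l _ => ?_
  rw [Algebra.smul_def, map_mul, map_pow, h.emb_x, pt, mul_pow, st_pow, ZMod.natCast_zmod_val, Rad.uu]
  push_cast
  rw [mul_assoc]
  congr 1
  simp

theorem Rad.fo_uu (h : Rad b m F x) {ι : Type} [Fintype ι] (c : ι → F) (s : ZMod m) :
    fo (fun i => h.uu (c i)) s = ∑ i, ‖h.emb s (c i)‖ ^ 2 := by
  simp only [fo, h.emb_apply]

theorem Rad.norm_x (h : Rad b m F x) (φ : F →+* ℂ) : ‖φ x‖ = rho b m := by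
  obtain ⟨s, rfl⟩ := h.emb.surjective φ
  have hb : 1 ≤ b := by
    have := h.two
    omega
  rw [h.emb_x, pt, norm_mul, norm_st, mul_one, Complex.norm_real, Real.norm_of_nonneg (rho_pos b m hb).le]

theorem Rad.prod_emb (h : Rad b m F x) (f : (F →+* ℂ) → ℝ) :
    ∏ φ : F →+* ℂ, f φ = ∏ s, f (h.emb s) :=
  (Equiv.prod_comp h.emb f).symm

private theorem prod_val {m : ℕ} [NeZero m] (G : ℕ → ℝ) : ∏ s : ZMod m, G s.val = ∏ i ∈ Finset.range m, G i := by
  cases m with
  | zero => exact absurd rfl (NeZero.ne 0)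
  | succ n => exact Fin.prod_univ_eq_prod_range G (n + 1)

private theorem prod_periodic (G : ℕ → ℝ) (N g : ℕ) (hG : ∀ i, G (i + N) = G i) :
    ∏ i ∈ Finset.range (N * g), G i = (∏ i ∈ Finset.range N, G i) ^ g := by
  have h1 : ∀ g i, G (N * g + i) = G i := by
    intro g
    induction g with
    | zero =>
      intro i
      rw [mul_zero, zero_add]
    | succ g ih =>
      intro i
      rw [show N * (g + 1) + i = N * g + (i + N) by ring, ih, hG]
  induction g with
  | zero => simp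
  | succ g ih =>
    rw [mul_add, mul_one, Finset.prod_range_add, ih, pow_succ]
    congr 1
    exact Finset.prod_congr rfl fun i _ => h1 g i

/-- The points `φ(x) ^ Q` are the points `ρ ^ Q χ_N (s)`, `N = m / gcd (m, Q)`, each `gcd (m, Q)` times. -/
theorem Rad.prod_pow (h : Rad b m F x) (Q N : ℕ) [NeZero N] (hN : N * Nat.gcd m Q = m)
    (f : ℂ → ℝ) : ∏ φ : F →+* ℂ, f (φ x ^ Q) =
      (∏ s : ZMod N, f (((rho b m) ^ Q : ℝ) * ZMod.stdAddChar s)) ^ Nat.gcd m Q := by
  obtain ⟨g, hg⟩ : ∃ g, g = Nat.gcd m Q := ⟨_, rfl⟩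
  have hg0 : 0 < Nat.gcd m Q := Nat.gcd_pos_of_pos_left _ (Nat.pos_of_ne_zero (NeZero.ne m))
  obtain ⟨Q', hQ'⟩ : ∃ Q', Q = Nat.gcd m Q * Q' := Nat.gcd_dvd_right m Q
  have hcop : Nat.Coprime Q' N := by
    have h1 := Nat.coprime_div_gcd_div_gcd hg0
    have h2 : m / Nat.gcd m Q = N := by
      apply Nat.div_eq_of_eq_mul_left hg0
      exact hN.symm
    have h3 : Q / Nat.gcd m Q = Q' := by
      apply Nat.div_eq_of_eq_mul_right hg0
      exact hQ'
    rw [h2, h3] at h1
    exact h1.symm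
  rw [← hg] at hN hg0 hQ' ⊢
  obtain ⟨G, hG⟩ : ∃ G : ℕ → ℝ, G = fun i : ℕ => f (((rho b m) ^ Q : ℝ) * ZMod.stdAddChar (((i * Q' : ℕ) : ZMod N))) :=
    ⟨_, rfl⟩
  have hst : ∀ s : ZMod m, (ZMod.stdAddChar (s * (Q : ZMod m)) : ℂ) =
      ZMod.stdAddChar (((s.val * Q' : ℕ) : ZMod N)) := by
    intro s
    have h1 : s * (Q : ZMod m) = (((s.val * Q : ℕ) : ℤ) : ZMod m) := by
      push_cast
      rw [ZMod.natCast_zmod_val]
    have h2 : (((s.val * Q' : ℕ) : ZMod N)) = (((s.val * Q' : ℕ) : ℤ) : ZMod N) := by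
      push_cast
      rfl
    rw [h1, h2, ZMod.stdAddChar_coe, ZMod.stdAddChar_coe]
    congr 1
    have hN0 : (N : ℂ) ≠ 0 := by exact_mod_cast NeZero.ne N
    have hgc : (g : ℂ) ≠ 0 := by exact_mod_cast hg0.ne'
    have h3 : (m : ℂ) = N * g := by exact_mod_cast hN.symm
    have h4 : (Q : ℂ) = g * Q' := by exact_mod_cast hQ'
    push_cast
    rw [h3, h4]
    field_simp
  have h1 : ∏ φ : F →+* ℂ, f (φ x ^ Q) = ∏ s : ZMod m, G s.val := by
    rw [h.prod_emb fun φ => f (φ x ^ Q)]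
    refine Finset.prod_congr rfl fun s _ => ?_
    rw [hG]
    simp only []
    rw [← hst, h.emb_x, pt, mul_pow, st_pow]
    push_cast
    rfl
  have h2 : ∏ s : ZMod N, f (((rho b m) ^ Q : ℝ) * ZMod.stdAddChar s) = ∏ s : ZMod N, G s.val := by
    have hu : IsUnit ((Q' : ZMod N)) := (ZMod.isUnit_iff_coprime _ _).2 hcop
    obtain ⟨u, hu⟩ := hu
    rw [← Equiv.prod_comp (Units.mulRight u)]
    refine Finset.prod_congr rfl fun s _ => ?_
    rw [hG]
    simp only []
    congr 3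
    rw [Units.mulRight_apply, hu]
    push_cast
    rw [ZMod.natCast_zmod_val]
  rw [h1, h2, prod_val, prod_val, ← prod_periodic G N g, hN]
  intro i
  rw [hG]
  simp only []
  congr 3
  push_cast
  rw [ZMod.natCast_self, add_zero]

end Pool.Agent.H72.BD
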