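import Pool.Agent.H72.BD.Def
import Pool.Agent.H99.MV.CB

/-!
# Two lattice lemmas (MP_187c26_nt, Theorem V, S1 and S2)

`L` a subgroup of finite index of `ℤ ^ n`, `Ψ` an `n × Ω` real matrix; for `g ∈ L` the coordinates of the row vector `g Ψ` are
integer multiples of numbers `w o ≥ 1`.

PROOF of `minor_bound`: `L` has a `ℤ`-basis `f_1, …, f_n`; `F` = integer matrix with these rows,
`|det F| = L.index` (`Submodule.natAbs_det_basis_change` or similar). `F Ψ_J` = (integer matrix) · diag `(w (J k))`. So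
`det F · det Ψ_J = (integer) · ∏ k, w (J k)`: zero or of absolute value `≥ 1`.

PROOF of `cov`: `B = span e = {g ∈ L | g Ψ = 0 on S}` (by `he`, `hS0`, `hB`), `L / B` is torsion free (if `c g ∈ B`, `c ≠ 0`,
then `g Ψ = 0` on `S`), so it is free and `e` extends to a basis `f` of `L`: `f_i = e_i` for `i < k`
(`Module.Basis.sumQuot` or a complement of `B`). `F` = integer matrix with rows `f_i`, `|det F| = L.index`. By Cauchy–Binet
`index ^ 2 det (Ψ Ψᵀ) = det ((F Ψ) (F Ψ)ᵀ) = ∑ J, minor_J (F Ψ) ^ 2 ≥ ∑ (J₁, J₂), minor_(J₁ ∪ J₂) (F Ψ) ^ 2` over the `J₁` in the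
complement of `S`, `|J₁| = k`, and `J₂` in `S`, `|J₂| = n - k`; the matrix is block triangular (`e_i Ψ = 0` on `S`):
`minor = ± minor_J₁ (e Ψ) · minor_J₂ (rest)`, so the sum is `det ((E Ψ) (E Ψ)ᵀ) · ∑ J₂, minor_J₂ (rest on S) ^ 2`, and the last sum is
`≥ 1`: a minor is an integer times a product of numbers `w o ≥ 1`, and not all of them vanish, since the rows `f_i Ψ`
(`i ≥ k`) restricted to `S` are linearly independent over `ℤ` (an integer combination `g` of the `f_i`, `i ≥ k`, with
`g Ψ = 0` on `S` is in `B`), hence so are the integer rows (divide by `w`) over `ℚ`.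
(Alternative without Cauchy–Binet over subsets: Gram determinant inequality `det Gram(rows) = det Gram(e Ψ) ·
det Gram (projections of the other rows on the orthogonal complement of the span of the e Ψ)`, and the last is at least
`det Gram (other rows restricted to S)`, because restriction to `S` kills the `e Ψ` and is a contraction; then
`det Gram` of a rank `n - k` family of integer vectors with weights `≥ 1` is `≥ 1` by Cauchy–Binet for one nonzero minor.)
-/

set_option autoImplicit false

namespace Pool.Agent.H72.BD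

theorem minor_bound {n : ℕ} {Ω : Type} [Fintype Ω] (L : AddSubgroup (Fin n → ℤ))
    (hL : L.index ≠ 0) (Ψ : Matrix (Fin n) Ω ℝ) (w : Ω → ℝ) (hw : ∀ o, 1 ≤ w o)
    (hint : ∀ g ∈ L, ∀ o, ∃ k : ℤ, Matrix.vecMul (fun i => (g i : ℝ)) Ψ o = k * w o)
    (J : Fin n → Ω) : (Ψ.submatrix id J).det = 0 ∨
      1 ≤ (L.index : ℝ) ^ 2 * (Ψ.submatrix id J).det ^ 2 := by
  by_cases h0 : (Ψ.submatrix id J).det = 0
  · exact Or.inl h0
  right
  obtain ⟨e⟩ := Int.addSubgroup_index_ne_zero_iff.1 hL
  let bN : Module.Basis (Fin n) ℤ L := Module.Basis.ofEquivFun e.toIntLinearEquiv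
  have hidx := AddSubgroup.index_eq_natAbs_det (Pi.basisFun ℤ (Fin n)) L bN
  let F : Matrix (Fin n) (Fin n) ℤ := Matrix.of fun i j => (bN i : Fin n → ℤ) j
  have hF : L.index = F.det.natAbs := by
    rw [hidx, Module.Basis.det_apply, ← Matrix.det_transpose F]
    congr 2
  choose K hK using fun (i : Fin n) (k : Fin n) => hint (bN i : Fin n → ℤ) (bN i).2 (J k)
  have hprod : F.map (Int.castRingHom ℝ) * Ψ.submatrix id J =
      ((Matrix.of K).map (Int.castRingHom ℝ)) * Matrix.diagonal fun k => w (J k) := by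
    ext i k
    rw [Matrix.mul_diagonal]
    have h1 := hK i k
    simp only [Matrix.vecMul, dotProduct] at h1
    rw [Matrix.mul_apply]
    simp only [Matrix.map_apply, Matrix.submatrix_apply, id, Matrix.of_apply, eq_intCast, F]
    exact h1
  have hdet := congrArg Matrix.det hprod
  rw [Matrix.det_mul, Matrix.det_mul, Matrix.det_diagonal] at hdet
  have hc : ∀ A : Matrix (Fin n) (Fin n) ℤ, (A.map (Int.castRingHom ℝ)).det = (A.det : ℝ) := by
    intro A
    have := (Int.castRingHom ℝ).map_det A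
    rw [RingHom.mapMatrix_apply] at this
    rw [← this, eq_intCast]
  rw [hc, hc] at hdet
  have hw1 : 1 ≤ ∏ k, w (J k) := by
    have h1 := Finset.prod_le_prod (s := Finset.univ) (f := fun _ : Fin n => (1 : ℝ)) (g := fun k => w (J k))
      (fun _ _ => zero_le_one) fun k _ => hw (J k)
    rwa [Finset.prod_const_one] at h1
  have hFd : (F.det : ℝ) ≠ 0 := by
    intro h
    apply hL
    rw [hF, Int.natAbs_eq_zero]
    exact_mod_cast h
  have hKd : (Matrix.of K).det ≠ 0 := by
    intro h
    rw [h, Int.cast_zero, zero_mul] at hdet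
    exact (mul_ne_zero hFd h0) hdet
  have hK1 : (1 : ℝ) ≤ ((Matrix.of K).det : ℝ) ^ 2 := by
    have : (1 : ℤ) ≤ (Matrix.of K).det ^ 2 := by
      have := pow_pos (abs_pos.2 hKd) 2
      rw [sq_abs] at this
      omega
    exact_mod_cast this
  have hi : (L.index : ℝ) ^ 2 = (F.det : ℝ) ^ 2 := by
    rw [hF, Nat.cast_natAbs, Int.cast_abs, sq_abs]
  rw [hi, ← mul_pow, hdet, mul_pow]
  exact one_le_mul_of_one_le_of_one_le hK1 (one_le_pow₀ hw1)

end Pool.Agent.H72.BD
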