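import Pool.Agent.H72.BD.Toe

/-!
# Toeplitz determinants (MP_187c26_nt, Theorem V, toolkit)

NOTATION. `χ = ZMod.stdAddChar`, `V_J` (`J ⊂ ZMod m`, `|J| = n`) the minor on the columns `J` of the `n × m` matrix
`V k s = χ (k s) / √m` (`V Vᴴ = 1` as `n ≤ m`, so `∑ J, |V_J| ^ 2 = 1` by Cauchy–Binet).

PROOF of `gr_fourier`: `gr u n k k' = ∑ i, ∑ l, u i (l - k) u i (l - k')` is real, and with `û_i s = ∑ l, u i l χ (s l)`
the shift `l ↦ u i (l - k)` has transform `χ (s k) û_i s`, so (Parseval on `ZMod m`)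
`gr u n k k' = (1 / m) ∑ s, χ (s k) conj (χ (s k')) fo u s`, i.e. `gr u n = V diag (fo u) Vᴴ` (as complex matrices).

PROOF of `gr_upper`: Cauchy–Binet: `det (gr u n) = ∑ J, |V_J| ^ 2 ∏ s ∈ J, fo u s`
`≤ ∑ J, |V_J| ^ 2 D ^ n ∏ s ∈ J, N s ≤ D ^ n ∏ s, N s` (all `N s ≥ 1`).

PROOF of `gr_lower`: if some `fo u s = 0` and `n ≥ 1` the left side is `0` and `det (gr u n) ≥ 0`; `n = 0` is trivial. Otherwise
by the weighted AM–GM inequality (`Real.inner_le_nnorm..`, `Real.geom_mean_le_arith_mean_weighted` with weights `|V_J| ^ 2`)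
`det (gr u n) ≥ ∏ J, (∏ s ∈ J, fo u s) ^ (|V_J| ^ 2) = ∏ s, (fo u s) ^ (∑ J ∋ s, |V_J| ^ 2)`, and
`∑ J ∋ s, |V_J| ^ 2` does not depend on `s`: `V_(J + t)` differs from `V_J` by the factor `∏ k, χ (k t)` of absolute value
one; and the sum over `s` is `n ∑ J |V_J| ^ 2 = n`. So it is `n / m`. Take `m`-th powers.
(One can avoid subsets: use `J : Fin n → ZMod m`, all functions, and `∑_(J : Fin n → ZMod m) |det V_J| ^ 2 = n!`,
see `Pool.Agent.H99.MV` or `Pool/Agent/H54/TP/CauchyBinet.lean` for Cauchy–Binet over functions or over subsets.)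
-/

set_option autoImplicit false

open Polynomial

namespace Pool.Agent.H72.BD

variable {m : ℕ} [NeZero m] {ι : Type} [Fintype ι]

/-- Cauchy-Binet over functions. -/
private theorem tb_cb {S : Type} [Fintype S] [DecidableEq S] {n : ℕ} (A : Matrix (Fin n) S ℂ)
    (C : Matrix S (Fin n) ℂ) : (Nat.factorial n : ℂ) * (A * C).det =
      ∑ f : Fin n → S, (A.submatrix id f).det * (C.submatrix f id).det := by
  have h1 : (A * C).det = ∑ p : Fin n → S, (A.submatrix id p).det * ∏ i, C (p i) i := by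
    simp only [Matrix.det_apply', Matrix.mul_apply, Finset.prod_univ_sum, Finset.mul_sum,
      Fintype.piFinset_univ]
    rw [Finset.sum_comm]
    refine Finset.sum_congr rfl fun p _ => ?_
    rw [Finset.sum_mul]
    refine Finset.sum_congr rfl fun σ _ => ?_
    rw [Finset.prod_mul_distrib, ← mul_assoc]
    rfl
  have h2 : ∀ τ : Equiv.Perm (Fin n), (A * C).det = ∑ p : Fin n → S,
      (A.submatrix id p).det * ((Equiv.Perm.sign τ : ℤ) * ∏ i, C (p (τ i)) i) := by
    intro τ
    rw [h1]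
    refine Fintype.sum_equiv (Equiv.arrowCongr τ (Equiv.refl S)) _ _ fun p => ?_
    have e1 : (Equiv.arrowCongr τ (Equiv.refl S)) p = p ∘ τ.symm := rfl
    rw [e1]
    have e2 : A.submatrix id (p ∘ τ.symm) = (A.submatrix id p).submatrix id τ.symm := rfl
    rw [e2, Matrix.det_permute']
    have e3 : ∏ i, C ((p ∘ τ.symm) (τ i)) i = ∏ i, C (p i) i := by
      refine Finset.prod_congr rfl fun i _ => ?_
      simp
    rw [e3]
    have e4 : (Equiv.Perm.sign (τ.symm) : ℤ) = Equiv.Perm.sign τ := by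
      rw [← Equiv.Perm.inv_def, Equiv.Perm.sign_inv]
    rw [e4]
    have e5 : ((Equiv.Perm.sign τ : ℤ) : ℂ) * ((Equiv.Perm.sign τ : ℤ) : ℂ) = 1 := by
      rw [← Int.cast_mul, ← Units.val_mul, Int.units_mul_self]
      simp
    calc (A.submatrix id p).det * ∏ i, C (p i) i
        = (((Equiv.Perm.sign τ : ℤ) : ℂ) * ((Equiv.Perm.sign τ : ℤ) : ℂ)) *
          ((A.submatrix id p).det * ∏ i, C (p i) i) := by rw [e5, one_mul]
      _ = _ := by ring
  have h3 : (Nat.factorial n : ℂ) * (A * C).det = ∑ τ : Equiv.Perm (Fin n), (A * C).det := by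
    rw [Finset.sum_const, Finset.card_univ, Fintype.card_perm, Fintype.card_fin, nsmul_eq_mul]
  rw [h3, Finset.sum_congr rfl (fun τ _ => h2 τ), Finset.sum_comm]
  refine Finset.sum_congr rfl fun p _ => ?_
  rw [← Finset.mul_sum, Matrix.det_apply' (C.submatrix p id)]
  rfl

/-- The matrix of the values of the characters. -/
private noncomputable def tv (m : ℕ) [NeZero m] (n : ℕ) : Matrix (Fin n) (ZMod m) ℂ :=
  Matrix.of fun k s => ZMod.stdAddChar (s * ((k : ℕ) : ZMod m))

private noncomputable def tp (m : ℕ) [NeZero m] (n : ℕ) (f : Fin n → ZMod m) : ℝ :=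
  ‖((tv m n).submatrix id f).det‖ ^ 2

private theorem tp_nonneg (n : ℕ) (f : Fin n → ZMod m) : 0 ≤ tp m n f := by
  unfold tp
  positivity

private theorem tb_w (n : ℕ) (w : ZMod m → ℝ) : (Nat.factorial n : ℂ) *
    (Matrix.of fun k k' : Fin n => ∑ s : ZMod m, ZMod.stdAddChar (s * ((k : ℕ) : ZMod m)) *
        (starRingEnd ℂ) (ZMod.stdAddChar (s * ((k' : ℕ) : ZMod m))) * (w s : ℂ)).det =
      ((∑ f : Fin n → ZMod m, tp m n f * ∏ r, w (f r) : ℝ) : ℂ) := by
  have h1 : (Matrix.of fun k k' : Fin n => ∑ s : ZMod m, ZMod.stdAddChar (s * ((k : ℕ) : ZMod m)) *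
        (starRingEnd ℂ) (ZMod.stdAddChar (s * ((k' : ℕ) : ZMod m))) * (w s : ℂ)) =
      (tv m n * Matrix.diagonal fun s => (w s : ℂ)) * (tv m n).conjTranspose := by
    ext k k'
    rw [Matrix.mul_apply]
    refine Finset.sum_congr rfl fun s _ => ?_
    rw [Matrix.mul_diagonal, Matrix.conjTranspose_apply]
    show ZMod.stdAddChar (s * ((k : ℕ) : ZMod m)) *
        (starRingEnd ℂ) (ZMod.stdAddChar (s * ((k' : ℕ) : ZMod m))) * (w s : ℂ) =
      ZMod.stdAddChar (s * ((k : ℕ) : ZMod m)) * (w s : ℂ) *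
        (starRingEnd ℂ) (ZMod.stdAddChar (s * ((k' : ℕ) : ZMod m)))
    ring
  rw [h1, tb_cb, Complex.ofReal_sum]
  refine Finset.sum_congr rfl fun f _ => ?_
  have h2 : (tv m n * Matrix.diagonal fun s => (w s : ℂ)).submatrix id f =
      (tv m n).submatrix id f * Matrix.diagonal fun r => (w (f r) : ℂ) := by
    ext k r
    rw [Matrix.submatrix_apply, Matrix.mul_diagonal, Matrix.mul_diagonal, Matrix.submatrix_apply]
  have h3 : (tv m n).conjTranspose.submatrix f id = ((tv m n).submatrix id f).conjTranspose := rfl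
  rw [h2, h3, Matrix.det_mul, Matrix.det_diagonal, Matrix.det_conjTranspose, Complex.ofReal_mul,
    Complex.ofReal_prod]
  unfold tp
  rw [Complex.ofReal_pow, ← Complex.mul_conj']
  show _ * _ * (starRingEnd ℂ) _ = _
  ring

private theorem tb_inj (n : ℕ) (f : Fin n → ZMod m) (hf : ¬ Function.Injective f) : tp m n f = 0 := by
  unfold Function.Injective at hf
  push Not at hf
  obtain ⟨a, b, hab, hne⟩ := hf
  unfold tp
  rw [Matrix.det_zero_of_column_eq hne (fun k => by
    rw [Matrix.submatrix_apply, Matrix.submatrix_apply, hab])]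
  simp

private theorem tb_shift (n : ℕ) (f : Fin n → ZMod m) (t : ZMod m) :
    tp m n (fun r => f r + t) = tp m n f := by
  have h1 : (tv m n).submatrix id (fun r => f r + t) =
      Matrix.of fun (k : Fin n) (r : Fin n) => (ZMod.stdAddChar (t * ((k : ℕ) : ZMod m)) : ℂ) *
        ((tv m n).submatrix id f) k r := by
    ext k r
    show (ZMod.stdAddChar ((f r + t) * ((k : ℕ) : ZMod m)) : ℂ) =
      ZMod.stdAddChar (t * ((k : ℕ) : ZMod m)) * ZMod.stdAddChar (f r * ((k : ℕ) : ZMod m))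
    rw [add_mul, AddChar.map_add_eq_mul, mul_comm]
  unfold tp
  rw [h1, Matrix.det_mul_column, norm_mul, norm_prod]
  rw [Finset.prod_eq_one (fun k _ => AddChar.norm_apply _ _), one_mul]

private theorem tb_gr (u : ι → ZMod m → ℝ) (n : ℕ) : (Nat.factorial n : ℝ) * (gr u n).det =
    ∑ f : Fin n → ZMod m, tp m n f * ∏ r, (fo u (f r) / m) := by
  have h1 := tb_w (m := m) n (fun s => fo u s / m)
  have h2 : (Matrix.of fun k k' : Fin n => ∑ s : ZMod m, ZMod.stdAddChar (s * ((k : ℕ) : ZMod m)) *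
        (starRingEnd ℂ) (ZMod.stdAddChar (s * ((k' : ℕ) : ZMod m))) * ((fo u s / m : ℝ) : ℂ)) =
      (gr u n).map (fun x => (x : ℂ)) := by
    ext k k'
    rw [Matrix.map_apply, gr_fourier, Finset.mul_sum]
    refine Finset.sum_congr rfl fun s _ => ?_
    push_cast
    ring
  have h3 : ((gr u n).map (fun x => (x : ℂ))).det = (((gr u n).det : ℝ) : ℂ) := by
    have h4 := (RingHom.map_det Complex.ofRealHom (gr u n)).symm
    exact h4
  rw [h2, h3] at h1
  exact_mod_cast h1

private theorem tb_one (n : ℕ) (hn : n ≤ m) : (Nat.factorial n : ℝ) =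
    ∑ f : Fin n → ZMod m, tp m n f * ∏ _r : Fin n, (1 / (m : ℝ)) := by
  have h1 := tb_w (m := m) n (fun _ => 1 / m)
  have hm : (m : ℂ) ≠ 0 := Nat.cast_ne_zero.2 (NeZero.ne m)
  have h2 : (Matrix.of fun k k' : Fin n => ∑ s : ZMod m, ZMod.stdAddChar (s * ((k : ℕ) : ZMod m)) *
        (starRingEnd ℂ) (ZMod.stdAddChar (s * ((k' : ℕ) : ZMod m))) * ((1 / m : ℝ) : ℂ)) = 1 := by
    ext k k'
    rw [Matrix.of_apply, ← Finset.sum_mul]
    have h3 : ∀ s : ZMod m, ZMod.stdAddChar (s * ((k : ℕ) : ZMod m)) *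
        (starRingEnd ℂ) (ZMod.stdAddChar (s * ((k' : ℕ) : ZMod m))) =
        (ZMod.stdAddChar (s * (((k : ℕ) : ZMod m) - ((k' : ℕ) : ZMod m))) : ℂ) := by
      intro s
      rw [← AddChar.map_neg_eq_conj, ← AddChar.map_add_eq_mul]
      congr 1
      ring
    rw [Finset.sum_congr rfl fun s _ => h3 s, AddChar.sum_mulShift _ (ZMod.isPrimitive_stdAddChar m)]
    rw [Matrix.one_apply]
    by_cases h : k = k'
    · rw [if_pos h, h, sub_self, if_pos rfl, ZMod.card]
      push_cast
      field_simp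
    · have h4 : ((k : ℕ) : ZMod m) - ((k' : ℕ) : ZMod m) ≠ 0 := by
        intro h5
        apply h
        rw [sub_eq_zero, ZMod.natCast_eq_natCast_iff, Nat.ModEq, Nat.mod_eq_of_lt (k.2.trans_le hn),
          Nat.mod_eq_of_lt (k'.2.trans_le hn)] at h5
        exact Fin.ext h5
      rw [if_neg h, if_neg h4]
      simp
  rw [h2, Matrix.det_one, mul_one] at h1
  exact_mod_cast h1

theorem gr_upper (u : ι → ZMod m → ℝ) (n : ℕ) (hn : n ≤ m) (D : ℝ) (hD : 0 ≤ D) (N : ZMod m → ℝ)
    (hN : ∀ s, 1 ≤ N s) (h : ∀ s, fo u s ≤ D * N s) : (gr u n).det ≤ D ^ n * ∏ s, N s := by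
  have hm : (0 : ℝ) < m := Nat.cast_pos.2 (Nat.pos_of_ne_zero (NeZero.ne m))
  have hf : (0 : ℝ) < Nat.factorial n := Nat.cast_pos.2 (Nat.factorial_pos n)
  have h1 : (Nat.factorial n : ℝ) * (gr u n).det ≤ (Nat.factorial n : ℝ) * (D ^ n * ∏ s, N s) := by
    rw [tb_gr]
    conv_rhs => rw [tb_one (m := m) n hn, Finset.sum_mul]
    refine Finset.sum_le_sum fun f _ => ?_
    by_cases hinj : Function.Injective f
    · rw [mul_assoc]
      refine mul_le_mul_of_nonneg_left ?_ (tp_nonneg n f)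
      have h2 : ∏ r, (fo u (f r) / m) ≤ ∏ r, (D * N (f r) / m) :=
        Finset.prod_le_prod (fun r _ => div_nonneg (fo_nonneg u _) hm.le)
          fun r _ => div_le_div_of_nonneg_right (h _) hm.le
      have h3 : ∏ r, (D * N (f r) / m) = (∏ _r : Fin n, (1 / (m : ℝ))) * (D ^ n * ∏ r, N (f r)) := by
        have h4 : ∀ r : Fin n, D * N (f r) / m = 1 / (m : ℝ) * (D * N (f r)) := fun r => by ring
        rw [Finset.prod_congr rfl fun r _ => h4 r, Finset.prod_mul_distrib, Finset.prod_mul_distrib,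
          Finset.prod_const D, Finset.card_univ, Fintype.card_fin]
      have h5 : ∏ r, N (f r) ≤ ∏ s, N s := by
        rw [← Finset.prod_image (s := Finset.univ) (g := f) (f := N) (fun a _ b _ hab => hinj hab)]
        have h6 : ∀ T : Finset (ZMod m), 1 ≤ ∏ s ∈ T, N s := fun T => by
          have h7 := Finset.prod_le_prod (s := T) (f := fun _ => (1 : ℝ)) (g := N)
            (fun _ _ => zero_le_one) (fun s _ => hN s)
          rwa [Finset.prod_const_one] at h7
        rw [← Finset.prod_sdiff (Finset.subset_univ (Finset.image f Finset.univ))]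
        exact le_mul_of_one_le_left (zero_le_one.trans (h6 _)) (h6 _)
      rw [h3] at h2
      refine h2.trans (mul_le_mul_of_nonneg_left (mul_le_mul_of_nonneg_left h5 (pow_nonneg hD n)) ?_)
      exact Finset.prod_nonneg fun r _ => by positivity
    · rw [tb_inj n f hinj, zero_mul, zero_mul, zero_mul]
  exact le_of_mul_le_mul_left h1 hf

theorem gr_lower (u : ι → ZMod m → ℝ) (n : ℕ) (hn : n ≤ m) :
    (∏ s, fo u s) ^ n ≤ (gr u n).det ^ m := by
  have hm : (0 : ℝ) < m := Nat.cast_pos.2 (Nat.pos_of_ne_zero (NeZero.ne m))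
  have hf : (0 : ℝ) < Nat.factorial n := Nat.cast_pos.2 (Nat.factorial_pos n)
  by_cases hn0 : n = 0
  · subst hn0
    simp
  by_cases hz : ∃ s, fo u s = 0
  · obtain ⟨s, hs⟩ := hz
    rw [Finset.prod_eq_zero (Finset.mem_univ s) hs, zero_pow hn0]
    exact pow_nonneg (gr_det_nonneg u n) m
  · have hpos : ∀ s, 0 < fo u s := fun s =>
      lt_of_le_of_ne (fo_nonneg u s) (fun h => hz ⟨s, h.symm⟩)
    obtain ⟨P, hP⟩ : ∃ P : (Fin n → ZMod m) → ℝ, ∀ f, P f =
      tp m n f * (∏ _r : Fin n, (1 / (m : ℝ))) / Nat.factorial n := ⟨_, fun _ => rfl⟩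
    have hP0 : ∀ f, 0 ≤ P f := fun f => by
      rw [hP]
      exact div_nonneg (mul_nonneg (tp_nonneg n f) (Finset.prod_nonneg fun r _ => by positivity)) hf.le
    have hP1 : ∑ f, P f = 1 := by
      rw [Finset.sum_congr rfl fun f _ => hP f, ← Finset.sum_div, ← tb_one n hn, div_self hf.ne']
    have hPs : ∀ f t, P (fun r => f r + t) = P f := fun f t => by
      rw [hP, hP, tb_shift]
    have hdet : (gr u n).det = ∑ f, P f * ∏ r, fo u (f r) := by
      apply mul_left_cancel₀ hf.ne'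
      rw [tb_gr, Finset.mul_sum]
      refine Finset.sum_congr rfl fun f _ => ?_
      rw [hP]
      have h4 : ∀ r : Fin n, fo u (f r) / m = 1 / (m : ℝ) * fo u (f r) := fun r => by ring
      rw [Finset.prod_congr rfl fun r _ => h4 r, Finset.prod_mul_distrib]
      field_simp
    have hag := Real.geom_mean_le_arith_mean_weighted Finset.univ P (fun f => ∏ r, fo u (f r))
      (fun f _ => hP0 f) hP1 (fun f _ => Finset.prod_nonneg fun r _ => fo_nonneg u _)
    rw [← hdet] at hag
    obtain ⟨l, hl⟩ : ∃ l : ZMod m → ℝ, ∀ s, l s = Real.log (fo u s) := ⟨_, fun _ => rfl⟩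
    have hz0 : ∀ f : Fin n → ZMod m, 0 < ∏ r, fo u (f r) := fun f => Finset.prod_pos fun r _ => hpos _
    have hlog : Real.log (∏ f, (∏ r, fo u (f r)) ^ P f) = ∑ f, P f * ∑ r, l (f r) := by
      rw [Real.log_prod (fun f _ => (Real.rpow_pos_of_pos (hz0 f) _).ne')]
      refine Finset.sum_congr rfl fun f _ => ?_
      rw [Real.log_rpow (hz0 f), Real.log_prod (fun r _ => (hpos _).ne')]
      simp only [hl]
    have hQ : ∀ t : ZMod m, ∑ f, P f * ∑ r, l (f r) = ∑ f, P f * ∑ r, l (f r + t) := by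
      intro t
      rw [← Equiv.sum_comp (Equiv.addRight (fun _ : Fin n => t)) fun f => P f * ∑ r, l (f r)]
      refine Finset.sum_congr rfl fun f _ => ?_
      have h5 : (Equiv.addRight (fun _ : Fin n => t)) f = fun r => f r + t := rfl
      rw [h5, hPs]
    have hmQ : (m : ℝ) * ∑ f, P f * ∑ r, l (f r) = n * ∑ s, l s := by
      have h6 : (m : ℝ) * ∑ f, P f * ∑ r, l (f r) = ∑ t : ZMod m, ∑ f, P f * ∑ r, l (f r + t) := by
        rw [← Finset.sum_congr rfl fun t _ => hQ t, Finset.sum_const, Finset.card_univ, ZMod.card, nsmul_eq_mul]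
      rw [h6, Finset.sum_comm]
      have h7 : ∀ f : Fin n → ZMod m, ∑ t : ZMod m, P f * ∑ r, l (f r + t) = P f * (n * ∑ s, l s) := by
        intro f
        rw [← Finset.mul_sum, Finset.sum_comm]
        congr 1
        have h8 : ∀ r : Fin n, ∑ t : ZMod m, l (f r + t) = ∑ s, l s := fun r =>
          Equiv.sum_comp (Equiv.addLeft (f r)) l
        rw [Finset.sum_congr rfl fun r _ => h8 r, Finset.sum_const, Finset.card_univ, Fintype.card_fin,
          nsmul_eq_mul]
      rw [Finset.sum_congr rfl fun f _ => h7 f, ← Finset.sum_mul, hP1, one_mul]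
    have hgm : 0 < ∏ f, (∏ r, fo u (f r)) ^ P f :=
      Finset.prod_pos fun f _ => Real.rpow_pos_of_pos (hz0 f) _
    have hdp : 0 < (gr u n).det := lt_of_lt_of_le hgm hag
    have hprod : 0 < ∏ s, fo u s := Finset.prod_pos fun s _ => hpos s
    rw [← Real.log_le_log_iff (pow_pos hprod n) (pow_pos hdp m), Real.log_pow, Real.log_pow,
      Real.log_prod (fun s _ => (hpos s).ne')]
    have h9 : ∑ s, Real.log (fo u s) = ∑ s, l s := Finset.sum_congr rfl fun s _ => (hl s).symm
    rw [h9, ← hmQ, ← hlog]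
    exact mul_le_mul_of_nonneg_left (Real.log_le_log hgm hag) hm.le

end Pool.Agent.H72.BD
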