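import Pool.Agent.H72.BD.Lat
import Pool.Agent.H72.BD.Emb
import Pool.Agent.H72.BD.ToeB
import Pool.Agent.H72.BD.Minor

/-!
# Gram determinants of the multipliers (MP_187c26_nt, Theorem V)

`gram_upper`: `fo (uu ∘ c) s = ∑ i, ‖emb s (c i)‖ ^ 2 ≤ D N (emb s)` (`Rad.fo_uu`), `gr_upper` for `N s = N (h.emb s)`,
`Rad.prod_emb`; multiply by the square of the index.
`gram_pos`: `c last = 1`, so `fo (uu ∘ c) s ≥ ‖emb s 1‖ ^ 2 = 1`, and `gr_lower` gives `1 ≤ det ^ m`; `det ≥ 0` by `gr_det_nonneg`.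
`minor_alt`: `minor_bound` for `L = Lat x c n`, `Ψ = Psi h c n`, `w (i, l) = ρ ^ l.val`, and `psi_minor`
(`ρ ^ (n (n - 1)) ≤ ρ ^ (n n)`, `index ≤ relIndex`).
-/

set_option autoImplicit false

open Polynomial

namespace Pool.Agent.H72.BD

variable {b m : ℕ} [NeZero m] {F : Type} [Field F] [NumberField F] {x : F} {d : ℕ}

theorem gram_upper (h : Rad b m F x) (c : Fin (d + 1) → F) (D T : ℝ) (hD : 0 ≤ D)
    (hS : Siz x c D T) (n : ℕ) (hn : n ≤ m) :
    ((den x c).relIndex (zx x) : ℝ) ^ 2 * (gr (fun i => h.uu (c i)) n).det ≤ D ^ n * T := by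
  obtain ⟨N, h1, h2, -, h4⟩ := hS
  have h5 := gr_upper (fun i => h.uu (c i)) n hn D hD (fun s => N (h.emb s)) (fun s => h1 _)
    (fun s => by rw [h.fo_uu c s]; exact h2 _)
  rw [← h.prod_emb N] at h5
  calc ((den x c).relIndex (zx x) : ℝ) ^ 2 * (gr (fun i => h.uu (c i)) n).det
      ≤ ((den x c).relIndex (zx x) : ℝ) ^ 2 * (D ^ n * ∏ φ, N φ) :=
        mul_le_mul_of_nonneg_left h5 (by positivity)
    _ = D ^ n * (((den x c).relIndex (zx x) : ℝ) ^ 2 * ∏ φ, N φ) := by ring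
    _ ≤ D ^ n * T := mul_le_mul_of_nonneg_left h4 (by positivity)

theorem gram_pos (h : Rad b m F x) (c : Fin (d + 1) → F) (hc : c (Fin.last d) = 1) (n : ℕ)
    (hn : n ≤ m) : 0 < (gr (fun i => h.uu (c i)) n).det := by
  have h1 := gr_lower (fun i => h.uu (c i)) n hn
  have h2 : ∀ s, 1 ≤ fo (fun i => h.uu (c i)) s := by
    intro s
    rw [h.fo_uu c s]
    have h3 : ‖h.emb s (c (Fin.last d))‖ ^ 2 ≤ ∑ i, ‖h.emb s (c i)‖ ^ 2 :=
      Finset.single_le_sum (f := fun i => ‖h.emb s (c i)‖ ^ 2) (fun i _ => by positivity)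
        (Finset.mem_univ _)
    rw [hc, map_one, norm_one, one_pow] at h3
    exact h3
  have h4 : (1 : ℝ) ≤ (∏ s, fo (fun i => h.uu (c i)) s) ^ n := by
    refine one_le_pow₀ ?_
    have h5 := Finset.prod_le_prod (s := Finset.univ) (f := fun _ : ZMod m => (1 : ℝ))
      (g := fun s => fo (fun i => h.uu (c i)) s) (fun _ _ => zero_le_one) fun s _ => h2 s
    rwa [Finset.prod_const_one] at h5
  refine lt_of_le_of_ne (gr_det_nonneg _ n) fun h0 => ?_
  rw [← h0, zero_pow (NeZero.ne m)] at h1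
  linarith

theorem minor_alt (h : Rad b m F x) (c : Fin (d + 1) → F)
    (h0 : (den x c).relIndex (zx x) ≠ 0) (n : ℕ) (J : Fin n → Fin (d + 1) × ZMod m) :
    ((sm (fun i => h.uu (c i)) n).submatrix id J).det = 0 ∨
      1 ≤ ((den x c).relIndex (zx x) : ℝ) ^ 2 * rho b m ^ (n * n) *
        ((sm (fun i => h.uu (c i)) n).submatrix id J).det ^ 2 := by
  have hb : 1 ≤ b := by have := h.two; omega
  have hr := one_le_rho b m hb
  have hr0 := rho_pos b m hb
  obtain ⟨h1, h2⟩ := lat_index x c n h0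
  have h3 := minor_bound (Lat x c n) h1 (Psi h c n) (fun o => rho b m ^ o.2.val)
    (fun o => one_le_pow₀ hr) (fun g hg o => psi_int h c n g hg o) J
  have h4 := psi_minor h c n J
  rcases h3 with h3 | h3
  · left
    rw [h3, zero_pow two_ne_zero] at h4
    have h5 : rho b m ^ (n * (n - 1)) ≠ 0 := (pow_pos hr0 _).ne'
    rcases mul_eq_zero.1 h4.symm with h6 | h6
    · exact absurd h6 h5
    · exact pow_eq_zero_iff two_ne_zero |>.1 h6
  · right
    rw [h4] at h3
    refine h3.trans ?_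
    rw [← mul_assoc]
    refine mul_le_mul_of_nonneg_right ?_ (sq_nonneg _)
    have h5 : ((Lat x c n).index : ℝ) ≤ ((den x c).relIndex (zx x) : ℝ) := by exact_mod_cast h2
    have h6 : rho b m ^ (n * (n - 1)) ≤ rho b m ^ (n * n) :=
      pow_le_pow_right₀ hr (Nat.mul_le_mul_left _ (Nat.sub_le _ _))
    exact mul_le_mul (pow_le_pow_left₀ (by positivity) h5 2) h6 (by positivity) (by positivity)

end Pool.Agent.H72.BD
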