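import Pool.Agent.H72.BD.Co

/-!
# The lattice of the multipliers (MP_187c26_nt, Theorem V)

`Lat x c n` = the `g ∈ ℤ ^ n` with `∑ k, g k x ^ k ∈ den x c`; `Psi h c n` = the matrix with the rows `uu (x ^ k c_i)`.

PROOFS. `lat_index`: `Lat x c n = (den x c).comap (pe x n)` and the image of `pe x n` is in `zx x`: the map
`ℤ ^ n ⧸ Lat → zx x ⧸ den` is injective (`AddSubgroup.relIndex`, `AddSubgroup.index_comap`, `relIndex_le_of_le_right` or similar:
`index (comap f K) = relIndex K (range f)`, `range f ≤ zx x`, and `K.relIndex R ≤ K.relIndex R'` for `R ≤ R'` if the latter is not `0`).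
`psi_int`: `vecMul g (Psi) (i, l) = uu (y c_i) l` with `y = ∑ k, g k x ^ k` (linearity of `co`), `y c_i ∈ zx x`, `mem_zx`.
`psi_sm`: `uu_pow_mul`. `psi_minor`, `psi_gram`: multiply the rows `k` of `sm` by `ρ ^ k`: `∏ k < n, ρ ^ k = ρ ^ (n (n - 1) / 2)`.
-/

set_option autoImplicit false

open Polynomial

namespace Pool.Agent.H72.BD

variable {b m : ℕ} [NeZero m] {F : Type} [Field F] [NumberField F] {x : F} {ι : Type}

/-- The element `∑ k, g k x ^ k`. -/
def pe (x : F) (n : ℕ) : (Fin n → ℤ) →+ F where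
  toFun g := ∑ k, (g k : F) * x ^ (k : ℕ)
  map_zero' := by simp
  map_add' g g' := by simp [add_mul, Finset.sum_add_distrib]

/-- The `g` with `∑ k, g k x ^ k ∈ den x c`. -/
def Lat (x : F) (c : ι → F) (n : ℕ) : AddSubgroup (Fin n → ℤ) := (den x c).comap (pe x n)

/-- The matrix with the rows `uu (x ^ k c_i)`. -/
noncomputable def Psi (h : Rad b m F x) (c : ι → F) (n : ℕ) : Matrix (Fin n) (ι × ZMod m) ℝ :=
  Matrix.of fun k w => h.uu (x ^ (k : ℕ) * c w.1) w.2

private theorem prod_rho (b m n : ℕ) :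
    (∏ k : Fin n, rho b m ^ (k : ℕ)) ^ 2 = rho b m ^ (n * (n - 1)) := by
  rw [Finset.prod_pow_eq_pow_sum, ← pow_mul, ← Finset.sum_range_id_mul_two, Fin.sum_univ_eq_sum_range (fun k => k)]

theorem lat_index (x : F) (c : ι → F) (n : ℕ) (h0 : (den x c).relIndex (zx x) ≠ 0) :
    (Lat x c n).index ≠ 0 ∧ (Lat x c n).index ≤ (den x c).relIndex (zx x) := by
  have hr : (pe x n).range ≤ zx x := by
    rintro _ ⟨g, rfl⟩
    show (∑ k, (g k : F) * x ^ (k : ℕ)) ∈ zx x
    refine sum_mem fun k _ => ?_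
    have hx : x ∈ Algebra.adjoin ℤ ({x} : Set F) := Algebra.subset_adjoin rfl
    have h1 : (g k : F) ∈ Algebra.adjoin ℤ ({x} : Set F) := by simp
    have h2 : (g k : F) * x ^ (k : ℕ) ∈ Algebra.adjoin ℤ ({x} : Set F) := mul_mem h1 (pow_mem hx _)
    exact h2
  unfold Lat
  rw [AddSubgroup.index_comap]
  exact ⟨fun h => h0 (AddSubgroup.relIndex_eq_zero_of_le_right hr h), AddSubgroup.relIndex_le_of_le_right hr h0⟩

theorem psi_vecMul (h : Rad b m F x) (c : ι → F) (n : ℕ) (g : Fin n → ℤ) (w : ι × ZMod m) :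
    Matrix.vecMul (fun k => (g k : ℝ)) (Psi h c n) w = h.uu (pe x n g * c w.1) w.2 := by
  have h1 : h.co (pe x n g * c w.1) = ∑ k, (g k : ℤ) • h.co (x ^ (k : ℕ) * c w.1) := by
    have h2 : pe x n g * c w.1 = ∑ k, (g k : ℤ) • (x ^ (k : ℕ) * c w.1) := by
      show (∑ k, (g k : F) * x ^ (k : ℕ)) * c w.1 = _
      rw [Finset.sum_mul]
      refine Finset.sum_congr rfl fun k _ => ?_
      rw [zsmul_eq_mul, mul_assoc]
    rw [h2, map_sum]
    exact Finset.sum_congr rfl fun k _ => map_zsmul h.co _ _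
  unfold Rad.uu
  rw [h1]
  simp only [Matrix.vecMul, dotProduct, Psi, Matrix.of_apply, Rad.uu]
  rw [Finset.sum_apply, Rat.cast_sum, Finset.sum_mul]
  refine Finset.sum_congr rfl fun k _ => ?_
  rw [Pi.smul_apply, zsmul_eq_mul, Rat.cast_mul, Rat.cast_intCast, mul_assoc]

theorem psi_int (h : Rad b m F x) (c : ι → F) (n : ℕ) (g : Fin n → ℤ) (hg : g ∈ Lat x c n)
    (w : ι × ZMod m) :
    ∃ k : ℤ, Matrix.vecMul (fun k => (g k : ℝ)) (Psi h c n) w = k * rho b m ^ w.2.val := by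
  rw [psi_vecMul]
  obtain ⟨k, hk⟩ := (h.mem_zx (pe x n g * c w.1)).1 (hg.2 w.1) w.2
  refine ⟨k, ?_⟩
  unfold Rad.uu
  rw [hk, Rat.cast_intCast]

theorem psi_sm (h : Rad b m F x) (c : ι → F) (n : ℕ) (k : Fin n) (w : ι × ZMod m) :
    Psi h c n k w = rho b m ^ (k : ℕ) * sm (fun i => h.uu (c i)) n k w := by
  simp only [Psi, sm, Matrix.of_apply]
  exact h.uu_pow_mul (c w.1) k w.2

theorem psi_minor (h : Rad b m F x) (c : ι → F) (n : ℕ) (J : Fin n → ι × ZMod m) :
    ((Psi h c n).submatrix id J).det ^ 2 =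
      rho b m ^ (n * (n - 1)) * ((sm (fun i => h.uu (c i)) n).submatrix id J).det ^ 2 := by
  have h1 : (Psi h c n).submatrix id J = Matrix.of fun (k l : Fin n) => rho b m ^ (k : ℕ) *
      ((sm (fun i => h.uu (c i)) n).submatrix id J) k l := by
    ext k l
    exact psi_sm h c n k (J l)
  rw [h1, Matrix.det_mul_column, mul_pow, prod_rho]

theorem psi_gram [Fintype ι] (h : Rad b m F x) (c : ι → F) (n : ℕ) :
    (Psi h c n * (Psi h c n).transpose).det =
      rho b m ^ (n * (n - 1)) * (gr (fun i => h.uu (c i)) n).det := by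
  have h1 : Psi h c n = Matrix.diagonal (fun k : Fin n => rho b m ^ (k : ℕ)) * sm (fun i => h.uu (c i)) n := by
    ext k w
    rw [Matrix.diagonal_mul]
    exact psi_sm h c n k w
  have h2 : Psi h c n * (Psi h c n).transpose = Matrix.diagonal (fun k : Fin n => rho b m ^ (k : ℕ)) *
      (gr (fun i => h.uu (c i)) n) * Matrix.diagonal (fun k : Fin n => rho b m ^ (k : ℕ)) := by
    rw [h1, Matrix.transpose_mul, Matrix.diagonal_transpose]
    unfold gr
    simp only [Matrix.mul_assoc]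
  rw [h2, Matrix.det_mul, Matrix.det_mul, Matrix.det_diagonal, ← prod_rho]
  ring

end Pool.Agent.H72.BD
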