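import Mathlib

/-!
# Pigeonhole (MP_187c26_nt, Theorem V, S3 and S4)

`Λ = {s ∈ ℤ ^ (R + 1) | s_j ≡ s_0 β_j mod q for all j}`, `β_0 = 1`.

PROOF of `ph1`: the map `{0, …, S} ^ (R + 1) → (ZMod q) ^ R`, `s ↦ (s_j - s_0 β_j)_(j ≥ 1)` is not injective
(`(S + 1) ^ (R + 1) > q ^ R`); take the difference.

PROOF of `ph2`: let `B = {s ∈ Λ | |s_j| ≤ S}`. By `ph1` (`(S + 1) ^ (R + 1) > q ^ R` since `(S + 1) K ≥ q`, `S + 1 > K ^ R`:
`(S + 1) ^ (R + 1) ≥ (q / K) ^ R (S + 1) > q ^ R`) it has nonzero elements; let `s*` be one with `h = max |s*_j|` minimal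
(`h ≥ 1`). Every `s ∈ B` is an integer multiple of `s*`: `s*_0 ≠ 0` (`hs0`), let `s_0 = c s*_0 + r`, `0 ≤ r < |s*_0|`; then
`s*_0 (s - c s*) = (s_0 - c s*_0) s* = r s*` by `hprop`, so `|s - c s*| < h` in every coordinate, and `s - c s* ∈ Λ`: it is `0`
by minimality. So `#B ≤ 2 (S / h) + 1` (the multiples `c s*` with `|c| h ≤ S`). On the other hand by the pigeonhole principle
some class modulo `Λ` has at least `(S + 1) ^ (R + 1) / q ^ R` elements in `{0, …, S} ^ (R + 1)`, subtract one of them: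
`#B ≥ (S + 1) ^ (R + 1) / q ^ R ≥ (S + 1) / K ^ R`. If `h > 4 K ^ R`: `(S + 1) / K ^ R ≤ 2 S / h + 1 < S / (2 K ^ R) + 1`, so
`S / 2 + 1 < K ^ R`, contradiction to `hbig`.
-/

set_option autoImplicit false

namespace Pool.Agent.H72.BD

/-- the classes of the box -/
private def pf (R q S : ℕ) (β : Fin (R + 1) → ℤ) (s : Fin (R + 1) → Fin (S + 1)) (j : Fin R) : ZMod q :=
  (((s j.succ : ℕ) : ℤ) - ((s 0 : ℕ) : ℤ) * β j.succ : ℤ)

private theorem pf_dvd (R q S : ℕ) (β : Fin (R + 1) → ℤ) (hβ : β 0 = 1)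
    (s t : Fin (R + 1) → Fin (S + 1)) (h : pf R q S β s = pf R q S β t) (j : Fin (R + 1)) :
    (q : ℤ) ∣ (((s j : ℕ) : ℤ) - ((t j : ℕ) : ℤ)) - (((s 0 : ℕ) : ℤ) - ((t 0 : ℕ) : ℤ)) * β j := by
  refine Fin.cases ?_ (fun j => ?_) j
  · rw [hβ, mul_one, sub_self]
    exact dvd_zero _
  · have h1 := congrFun h j
    unfold pf at h1
    rw [ZMod.intCast_eq_intCast_iff_dvd_sub] at h1
    obtain ⟨k, hk⟩ := h1
    exact ⟨-k, by linear_combination -hk⟩

private theorem pf_abs (S : ℕ) (a b : Fin (S + 1)) : |((a : ℕ) : ℤ) - ((b : ℕ) : ℤ)| ≤ S := by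
  have h1 := a.2
  have h2 := b.2
  rw [abs_le]
  constructor <;> omega

theorem ph1 (R q S : ℕ) (hq : 1 ≤ q) (β : Fin (R + 1) → ℤ) (hβ : β 0 = 1)
    (hS : q ^ R < (S + 1) ^ (R + 1)) :
    ∃ s : Fin (R + 1) → ℤ, s ≠ 0 ∧ (∀ j, (q : ℤ) ∣ s j - s 0 * β j) ∧ ∀ j, |s j| ≤ S := by
  have : NeZero q := ⟨by omega⟩
  have hcard : Fintype.card (Fin R → ZMod q) < Fintype.card (Fin (R + 1) → Fin (S + 1)) := by
    rw [Fintype.card_fun, Fintype.card_fun, ZMod.card, Fintype.card_fin, Fintype.card_fin, Fintype.card_fin]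
    exact hS
  obtain ⟨s, t, hst, hf⟩ := Fintype.exists_ne_map_eq_of_card_lt (pf R q S β) hcard
  refine ⟨fun j => ((s j : ℕ) : ℤ) - ((t j : ℕ) : ℤ), ?_, fun j => pf_dvd R q S β hβ s t hf j,
    fun j => pf_abs S (s j) (t j)⟩
  intro h0
  apply hst
  funext j
  have h1 := congrFun h0 j
  simp only [Pi.zero_apply] at h1
  apply Fin.ext
  omega

private theorem ph_sub (R q : ℕ) (β s t : Fin (R + 1) → ℤ) (c : ℤ)
    (hs : ∀ j, (q : ℤ) ∣ s j - s 0 * β j) (ht : ∀ j, (q : ℤ) ∣ t j - t 0 * β j) (j : Fin (R + 1)) :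
    (q : ℤ) ∣ (s j - c * t j) - (s 0 - c * t 0) * β j := by
  obtain ⟨a, ha⟩ := hs j
  obtain ⟨b, hb⟩ := ht j
  exact ⟨a - c * b, by linear_combination ha - c * hb⟩

/-- the norm -/
private def hh (R : ℕ) (s : Fin (R + 1) → ℤ) : ℕ := Finset.univ.sup fun j => (s j).natAbs

private theorem hh_le (R : ℕ) (s : Fin (R + 1) → ℤ) (j : Fin (R + 1)) : |s j| ≤ hh R s := by
  have h1 : (s j).natAbs ≤ hh R s := Finset.le_sup (f := fun j => (s j).natAbs) (Finset.mem_univ j)
  rw [Int.abs_eq_natAbs]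
  exact_mod_cast h1

private theorem hh_lt (R : ℕ) (s : Fin (R + 1) → ℤ) (n : ℕ) (hn : 0 < n) (h : ∀ j, |s j| < n) : hh R s < n := by
  unfold hh
  rw [Finset.sup_lt_iff (by exact hn)]
  intro j _
  have h1 := h j
  rw [Int.abs_eq_natAbs] at h1
  exact_mod_cast h1

private theorem hh_ex (R : ℕ) (s : Fin (R + 1) → ℤ) : ∃ j, |s j| = hh R s := by
  obtain ⟨j, -, hj⟩ := Finset.exists_mem_eq_sup Finset.univ Finset.univ_nonempty (fun j => (s j).natAbs)
  refine ⟨j, ?_⟩
  rw [Int.abs_eq_natAbs]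
  unfold hh
  rw [hj]

theorem ph2 (R q S K : ℕ) (hq : 1 ≤ q) (hK : 1 ≤ K) (β : Fin (R + 1) → ℤ) (hβ : β 0 = 1)
    (hSq : q ≤ (S + 1) * K) (hbig : 2 * K ^ R ≤ S)
    (hs0 : ∀ s : Fin (R + 1) → ℤ, s ≠ 0 → (∀ j, (q : ℤ) ∣ s j - s 0 * β j) → (∀ j, |s j| ≤ S) →
      s 0 ≠ 0)
    (hprop : ∀ s s' : Fin (R + 1) → ℤ, (∀ j, (q : ℤ) ∣ s j - s 0 * β j) → (∀ j, |s j| ≤ S) →
      (∀ j, (q : ℤ) ∣ s' j - s' 0 * β j) → (∀ j, |s' j| ≤ S) → ∀ j, s' 0 * s j = s 0 * s' j) :
    ∃ s : Fin (R + 1) → ℤ, s ≠ 0 ∧ (∀ j, (q : ℤ) ∣ s j - s 0 * β j) ∧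
      ∀ j, |s j| ≤ 4 * (K : ℤ) ^ R := by
  classical
  have : NeZero q := ⟨by omega⟩
  have hk1 : 1 ≤ K ^ R := Nat.one_le_pow _ _ hK
  have hqR : q ^ R ≤ (S + 1) ^ R * K ^ R := by
    rw [← mul_pow]
    exact Nat.pow_le_pow_left hSq R
  have hlt : q ^ R < (S + 1) ^ (R + 1) := by
    refine lt_of_le_of_lt hqR ?_
    rw [pow_succ]
    exact Nat.mul_lt_mul_of_pos_left (by omega) (by positivity)
  obtain ⟨s₁, h₁, hd₁, hb₁⟩ := ph1 R q S hq β hβ hlt
  -- the finite set of the lattice points of the box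
  let B : Finset (Fin (R + 1) → ℤ) := (Fintype.piFinset fun _ => Finset.Icc (-(S : ℤ)) S).filter
    fun s => ∀ j, (q : ℤ) ∣ s j - s 0 * β j
  have hB : ∀ s : Fin (R + 1) → ℤ, s ∈ B ↔ (∀ j, |s j| ≤ S) ∧ ∀ j, (q : ℤ) ∣ s j - s 0 * β j := by
    intro s
    simp only [B, Finset.mem_filter, Fintype.mem_piFinset, Finset.mem_Icc, abs_le]
  have hne : (B.filter fun s => s ≠ 0).Nonempty :=
    ⟨s₁, Finset.mem_filter.2 ⟨(hB s₁).2 ⟨hb₁, hd₁⟩, h₁⟩⟩
  obtain ⟨t, ht, hmin⟩ := Finset.exists_min_image _ (hh R) hne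
  obtain ⟨ht1, ht0⟩ := Finset.mem_filter.1 ht
  obtain ⟨htb, htd⟩ := (hB t).1 ht1
  have hh1 : 1 ≤ hh R t := by
    by_contra hc
    apply ht0
    funext j
    have h2 := hh_le R t j
    have h3 : hh R t = 0 := by omega
    rw [h3] at h2
    exact abs_eq_zero.1 (le_antisymm (by exact_mod_cast h2) (abs_nonneg _))
  have ht00 : t 0 ≠ 0 := hs0 t ht0 htd htb
  have hmul : ∀ s ∈ B, ∃ c : ℤ, |c| * hh R t ≤ S ∧ s = fun j => c * t j := by
    intro s hs
    obtain ⟨hsb, hsd⟩ := (hB s).1 hs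
    refine ⟨s 0 / t 0, ?_⟩
    set c := s 0 / t 0 with hc
    have hr : s 0 - c * t 0 = s 0 % t 0 := by
      have h1 := Int.emod_add_mul_ediv (s 0) (t 0)
      rw [← hc] at h1
      linarith [mul_comm c (t 0)]
    have hr0 : 0 ≤ s 0 - c * t 0 := by
      rw [hr]
      exact Int.emod_nonneg _ ht00
    have hr1 : s 0 - c * t 0 < |t 0| := by
      rw [hr]
      exact Int.emod_lt_abs _ ht00
    have hdj : ∀ j, t 0 * (s j - c * t j) = (s 0 - c * t 0) * t j := by
      intro j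
      have h1 := hprop s t hsd hsb htd htb j
      linear_combination h1
    have hdlt : ∀ j, |s j - c * t j| < hh R t := by
      intro j
      have h1 := congrArg abs (hdj j)
      rw [abs_mul, abs_mul, abs_of_nonneg hr0] at h1
      rcases eq_or_ne (t j) 0 with h2 | h2
      · have h1' : |t 0| * |s j - c * t j| = 0 := by
          rw [h1, h2, abs_zero, mul_zero]
        have h3 : |s j - c * t j| = 0 := by
          rcases mul_eq_zero.1 h1' with h4 | h4
          · exact absurd (abs_eq_zero.1 h4) ht00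
          · exact h4
        rw [h3]
        exact_mod_cast hh1
      · have h3 : 0 < |t j| := abs_pos.2 h2
        have h4 : |t 0| * |s j - c * t j| < |t 0| * |t j| := by
          rw [h1]
          exact mul_lt_mul_of_pos_right hr1 h3
        exact lt_of_lt_of_le (lt_of_mul_lt_mul_left h4 (abs_nonneg _)) (hh_le R t j)
    have hlt2 : hh R (fun j => s j - c * t j) < hh R t := hh_lt R _ _ hh1 hdlt
    have hzero : (fun j => s j - c * t j) = 0 := by
      by_contra hn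
      have hin : (fun j => s j - c * t j) ∈ B.filter fun s => s ≠ 0 := by
        refine Finset.mem_filter.2 ⟨(hB _).2 ⟨fun j => ?_, fun j => ph_sub R q β s t c hsd htd j⟩, hn⟩
        obtain ⟨j₀, hj₀⟩ := hh_ex R t
        have h5 := htb j₀
        rw [hj₀] at h5
        exact (hdlt j).le.trans h5
      have h6 := hmin _ hin
      omega
    have hsc : s = fun j => c * t j := by
      funext j
      have h7 := congrFun hzero j
      simp only [Pi.zero_apply] at h7
      linarith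
    refine ⟨?_, hsc⟩
    obtain ⟨j₀, hj₀⟩ := hh_ex R t
    have h8 := hsb j₀
    rw [hsc] at h8
    simp only [abs_mul] at h8
    rw [hj₀] at h8
    exact h8
  -- the number of the lattice points
  set m := S / hh R t with hm
  have hup : B.card ≤ 2 * m + 1 := by
    have hsub : B ⊆ (Finset.Icc (-(m : ℤ)) m).image (fun c : ℤ => fun j => c * t j) := by
      intro s hs
      obtain ⟨c, hc, hsc⟩ := hmul s hs
      refine Finset.mem_image.2 ⟨c, ?_, hsc.symm⟩
      have h9 : c.natAbs * hh R t ≤ S := by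
        rw [Int.abs_eq_natAbs] at hc
        exact_mod_cast hc
      have h10 : c.natAbs ≤ m := by
        rw [hm, Nat.le_div_iff_mul_le (by omega)]
        exact h9
      rw [Finset.mem_Icc]
      omega
    refine (Finset.card_le_card hsub).trans (Finset.card_image_le.trans ?_)
    rw [Int.card_Icc]
    omega
  set n := (S + 1) / K ^ R with hn
  have hn2 : n * K ^ R ≤ S + 1 := Nat.div_mul_le_self _ _
  have hn3 : S + 1 < (n + 1) * K ^ R := by
    have h1 := Nat.lt_div_mul_add (a := S + 1) (b := K ^ R) (by omega)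
    rw [add_mul, one_mul]
    exact h1
  have hlow : n ≤ B.card := by
    have hcard : Fintype.card (Fin R → ZMod q) * n ≤ Fintype.card (Fin (R + 1) → Fin (S + 1)) := by
      rw [Fintype.card_fun, Fintype.card_fun, ZMod.card, Fintype.card_fin, Fintype.card_fin, Fintype.card_fin]
      calc q ^ R * n ≤ (S + 1) ^ R * K ^ R * n := Nat.mul_le_mul_right _ hqR
        _ = (S + 1) ^ R * (n * K ^ R) := by ring
        _ ≤ (S + 1) ^ R * (S + 1) := Nat.mul_le_mul_left _ hn2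
        _ = (S + 1) ^ (R + 1) := by rw [pow_succ]
    obtain ⟨y, hy⟩ := Fintype.exists_le_card_fiber_of_mul_le_card (pf R q S β) hcard
    rcases Finset.eq_empty_or_nonempty (Finset.univ.filter fun x => pf R q S β x = y) with he | ⟨u, hu⟩
    · rw [he, Finset.card_empty] at hy
      omega
    · refine hy.trans ?_
      have hu1 : pf R q S β u = y := (Finset.mem_filter.1 hu).2
      refine Finset.card_le_card_of_injOn (fun x j => ((x j : ℕ) : ℤ) - ((u j : ℕ) : ℤ)) ?_ ?_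
      · intro x hx
        have hx1 : pf R q S β x = y := by
          have := Finset.mem_coe.1 hx
          exact (Finset.mem_filter.1 this).2
        refine Finset.mem_coe.2 ((hB _).2 ⟨fun j => pf_abs S (x j) (u j), fun j => ?_⟩)
        exact pf_dvd R q S β hβ x u (hx1.trans hu1.symm) j
      · intro x _ x' _ hxx
        funext j
        have h1 := congrFun hxx j
        simp only at h1
        apply Fin.ext
        omega
  have hfin : hh R t ≤ 4 * K ^ R := by
    by_contra hc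
    push Not at hc
    have hmS : m * hh R t ≤ S := Nat.div_mul_le_self _ _
    have h1 : n ≤ 2 * m + 1 := hlow.trans hup
    have h2 : S + 1 < (2 * m + 2) * K ^ R := by
      refine lt_of_lt_of_le hn3 (Nat.mul_le_mul_right _ (by omega))
    have h3 : m * (4 * K ^ R + 1) ≤ S := le_trans (Nat.mul_le_mul_left _ hc) hmS
    rcases Nat.eq_zero_or_pos m with h4 | h4
    · rw [h4] at h2
      omega
    · have h5 : K ^ R ≤ m * K ^ R := Nat.le_mul_of_pos_left _ h4
      nlinarith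
  refine ⟨t, ht0, htd, fun j => (hh_le R t j).trans ?_⟩
  exact_mod_cast hfin

end Pool.Agent.H72.BD
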