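import Pool.Agent.H72.BD.Co

/-!
# Separated windows (MP_187c26_nt, Theorem V)

`inw_of_ne_zero`: `co_pow_mul_ne_zero` and `co_aeval` (for `P` of degree `< ℓ ≤ m`): `(l - a).val < ℓ`, `e = (l - a).val`.
`sep_unique`: multiply out: the polynomial `∑ j, X ^ a_j (v_j - w_j)` has degree `< m` and vanishes at `x`, so it is `0`
(`aeval_eq_zero`); compare the coefficients in the disjoint windows `[a_j, a_j + ℓ)`.
`exists_sep`: by `exists_poly` `y = aeval x P`, `P` of degree `< m`; `v_j = ∑ e < ℓ, P.coeff (a_j + e) X ^ e`; `co y l = P.coeff l.val`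
(`co_aeval`); every `l` with `P.coeff l ≠ 0` is `a_j + e` for exactly one `j` and `e < ℓ` (as natural numbers, since
`a_j + ℓ ≤ m`).
-/

set_option autoImplicit false

open Polynomial

namespace Pool.Agent.H72.BD

variable {b m : ℕ} [NeZero m] {F : Type} [Field F] [NumberField F] {x : F}

/-- `x ^ a P(x)` lies in the window `[a, a + ℓ)`. -/
theorem Rad.inw_of_ne_zero (h : Rad b m F x) (a ℓ : ℕ) (P : ℤ[X]) (hP : P.natDegree < ℓ)
    (hℓ : ℓ ≤ m) (l : ZMod m) (hl : h.co (x ^ a * aeval x P) l ≠ 0) : inw a ℓ l := by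
  rw [h.co_pow_mul_ne_zero, h.co_aeval P (hP.trans_le hℓ)] at hl
  refine ⟨(l - (a : ZMod m)).val, ?_, ?_⟩
  · refine lt_of_le_of_lt ?_ hP
    refine Polynomial.le_natDegree_of_ne_zero ?_
    intro h0
    exact hl (by rw [h0]; simp)
  · rw [Nat.cast_add, ZMod.natCast_zmod_val]
    ring

/-- Independence of separated windows (as polynomials over `ℤ`). -/
theorem Rad.sep_unique (h : Rad b m F x) {R : ℕ} (a : Fin (R + 1) → ℕ) (ℓ : ℕ)
    (hsep : ∀ i j, i ≠ j → a i + ℓ ≤ a j ∨ a j + ℓ ≤ a i) (hwrap : ∀ j, a j + ℓ ≤ m)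
    (v w : Fin (R + 1) → ℤ[X]) (hv : ∀ j, (v j).natDegree < ℓ) (hw : ∀ j, (w j).natDegree < ℓ)
    (heq : ∑ j, x ^ a j * aeval x (v j) = ∑ j, x ^ a j * aeval x (w j)) : v = w := by
  have hm : 0 < m := h.one_le
  have hd : ∀ j, (v j - w j).natDegree < ℓ := fun j =>
    lt_of_le_of_lt (natDegree_sub_le _ _) (max_lt (hv j) (hw j))
  have hT : ∑ j, X ^ a j * (v j - w j) = 0 := by
    refine h.aeval_eq_zero _ ?_ ?_
    · refine lt_of_le_of_lt (natDegree_sum_le_of_forall_le (n := m - 1) _ _ ?_) (by omega)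
      intro j _
      refine (natDegree_mul_le).trans ?_
      rw [natDegree_X_pow]
      have h1 := hd j
      have h2 := hwrap j
      omega
    · rw [map_sum]
      have h1 : ∀ j : Fin (R + 1), aeval x (X ^ a j * (v j - w j)) =
          x ^ a j * aeval x (v j) - x ^ a j * aeval x (w j) := by
        intro j
        rw [map_mul, map_pow, aeval_X, map_sub, mul_sub]
      rw [Finset.sum_congr rfl fun j _ => h1 j, Finset.sum_sub_distrib, heq, sub_self]
  funext j0
  rw [← sub_eq_zero]
  ext e
  rw [coeff_zero]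
  by_cases he : e < ℓ
  · have h1 := congrArg (fun P => P.coeff (a j0 + e)) hT
    simp only [finsetSum_coeff, coeff_zero] at h1
    rw [Finset.sum_eq_single j0] at h1
    · rw [coeff_X_pow_mul', if_pos (by omega)] at h1
      rwa [Nat.add_sub_cancel_left] at h1
    · intro j _ hj
      rw [coeff_X_pow_mul']
      split_ifs with h2
      · refine coeff_eq_zero_of_natDegree_lt ?_
        have h3 := hd j
        rcases hsep j j0 hj with h4 | h4 <;> omega
      · rfl
    · intro h2
      exact absurd (Finset.mem_univ _) h2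
  · exact coeff_eq_zero_of_natDegree_lt (by have := hd j0; omega)

/-- An element of `ℤ[x]` with support in separated windows. -/
theorem Rad.exists_sep (h : Rad b m F x) {R : ℕ} (a : Fin (R + 1) → ℕ) (ℓ : ℕ) (hℓ : 1 ≤ ℓ)
    (hsep : ∀ i j, i ≠ j → a i + ℓ ≤ a j ∨ a j + ℓ ≤ a i) (hwrap : ∀ j, a j + ℓ ≤ m) (y : F)
    (hy : y ∈ zx x) (hw : ∀ l, h.co y l ≠ 0 → ∃ j, inw (a j) ℓ l) :
    ∃ v : Fin (R + 1) → ℤ[X], (∀ j, (v j).natDegree < ℓ) ∧
      y = ∑ j, x ^ a j * aeval x (v j) ∧
      ∀ j, (∀ l, h.co y l ≠ 0 → ¬ inw (a j) ℓ l) → v j = 0 := by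
  obtain ⟨P, hP, rfl⟩ := h.exists_poly y hy
  have hco : ∀ n : ℕ, n < m → h.co (aeval x P) (n : ZMod m) = P.coeff n := by
    intro n hn
    rw [h.co_aeval P hP, ZMod.val_natCast_of_lt hn]
  set v : Fin (R + 1) → ℤ[X] := fun j => ∑ e ∈ Finset.range ℓ, monomial e (P.coeff (a j + e))
    with hvdef
  have hc : ∀ j n, (v j).coeff n = if n < ℓ then P.coeff (a j + n) else 0 := by
    intro j n
    rw [hvdef]
    simp only [finsetSum_coeff, coeff_monomial]
    rw [Finset.sum_ite_eq']
    simp only [Finset.mem_range]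
  refine ⟨v, ?_, ?_, ?_⟩
  · intro j
    have h1 : (v j).natDegree ≤ ℓ - 1 := by
      rw [natDegree_le_iff_coeff_eq_zero]
      intro N hN
      rw [hc, if_neg (by omega)]
    omega
  · have h1 : P = ∑ j, X ^ a j * v j := by
      ext n
      rw [finsetSum_coeff]
      by_cases h0 : P.coeff n = 0
      · rw [h0]
        symm
        refine Finset.sum_eq_zero fun j _ => ?_
        rw [coeff_X_pow_mul', hc]
        split_ifs with h2 h3
        · rw [Nat.add_sub_cancel' h2, h0]
        · rfl
        · rfl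
      · have hn : n < m := lt_of_le_of_lt (le_natDegree_of_ne_zero h0) hP
        obtain ⟨j0, e, he, hle⟩ := hw (n : ZMod m) (by
          rw [hco n hn]
          exact_mod_cast h0)
        have h2 : n = a j0 + e := by
          have h3 := congrArg ZMod.val hle
          rwa [ZMod.val_natCast_of_lt hn, ZMod.val_natCast_of_lt
            (by have := hwrap j0; omega)] at h3
        rw [Finset.sum_eq_single j0]
        · rw [coeff_X_pow_mul', if_pos (by omega), hc, if_pos (by omega)]
          congr 1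
          omega
        · intro j _ hj
          rw [coeff_X_pow_mul', hc]
          have h4 := hsep j j0 hj
          split_ifs with h5 h6
          · exfalso
            rcases h4 with h7 | h7 <;> omega
          · rfl
          · rfl
        · intro h3
          exact absurd (Finset.mem_univ _) h3
    conv_lhs => rw [h1]
    rw [map_sum]
    refine Finset.sum_congr rfl fun j _ => ?_
    rw [map_mul, map_pow, aeval_X]
  · intro j hj
    ext n
    rw [hc, coeff_zero]
    split_ifs with h2
    · by_contra h0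
      have hn : a j + n < m := by
        have := hwrap j
        omega
      refine hj ((a j + n : ℕ) : ZMod m) ?_ ⟨n, h2, rfl⟩
      rw [hco _ hn]
      exact_mod_cast h0
    · rfl

end Pool.Agent.H72.BD
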