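import Pool.Agent.H72.BD.Lat
import Pool.Agent.H72.BD.Sep
import Pool.Agent.H72.BD.Emb
import Pool.Agent.H99.MV.CB

/-!
# Comparison of Gram determinants (MP_187c26_nt, Theorem V, S2)

Data: a representation `hr`, `k` multipliers `1, x, …, x ^ (k - 1)` of `g`; all degrees `deg v_ij + k ≤ n`, `n ≤ gap`, `n ≤ N`.
`uv r N` = the vectors `(i, j) ↦ (l ↦ ρ ^ a_j coeff_l (v_ij) r ^ l)` on `ZMod N`.
`E` = the integer matrix with rows the coefficients of `X ^ i g` (`i < k`, `n` columns), `g = v last 0`.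

PROOF of `fo_uv`: by definition `∑ l, ρ ^ a_j coeff_l r ^ l χ_N (s l) = ρ ^ a_j v_ij (r χ_N (s))` (`deg < N`, `χ_N (s l) = χ_N (s) ^ l.val`).
PROOF of `gram_le`: all in terms of the coefficients. Let `C` be the real matrix with rows `i < k` and columns
`(i', j, e)`, `e < n`: `C i (i', j, e) = coeff_e (X ^ i v_i'j)` (zero unless `e ≥ i`). Then
* `(E Ψ)_i (i', l) = uu (x ^ i g c_i') l`, which is `coeff_e (X ^ i v_i'j) ρ ^ (a_j + e)` at `l = a_j + e`, `e < n`, and zero outside of the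
 windows `[a_j, a_j + n)` (separated, no wrap, `n ≤ gap`); so `(E Ψ)(E Ψ)ᵀ = (C diag (ρ ^ (a_j + e))) (…)ᵀ`;
* `sm (uv r N) k i (i', j, l) = ρ ^ a_j coeff_(l - i) (v_i'j) r ^ (l - i)` (`l ≥ i`; no wrap as `n ≤ N`), so
 `r ^ i * sm i = C diag (ρ ^ a_j r ^ e)` on the columns `e < n`, zero elsewhere.
By Cauchy–Binet (`r ≥ ρ ≥ 1`): `det gr (uv r N) k ≤ r ^ (k (k - 1)) det gr (uv r N) k = ∑ J, minor_J (C) ^ 2 ∏ ρ ^ (2 a_j) r ^ (2 e)
≤ (r / ρ) ^ (2 n k) ∑ J, minor_J (C) ^ 2 ∏ ρ ^ (2 (a_j + e)) = (r / ρ) ^ (2 n k) det ((E Ψ)(E Ψ)ᵀ)`. With `r = ρ ^ Q`: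
`(r / ρ) ^ (2 n k) ≤ ρ ^ (2 Q n k)`. (Cauchy–Binet in the form `Pool.Agent.H99.MV.det_sum_rankOne` : `k! det = ∑_(J : Fin k → columns) …`.)
-/

set_option autoImplicit false

open Polynomial

namespace Pool.Agent.H72.BD

/-- The weighted coefficient vectors of the `v_ij` on `ZMod N`. -/
noncomputable def uv (ρ r : ℝ) (N : ℕ) {d R : ℕ} (a : Fin (R + 1) → ℕ)
    (v : Fin (d + 1) → Fin (R + 1) → ℤ[X]) (i : Fin (d + 1) × Fin (R + 1)) (l : ZMod N) : ℝ :=
  ρ ^ a i.2 * ((v i.1 i.2).coeff l.val * r ^ l.val)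

private theorem sz_sum {M : Type} [AddCommMonoid M] (N : ℕ) [NeZero N] (f : ℕ → M) :
    ∑ l : ZMod N, f l.val = ∑ l ∈ Finset.range N, f l := by
  obtain ⟨n, rfl⟩ : ∃ n, N = n + 1 := ⟨N - 1, by have := NeZero.ne N; omega⟩
  exact Fin.sum_univ_eq_sum_range f (n + 1)

theorem fo_uv (b m N : ℕ) [NeZero N] {d R : ℕ} (a : Fin (R + 1) → ℕ)
    (v : Fin (d + 1) → Fin (R + 1) → ℤ[X]) (r : ℝ) (hv : ∀ i j, (v i j).natDegree < N)
    (s : ZMod N) :
    fo (uv (rho b m) r N a v) s = wt b m a v ((r : ℂ) * ZMod.stdAddChar s) := by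
  unfold fo wt
  rw [Fintype.sum_prod_type]
  refine Finset.sum_congr rfl fun i _ => Finset.sum_congr rfl fun j _ => ?_
  have h1 : ∑ l : ZMod N, ((uv (rho b m) r N a v (i, j) l : ℝ) : ℂ) * ZMod.stdAddChar (s * l) =
      ((rho b m ^ a j : ℝ) : ℂ) * aeval ((r : ℂ) * ZMod.stdAddChar s) (v i j) := by
    rw [aeval_eq_sum_range' (hv i j), Finset.mul_sum, ← sz_sum N (fun l =>
      ((rho b m ^ a j : ℝ) : ℂ) * ((v i j).coeff l • ((r : ℂ) * ZMod.stdAddChar s) ^ l))]
    refine Finset.sum_congr rfl fun l _ => ?_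
    have h2 : (ZMod.stdAddChar (s * l) : ℂ) = ZMod.stdAddChar s ^ l.val := by
      rw [← AddChar.map_nsmul_eq_pow]
      congr 1
      rw [nsmul_eq_mul, ZMod.natCast_zmod_val, mul_comm]
    rw [h2, mul_pow]
    simp only [uv, zsmul_eq_mul]
    push_cast
    ring
  rw [h1, norm_mul, mul_pow, Complex.norm_real, Real.norm_eq_abs, sq_abs, ← pow_mul]
  congr 2
  ring

private theorem sz_cb {S : Type} [Fintype S] [DecidableEq S] {k : ℕ} (C : Matrix (Fin k) S ℝ)
    (w w' : S → ℝ) (M : ℝ) (h0 : ∀ s, 0 ≤ w s) (h1 : ∀ s, w s ≤ M * w' s) :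
    (Matrix.of fun a b => ∑ s, C a s * C b s * w s).det ≤
      M ^ k * (Matrix.of fun a b => ∑ s, C a s * C b s * w' s).det := by
  have h2 : ∀ u : S → ℝ, (Matrix.of fun a b => ∑ s, C a s * C b s * u s) =
      ∑ s ∈ Finset.univ, u s • Matrix.vecMulVec (fun r => C r s) (fun r => C r s) := by
    intro u
    ext a b
    simp only [Matrix.of_apply, Matrix.sum_apply, Matrix.smul_apply, Matrix.vecMulVec_apply,
      smul_eq_mul]
    exact Finset.sum_congr rfl fun s _ => by ring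
  have h3 := Pool.Agent.H99.MV.det_sum_rankOne (Finset.univ : Finset S) w (fun s r => C r s)
  have h4 := Pool.Agent.H99.MV.det_sum_rankOne (Finset.univ : Finset S) w' (fun s r => C r s)
  rw [← h2] at h3 h4
  rw [Fintype.card_fin] at h3 h4
  have h5 : (0 : ℝ) < (k.factorial : ℝ) := by exact_mod_cast Nat.factorial_pos k
  refine le_of_mul_le_mul_left ?_ h5
  rw [h3, mul_left_comm, h4, Finset.mul_sum]
  refine Finset.sum_le_sum fun τ _ => ?_
  rw [← mul_assoc]
  refine mul_le_mul_of_nonneg_right ?_ (sq_nonneg _)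
  calc ∏ r, w (τ r) ≤ ∏ r, (M * w' (τ r)) :=
        Finset.prod_le_prod (fun r _ => h0 _) fun r _ => h1 _
    _ = M ^ k * ∏ r, w' (τ r) := by
        rw [Finset.prod_mul_distrib, Finset.prod_const, Finset.card_univ, Fintype.card_fin]

private theorem sz_shift (n m a : ℕ) (ham : a + n ≤ m) (G : ℕ → ℝ) (hG : ∀ e, n ≤ e → G e = 0) :
    ∑ l ∈ Finset.range m, (if a ≤ l then G (l - a) else 0) = ∑ e ∈ Finset.range n, G e := by
  rw [← Finset.sum_filter]
  symm
  have h1 : ∑ e ∈ Finset.range n, G e = ∑ e ∈ Finset.range (m - a), G e := by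
    refine Finset.sum_subset (fun e he => ?_) fun e _ he => ?_
    · rw [Finset.mem_range] at he ⊢
      omega
    · rw [Finset.mem_range, not_lt] at he
      exact hG e he
  rw [h1]
  refine Finset.sum_bij (fun e _ => e + a) ?_ ?_ ?_ ?_
  · intro e he
    rw [Finset.mem_range] at he
    rw [Finset.mem_filter, Finset.mem_range]
    omega
  · intro e _ e' _ h
    exact Nat.add_right_cancel h
  · intro l hl
    rw [Finset.mem_filter, Finset.mem_range] at hl
    exact ⟨l - a, by rw [Finset.mem_range]; omega, by omega⟩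
  · intro e _
    rw [Nat.add_sub_cancel]

private theorem sz_deg {d R n k : ℕ} (v : Fin (d + 1) → Fin (R + 1) → ℤ[X])
    (hk : ∀ i j, (v i j).natDegree + k ≤ n) (i' : Fin k) (i : Fin (d + 1)) (j : Fin (R + 1)) :
    (X ^ (i' : ℕ) * v i j).natDegree < n := by
  have h1 := natDegree_mul_le (p := (X : ℤ[X]) ^ (i' : ℕ)) (q := v i j)
  rw [natDegree_X_pow] at h1
  have h2 := hk i j
  have h3 := i'.2
  omega

private theorem sz_gr (ρ r : ℝ) {d R : ℕ} (a : Fin (R + 1) → ℕ)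
    (v : Fin (d + 1) → Fin (R + 1) → ℤ[X]) (n k N : ℕ) [NeZero N]
    (hk : ∀ i j, (v i j).natDegree + k ≤ n) (hN : n ≤ N) (p q : Fin k) :
    r ^ (p : ℕ) * r ^ (q : ℕ) * gr (uv ρ r N a v) k p q =
      ∑ s : (Fin (d + 1) × Fin (R + 1)) × Fin n,
        ((X ^ (p : ℕ) * v s.1.1 s.1.2).coeff (s.2 : ℕ) : ℝ) *
          ((X ^ (q : ℕ) * v s.1.1 s.1.2).coeff (s.2 : ℕ) : ℝ) *
          (ρ ^ (2 * a s.1.2) * r ^ (2 * (s.2 : ℕ))) := by
  unfold gr
  rw [Matrix.mul_apply, Finset.mul_sum]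
  refine (Fintype.sum_prod_type _).trans (Eq.trans ?_ (Fintype.sum_prod_type _).symm)
  refine Finset.sum_congr rfl fun i _ => ?_
  have h1 : ∀ (p : Fin k) (l : ZMod N), r ^ (p : ℕ) * uv ρ r N a v i (l - ((p : ℕ) : ZMod N)) =
      ρ ^ a i.2 * (((X ^ (p : ℕ) * v i.1 i.2).coeff l.val : ℝ) * r ^ l.val) := by
    intro p l
    unfold uv
    have hp := p.2
    have hki := hk i.1 i.2
    have hpN : (p : ℕ) < N := by omega
    have hv : ((p : ℕ) : ZMod N).val = p := ZMod.val_natCast_of_lt hpN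
    rw [coeff_X_pow_mul']
    by_cases hpl : (p : ℕ) ≤ l.val
    · have h2 : (l - ((p : ℕ) : ZMod N)).val = l.val - p := by
        rw [ZMod.val_sub (by rw [hv]; exact hpl), hv]
      rw [h2, if_pos hpl]
      have h3 : r ^ l.val = r ^ (p : ℕ) * r ^ (l.val - p) := by
        rw [← pow_add]
        congr 1
        omega
      rw [h3]
      ring
    · rw [if_neg hpl]
      push Not at hpl
      have h2 : (l - ((p : ℕ) : ZMod N)).val = l.val + N - p := by
        have h4 : l - ((p : ℕ) : ZMod N) = ((l.val + N - p : ℕ) : ZMod N) := by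
          rw [Nat.cast_sub (by omega)]
          simp
        rw [h4, ZMod.val_natCast_of_lt (by omega)]
      have h3 : (v i.1 i.2).coeff (l - ((p : ℕ) : ZMod N)).val = 0 := by
        refine coeff_eq_zero_of_natDegree_lt ?_
        rw [h2]
        omega
      rw [h3]
      simp
  have h2 : ∀ l : ZMod N, r ^ (p : ℕ) * r ^ (q : ℕ) *
      (sm (uv ρ r N a v) k p (i, l) * (sm (uv ρ r N a v) k).transpose (i, l) q) =
      (fun l : ℕ => ((X ^ (p : ℕ) * v i.1 i.2).coeff l : ℝ) *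
          ((X ^ (q : ℕ) * v i.1 i.2).coeff l : ℝ) *
          (ρ ^ (2 * a i.2) * r ^ (2 * l))) l.val := by
    intro l
    show r ^ (p : ℕ) * r ^ (q : ℕ) * (uv ρ r N a v i (l - ((p : ℕ) : ZMod N)) *
      uv ρ r N a v i (l - ((q : ℕ) : ZMod N))) = _
    calc _ = (r ^ (p : ℕ) * uv ρ r N a v i (l - ((p : ℕ) : ZMod N))) *
        (r ^ (q : ℕ) * uv ρ r N a v i (l - ((q : ℕ) : ZMod N))) := by ring
      _ = _ := by
        rw [h1, h1]
        ring
  refine (Finset.sum_congr rfl fun l _ => h2 l).trans ((sz_sum N (fun l : ℕ =>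
    ((X ^ (p : ℕ) * v i.1 i.2).coeff l : ℝ) * ((X ^ (q : ℕ) * v i.1 i.2).coeff l : ℝ) *
          (ρ ^ (2 * a i.2) * r ^ (2 * l)))).trans ?_)
  refine Eq.trans ?_ (Finset.sum_range (fun l : ℕ =>
    ((X ^ (p : ℕ) * v i.1 i.2).coeff l : ℝ) * ((X ^ (q : ℕ) * v i.1 i.2).coeff l : ℝ) *
          (ρ ^ (2 * a i.2) * r ^ (2 * l))))
  symm
  refine Finset.sum_subset (fun e he => ?_) fun e _ he => ?_
  · rw [Finset.mem_range] at he ⊢
    omega
  · rw [Finset.mem_range, not_lt] at he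
    rw [coeff_eq_zero_of_natDegree_lt (lt_of_lt_of_le (sz_deg v hk p i.1 i.2) he)]
    simp

private theorem sz_psi {b m : ℕ} [NeZero m] {F : Type} [Field F] [NumberField F] {x : F}
    (h : Rad b m F x) {d R ℓ gap : ℕ} {c : Fin (d + 1) → F} {a : Fin (R + 1) → ℕ}
    {v : Fin (d + 1) → Fin (R + 1) → ℤ[X]} (hr : Rep m x c ℓ gap a v) (n k : ℕ)
    (hk : ∀ i j, (v i j).natDegree + k ≤ n) (hgap : n ≤ gap)
    (E : Matrix (Fin k) (Fin n) ℝ)
    (hE : ∀ i j, E i j = ((X ^ (i : ℕ) * v (Fin.last d) 0).coeff (j : ℕ) : ℤ)) (p : Fin k)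
    (i : Fin (d + 1)) (l : ZMod m) :
    (E * Psi h c n) p (i, l) = ∑ j, (if a j ≤ l.val then
      ((X ^ (p : ℕ) * v i j).coeff (l.val - a j) : ℝ) else 0) * rho b m ^ l.val := by
  have h1 : (E * Psi h c n) p (i, l) = Matrix.vecMul (fun j : Fin n =>
      (((fun j : Fin n => (X ^ (p : ℕ) * v (Fin.last d) 0).coeff (j : ℕ)) j : ℤ) : ℝ))
        (Psi h c n) (i, l) := by
    rw [Matrix.mul_apply_eq_vecMul]
    congr 1
    funext j
    exact hE p j
  have h2 : pe x n (fun j : Fin n => (X ^ (p : ℕ) * v (Fin.last d) 0).coeff (j : ℕ)) =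
      aeval x (X ^ (p : ℕ) * v (Fin.last d) 0) := by
    rw [aeval_eq_sum_range' (sz_deg v hk p (Fin.last d) 0)]
    show ∑ j : Fin n, (((X ^ (p : ℕ) * v (Fin.last d) 0).coeff (j : ℕ) : ℤ) : F) * x ^ (j : ℕ) = _
    rw [Finset.sum_range]
    refine Finset.sum_congr rfl fun j _ => ?_
    rw [zsmul_eq_mul]
  have h3 : aeval x (X ^ (p : ℕ) * v (Fin.last d) 0) * c i =
      ∑ j, x ^ a j * aeval x (X ^ (p : ℕ) * v i j) := by
    rw [map_mul, mul_assoc, hr.eq, Finset.mul_sum]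
    refine Finset.sum_congr rfl fun j _ => ?_
    rw [map_mul]
    ring
  rw [h1, psi_vecMul, h2]
  show h.uu (aeval x (X ^ (p : ℕ) * v (Fin.last d) 0) * c i) l = _
  rw [h3]
  unfold Rad.uu
  rw [map_sum, Finset.sum_apply, Rat.cast_sum, Finset.sum_mul]
  refine Finset.sum_congr rfl fun j _ => ?_
  have h4 := hr.wrap j
  have h5 := sz_deg v hk p i j
  rw [h.co_pow_mul_aeval (a j) _ (by omega) l]
  split_ifs
  · rw [Rat.cast_intCast]
  · rw [Rat.cast_zero]

theorem gram_le {b m : ℕ} [NeZero m] {F : Type} [Field F] [NumberField F] {x : F}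
    (h : Rad b m F x) {d R ℓ gap : ℕ} {c : Fin (d + 1) → F} {a : Fin (R + 1) → ℕ}
    {v : Fin (d + 1) → Fin (R + 1) → ℤ[X]} (hr : Rep m x c ℓ gap a v) (n k Q N : ℕ) [NeZero N]
    (hQ : 1 ≤ Q) (hk : ∀ i j, (v i j).natDegree + k ≤ n) (hgap : n ≤ gap) (hN : n ≤ N)
    (E : Matrix (Fin k) (Fin n) ℝ)
    (hE : ∀ i j, E i j = ((X ^ (i : ℕ) * v (Fin.last d) 0).coeff (j : ℕ) : ℤ)) :
    (gr (uv (rho b m) (rho b m ^ Q) N a v) k).det ≤
      rho b m ^ (2 * Q * n * k) * ((E * Psi h c n) * (E * Psi h c n).transpose).det := by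
  classical
  set ρ := rho b m with hρ
  have hρ1 : 1 ≤ ρ := one_le_rho b m (by have := h.two; omega)
  set C : Matrix (Fin k) ((Fin (d + 1) × Fin (R + 1)) × Fin n) ℝ := Matrix.of fun p s =>
    ((X ^ (p : ℕ) * v s.1.1 s.1.2).coeff (s.2 : ℕ) : ℝ) with hC
  set r := ρ ^ Q with hrr
  have hr1 : 1 ≤ r := one_le_pow₀ hρ1
  -- the first Gram matrix
  have hA : ∀ p q : Fin k, r ^ (p : ℕ) * r ^ (q : ℕ) * gr (uv ρ r N a v) k p q =
      ∑ s, C p s * C q s * (ρ ^ (2 * a s.1.2) * r ^ (2 * (s.2 : ℕ))) := fun p q =>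
    sz_gr ρ r a v n k N hk hN p q
  have hB : (Matrix.of fun p q : Fin k => ∑ s, C p s * C q s *
      (ρ ^ (2 * a s.1.2) * r ^ (2 * (s.2 : ℕ)))).det =
      (∏ p : Fin k, r ^ (p : ℕ)) * ((∏ q : Fin k, r ^ (q : ℕ)) * (gr (uv ρ r N a v) k).det) := by
    have h1 : (Matrix.of fun p q : Fin k => ∑ s, C p s * C q s *
      (ρ ^ (2 * a s.1.2) * r ^ (2 * (s.2 : ℕ)))) = Matrix.of fun p q : Fin k =>
        r ^ (p : ℕ) * (Matrix.of fun p' q' : Fin k => r ^ (q' : ℕ) * gr (uv ρ r N a v) k p' q') p q := by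
      ext p q
      show ∑ s, C p s * C q s * (ρ ^ (2 * a s.1.2) * r ^ (2 * (s.2 : ℕ))) =
        r ^ (p : ℕ) * (r ^ (q : ℕ) * gr (uv ρ r N a v) k p q)
      rw [← hA p q]
      ring
    rw [h1, Matrix.det_mul_column, Matrix.det_mul_row]
  have hC0 : 0 ≤ (gr (uv ρ r N a v) k).det := by
    have h1 : (gr (uv ρ r N a v) k).PosSemidef := by
      have h2 := Matrix.posSemidef_self_mul_conjTranspose (sm (uv ρ r N a v) k)
      rwa [Matrix.conjTranspose_eq_transpose_of_trivial] at h2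
    exact h1.det_nonneg
  have hP1 : 1 ≤ ∏ p : Fin k, r ^ (p : ℕ) := by
    rw [Finset.prod_pow_eq_pow_sum]
    exact one_le_pow₀ hr1
  have hD : (gr (uv ρ r N a v) k).det ≤ (Matrix.of fun p q : Fin k => ∑ s, C p s * C q s *
      (ρ ^ (2 * a s.1.2) * r ^ (2 * (s.2 : ℕ)))).det := by
    rw [hB]
    exact (le_mul_of_one_le_left hC0 hP1).trans
      (le_mul_of_one_le_left (mul_nonneg (by linarith) hC0) hP1)
  -- the second Gram matrix
  have hF : (E * Psi h c n) * (E * Psi h c n).transpose = Matrix.of fun p q : Fin k =>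
      ∑ s, C p s * C q s * ρ ^ (2 * (a s.1.2 + (s.2 : ℕ))) := by
    ext p q
    rw [Matrix.mul_apply, Matrix.of_apply, Fintype.sum_prod_type, Fintype.sum_prod_type,
      Fintype.sum_prod_type]
    refine Finset.sum_congr rfl fun i _ => ?_
    have h1 : ∀ l : ZMod m, (E * Psi h c n) p (i, l) * (E * Psi h c n).transpose (i, l) q =
        (fun l : ℕ => ∑ j, (if a j ≤ l then (fun e : ℕ => ((X ^ (p : ℕ) * v i j).coeff e : ℝ) *
          ((X ^ (q : ℕ) * v i j).coeff e : ℝ) * ρ ^ (2 * (a j + e))) (l - a j) else 0)) l.val := by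
      intro l
      show (E * Psi h c n) p (i, l) * (E * Psi h c n) q (i, l) = _
      rw [sz_psi h hr n k hk hgap E hE, sz_psi h hr n k hk hgap E hE, Finset.sum_mul_sum]
      refine Finset.sum_congr rfl fun j _ => ?_
      rw [Finset.sum_eq_single j]
      · by_cases hj : a j ≤ l.val
        · rw [if_pos hj, if_pos hj, if_pos hj]
          have h2 : a j + (l.val - a j) = l.val := by omega
          show _ = _ * _ * ρ ^ (2 * (a j + (l.val - a j)))
          rw [h2]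
          ring
        · simp only [if_neg hj, zero_mul]
      · intro j' _ hj'
        have hs := hr.sep j' j hj'
        have d1 := sz_deg v hk p i j
        have d2 := sz_deg v hk q i j'
        by_cases hj : a j ≤ l.val
        · by_cases hj2 : a j' ≤ l.val
          · rw [if_pos hj, if_pos hj2]
            rcases hs with hs | hs
            · rw [coeff_eq_zero_of_natDegree_lt (p := X ^ (q : ℕ) * v i j') (by omega)]
              simp
            · rw [coeff_eq_zero_of_natDegree_lt (p := X ^ (p : ℕ) * v i j) (by omega)]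
              simp
          · rw [if_neg hj2]
            simp
        · rw [if_neg hj]
          simp
      · intro hn
        exact absurd (Finset.mem_univ j) hn
    refine (Finset.sum_congr rfl fun l _ => h1 l).trans ((sz_sum m (fun l : ℕ =>
      ∑ j, (if a j ≤ l then (fun e : ℕ => ((X ^ (p : ℕ) * v i j).coeff e : ℝ) *
          ((X ^ (q : ℕ) * v i j).coeff e : ℝ) * ρ ^ (2 * (a j + e))) (l - a j) else 0))).trans ?_)
    refine Finset.sum_comm.trans ?_
    refine Finset.sum_congr rfl fun j _ => ?_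
    refine (sz_shift n m (a j) (by have := hr.wrap j; omega) (fun e : ℕ =>
      ((X ^ (p : ℕ) * v i j).coeff e : ℝ) *
          ((X ^ (q : ℕ) * v i j).coeff e : ℝ) * ρ ^ (2 * (a j + e))) ?_).trans ?_
    rotate_left
    · exact Finset.sum_range (fun e : ℕ => ((X ^ (p : ℕ) * v i j).coeff e : ℝ) *
          ((X ^ (q : ℕ) * v i j).coeff e : ℝ) * ρ ^ (2 * (a j + e)))
    · intro e he
      show _ * _ * _ = _
      rw [coeff_eq_zero_of_natDegree_lt (lt_of_lt_of_le (sz_deg v hk p i j) he)]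
      simp
  rw [hF]
  refine hD.trans ?_
  have hG := sz_cb C (fun s => ρ ^ (2 * a s.1.2) * r ^ (2 * (s.2 : ℕ)))
    (fun s => ρ ^ (2 * (a s.1.2 + (s.2 : ℕ)))) (ρ ^ (2 * Q * n)) (fun s => by positivity)
    (fun s => by
      rw [hrr, ← pow_mul, ← pow_add, ← pow_add]
      refine pow_le_pow_right₀ hρ1 ?_
      have h1 : Q * (2 * (s.2 : ℕ)) ≤ 2 * Q * n := by
        have h2 : (s.2 : ℕ) ≤ n := s.2.2.le
        calc Q * (2 * (s.2 : ℕ)) = 2 * Q * (s.2 : ℕ) := by ring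
          _ ≤ _ := Nat.mul_le_mul_left _ h2
      omega)
  rw [← pow_mul] at hG
  exact hG

end Pool.Agent.H72.BD
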