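import Pool.Agent.H72.BD.Emb

/-!
# The Frobenius step (MP_187c26_nt, Theorem V, S3)

`r_j = q a_j % m`, `x ^ (q a_j) = b ^ (q a_j / m) x ^ (r_j)`.

PROOF of `frob_cong`: in the commutative ring `ℤ[x]` (or `𝓞 F`) modulo `q`: `(∑ j, x ^ a_j v_ij(x)) ^ q = ∑ j, x ^ (q a_j) v_ij(x) ^ q`
and `v(x) ^ q = v(x ^ q)` modulo `q` for `v ∈ ℤ[X]` (`Polynomial.expand`, `ZMod q` coefficients: `ZMod.expand_card`; or
`sub_pow_char..`, `MvPolynomial`; or directly: `Int`-coefficients satisfy `n ^ q ≡ n`). So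
`s_0 u_i ^ q ≡ ∑ j, s_0 b ^ (q a_j / m) x ^ (r_j) v_ij (x ^ q) ≡ ∑ j, s_j x ^ (r_j) v_ij (x ^ q)` modulo `q ℤ[x]`.
PROOF of `sum_le`: `ρ ^ r_j ≤ b ≤ b ρ ^ a_j`, `|s_j| ≤ S`, Cauchy–Schwarz for `(d + 1)(R + 1)` terms, `R ≤ R0 d`,
`√((d + 1)(R + 1)) ≤ (d + 1)(R0 d + 1)`.
PROOF of `step`: `u_i = g c_i = ∑ j, x ^ a_j v_ij(x)` (`g = v_last0 (x)`), integral over `ℤ`; `∑ i, u_i α ^ i = g · (minpoly)(α) = 0`.
`u'_i = ∑ j, s_j x ^ (r_j) v_ij(x ^ q)`. If `∑ i, u'_i α ^ (q i) ≠ 0`, then by `cl` (`f = 1`), `sum_le` and `hsize`: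
`q ^ m ≤ exp (m q d h) ∏ φ, (S b (d + 1)(R0 + 1)) √wt ≤ 2 ^ m (S b (d + 1) (R0 + 1) 2 4 ^ d b) ^ m = (S K1) ^ m < q ^ m`
(`∏ √wt = √∏ wt ≤ √(Cc ^ m)`, `√Cc = 2 4 ^ d b`), contradiction. So the polynomial `∑ i, u'_i X ^ i` of degree `≤ d` vanishes at `α ^ q`,
whose minimal polynomial has degree `d`: it is `u'_d` times the minimal polynomial, and
`u'_d = s_0 v_last0 (x ^ q)` (`v last j = 0` for `j ≠ 0`, `a_0 = 0`).
-/

set_option autoImplicit false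

open Polynomial NumberField

namespace Pool.Agent.H72.BD

variable {b m : ℕ} [NeZero m] {F : Type} [Field F] [NumberField F] {x : F} {d R : ℕ}

/-- Cauchy–Schwarz. -/
private theorem cs {ι : Type} (s : Finset ι) (f : ι → ℝ) (hf : ∀ i ∈ s, 0 ≤ f i) :
    ∑ i ∈ s, f i ≤ √(s.card : ℝ) * √(∑ i ∈ s, f i ^ 2) := by
  rw [← Real.sqrt_mul (Nat.cast_nonneg _)]
  exact Real.le_sqrt_of_sq_le sq_sum_le_card_mul_sum_sq

private theorem map_aeval' (φ : F →+* ℂ) (y : F) (p : ℤ[X]) : φ (aeval y p) = aeval (φ y) p := by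
  rw [aeval_def, aeval_def, hom_eval₂]
  congr 1
  exact RingHom.ext_int _ _

theorem sum_le (h : Rad b m F x) (a : Fin (R + 1) → ℕ) (v : Fin (d + 1) → Fin (R + 1) → ℤ[X])
    (q : ℕ) (hR : R ≤ R0 d) (s : Fin (R + 1) → ℤ) (S : ℕ) (hS : ∀ j, |s j| ≤ S)
    (φ : F →+* ℂ) :
    ∑ i, ‖φ (∑ j, (s j : F) * (x ^ (q * a j % m) * aeval (x ^ q) (v i j)))‖ ≤
      S * b * (d + 1) * (R0 d + 1) * √(wt b m a v (φ x ^ q)) := by
  have hb : 1 ≤ b := by
    have := h.two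
    omega
  have hm : 0 < m := Nat.pos_of_ne_zero (NeZero.ne m)
  have hρ0 := rho_pos b m hb
  have hρm := rho_pow b m hm.ne'
  have hρ1 : 1 ≤ rho b m := by
    by_contra hlt
    push Not at hlt
    have h1 : rho b m ^ m < 1 := pow_lt_one₀ hρ0.le hlt hm.ne'
    rw [hρm] at h1
    have h2 : (1 : ℝ) ≤ b := by exact_mod_cast hb
    linarith
  have hterm : ∀ i j, ‖φ ((s j : F) * (x ^ (q * a j % m) * aeval (x ^ q) (v i j)))‖ ≤
      S * b * (rho b m ^ (a j) * ‖aeval (φ x ^ q) (v i j)‖) := by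
    intro i j
    rw [map_mul, map_mul, map_pow, map_aeval', map_pow, norm_mul, norm_mul, norm_pow, h.norm_x,
      map_intCast]
    have h1 : ‖((s j : ℤ) : ℂ)‖ ≤ S := by
      rw [Complex.norm_intCast]
      exact_mod_cast hS j
    have h2 : rho b m ^ (q * a j % m) ≤ b * rho b m ^ (a j) := by
      calc rho b m ^ (q * a j % m) ≤ rho b m ^ m :=
            pow_le_pow_right₀ hρ1 (Nat.mod_lt _ hm).le
        _ = b := hρm
        _ ≤ b * rho b m ^ (a j) := le_mul_of_one_le_right (Nat.cast_nonneg _) (one_le_pow₀ hρ1)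
    have h3 := norm_nonneg (aeval (φ x ^ q) (v i j))
    have h4 := norm_nonneg ((s j : ℤ) : ℂ)
    calc ‖((s j : ℤ) : ℂ)‖ * (rho b m ^ (q * a j % m) * ‖aeval (φ x ^ q) (v i j)‖)
        ≤ S * ((b * rho b m ^ (a j)) * ‖aeval (φ x ^ q) (v i j)‖) := by
          apply mul_le_mul h1 (mul_le_mul_of_nonneg_right h2 h3) (by positivity) (Nat.cast_nonneg _)
      _ = S * b * (rho b m ^ (a j) * ‖aeval (φ x ^ q) (v i j)‖) := by ring
  obtain ⟨f, hf⟩ : ∃ f : Fin (d + 1) × Fin (R + 1) → ℝ,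
      f = fun w => rho b m ^ (a w.2) * ‖aeval (φ x ^ q) (v w.1 w.2)‖ := ⟨_, rfl⟩
  have hf0 : ∀ w, 0 ≤ f w := by
    intro w
    rw [hf]
    positivity
  have h1 : ∑ i, ‖φ (∑ j, (s j : F) * (x ^ (q * a j % m) * aeval (x ^ q) (v i j)))‖ ≤
      S * b * ∑ w, f w := by
    rw [Fintype.sum_prod_type, Finset.mul_sum]
    refine Finset.sum_le_sum fun i _ => ?_
    rw [map_sum, Finset.mul_sum]
    refine (norm_sum_le _ _).trans (Finset.sum_le_sum fun j _ => ?_)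
    rw [hf]
    exact hterm i j
  have h2 : ∑ w, f w ^ 2 = wt b m a v (φ x ^ q) := by
    rw [wt, Fintype.sum_prod_type]
    refine Finset.sum_congr rfl fun i _ => Finset.sum_congr rfl fun j _ => ?_
    rw [hf]
    simp only []
    rw [mul_pow, ← pow_mul, mul_comm (a j) 2]
  have h3 := cs Finset.univ f fun w _ => hf0 w
  rw [h2] at h3
  have h4 : √((Finset.univ : Finset (Fin (d + 1) × Fin (R + 1))).card : ℝ) ≤
      (d + 1) * (R0 d + 1) := by
    rw [Finset.card_univ, Fintype.card_prod, Fintype.card_fin, Fintype.card_fin]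
    have hR' : (R : ℝ) ≤ R0 d := by exact_mod_cast hR
    have h5 : (1 : ℝ) ≤ ((d : ℝ) + 1) * (R + 1) := by
      have h6 : (0 : ℝ) ≤ d := Nat.cast_nonneg _
      have h7 : (0 : ℝ) ≤ R := Nat.cast_nonneg _
      nlinarith [mul_nonneg h6 h7]
    push_cast
    calc √(((d : ℝ) + 1) * (R + 1)) ≤ ((d : ℝ) + 1) * (R + 1) := by
          rw [Real.sqrt_le_left (by positivity)]
          nlinarith
      _ ≤ (d + 1) * (R0 d + 1) := by
          apply mul_le_mul_of_nonneg_left (by linarith) (by positivity)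
  calc _ ≤ S * b * ∑ w, f w := h1
    _ ≤ S * b * (((d + 1) * (R0 d + 1)) * √(wt b m a v (φ x ^ q))) := by
        apply mul_le_mul_of_nonneg_left _ (by positivity)
        exact h3.trans (mul_le_mul_of_nonneg_right h4 (Real.sqrt_nonneg _))
    _ = _ := by ring

end Pool.Agent.H72.BD
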