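import Pool.Agent.H72.BD.Cong
import Pool.Agent.H72.BD.Sum
import Pool.Agent.H72.BD.CLh

/-!
# The Frobenius step (MP_187c26_nt, Theorem V, S3)

`r_j = q a_j % m`, `x ^ (q a_j) = b ^ (q a_j / m) x ^ (r_j)`.

PROOF of `frob_cong`: in the commutative ring `ℤ[x]` (or `𝓞 F`) modulo `q`: `(∑ j, x ^ a_j v_ij(x)) ^ q = ∑ j, x ^ (q a_j) v_ij(x) ^ q`
and `v(x) ^ q = v(x ^ q)` modulo `q` for `v ∈ ℤ[X]` (`Polynomial.expand`, `ZMod q` coefficients: `ZMod.expand_card`; or
`sub_pow_char..`, `MvPolynomial`; or directly: `Int`-coefficients satisfy `n ^ q ≡ n`). So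
`s_0 u_i ^ q ≡ ∑ j, s_0 b ^ (q a_j / m) x ^ (r_j) v_ij (x ^ q) ≡ ∑ j, s_j x ^ (r_j) v_ij (x ^ q)` modulo `q ℤ[x]`.
PROOF of `sum_le`: `ρ ^ r_j ≤ b ≤ b ρ ^ a_j`, `|s_j| ≤ S`, Cauchy–Schwarz for `(d + 1)(R + 1)` terms, `R ≤ R0 d`,
`√((d + 1)(R + 1)) ≤ (d + 1)(R0 d + 1)`.
PROOF of `step`: `u_i = g c_i = ∑ j, x ^ a_j v_ij(x)` (`g = v_last0 (x)`), integral over `ℤ`; `∑ i, u_i α ^ i = g · (minpoly)(α) = 0`.
`u'_i = ∑ j, s_j x ^ (r_j) v_ij(x ^ q)`. If `∑ i, u'_i α ^ (q i) ≠ 0`, then by `cl` (`f = 1`), `sum_le` and `hsize`: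
`q ^ m ≤ exp (m q d h) ∏ φ, (S b (d + 1)(R0 + 1)) √wt ≤ 2 ^ m (S b (d + 1) (R0 + 1) 2 4 ^ d b) ^ m = (S K1) ^ m < q ^ m`
(`∏ √wt = √∏ wt ≤ √(Cc ^ m)`, `√Cc = 2 4 ^ d b`), contradiction. So the polynomial `∑ i, u'_i X ^ i` of degree `≤ d` vanishes at `α ^ q`,
whose minimal polynomial has degree `d`: it is `u'_d` times the minimal polynomial, and
`u'_d = s_0 v_last0 (x ^ q)` (`v last j = 0` for `j ≠ 0`, `a_0 = 0`).
-/

set_option autoImplicit false

open Polynomial NumberField

namespace Pool.Agent.H72.BD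

variable {b m : ℕ} [NeZero m] {F : Type} [Field F] [NumberField F] {x : F} {d R : ℕ}

private theorem step_int (h : Rad b m F x) : IsIntegral ℤ x := by
  have h1 : IsIntegral ℤ (x ^ m) := by
    rw [h.pow]
    have h2 : IsIntegral ℤ (algebraMap ℤ F (b : ℤ)) := isIntegral_algebraMap
    simpa using h2
  exact IsIntegral.of_pow h.one_le h1

private theorem step_aeval_int {y : F} (hy : IsIntegral ℤ y) (P : ℤ[X]) :
    IsIntegral ℤ (aeval y P) := by
  rw [aeval_eq_sum_range]
  refine IsIntegral.sum _ fun j _ => ?_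
  exact (hy.pow j).smul _

private theorem step_wt_nonneg (h : Rad b m F x) (a : Fin (R + 1) → ℕ)
    (v : Fin (d + 1) → Fin (R + 1) → ℤ[X]) (z : ℂ) : 0 ≤ wt b m a v z := by
  have h1 : 0 ≤ rho b m := (rho_pos b m (by have := h.two; omega)).le
  exact Finset.sum_nonneg fun i _ => Finset.sum_nonneg fun j _ =>
    mul_nonneg (pow_nonneg h1 _) (by positivity)

theorem step (h : Rad b m F x) {Ω : Type} [Field Ω] [CharZero Ω] [Algebra F Ω] (α : Ω)
    (hα : IsIntegral ℚ α) {ℓ gap : ℕ} {a : Fin (R + 1) → ℕ}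
    {v : Fin (d + 1) → Fin (R + 1) → ℤ[X]} (hr : Rep m x (cf F α d) ℓ gap a v)
    (hd : (minpoly F α).natDegree = d) (q : ℕ) (hq : q.Prime)
    (hdq : (minpoly F (α ^ q)).natDegree = d) (hR : R ≤ R0 d)
    (hsize : ∏ φ : F →+* ℂ, wt b m a v (φ x ^ q) ≤ (Cc b d : ℝ) ^ m)
    (hh : q * d * absLogHeight₁ α ≤ Real.log 2) (s : Fin (R + 1) → ℤ)
    (hs : ∀ j, (q : ℤ) ∣ s j - s 0 * (b : ℤ) ^ (q * a j / m)) (S : ℕ) (hS : ∀ j, |s j| ≤ S)
    (hSq : S * K1 b d < q) (i : Fin (d + 1)) :
    ((s 0 : F) * aeval (x ^ q) (v (Fin.last d) 0)) * cf F (α ^ q) d i =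
      ∑ j, (s j : F) * (x ^ (q * a j % m) * aeval (x ^ q) (v i j)) := by
  have hm1 : 1 ≤ m := h.one_le
  have hαF : IsIntegral F α := hα.tower_top
  have hαq : IsIntegral F (α ^ q) := hαF.pow q
  set g : F := aeval x (v (Fin.last d) 0) with hg
  set u : Fin (d + 1) → F := fun i => ∑ j, x ^ a j * aeval x (v i j) with hu
  set u' : Fin (d + 1) → F := fun i =>
    ∑ j, (s j : F) * (x ^ (q * a j % m) * aeval (x ^ q) (v i j)) with hu'
  have hug : ∀ i, g * cf F α d i = u i := hr.eq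
  have hxi : IsIntegral ℤ x := step_int h
  have hui : ∀ i, IsIntegral ℤ (u i) := by
    intro i
    refine IsIntegral.sum _ fun j _ => (hxi.pow _).mul ?_
    exact step_aeval_int hxi _
  choose w hwi hw using fun i => frob_cong h a (v i) q hq s hs
  have h0 : ∑ i : Fin (d + 1), algebraMap F Ω (u i) * α ^ (i : ℕ) = 0 := by
    have h1 : aeval α (minpoly F α) = 0 := minpoly.aeval F α
    rw [aeval_eq_sum_range' (n := d + 1) (by omega), Finset.sum_range] at h1
    calc ∑ i : Fin (d + 1), algebraMap F Ω (u i) * α ^ (i : ℕ)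
        = algebraMap F Ω g * ∑ i : Fin (d + 1), (minpoly F α).coeff (i : ℕ) • α ^ (i : ℕ) := by
          rw [Finset.mul_sum]
          refine Finset.sum_congr rfl fun i _ => ?_
          rw [← hug i, map_mul, Algebra.smul_def, mul_assoc]
          rfl
      _ = 0 := by rw [h1, mul_zero]
  have hzero : ∑ i : Fin (d + 1), algebraMap F Ω (u' i) * (α ^ q) ^ (i : ℕ) = 0 := by
    by_contra hne
    have h1 : ∑ i : Fin (d + 1), algebraMap F Ω (u' i) * α ^ (q ^ 1 * (i : ℕ)) ≠ 0 := by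
      intro h2
      apply hne
      rw [← h2]
      refine Finset.sum_congr rfl fun i _ => ?_
      rw [pow_one, pow_mul]
    have h3 := cl α hα q 1 hq le_rfl u u' w (s 0) hui hwi
      (fun i => by rw [pow_one]; exact hw i) h0 h1
    rw [h.deg] at h3
    have hA : Real.exp ((m : ℝ) * ((q : ℝ) ^ 1 * d * absLogHeight₁ α)) ≤ 2 ^ m := by
      have h4 : (m : ℝ) * ((q : ℝ) ^ 1 * d * absLogHeight₁ α) ≤ m * Real.log 2 := by
        rw [pow_one]
        exact mul_le_mul_of_nonneg_left hh (Nat.cast_nonneg m)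
      refine (Real.exp_le_exp.2 h4).trans ?_
      rw [← Real.log_pow, Real.exp_log (by positivity)]
    have hcard : Fintype.card (F →+* ℂ) = m := by
      rw [NumberField.Embeddings.card, h.deg]
    have hB : ∏ φ : F →+* ℂ, ∑ i, ‖φ (u' i)‖ ≤
        (S * b * (d + 1) * (R0 d + 1) * (2 * (4 ^ d * b))) ^ m := by
      calc ∏ φ : F →+* ℂ, ∑ i, ‖φ (u' i)‖
          ≤ ∏ φ : F →+* ℂ, ((S : ℝ) * b * (d + 1) * (R0 d + 1) * √(wt b m a v (φ x ^ q))) := by
            refine Finset.prod_le_prod (fun φ _ => Finset.sum_nonneg fun i _ => norm_nonneg _)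
              fun φ _ => ?_
            exact sum_le h a v q hR s S hS φ
        _ = ((S : ℝ) * b * (d + 1) * (R0 d + 1)) ^ m * ∏ φ : F →+* ℂ, √(wt b m a v (φ x ^ q)) := by
            rw [Finset.prod_mul_distrib, Finset.prod_const, Finset.card_univ, hcard]
        _ ≤ ((S : ℝ) * b * (d + 1) * (R0 d + 1)) ^ m * (2 * (4 ^ d * b)) ^ m := by
            refine mul_le_mul_of_nonneg_left ?_ (by positivity)
            rw [← Real.sqrt_prod _ (fun φ _ => step_wt_nonneg h a v (φ x ^ q))]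
            refine (Real.sqrt_le_sqrt hsize).trans ?_
            rw [Real.sqrt_le_left (by positivity)]
            apply le_of_eq
            rw [← pow_mul, mul_comm m 2, pow_mul]
            congr 1
            simp only [Cc]
            push_cast
            ring
        _ = _ := by rw [← mul_pow]
    have hC : (q : ℝ) ^ m ≤ ((S : ℝ) * K1 b d) ^ m := by
      refine (h3.trans (mul_le_mul hA hB ?_ (by positivity))).trans (le_of_eq ?_)
      · exact Finset.prod_nonneg fun φ _ => Finset.sum_nonneg fun i _ => norm_nonneg _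
      · rw [← mul_pow]
        congr 1
        simp only [K1]
        push_cast
        ring
    have hD : ((S : ℝ) * K1 b d) < q := by exact_mod_cast hSq
    have hE : ((S : ℝ) * K1 b d) ^ m < (q : ℝ) ^ m :=
      pow_lt_pow_left₀ hD (by positivity) (by omega)
    exact absurd hC (not_le.2 hE)
  have hlast : u' (Fin.last d) = (s 0 : F) * aeval (x ^ q) (v (Fin.last d) 0) := by
    simp only [hu']
    rw [Finset.sum_eq_single 0]
    · rw [hr.a0, mul_zero, Nat.zero_mod, pow_zero, one_mul]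
    · intro j _ hj
      rw [hr.vl j hj, map_zero, mul_zero, mul_zero]
    · intro h2
      exact absurd (Finset.mem_univ _) h2
  set P : F[X] := ∑ i : Fin (d + 1), C (u' i) * X ^ (i : ℕ) with hP
  have hPc : ∀ i : Fin (d + 1), P.coeff (i : ℕ) = u' i := by
    intro i
    rw [hP, finsetSum_coeff, Finset.sum_eq_single i]
    · rw [coeff_C_mul, coeff_X_pow, if_pos rfl, mul_one]
    · intro j _ hj
      rw [coeff_C_mul, coeff_X_pow, if_neg (fun h2 => hj (Fin.ext h2.symm)), mul_zero]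
    · intro h2
      exact absurd (Finset.mem_univ _) h2
  have hPd : P.natDegree ≤ d := by
    refine natDegree_sum_le_of_forall_le _ _ fun i _ => ?_
    refine (natDegree_C_mul_X_pow_le _ _).trans ?_
    have := i.2
    omega
  have hP0 : aeval (α ^ q) P = 0 := by
    rw [hP, map_sum, ← hzero]
    refine Finset.sum_congr rfl fun i _ => ?_
    rw [map_mul, aeval_C, map_pow, aeval_X]
  set M : F[X] := minpoly F (α ^ q) with hM
  have hMm : M.Monic := minpoly.monic hαq
  have hN : P - C (u' (Fin.last d)) * M = 0 := by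
    by_contra hne
    have h1 : aeval (α ^ q) (P - C (u' (Fin.last d)) * M) = 0 := by
      rw [map_sub, map_mul, hP0, hM, minpoly.aeval, mul_zero, sub_zero]
    have h2 := natDegree_le_natDegree (minpoly.degree_le_of_ne_zero F (α ^ q) hne h1)
    rw [hdq] at h2
    have h3 : (P - C (u' (Fin.last d)) * M).natDegree ≤ d := by
      refine (natDegree_sub_le _ _).trans (max_le hPd ?_)
      refine (natDegree_C_mul_le _ _).trans ?_
      rw [hdq]
    have h4 : (P - C (u' (Fin.last d)) * M).coeff d = 0 := by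
      rw [coeff_sub, coeff_C_mul]
      have h5 : M.coeff d = 1 := by
        have h6 : M.natDegree = d := hdq
        rw [← h6]
        exact hMm.coeff_natDegree
      have h7 := hPc (Fin.last d)
      rw [Fin.val_last] at h7
      rw [h5, mul_one, h7, sub_self]
    have h5 : (P - C (u' (Fin.last d)) * M).natDegree = d := le_antisymm h3 h2
    apply hne
    rw [← leadingCoeff_eq_zero, leadingCoeff, h5]
    exact h4
  have h5 := congrArg (fun T => T.coeff (i : ℕ)) hN
  simp only [coeff_sub, coeff_zero, coeff_C_mul] at h5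
  rw [hPc i, sub_eq_zero] at h5
  rw [← hlast]
  exact h5.symm

end Pool.Agent.H72.BD
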