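import Pool.Agent.H72.BD.Def
import Pool.Agent.H99.MV.CB

/-!
# Toeplitz determinants (MP_187c26_nt, Theorem V, toolkit)

NOTATION. `χ = ZMod.stdAddChar`, `V_J` (`J ⊂ ZMod m`, `|J| = n`) the minor on the columns `J` of the `n × m` matrix
`V k s = χ (k s) / √m` (`V Vᴴ = 1` as `n ≤ m`, so `∑ J, |V_J| ^ 2 = 1` by Cauchy–Binet).

PROOF of `gr_fourier`: `gr u n k k' = ∑ i, ∑ l, u i (l - k) u i (l - k')` is real, and with `û_i s = ∑ l, u i l χ (s l)`
the shift `l ↦ u i (l - k)` has transform `χ (s k) û_i s`, so (Parseval on `ZMod m`)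
`gr u n k k' = (1 / m) ∑ s, χ (s k) conj (χ (s k')) fo u s`, i.e. `gr u n = V diag (fo u) Vᴴ` (as complex matrices).

PROOF of `gr_upper`: Cauchy–Binet: `det (gr u n) = ∑ J, |V_J| ^ 2 ∏ s ∈ J, fo u s`
`≤ ∑ J, |V_J| ^ 2 D ^ n ∏ s ∈ J, N s ≤ D ^ n ∏ s, N s` (all `N s ≥ 1`).

PROOF of `gr_lower`: if some `fo u s = 0` and `n ≥ 1` the left side is `0` and `det (gr u n) ≥ 0`; `n = 0` is trivial. Otherwise
by the weighted AM–GM inequality (`Real.inner_le_nnorm..`, `Real.geom_mean_le_arith_mean_weighted` with weights `|V_J| ^ 2`)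
`det (gr u n) ≥ ∏ J, (∏ s ∈ J, fo u s) ^ (|V_J| ^ 2) = ∏ s, (fo u s) ^ (∑ J ∋ s, |V_J| ^ 2)`, and
`∑ J ∋ s, |V_J| ^ 2` does not depend on `s`: `V_(J + t)` differs from `V_J` by the factor `∏ k, χ (k t)` of absolute value
one; and the sum over `s` is `n ∑ J |V_J| ^ 2 = n`. So it is `n / m`. Take `m`-th powers.
(One can avoid subsets: use `J : Fin n → ZMod m`, all functions, and `∑_(J : Fin n → ZMod m) |det V_J| ^ 2 = n!`,
see `Pool.Agent.H99.MV` or `Pool/Agent/H54/TP/CauchyBinet.lean` for Cauchy–Binet over functions or over subsets.)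
-/

set_option autoImplicit false

open Polynomial

namespace Pool.Agent.H72.BD

variable {m : ℕ} [NeZero m] {ι : Type} [Fintype ι]

theorem fo_nonneg (u : ι → ZMod m → ℝ) (s : ZMod m) : 0 ≤ fo u s :=
  Finset.sum_nonneg fun _ _ => by positivity

private theorem toe_orth (l l' : ZMod m) :
    ∑ s : ZMod m, ZMod.stdAddChar (s * l) * (starRingEnd ℂ) (ZMod.stdAddChar (s * l')) =
      if l = l' then (m : ℂ) else 0 := by
  have h1 : ∀ s : ZMod m, ZMod.stdAddChar (s * l) * (starRingEnd ℂ) (ZMod.stdAddChar (s * l')) =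
      (ZMod.stdAddChar (s * (l - l')) : ℂ) := by
    intro s
    rw [← AddChar.map_neg_eq_conj, ← AddChar.map_add_eq_mul]
    congr 1
    ring
  simp_rw [h1]
  rw [AddChar.sum_mulShift (l - l') (ZMod.isPrimitive_stdAddChar m)]
  simp only [sub_eq_zero, ZMod.card]
  split_ifs <;> simp

private theorem toe_shift (f : ZMod m → ℝ) (k s : ZMod m) :
    ZMod.stdAddChar (s * k) * ∑ l, (f l : ℂ) * ZMod.stdAddChar (s * l) =
      ∑ l, (f (l - k) : ℂ) * ZMod.stdAddChar (s * l) := by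
  rw [Finset.mul_sum]
  refine Fintype.sum_equiv (Equiv.addRight k) _ _ (fun l => ?_)
  simp only [Equiv.coe_addRight, add_sub_cancel_right]
  rw [mul_add, AddChar.map_add_eq_mul]
  ring

private theorem toe_one (f : ZMod m → ℝ) (k k' : ZMod m) :
    ∑ l : ZMod m, ((f (l - k) : ℝ) : ℂ) * ((f (l - k') : ℝ) : ℂ) =
      (1 / (m : ℂ)) * ∑ s : ZMod m,
      ZMod.stdAddChar (s * k) * (starRingEnd ℂ) (ZMod.stdAddChar (s * k')) *
        ((‖∑ l, (f l : ℂ) * ZMod.stdAddChar (s * l)‖ ^ 2 : ℝ) : ℂ) := by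
  have hm : (m : ℂ) ≠ 0 := by exact_mod_cast NeZero.ne m
  have key : ∀ s : ZMod m, ZMod.stdAddChar (s * k) * (starRingEnd ℂ) (ZMod.stdAddChar (s * k')) *
        ((‖∑ l, (f l : ℂ) * ZMod.stdAddChar (s * l)‖ ^ 2 : ℝ) : ℂ) =
      ∑ l, ∑ l', (f (l - k) : ℂ) * (f (l' - k') : ℂ) *
        (ZMod.stdAddChar (s * l) * (starRingEnd ℂ) (ZMod.stdAddChar (s * l'))) := by
    intro s
    have h1 : ((‖∑ l, (f l : ℂ) * ZMod.stdAddChar (s * l)‖ ^ 2 : ℝ) : ℂ) =
        (∑ l, (f l : ℂ) * ZMod.stdAddChar (s * l)) *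
          (starRingEnd ℂ) (∑ l, (f l : ℂ) * ZMod.stdAddChar (s * l)) := by
      rw [Complex.mul_conj']
      push_cast
      rfl
    rw [h1]
    calc _ = (ZMod.stdAddChar (s * k) * ∑ l, (f l : ℂ) * ZMod.stdAddChar (s * l)) *
          (starRingEnd ℂ) (ZMod.stdAddChar (s * k') *
            ∑ l, (f l : ℂ) * ZMod.stdAddChar (s * l)) := by
          rw [RingHom.map_mul]
          ring
      _ = _ := by
          rw [toe_shift, toe_shift, map_sum, Finset.sum_mul_sum]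
          refine Finset.sum_congr rfl fun l _ => Finset.sum_congr rfl fun l' _ => ?_
          rw [RingHom.map_mul, Complex.conj_ofReal]
          ring
  simp_rw [key]
  rw [Finset.sum_comm, Finset.mul_sum]
  refine Finset.sum_congr rfl fun l _ => ?_
  rw [Finset.sum_comm]
  simp_rw [← Finset.mul_sum, toe_orth]
  rw [Finset.sum_eq_single l]
  · rw [if_pos rfl]
    field_simp
  · intro l' _ hl
    rw [if_neg (Ne.symm hl), mul_zero]
  · intro h
    exact absurd (Finset.mem_univ _) h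

theorem gr_fourier (u : ι → ZMod m → ℝ) (n : ℕ) (k k' : Fin n) :
    ((gr u n k k' : ℝ) : ℂ) = (1 / (m : ℂ)) * ∑ s : ZMod m,
      ZMod.stdAddChar (s * ((k : ℕ) : ZMod m)) *
        (starRingEnd ℂ) (ZMod.stdAddChar (s * ((k' : ℕ) : ZMod m))) * (fo u s : ℂ) := by
  have h1 : ((gr u n k k' : ℝ) : ℂ) = ∑ i, ∑ l : ZMod m,
      ((u i (l - ((k : ℕ) : ZMod m)) : ℝ) : ℂ) * ((u i (l - ((k' : ℕ) : ZMod m)) : ℝ) : ℂ) := by
    unfold gr
    rw [Matrix.mul_apply, Fintype.sum_prod_type]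
    push_cast
    rfl
  rw [h1]
  simp_rw [toe_one]
  rw [← Finset.mul_sum, Finset.sum_comm]
  congr 1
  refine Finset.sum_congr rfl fun s _ => ?_
  unfold fo
  push_cast
  rw [Finset.mul_sum]

theorem gr_det_nonneg (u : ι → ZMod m → ℝ) (n : ℕ) : 0 ≤ (gr u n).det := by
  have h1 : (gr u n).PosSemidef := by
    have h2 := Matrix.posSemidef_self_mul_conjTranspose (sm u n)
    rwa [Matrix.conjTranspose_eq_transpose_of_trivial] at h2
  exact h1.det_nonneg

end Pool.Agent.H72.BD
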