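import Pool.Agent.H72.BD.Step
import Pool.Agent.H72.BD.Ph
import Pool.Agent.H72.BD.Sep

/-!
# Two short vectors (MP_187c26_nt, Theorem V, S4)

PROOF of `step_win` (existence of a short vector and the windows of `α ^ q`). `K = K1 b d ≥ 2`, `S = (q - 1) / K`: `S K < q`, `(S + 1) K ≥ q`.
`β_j = b ^ (q a_j / m)`, `β_0 = 1`. `ph1`: `q ^ R < (S + 1) ^ (R + 1)` since `(S + 1) ^ (R + 1) K ^ (R + 1) ≥ q ^ (R + 1)` and
`q > K ^ (R0 + 1) ≥ K ^ (R + 1)`. So `s ≠ 0`, `|s_j| ≤ S < q`; `s_0 ≠ 0` (if `s_0 = 0`, `q ∣ s_j` and `|s_j| < q`: `s = 0`). `step`: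
`g' cf_i = ∑ j, s_j x ^ r_j v_ij(x ^ q)`, `g' = s_0 v_last0 (x ^ q) ≠ 0` (`v (x ^ q) = (expand q v)(x)` has degree `< q ℓ ≤ m`).
Supports: `Rad.inw_of_ne_zero` (`deg (expand q v_ij) ≤ q (ℓ - 1) < q ℓ`, `r_0 = 0`).
PROOF of `two`: `ph2` with the same `K`, `S`, `β`: `hbig`: `S + 1 ≥ q / K ≥ 4 K ^ R0`, so `S ≥ 2 K ^ R`. `hs0` as above. `hprop`: `step` for `s` and
`s'`, multiply by `s'_0`, `s_0`: `∑ j, x ^ r_j (s'_0 s_j expand q v_ij)(x) = ∑ j, x ^ r_j (s_0 s'_j expand q v_ij)(x)` for each `i`; the windows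
`[r_j, r_j + q ℓ)` are separated: `Rad.sep_unique`, and `v_ij ≠ 0` for some `i` (`act`): `s'_0 s_j = s_0 s'_j`. The short vector
has `|s_j| ≤ 4 K ^ R ≤ 4 K ^ R0 < q`, and `q ∣ s_0` would give `q ∣ s_j` for all `j`, `s = 0`.
-/

set_option autoImplicit false

open Polynomial NumberField

namespace Pool.Agent.H72.BD

variable {b m : ℕ} [NeZero m] {F : Type} [Field F] [NumberField F] {x : F} {d R : ℕ}

private theorem K1_two (b d : ℕ) (hb : 2 ≤ b) : 2 ≤ K1 b d := by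
  unfold K1
  have h1 : 1 ≤ 4 ^ d := Nat.one_le_pow _ _ (by norm_num)
  have h2 : 4 ≤ b ^ 2 := by nlinarith
  calc 2 ≤ 4 * 4 * 1 * 1 * 1 := by norm_num
    _ ≤ 4 * b ^ 2 * 4 ^ d * (d + 1) * (R0 d + 1) := by
      gcongr <;> omega

private theorem SK (q K : ℕ) (hq : 1 ≤ q) (hK : 1 ≤ K) :
    (q - 1) / K * K < q ∧ q ≤ ((q - 1) / K + 1) * K := by
  have h1 := Nat.div_mul_le_self (q - 1) K
  have h2 := Nat.lt_div_mul_add (a := q - 1) (b := K) (by omega)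
  refine ⟨by omega, ?_⟩
  rw [add_mul, one_mul]
  omega

private theorem s_zero {R q : ℕ} {β s : Fin (R + 1) → ℤ} (hs : ∀ j, (q : ℤ) ∣ s j - s 0 * β j)
    (h0 : (q : ℤ) ∣ s 0) (hb : ∀ j, |s j| < q) : s = 0 := by
  funext j
  have h1 : (q : ℤ) ∣ s j := by
    have h2 := dvd_add (hs j) (Dvd.dvd.mul_right h0 (β j))
    rwa [sub_add_cancel] at h2
  exact Int.eq_zero_of_abs_lt_dvd h1 (hb j)

private theorem deg_ex {q ℓ : ℕ} (hq : 0 < q) (P : ℤ[X]) (hP : P.natDegree < ℓ) (c : ℤ) :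
    (C c * expand ℤ q P).natDegree < q * ℓ := by
  refine lt_of_le_of_lt (natDegree_C_mul_le _ _) ?_
  rw [natDegree_expand, mul_comm]
  exact Nat.mul_lt_mul_of_pos_left hP hq

private theorem ae_ex (F : Type) [Field F] (x : F) (q : ℕ) (P : ℤ[X]) (c : ℤ) :
    aeval x (C c * expand ℤ q P) = (c : F) * aeval (x ^ q) P := by
  rw [map_mul, aeval_C, expand_aeval]
  simp

theorem step_win (h : Rad b m F x) {Ω : Type} [Field Ω] [CharZero Ω] [Algebra F Ω] (α : Ω)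
    (hα : IsIntegral ℚ α) {ℓ gap : ℕ} {a : Fin (R + 1) → ℕ}
    {v : Fin (d + 1) → Fin (R + 1) → ℤ[X]} (hr : Rep m x (cf F α d) ℓ gap a v)
    (hd : (minpoly F α).natDegree = d) (q : ℕ) (hq : q.Prime)
    (hdq : (minpoly F (α ^ q)).natDegree = d) (hR : R ≤ R0 d)
    (hsize : ∏ φ : F →+* ℂ, wt b m a v (φ x ^ q) ≤ (Cc b d : ℝ) ^ m)
    (hh : q * d * absLogHeight₁ α ≤ Real.log 2) (hbig : 4 * K1 b d ^ (R0 d + 1) ≤ q)
    (hqm : q * ℓ ≤ m) :
    WinAt h (cf F (α ^ q) d) (fun j => q * a j % m) (q * ℓ) := by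
  have hm : 0 < m := h.one_le
  have hK := K1_two b d h.two
  obtain ⟨K, hKd⟩ : ∃ K : ℕ, K = K1 b d := ⟨_, rfl⟩
  rw [← hKd] at hK hbig
  obtain ⟨hS1, hS2⟩ := SK q K hq.one_lt.le (by omega)
  obtain ⟨S, hSd⟩ : ∃ S : ℕ, S = (q - 1) / K := ⟨_, rfl⟩
  rw [← hSd] at hS1 hS2
  have hKR : K ^ (R + 1) < q := by
    have h1 : K ^ (R + 1) ≤ K ^ (R0 d + 1) := Nat.pow_le_pow_right (by omega) (by omega)
    have h2 : 1 ≤ K ^ (R0 d + 1) := Nat.one_le_pow _ _ (by omega)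
    omega
  have hlt : q ^ R < (S + 1) ^ (R + 1) := by
    have h1 : q ^ (R + 1) ≤ (S + 1) ^ (R + 1) * K ^ (R + 1) := by
      rw [← mul_pow]
      exact Nat.pow_le_pow_left hS2 _
    have h2 : q ^ R * K ^ (R + 1) < q ^ (R + 1) := by
      rw [pow_succ q]
      exact Nat.mul_lt_mul_of_pos_left hKR (pow_pos hq.pos _)
    exact lt_of_mul_lt_mul_right (h2.trans_le h1) (Nat.zero_le _)
  have hβ : (fun j : Fin (R + 1) => (b : ℤ) ^ (q * a j / m)) 0 = 1 := by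
    simp [hr.a0]
  obtain ⟨s, hs0, hsd, hsb⟩ := ph1 R q S hq.one_lt.le (fun j => (b : ℤ) ^ (q * a j / m)) hβ hlt
  have hSq : (S : ℤ) < q := by
    have : S < q := lt_of_le_of_lt (Nat.le_mul_of_pos_right S (by omega)) hS1
    exact_mod_cast this
  have hs00 : s 0 ≠ 0 := fun h0 => hs0 (s_zero hsd (by rw [h0]; exact dvd_zero _)
    fun j => (hsb j).trans_lt hSq)
  have hst := step h α hα hr hd q hq hdq hR hsize hh s hsd S hsb (by rw [← hKd]; exact hS1)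
  have hpoly : aeval (x ^ q) (v (Fin.last d) 0) ≠ 0 := by
    intro h0
    have h1 : aeval x (C 1 * expand ℤ q (v (Fin.last d) 0)) = 0 := by rw [ae_ex, h0, mul_zero]
    have h2 := h.aeval_eq_zero _ ((deg_ex hq.pos _ (hr.deg _ _) 1).trans_le hqm) h1
    rw [C_1, one_mul, expand_eq_zero hq.pos] at h2
    exact hr.vl0 h2
  refine ⟨(s 0 : F) * aeval (x ^ q) (v (Fin.last d) 0), mul_ne_zero (by exact_mod_cast hs00) hpoly,
    fun l hl => ?_, fun i l hl => ?_⟩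
  · refine h.inw_of_ne_zero 0 (q * ℓ) (C (s 0) * expand ℤ q (v (Fin.last d) 0))
      (deg_ex hq.pos _ (hr.deg _ _) _) hqm l ?_
    rw [pow_zero, one_mul, ae_ex]
    exact hl
  · rw [hst i, map_sum, Finset.sum_apply] at hl
    obtain ⟨j, -, hj⟩ := Finset.exists_ne_zero_of_sum_ne_zero hl
    refine ⟨j, h.inw_of_ne_zero _ (q * ℓ) (C (s j) * expand ℤ q (v i j))
      (deg_ex hq.pos _ (hr.deg _ _) _) hqm l ?_⟩
    rw [ae_ex, mul_left_comm]
    exact hj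

theorem two (h : Rad b m F x) {Ω : Type} [Field Ω] [CharZero Ω] [Algebra F Ω] (α : Ω)
    (hα : IsIntegral ℚ α) {ℓ gap : ℕ} {a : Fin (R + 1) → ℕ}
    {v : Fin (d + 1) → Fin (R + 1) → ℤ[X]} (hr : Rep m x (cf F α d) ℓ gap a v)
    (hd : (minpoly F α).natDegree = d) (q : ℕ) (hq : q.Prime)
    (hdq : (minpoly F (α ^ q)).natDegree = d) (hR : R ≤ R0 d)
    (hsize : ∏ φ : F →+* ℂ, wt b m a v (φ x ^ q) ≤ (Cc b d : ℝ) ^ m)
    (hh : q * d * absLogHeight₁ α ≤ Real.log 2) (hbig : 4 * K1 b d ^ (R0 d + 1) ≤ q)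
    (hsep : ∀ i j, i ≠ j → q * a i % m + q * ℓ ≤ q * a j % m ∨
      q * a j % m + q * ℓ ≤ q * a i % m)
    (hwrap : ∀ j, q * a j % m + q * ℓ ≤ m) :
    ∃ s : Fin (R + 1) → ℤ, (∀ j, (q : ℤ) ∣ s j - s 0 * (b : ℤ) ^ (q * a j / m)) ∧
      ¬ (q : ℤ) ∣ s 0 ∧ ∀ j, |s j| ≤ 4 * (K1 b d : ℤ) ^ R0 d := by
  have hm : 0 < m := h.one_le
  have hK := K1_two b d h.two
  have hstep := fun (s : Fin (R + 1) → ℤ) => step h α hα hr hd q hq hdq hR hsize hh s
  obtain ⟨K, hKd⟩ : ∃ K : ℕ, K = K1 b d := ⟨_, rfl⟩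
  rw [← hKd] at hK hbig hstep ⊢
  obtain ⟨hS1, hS2⟩ := SK q K hq.one_lt.le (by omega)
  obtain ⟨S, hSd⟩ : ∃ S : ℕ, S = (q - 1) / K := ⟨_, rfl⟩
  rw [← hSd] at hS1 hS2
  have hKR : K ^ R ≤ K ^ R0 d := Nat.pow_le_pow_right (by omega) hR
  have hKR1 : 1 ≤ K ^ R := Nat.one_le_pow _ _ (by omega)
  have hbig2 : 2 * K ^ R ≤ S := by
    have h1 : 4 * K ^ R0 d * K ≤ (S + 1) * K := by
      calc 4 * K ^ R0 d * K = 4 * K ^ (R0 d + 1) := by rw [pow_succ]; ring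
        _ ≤ q := hbig
        _ ≤ _ := hS2
    have h2 : 4 * K ^ R0 d ≤ S + 1 := le_of_mul_le_mul_right h1 (by omega)
    omega
  have hSq : (S : ℤ) < q := by
    have : S < q := lt_of_le_of_lt (Nat.le_mul_of_pos_right S (by omega)) hS1
    exact_mod_cast this
  have hβ : (fun j : Fin (R + 1) => (b : ℤ) ^ (q * a j / m)) 0 = 1 := by
    simp [hr.a0]
  obtain ⟨s, hs0, hsd, hsb⟩ := ph2 R q S K hq.one_lt.le (by omega)
    (fun j => (b : ℤ) ^ (q * a j / m)) hβ hS2 hbig2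
    (fun s hs hsd hsb h0 => hs (s_zero hsd (by rw [h0]; exact dvd_zero _)
      fun j => (hsb j).trans_lt hSq)) (by
      intro s s' hsd hsb hsd' hsb' j
      have e1 := hstep s hsd S hsb hS1
      have e2 := hstep s' hsd' S hsb' hS1
      obtain ⟨i, hi⟩ := hr.act j
      have heq : ∑ j, x ^ (q * a j % m) * aeval x (C (s' 0 * s j) * expand ℤ q (v i j)) =
          ∑ j, x ^ (q * a j % m) * aeval x (C (s 0 * s' j) * expand ℤ q (v i j)) := by
        have f1 : ∑ j, x ^ (q * a j % m) * aeval x (C (s' 0 * s j) * expand ℤ q (v i j)) =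
            (s' 0 : F) * ∑ j, (s j : F) * (x ^ (q * a j % m) * aeval (x ^ q) (v i j)) := by
          rw [Finset.mul_sum]
          refine Finset.sum_congr rfl fun j _ => ?_
          rw [ae_ex]; push_cast; ring
        have f2 : ∑ j, x ^ (q * a j % m) * aeval x (C (s 0 * s' j) * expand ℤ q (v i j)) =
            (s 0 : F) * ∑ j, (s' j : F) * (x ^ (q * a j % m) * aeval (x ^ q) (v i j)) := by
          rw [Finset.mul_sum]
          refine Finset.sum_congr rfl fun j _ => ?_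
          rw [ae_ex]; push_cast; ring
        rw [f1, f2, ← e1 i, ← e2 i]
        ring
      have hu := h.sep_unique (fun j => q * a j % m) (q * ℓ) hsep hwrap
        (fun j => C (s' 0 * s j) * expand ℤ q (v i j)) (fun j => C (s 0 * s' j) * expand ℤ q (v i j))
        (fun j => deg_ex hq.pos _ (hr.deg _ _) _) (fun j => deg_ex hq.pos _ (hr.deg _ _) _) heq
      have hj := congrFun hu j
      have hne : expand ℤ q (v i j) ≠ 0 := by rwa [Ne, expand_eq_zero hq.pos]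
      exact C_injective (mul_right_cancel₀ hne hj))
  have hsq : ∀ j, |s j| ≤ 4 * (K : ℤ) ^ R0 d := by
    intro j
    refine (hsb j).trans ?_
    have : (4 * K ^ R : ℕ) ≤ 4 * K ^ R0 d := Nat.mul_le_mul_left _ hKR
    exact_mod_cast this
  have hlast : 4 * K ^ R0 d < q := by
    have h1 : 4 * K ^ R0 d * 2 ≤ 4 * K ^ (R0 d + 1) := by
      rw [pow_succ, ← mul_assoc]
      exact Nat.mul_le_mul_left _ hK
    have h2 : 1 ≤ K ^ R0 d := Nat.one_le_pow _ _ (by omega)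
    omega
  refine ⟨s, hsd, fun h0 => hs0 (s_zero hsd h0 fun j => (hsq j).trans_lt ?_), hsq⟩
  exact_mod_cast hlast

end Pool.Agent.H72.BD
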